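import Pool.Agent.Lib.MP_28fba0_gt.UV.Defs

/-!
# UV-AMGM: `det P ≤ (tr P / n)^n` for positive semidefinite real matrices
-/

open Matrix

namespace Pool.UVF

variable {ι : Type*} [Fintype ι] [DecidableEq ι]

theorem det_le_trace_pow [Nonempty ι] (P : Matrix ι ι ℝ) (hP : P.PosSemidef) :
    P.det ≤ (P.trace / (Fintype.card ι : ℝ)) ^ (Fintype.card ι) := by
  have hH := hP.isHermitian
  have hd : P.det = ∏ i, hH.eigenvalues i := by
    have := hH.det_eq_prod_eigenvalues
    simpa using this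
  have ht : P.trace = ∑ i, hH.eigenvalues i := by
    have := hH.trace_eq_sum_eigenvalues
    simpa using this
  have hn : (0 : ℝ) < (Fintype.card ι : ℝ) := by
    exact_mod_cast Fintype.card_pos
  have hz : ∀ i ∈ Finset.univ, 0 ≤ hH.eigenvalues i := fun i _ => hP.eigenvalues_nonneg i
  have key := Real.geom_mean_le_arith_mean (Finset.univ : Finset ι) (fun _ => (1 : ℝ))
    (fun i => hH.eigenvalues i) (fun i _ => zero_le_one) (by simpa using hn) hz
  simp only [Finset.sum_const, Finset.card_univ, nsmul_eq_mul, mul_one, Real.rpow_one,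
    one_mul] at key
  have h0 : 0 ≤ ∏ i, hH.eigenvalues i := Finset.prod_nonneg hz
  rw [hd, ht]
  have h1 : ((∏ i, hH.eigenvalues i) ^ ((Fintype.card ι : ℝ)⁻¹)) ^ (Fintype.card ι) ≤
      ((∑ i, hH.eigenvalues i) / (Fintype.card ι : ℝ)) ^ (Fintype.card ι) :=
    pow_le_pow_left₀ (Real.rpow_nonneg h0 _) key _
  rwa [Real.rpow_inv_natCast_pow h0 (Fintype.card_pos.ne')] at h1

end Pool.UVF
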