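import Pool.Agent.Lib.MP_28fba0_gt.UV.GBasic

/-!
# UV-Blocks: the block form in an adapted orthonormal basis `(x, v, e_1, …, e_N)`

`a = [[R, 0], [C, B]]` with `R = [[0,-1],[1,0]]`, `C` the `N × 2` matrix with columns `0` and `α`.
Everything is a computation with `Matrix.fromBlocks`
(`fromBlocks_multiply`, `fromBlocks_transpose`, `det_fromBlocks_zero₁₂`, `fromBlocks_add`,
`fromBlocks_smul`, `fromBlocks_one`, `Matrix.trace_fromBlocks`, inverse of a block diagonal matrix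
via `Matrix.inv_eq_right_inv`).
* `det (c + s a) = det [[c, -s],[s, c]] · det (c + s B) = (c² + s²) det (c + s B)`.
* `Gm (fromBlocks 0 0 0 B) = fromBlocks 1 0 0 (Gm B)`.
* `det (1 + Aᵀ A) = det (1 + A Aᵀ)` (`Matrix.det_one_add_mul_comm`), and
  `A Aᵀ = fromBlocks 0 0 0 (C Cᵀ + B Bᵀ)`, `C Cᵀ = α αᵀ`.
-/

open Matrix

namespace Pool.UVF

variable {ι : Type*} [Fintype ι] [DecidableEq ι]

/-- the rotation block -/
def Rm : Matrix (Fin 2) (Fin 2) ℝ := !![0, -1; 1, 0]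

/-- the columns `0` and `α` -/
def Cm (α : ι → ℝ) : Matrix ι (Fin 2) ℝ := Matrix.of fun i j => if j = 1 then α i else 0

private theorem blocks_trace (A : Matrix (Fin 2) (Fin 2) ℝ) (B : Matrix ι ι ℝ) :
    (fromBlocks A 0 0 B).trace = A.trace + B.trace := by
  simp [Matrix.trace, Fintype.sum_sum_type]

private theorem blocks_Gm (B : Matrix ι ι ℝ) :
    Gm (fromBlocks (0 : Matrix (Fin 2) (Fin 2) ℝ) 0 0 B) = fromBlocks 1 0 0 (Gm B) := by
  unfold Gm
  rw [fromBlocks_transpose, fromBlocks_multiply, ← fromBlocks_one, fromBlocks_add]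
  simp

private theorem blocks_inv (B : Matrix ι ι ℝ) :
    (Gm (fromBlocks (0 : Matrix (Fin 2) (Fin 2) ℝ) 0 0 B))⁻¹ = fromBlocks 1 0 0 (Gm B)⁻¹ := by
  rw [blocks_Gm]
  apply Matrix.inv_eq_right_inv
  have hu : IsUnit (Gm B).det := by
    have := one_le_det_Gm B
    exact isUnit_iff_ne_zero.2 (by linarith)
  rw [fromBlocks_multiply, Matrix.mul_nonsing_inv _ hu]
  simp

theorem det_smul_block (B : Matrix ι ι ℝ) (α : ι → ℝ) (c s : ℝ) :
    (c • (1 : Matrix (Fin 2 ⊕ ι) (Fin 2 ⊕ ι) ℝ) + s • fromBlocks Rm 0 (Cm α) B).det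
      = (c ^ 2 + s ^ 2) * (c • (1 : Matrix ι ι ℝ) + s • B).det := by
  rw [← fromBlocks_one, fromBlocks_smul, fromBlocks_smul, fromBlocks_add]
  simp only [smul_zero, add_zero, zero_add]
  rw [det_fromBlocks_zero₁₂]
  congr 1
  rw [Matrix.det_fin_two]
  simp [Rm]
  ring

theorem det_block (B : Matrix ι ι ℝ) (α : ι → ℝ) :
    (fromBlocks Rm 0 (Cm α) B).det = B.det := by
  rw [det_fromBlocks_zero₁₂]
  have : (Rm).det = 1 := by
    rw [Matrix.det_fin_two]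
    simp [Rm]
  rw [this, one_mul]

theorem d0_block (B : Matrix ι ι ℝ) :
    d0 (fromBlocks (0 : Matrix (Fin 2) (Fin 2) ℝ) 0 0 B) = d0 B := by
  unfold d0
  rw [blocks_Gm, det_fromBlocks_zero₁₂, Matrix.det_one, one_mul]

theorem tG_block (B : Matrix ι ι ℝ) :
    tG (fromBlocks (0 : Matrix (Fin 2) (Fin 2) ℝ) 0 0 B) = 2 + tG B := by
  unfold tG
  rw [blocks_inv, blocks_trace, Matrix.trace_one]
  norm_num

theorem tB_block (B : Matrix ι ι ℝ) :
    tB (fromBlocks (0 : Matrix (Fin 2) (Fin 2) ℝ) 0 0 B) = tB B := by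
  unfold tB
  rw [blocks_inv, fromBlocks_multiply]
  simp only [Matrix.mul_zero, Matrix.zero_mul, add_zero, zero_add]
  rw [blocks_trace]
  simp

theorem det_gram_block (B : Matrix ι ι ℝ) (α : ι → ℝ) :
    (1 + (fromBlocks (0 : Matrix (Fin 2) (Fin 2) ℝ) 0 (Cm α) B)ᵀ *
      fromBlocks (0 : Matrix (Fin 2) (Fin 2) ℝ) 0 (Cm α) B).det
      = (1 + B * Bᵀ + vecMulVec α α).det := by
  rw [Matrix.det_one_add_mul_comm, fromBlocks_transpose, fromBlocks_multiply, ← fromBlocks_one,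
    fromBlocks_add]
  simp only [Matrix.transpose_zero, Matrix.mul_zero, Matrix.zero_mul, add_zero]
  rw [det_fromBlocks_zero₁₂, Matrix.det_one, one_mul]
  congr 1
  have hC : Cm α * (Cm α)ᵀ = vecMulVec α α := by
    ext i j
    simp [Cm, Matrix.mul_apply, vecMulVec_apply]
  rw [hC, add_assoc, add_comm (vecMulVec α α)]

theorem frob_block (B : Matrix ι ι ℝ) (α : ι → ℝ) (l : ℝ) :
    ∑ p, ∑ q, ((fromBlocks Rm 0 (Cm α) B
        - fromBlocks Rm 0 0 (l • (1 : Matrix ι ι ℝ)) : Matrix (Fin 2 ⊕ ι) (Fin 2 ⊕ ι) ℝ) p q) ^ 2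
      = ∑ i, (α i) ^ 2 + ∑ i, ∑ j, ((B - l • (1 : Matrix ι ι ℝ)) i j) ^ 2 := by
  simp only [Fintype.sum_sum_type, Matrix.sub_apply, fromBlocks_apply₁₁, fromBlocks_apply₁₂,
    fromBlocks_apply₂₁, fromBlocks_apply₂₂, sub_self]
  simp [Cm, Finset.sum_add_distrib]

end Pool.UVF
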