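import Pool.Agent.Lib.MP_28fba0_gt.UV.GBasic

/-!
# UV-ConjB (part of Conj): the adapted basis
-/

open Matrix
open scoped RealInnerProductSpace

namespace Pool.UVF

theorem exists_adapted {m : ℕ} (x v : Eu (2 * m + 2)) (hx : ‖x‖ = 1) (hv : ‖v‖ = 1)
    (hxv : ⟪x, v⟫ = 0) :
    ∃ Q : Matrix (Fin (2 * m + 2)) (Fin 2 ⊕ Fin (2 * m)) ℝ, Qᵀ * Q = 1 ∧ Q * Qᵀ = 1 ∧
      (∀ i, Q i (Sum.inl 0) = x i) ∧ (∀ i, Q i (Sum.inl 1) = v i) := by
  let w : Fin 2 ⊕ Fin (2 * m) → Eu (2 * m + 2) := fun p => if p = Sum.inl 0 then x else v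
  let s : Set (Fin 2 ⊕ Fin (2 * m)) := {Sum.inl 0, Sum.inl 1}
  have hw : Orthonormal ℝ (s.domRestrict w) := by
    constructor
    · rintro ⟨p, hp⟩
      simp only [Set.domRestrict_apply, w]
      split_ifs
      · exact hx
      · exact hv
    · rintro ⟨p, hp⟩ ⟨q, hq⟩ hpq
      simp only [Set.domRestrict_apply, w]
      have hpq' : p ≠ q := fun h => hpq (Subtype.ext h)
      rcases hp with rfl | hp
      · rcases hq with rfl | hq
        · exact absurd rfl hpq'
        · rw [Set.mem_singleton_iff] at hq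
          subst hq
          simpa using hxv
      · rw [Set.mem_singleton_iff] at hp
        subst hp
        rcases hq with rfl | hq
        · rw [real_inner_comm]
          simpa using hxv
        · rw [Set.mem_singleton_iff] at hq
          exact absurd hq.symm hpq'
  have hcard : Module.finrank ℝ (Eu (2 * m + 2)) = Fintype.card (Fin 2 ⊕ Fin (2 * m)) := by
    simp [add_comm]
  obtain ⟨b, hb⟩ := hw.exists_orthonormalBasis_extension_of_card_eq hcard
  have h1 : (Matrix.of fun (i : Fin (2 * m + 2)) (p : Fin 2 ⊕ Fin (2 * m)) => b p i)ᵀ *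
      (Matrix.of fun (i : Fin (2 * m + 2)) (p : Fin 2 ⊕ Fin (2 * m)) => b p i) = 1 := by
    ext p q
    have h := b.inner_eq_ite p q
    rw [Matrix.mul_apply, Matrix.one_apply, ← h, PiLp.inner_apply]
    refine Finset.sum_congr rfl fun i _ => ?_
    simp [mul_comm]
  refine ⟨Matrix.of fun i p => b p i, h1, ?_, ?_, ?_⟩
  · let e : (Fin 2 ⊕ Fin (2 * m)) ≃ Fin (2 * m + 2) := Fintype.equivOfCardEq (by simp [add_comm])
    exact (Matrix.mul_eq_one_comm_of_equiv e).mp h1
  · intro i
    have h := hb (Sum.inl 0) (by simp [s])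
    simp [h, w]
  · intro i
    have h := hb (Sum.inl 1) (by simp [s])
    simp [h, w]

end Pool.UVF
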