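import Pool.Agent.Lib.MP_28fba0_gt.UV.Defs
import Pool.Agent.Lib.MP_28fba0_gt.UV.Conj
import Pool.Agent.Lib.MP_28fba0_gt.UV.Blocks

/-!
# UV-AlgB (part of Alg): algebra of `a₀` and `c₀`

`y, v` orthonormal in `ℝ^d`.  Expand the sums (`Finset.sum_add_distrib`, `Finset.mul_sum`,
`∑ y_i² = 1`, `∑ v_i² = 1`, `∑ y_i v_i = 0`).  With `Π = 1 - y yᵀ - v vᵀ`, `a₀ = l Π + v yᵀ - y vᵀ`,
`c₀ = l Π - y vᵀ`: `a₀ v = -y`, `tr (a₀ c₀) = l² (d-2) - 1`, …
-/

open Matrix Real
open scoped RealInnerProductSpace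

namespace Pool.UVF

variable {d : ℕ} {y v : Eu d}

/-- the determinant of the model Jacobian -/
theorem det_a0 {m : ℕ} {y v : Eu (2 * m + 2)} (hy : ‖y‖ = 1) (hv : ‖v‖ = 1) (hyv : ⟪y, v⟫ = 0)
    (l : ℝ) : (a0 l y v).det = l ^ (2 * m) := by
  obtain ⟨Q, h1, h2, hy0, hv0⟩ := exists_adapted y v hy hv hyv
  have ey : ∀ q, ∑ i, y i * Q i q = if q = Sum.inl 0 then 1 else 0 := by
    intro q
    have h3 := congrFun (congrFun h1 (Sum.inl 0)) q
    rw [Matrix.mul_apply, Matrix.one_apply] at h3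
    simp only [Matrix.transpose_apply, hy0] at h3
    rw [h3]
    simp only [eq_comm]
  have ev : ∀ q, ∑ i, v i * Q i q = if q = Sum.inl 1 then 1 else 0 := by
    intro q
    have h3 := congrFun (congrFun h1 (Sum.inl 1)) q
    rw [Matrix.mul_apply, Matrix.one_apply] at h3
    simp only [Matrix.transpose_apply, hv0] at h3
    rw [h3]
    simp only [eq_comm]
  have e1 : ∀ p q, ∑ i, Q i p * Q i q = if p = q then 1 else 0 := by
    intro p q
    have h3 := congrFun (congrFun h1 p) q
    rw [Matrix.mul_apply, Matrix.one_apply] at h3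
    simpa only [Matrix.transpose_apply] using h3
  have hmul : ∀ j q, (a0 l y v * Q) j q = l * (Q j q - y j * (if q = Sum.inl 0 then 1 else 0) -
      v j * (if q = Sum.inl 1 then 1 else 0)) + v j * (if q = Sum.inl 0 then 1 else 0) -
      y j * (if q = Sum.inl 1 then 1 else 0) := by
    intro j q
    rw [Matrix.mul_apply, ← ey q, ← ev q]
    simp only [a0, Matrix.of_apply]
    have h4 : Q j q = ∑ i, (if j = i then 1 else 0) * Q i q := by
      simp
    conv_rhs => rw [h4]
    simp only [Finset.mul_sum, ← Finset.sum_sub_distrib, ← Finset.sum_add_distrib]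
    refine Finset.sum_congr rfl fun i _ => ?_
    ring
  have hconj : Qᵀ * a0 l y v * Q =
      fromBlocks Rm 0 (Cm 0) (l • (1 : Matrix (Fin (2 * m)) (Fin (2 * m)) ℝ)) := by
    rw [Matrix.mul_assoc]
    ext p q
    rw [Matrix.mul_apply]
    simp only [Matrix.transpose_apply, hmul]
    have h5 : ∑ j, Q j p * (l * (Q j q - y j * (if q = Sum.inl 0 then 1 else 0) -
        v j * (if q = Sum.inl 1 then 1 else 0)) + v j * (if q = Sum.inl 0 then 1 else 0) -
        y j * (if q = Sum.inl 1 then 1 else 0)) =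
        l * ((∑ j, Q j p * Q j q) - (∑ j, y j * Q j p) * (if q = Sum.inl 0 then 1 else 0) -
        (∑ j, v j * Q j p) * (if q = Sum.inl 1 then 1 else 0)) +
        (∑ j, v j * Q j p) * (if q = Sum.inl 0 then 1 else 0) -
        (∑ j, y j * Q j p) * (if q = Sum.inl 1 then 1 else 0) := by
      simp only [Finset.mul_sum, Finset.sum_mul, ← Finset.sum_sub_distrib,
        ← Finset.sum_add_distrib]
      refine Finset.sum_congr rfl fun i _ => ?_
      ring
    rw [h5, e1, ey, ev]
    rcases p with p | p <;> rcases q with q | q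
    · fin_cases p <;> fin_cases q <;> simp [Rm]
    · simp
    · simp [Cm]
    · by_cases hpq : p = q
      · simp [hpq]
      · simp [hpq]
  rw [← det_conj h1 h2, hconj, det_block, Matrix.det_smul, Matrix.det_one, mul_one,
    Fintype.card_fin]

end Pool.UVF
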