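import Pool.Agent.Lib.MP_28fba0_gt.UV.Defs

/-!
# UV-AlgA (part of Alg): algebra of `a₀` and `c₀`

`y, v` orthonormal in `ℝ^d`.  Expand the sums (`Finset.sum_add_distrib`, `Finset.mul_sum`,
`∑ y_i² = 1`, `∑ v_i² = 1`, `∑ y_i v_i = 0`).  With `Π = 1 - y yᵀ - v vᵀ`, `a₀ = l Π + v yᵀ - y vᵀ`,
`c₀ = l Π - y vᵀ`: `a₀ v = -y`, `tr (a₀ c₀) = l² (d-2) - 1`, …
-/

open Matrix Real
open scoped RealInnerProductSpace

namespace Pool.UVF

variable {d : ℕ} {y v : Eu d}

private theorem sum_sq_one (hy : ‖y‖ = 1) : ∑ i, y i * y i = 1 := by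
  have h := EuclideanSpace.real_norm_sq_eq y
  rw [hy] at h
  rw [one_pow] at h
  rw [h]
  exact Finset.sum_congr rfl fun i _ => (sq _).symm

private theorem sum_mul_zero (hyv : ⟪y, v⟫ = 0) : ∑ i, y i * v i = 0 := by
  rw [← hyv, PiLp.inner_apply]
  refine Finset.sum_congr rfl fun i _ => ?_
  simp [mul_comm]

private theorem abs_apply_le (hy : ‖y‖ = 1) (i : Fin d) : |y i| ≤ 1 := by
  have h := PiLp.norm_apply_le y i
  rw [hy] at h
  simpa using h

theorem sum_a0_diag (hy : ‖y‖ = 1) (hv : ‖v‖ = 1) (l : ℝ) :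
    ∑ j, a0 l y v j j = (d - 2 : ℝ) * l := by
  have h1 := sum_sq_one hy
  have h2 := sum_sq_one hv
  have : ∀ j, a0 l y v j j = l - l * (y j * y j) - l * (v j * v j) := by
    intro j
    simp only [a0, Matrix.of_apply, if_true]
    ring
  simp only [this, Finset.sum_sub_distrib, ← Finset.mul_sum, h1, h2, Finset.sum_const,
    Finset.card_univ, Fintype.card_fin, nsmul_eq_mul]
  ring

theorem sum_c0_diag (hy : ‖y‖ = 1) (hv : ‖v‖ = 1) (hyv : ⟪y, v⟫ = 0) (l : ℝ) :
    ∑ j, c0 l y v j j = (d - 2 : ℝ) * l := by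
  have h1 := sum_sq_one hy
  have h2 := sum_sq_one hv
  have h3 := sum_mul_zero hyv
  have : ∀ j, c0 l y v j j = l - l * (y j * y j) - l * (v j * v j) - y j * v j := by
    intro j
    simp only [c0, Matrix.of_apply, if_true]
    ring
  simp only [this, Finset.sum_sub_distrib, ← Finset.mul_sum, h1, h2, h3, Finset.sum_const,
    Finset.card_univ, Fintype.card_fin, nsmul_eq_mul]
  ring

theorem a0_mul_v (hy : ‖y‖ = 1) (hv : ‖v‖ = 1) (hyv : ⟪y, v⟫ = 0) (l : ℝ) (j : Fin d) :
    ∑ i, a0 l y v j i * v i = - y j := by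
  have h2 := sum_sq_one hv
  have h3 := sum_mul_zero hyv
  have : ∀ i, a0 l y v j i * v i = (if j = i then l * v i else 0) - (l * y j) * (y i * v i)
      - (l * v j) * (v i * v i) + v j * (y i * v i) - y j * (v i * v i) := by
    intro i
    simp only [a0, Matrix.of_apply]
    split_ifs <;> ring
  simp only [this, Finset.sum_sub_distrib, Finset.sum_add_distrib, ← Finset.mul_sum, h2, h3,
    Finset.sum_ite_eq, Finset.mem_univ, if_true]
  ring

theorem c0_mul_v (hy : ‖y‖ = 1) (hv : ‖v‖ = 1) (hyv : ⟪y, v⟫ = 0) (l : ℝ) (i : Fin d) :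
    ∑ j, c0 l y v i j * v j = - y i := by
  have h2 := sum_sq_one hv
  have h3 := sum_mul_zero hyv
  have : ∀ j, c0 l y v i j * v j = (if i = j then l * v j else 0) - (l * y i) * (y j * v j)
      - (l * v i) * (v j * v j) - y i * (v j * v j) := by
    intro j
    simp only [c0, Matrix.of_apply]
    split_ifs <;> ring
  simp only [this, Finset.sum_sub_distrib, ← Finset.mul_sum, h2, h3,
    Finset.sum_ite_eq, Finset.mem_univ, if_true]
  ring

theorem c0_mul_y (hy : ‖y‖ = 1) (hv : ‖v‖ = 1) (hyv : ⟪y, v⟫ = 0) (l : ℝ) (i : Fin d) :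
    ∑ j, c0 l y v i j * y j = 0 := by
  have h1 := sum_sq_one hy
  have h3 := sum_mul_zero hyv
  have : ∀ j, c0 l y v i j * y j = (if i = j then l * y j else 0) - (l * y i) * (y j * y j)
      - (l * v i) * (y j * v j) - y i * (y j * v j) := by
    intro j
    simp only [c0, Matrix.of_apply]
    split_ifs <;> ring
  simp only [this, Finset.sum_sub_distrib, ← Finset.mul_sum, h1, h3,
    Finset.sum_ite_eq, Finset.mem_univ, if_true]
  ring

theorem trace_a0_c0 (hy : ‖y‖ = 1) (hv : ‖v‖ = 1) (hyv : ⟪y, v⟫ = 0) (l : ℝ) :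
    ∑ i, ∑ j, a0 l y v j i * c0 l y v i j = (d - 2 : ℝ) * l ^ 2 - 1 := by
  have h1 := sum_sq_one hy
  have h2 := sum_sq_one hv
  have h3 := sum_mul_zero hyv
  -- inner sum
  have hin : ∀ i, ∑ j, a0 l y v j i * c0 l y v i j
      = l * l - l * l * (y i * y i) - l * l * (v i * v i) - (y i * y i) := by
    intro i
    have : ∀ j, a0 l y v j i * c0 l y v i j
        = l * (if i = j then c0 l y v i j else 0) - (l * y i) * (c0 l y v i j * y j)
          - (l * v i) * (c0 l y v i j * v j) + y i * (c0 l y v i j * v j)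
          - v i * (c0 l y v i j * y j) := by
      intro j
      simp only [a0, Matrix.of_apply]
      by_cases hij : j = i
      · subst hij
        simp only [if_true]
        ring
      · rw [if_neg hij, if_neg (fun h => hij h.symm)]
        ring
    simp only [this, Finset.sum_sub_distrib, Finset.sum_add_distrib, ← Finset.mul_sum,
      c0_mul_v hy hv hyv, c0_mul_y hy hv hyv, Finset.sum_ite_eq, Finset.mem_univ, if_true]
    simp only [c0, Matrix.of_apply, if_true]
    ring
  simp only [hin, Finset.sum_sub_distrib, ← Finset.mul_sum, h1, h2, Finset.sum_const,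
    Finset.card_univ, Fintype.card_fin, nsmul_eq_mul]
  ring

/-- `a₀ - v yᵀ = c₀` -/
theorem a0_sub (l : ℝ) (j i : Fin d) : a0 l y v j i - v j * y i = c0 l y v j i := by
  simp only [a0, c0, Matrix.of_apply]
  ring

theorem abs_a0_le {l : ℝ} (hy : ‖y‖ = 1) (hv : ‖v‖ = 1) (j i : Fin d) :
    |a0 l y v j i| ≤ 3 * |l| + 2 := by
  have hyj := abs_apply_le hy j
  have hyi := abs_apply_le hy i
  have hvj := abs_apply_le hv j
  have hvi := abs_apply_le hv i
  have e1 : |y j * y i| ≤ 1 := by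
    rw [abs_mul]; exact mul_le_one₀ hyj (abs_nonneg _) hyi
  have e2 : |v j * v i| ≤ 1 := by
    rw [abs_mul]; exact mul_le_one₀ hvj (abs_nonneg _) hvi
  have e3 : |v j * y i| ≤ 1 := by
    rw [abs_mul]; exact mul_le_one₀ hvj (abs_nonneg _) hyi
  have e4 : |y j * v i| ≤ 1 := by
    rw [abs_mul]; exact mul_le_one₀ hyj (abs_nonneg _) hvi
  have e5 : |(if j = i then (1:ℝ) else 0)| ≤ 1 := by
    split_ifs <;> simp
  have e6 : |(if j = i then (1:ℝ) else 0) - y j * y i - v j * v i| ≤ 3 := by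
    rw [abs_le] at *
    constructor <;> linarith [e1.1, e1.2, e2.1, e2.2, e5.1, e5.2]
  have e7 : |l * ((if j = i then (1:ℝ) else 0) - y j * y i - v j * v i)| ≤ 3 * |l| := by
    rw [abs_mul, mul_comm]
    exact mul_le_mul_of_nonneg_right e6 (abs_nonneg _)
  simp only [a0, Matrix.of_apply]
  calc _ ≤ |l * ((if j = i then (1:ℝ) else 0) - y j * y i - v j * v i) + v j * y i|
        + |y j * v i| := abs_sub _ _
    _ ≤ |l * ((if j = i then (1:ℝ) else 0) - y j * y i - v j * v i)| + |v j * y i|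
        + |y j * v i| := by gcongr; exact abs_add_le _ _
    _ ≤ 3 * |l| + 1 + 1 := by gcongr
    _ = _ := by ring

end Pool.UVF
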