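import Pool.Agent.Lib.MP_28fba0_gt.UV.HomInt

/-!
# UV-IBPA (part of IBP): integration by parts for one field

* `∫_B U_j ∂_i φ = - ∫_B ∂_i U_j φ` for a test function `φ` in the punctured ball: the function
  `x ↦ U x j * φ x` is `C¹` on `ℝ^d` with compact support (it vanishes near `0` and near the unit
  sphere), so the integral of its derivative over `ℝ^d` is `0`
  (`integral_mul_fderiv_eq_neg_fderiv_mul_of_integrable` or
  `MeasureTheory.integral_fderiv...`; note that `φ` vanishes outside the ball so that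
  `∫ … ∂(mB d) = ∫ … ∂volume`).
* for a bounded measurable `0`-homogeneous `l`: `∫_B l(x) Dφ(x)x dx = - d ∫_B l φ`:
  `∫ l(x) φ(s x) dx = s^{-d} ∫ l φ` for `s > 0` (`Measure.integral_comp_smul`, whole space); the
  derivative at `s = 1` of the left side is `∫ l(x) Dφ(x) x dx`
  (`hasDerivAt_integral_of_dominated_loc_of_deriv_le`; for `s` near `1` the function `φ(s ·)` has
  support in a fixed compact set, its derivative is bounded).
* test functions: `pd i φ` is continuous, bounded, and supported in `tsupport φ`; there is `r₀ > 0`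
  with `φ = 0` and `pd i φ = 0` on `{‖x‖ < r₀}`.
-/

open Matrix Real Set MeasureTheory
open scoped ContDiff

namespace Pool.UVF

variable {d : ℕ}

theorem IsTest.bdd {φ : Eu d → ℝ} (hφ : IsTest φ) :
    ∃ C : ℝ, 0 < C ∧ (∀ x, |φ x| ≤ C) ∧ (∀ i x, |pd i φ x| ≤ C) ∧ ∀ x, |fderiv ℝ φ x x| ≤ C := by
  obtain ⟨C₁, h₁⟩ := hφ.smooth.continuous.bounded_above_of_compact_support hφ.cpt
  have hf : Continuous (fderiv ℝ φ) := hφ.smooth.continuous_fderiv (by simp)
  obtain ⟨C₂, h₂⟩ := hf.bounded_above_of_compact_support (hφ.cpt.fderiv ℝ)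
  have h3 : ∀ x, |fderiv ℝ φ x x| ≤ max C₂ 0 := by
    intro x
    by_cases hx : x ∈ tsupport φ
    · have hx1 : ‖x‖ < 1 := by
        have := (hφ.supp hx).1
        simpa [Bd] using this
      have h4 := (fderiv ℝ φ x).le_opNorm x
      rw [Real.norm_eq_abs] at h4
      calc |fderiv ℝ φ x x| ≤ ‖fderiv ℝ φ x‖ * ‖x‖ := h4
        _ ≤ max C₂ 0 * 1 := by
          apply mul_le_mul ((h₂ x).trans (le_max_left _ _)) hx1.le (norm_nonneg _)
            (le_max_right _ _)
        _ = max C₂ 0 := mul_one _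
    · have h5 : fderiv ℝ φ x = 0 := by
        by_contra h6
        exact hx ((support_fderiv_subset ℝ) (Function.mem_support.2 h6))
      rw [h5]
      simp
  refine ⟨max C₁ (max C₂ 0) + 1, ?_, fun x => ?_, fun i x => ?_, fun x => ?_⟩
  · have : (0 : ℝ) ≤ max C₂ 0 := le_max_right _ _
    have := this.trans (le_max_right C₁ _)
    linarith
  · have := (h₁ x).trans (le_max_left C₁ (max C₂ 0))
    rw [Real.norm_eq_abs] at this
    linarith
  · have h4 := (fderiv ℝ φ x).le_opNorm (EuclideanSpace.single i (1 : ℝ))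
    rw [Real.norm_eq_abs] at h4
    have h5 : ‖(EuclideanSpace.single i (1 : ℝ) : Eu d)‖ = 1 := by simp
    rw [h5, mul_one] at h4
    have h6 := (h₂ x).trans ((le_max_left C₂ 0).trans (le_max_right C₁ _))
    have h7 : |pd i φ x| ≤ ‖fderiv ℝ φ x‖ := h4
    linarith
  · have := (h3 x).trans (le_max_right C₁ _)
    linarith

theorem IsTest.zero_near {φ : Eu d → ℝ} (hφ : IsTest φ) :
    ∃ r₀ : ℝ, 0 < r₀ ∧ r₀ < 1 ∧ ∀ x, (‖x‖ < r₀ ∨ 1 - r₀ < ‖x‖) → φ x = 0 ∧ (∀ i, pd i φ x = 0)
      ∧ fderiv ℝ φ x = 0 := by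
  have hK : IsCompact (tsupport φ) := hφ.cpt
  -- outside of the support everything vanishes
  have hout : ∀ x, x ∉ tsupport φ → φ x = 0 ∧ (∀ i, pd i φ x = 0) ∧ fderiv ℝ φ x = 0 := by
    intro x hx
    have h5 : fderiv ℝ φ x = 0 := by
      by_contra h6
      exact hx ((support_fderiv_subset ℝ) (Function.mem_support.2 h6))
    refine ⟨image_eq_zero_of_notMem_tsupport hx, fun i => ?_, h5⟩
    simp [pd, h5]
  by_cases hne : (tsupport φ).Nonempty
  · obtain ⟨a, ha, hamin⟩ := hK.exists_isMinOn hne (continuous_norm.continuousOn)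
    obtain ⟨b, hb, hbmax⟩ := hK.exists_isMaxOn hne (continuous_norm.continuousOn)
    have ha0 : 0 < ‖a‖ := by
      have := (hφ.supp ha).2
      exact norm_pos_iff.2 this
    have hb1 : ‖b‖ < 1 := by
      have := (hφ.supp hb).1
      simpa [Bd] using this
    have hab : ‖a‖ ≤ ‖b‖ := hamin hb
    refine ⟨min ‖a‖ (1 - ‖b‖), lt_min ha0 (by linarith), ?_, fun x hx => hout x fun hxK => ?_⟩
    · exact (min_le_left _ _).trans_lt (by linarith)
    · have h1 : ‖a‖ ≤ ‖x‖ := hamin hxK
      have h2 : ‖x‖ ≤ ‖b‖ := hbmax hxK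
      rcases hx with hx | hx
      · have := hx.trans_le (min_le_left _ _)
        linarith
      · have := min_le_right ‖a‖ (1 - ‖b‖)
        linarith
  · refine ⟨1 / 2, by norm_num, by norm_num, fun x _ => hout x fun hxK => hne ⟨x, hxK⟩⟩

theorem IsTest.continuous_pd {φ : Eu d → ℝ} (hφ : IsTest φ) (i : Fin d) :
    Continuous (pd i φ) := by
  have hf : Continuous (fderiv ℝ φ) := hφ.smooth.continuous_fderiv (by simp)
  exact hf.clm_apply continuous_const

/-- products of locally integrable functions with bounded functions vanishing near `0` -/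
theorem LocL1.integrable_mul {g ψ : Eu d → ℝ} (hg : LocL1 g) (hψ : AEStronglyMeasurable ψ (mB d))
    {C r₀ : ℝ} (hC : ∀ x, |ψ x| ≤ C) (hr : 0 < r₀) (h0 : ∀ x, ‖x‖ < r₀ → ψ x = 0) :
    Integrable (fun x => g x * ψ x) (mB d) := by
  have hS : MeasurableSet {x : Eu d | r₀ ≤ ‖x‖} := measurableSet_le measurable_const measurable_norm
  have h1 : IntegrableOn (fun x => g x * ψ x) {x | r₀ ≤ ‖x‖} (mB d) := by
    have := (hg r₀ hr).bdd_mul (c := C) (hψ.mono_measure Measure.restrict_le_self)
      (Filter.Eventually.of_forall fun x => by rw [Real.norm_eq_abs]; exact hC x)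
    refine this.congr (Filter.Eventually.of_forall fun x => ?_)
    simp only [mul_comm]
  have h2 : (fun x => g x * ψ x) = {x | r₀ ≤ ‖x‖}.indicator (fun x => g x * ψ x) := by
    funext x
    by_cases hx : r₀ ≤ ‖x‖
    · rw [indicator_of_mem (show x ∈ {x : Eu d | r₀ ≤ ‖x‖} from hx)]
    · rw [indicator_of_notMem (show x ∉ {x : Eu d | r₀ ≤ ‖x‖} from hx), h0 x (not_le.1 hx),
        mul_zero]
  rw [h2]
  exact h1.integrable_indicator hS

end Pool.UVF
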