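import Pool.Agent.Lib.MP_28fba0_gt.UV.HomInt
import Pool.Agent.Lib.MP_28fba0_gt.UV.IBPA

/-!
# UV-IBPB (part of IBP): integration by parts for one field

`∫_B U_j ∂_i φ = - ∫_B ∂_i U_j φ` for a test function `φ` in the punctured ball
(`integral_mul_fderiv_eq_neg_fderiv_mul_of_integrable`; `φ` vanishes outside the ball so that
`∫ … ∂(mB d) = ∫ … ∂volume`).
-/

open Matrix Real Set MeasureTheory
open scoped ContDiff

namespace Pool.UVF

variable {d : ℕ}

theorem HomField.ibp {U : Eu d → Eu d} (hU : HomField U) {φ : Eu d → ℝ} (hφ : IsTest φ)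
    (j i : Fin d) :
    ∫ x, U x j * pd i φ x ∂(mB d) = - ∫ x, jac U x j i * φ x ∂(mB d) := by
  have hsupp : ∀ x, x ∈ tsupport φ → x ∈ Bd d ∧ x ≠ 0 := fun x hx => by
    have := hφ.supp hx
    exact ⟨this.1, by simpa using this.2⟩
  have hφ0 : ∀ x, x ∉ tsupport φ → φ x = 0 := fun x hx => image_eq_zero_of_notMem_tsupport hx
  have hdφ0 : ∀ x, x ∉ tsupport φ → fderiv ℝ φ x = 0 := fun x hx => by
    by_contra hne
    exact hx (support_fderiv_subset ℝ hne)
  have hdU : ∀ x : Eu d, x ≠ 0 → DifferentiableAt ℝ U x := fun x hx =>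
    (hU.smooth.contDiffAt (isOpen_compl_singleton.mem_nhds hx)).differentiableAt one_ne_zero
  have hdUj : ∀ x : Eu d, x ≠ 0 → HasFDerivAt (fun y => U y j)
      ((EuclideanSpace.proj j : Eu d →L[ℝ] ℝ).comp (fderiv ℝ U x)) x := fun x hx =>
    (EuclideanSpace.proj j : Eu d →L[ℝ] ℝ).hasFDerivAt.comp x (hdU x hx).hasFDerivAt
  have hfd : ∀ x : Eu d, x ≠ 0 →
      fderiv ℝ (fun y => U y j) x (EuclideanSpace.single i (1 : ℝ)) = jac U x j i := by
    intro x hx
    rw [(hdUj x hx).fderiv]
    simp [jac]
  have hcU : Continuous (fun x => U x j) :=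
    (EuclideanSpace.proj j : Eu d →L[ℝ] ℝ).continuous.comp hU.continuous
  have hcφ : Continuous φ := hφ.smooth.continuous
  have hcpd : Continuous (pd i φ) := hφ.continuous_pd i
  have hspd : HasCompactSupport (pd i φ) := by
    refine HasCompactSupport.intro hφ.cpt fun x hx => ?_
    simp [pd, hdφ0 x hx]
  -- continuity of the product `jac * φ`
  have hcJ : Continuous (fun x => jac U x j i * φ x) := by
    rw [continuous_iff_continuousAt]
    intro x
    by_cases hx : x = 0
    · have hx' : x ∉ tsupport φ := fun h => (hsupp x h).2 hx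
      have hev : (fun x => jac U x j i * φ x) =ᶠ[nhds x] fun _ => 0 := by
        filter_upwards [(isClosed_tsupport φ).isOpen_compl.mem_nhds hx'] with y hy
        rw [hφ0 y hy, mul_zero]
      exact continuousAt_const.congr hev.symm
    · have h1 : ContinuousAt (jac U) x :=
        hU.jac_continuousOn.continuousAt (isOpen_compl_singleton.mem_nhds hx)
      have h2 : ContinuousAt (fun y => jac U y j i) x := by
        have h3 : Continuous fun M : Matrix (Fin d) (Fin d) ℝ => M j i :=
          continuous_id.matrix_elem j i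
        exact h3.continuousAt.comp h1
      exact h2.mul hcφ.continuousAt
  have hsJ : HasCompactSupport (fun x => jac U x j i * φ x) :=
    hφ.cpt.mul_left
  have e1 : ∫ x, U x j * pd i φ x ∂(mB d) = ∫ x, U x j * pd i φ x := by
    unfold mB
    apply setIntegral_eq_integral_of_forall_compl_eq_zero
    intro x hx
    have : x ∉ tsupport φ := fun h => hx (hsupp x h).1
    simp [pd, hdφ0 x this]
  have e2 : ∫ x, jac U x j i * φ x ∂(mB d) = ∫ x, jac U x j i * φ x := by
    unfold mB
    apply setIntegral_eq_integral_of_forall_compl_eq_zero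
    intro x hx
    have : x ∉ tsupport φ := fun h => hx (hsupp x h).1
    simp [hφ0 x this]
  have e3 : (fun x => fderiv ℝ (fun y => U y j) x (EuclideanSpace.single i (1 : ℝ)) * φ x)
      = fun x => jac U x j i * φ x := by
    funext x
    by_cases hx : x ∈ tsupport φ
    · rw [hfd x (hsupp x hx).2]
    · rw [hφ0 x hx, mul_zero, mul_zero]
  rw [e1, e2, ← e3]
  unfold pd
  apply integral_mul_fderiv_eq_neg_fderiv_mul_of_integrable
  · rw [e3]
    exact hcJ.integrable_of_hasCompactSupport hsJ
  · exact (hcU.mul hcpd).integrable_of_hasCompactSupport hspd.mul_left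
  · exact (hcU.mul hcφ).integrable_of_hasCompactSupport hφ.cpt.mul_left
  · intro x hx
    exact (hdUj x (hsupp x hx).2).differentiableAt
  · intro x _
    exact (hφ.smooth.differentiable (by simp)).differentiableAt

end Pool.UVF
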