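import Pool.Agent.Lib.MP_28fba0_gt.UV.HomInt
import Pool.Agent.Lib.MP_28fba0_gt.UV.IBPA

/-!
# UV-IBPC (part of IBP): integration by parts for one field

* `∫_B U_j ∂_i φ = - ∫_B ∂_i U_j φ` for a test function `φ` in the punctured ball: the function
  `x ↦ U x j * φ x` is `C¹` on `ℝ^d` with compact support (it vanishes near `0` and near the unit
  sphere), so the integral of its derivative over `ℝ^d` is `0`
  (`integral_mul_fderiv_eq_neg_fderiv_mul_of_integrable` or
  `MeasureTheory.integral_fderiv...`; note that `φ` vanishes outside the ball so that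
  `∫ … ∂(mB d) = ∫ … ∂volume`).
* for a bounded measurable `0`-homogeneous `l`: `∫_B l(x) Dφ(x)x dx = - d ∫_B l φ`:
  `∫ l(x) φ(s x) dx = s^{-d} ∫ l φ` for `s > 0` (`Measure.integral_comp_smul`, whole space); the
  derivative at `s = 1` of the left side is `∫ l(x) Dφ(x) x dx`
  (`hasDerivAt_integral_of_dominated_loc_of_deriv_le`; for `s` near `1` the function `φ(s ·)` has
  support in a fixed compact set, its derivative is bounded).
* test functions: `pd i φ` is continuous, bounded, and supported in `tsupport φ`; there is `r₀ > 0`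
  with `φ = 0` and `pd i φ = 0` on `{‖x‖ < r₀}`.
-/

open Matrix Real Set MeasureTheory
open scoped ContDiff

namespace Pool.UVF

variable {d : ℕ}

theorem radial_ibp {l : Eu d → ℝ} (hl : AEStronglyMeasurable l (volume : Measure (Eu d))) {C : ℝ}
    (hC : ∀ x, x ≠ 0 → |l x| ≤ C) (hd : 1 ≤ d)
    (hh : ∀ s : ℝ, 0 < s → ∀ x, x ≠ 0 → l (s • x) = l x) {φ : Eu d → ℝ} (hφ : IsTest φ) :
    ∫ x, l x * fderiv ℝ φ x x ∂(mB d) = - (d : ℝ) * ∫ x, l x * φ x ∂(mB d) := by
  have hnonempty : Nonempty (Fin d) := ⟨⟨0, hd⟩⟩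
  have hnt : Nontrivial (Eu d) := inferInstance
  obtain ⟨K, hK, hb1, -, hb3⟩ := hφ.bdd
  obtain ⟨r, hr0, hr1, hz⟩ := hφ.zero_near
  have hφc : Continuous φ := hφ.smooth.continuous
  have hφd : Differentiable ℝ φ := hφ.smooth.differentiable (by simp)
  have hfd : Continuous (fun x : Eu d => fderiv ℝ φ x x) :=
    (hφ.smooth.continuous_fderiv (by simp)).clm_apply continuous_id
  have hne : ∀ᵐ x : Eu d ∂volume, x ≠ 0 := by
    have h0 : (volume : Measure (Eu d)) {0} = 0 := measure_singleton 0
    exact compl_mem_ae_iff.mpr h0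
  have hout : ∀ x : Eu d, 1 ≤ ‖x‖ → φ x = 0 ∧ fderiv ℝ φ x = 0 := by
    intro x hx
    have := hz x (Or.inr (by linarith))
    exact ⟨this.1, this.2.2⟩
  have hBd : ∀ x : Eu d, x ∉ Bd d → 1 ≤ ‖x‖ := by
    intro x hx
    unfold Bd at hx
    rw [Metric.mem_ball, dist_zero_right] at hx
    exact not_lt.mp hx
  have e1 : ∫ x, l x * fderiv ℝ φ x x ∂(mB d) = ∫ x, l x * fderiv ℝ φ x x ∂volume := by
    unfold mB
    refine setIntegral_eq_integral_of_forall_compl_eq_zero fun x hx => ?_
    rw [(hout x (hBd x hx)).2]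
    simp
  have e2 : ∫ x, l x * φ x ∂(mB d) = ∫ x, l x * φ x ∂volume := by
    unfold mB
    refine setIntegral_eq_integral_of_forall_compl_eq_zero fun x hx => ?_
    rw [(hout x (hBd x hx)).1, mul_zero]
  rw [e1, e2]
  set I : ℝ := ∫ x, l x * φ x ∂volume with hI
  -- first computation of the derivative
  have hF : ∀ s : ℝ, 0 < s → ∫ x, l x * φ (s • x) ∂volume = (s ^ d)⁻¹ * I := by
    intro s hs
    have h1 : ∫ x, l x * φ (s • x) ∂volume = ∫ x, (fun y => l y * φ y) (s • x) ∂volume := by
      refine integral_congr_ae ?_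
      filter_upwards [hne] with x hx
      rw [hh s hs x hx]
    have h2 := Measure.integral_comp_smul (volume : Measure (Eu d)) (fun y => l y * φ y) s
    rw [h1, h2]
    simp only [finrank_euclideanSpace, Fintype.card_fin, smul_eq_mul]
    rw [abs_of_pos (by positivity)]
  have hd1 : HasDerivAt (fun s : ℝ => ∫ x, l x * φ (s • x) ∂volume) (-(d : ℝ) * I) 1 := by
    have h1 : HasDerivAt (fun s : ℝ => (s ^ d)⁻¹ * I) (-(d : ℝ) * I) 1 := by
      have h2 := ((hasDerivAt_pow d (1 : ℝ)).fun_inv (by simp)).mul_const I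
      simpa using h2
    refine h1.congr_of_eventuallyEq ?_
    filter_upwards [lt_mem_nhds (show (0 : ℝ) < 1 by norm_num)] with s hs
    exact hF s hs
  -- second computation
  have hd2 : HasDerivAt (fun s : ℝ => ∫ x, l x * φ (s • x) ∂volume)
      (∫ x, l x * fderiv ℝ φ x x ∂volume) 1 := by
    have hs : Set.Ioo (1 / 2 : ℝ) (3 / 2) ∈ nhds (1 : ℝ) :=
      Ioo_mem_nhds (by norm_num) (by norm_num)
    have hbi : Integrable ((Metric.ball (0 : Eu d) 2).indicator fun _ => C * (2 * K))
        (volume : Measure (Eu d)) := by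
      rw [integrable_indicator_iff measurableSet_ball]
      exact integrableOn_const (by exact (measure_ball_lt_top).ne)
    have hmeas : ∀ s : ℝ, AEStronglyMeasurable (fun x => l x * φ (s • x))
        (volume : Measure (Eu d)) := by
      intro s
      exact hl.mul (hφc.comp (continuous_const_smul s)).aestronglyMeasurable
    have hC0 : 0 ≤ C := by
      obtain ⟨x, hx⟩ := exists_ne (0 : Eu d)
      exact (abs_nonneg _).trans (hC x hx)
    have hint : Integrable (fun x => l x * φ ((1 : ℝ) • x)) (volume : Measure (Eu d)) := by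
      have hbi' : Integrable ((Metric.ball (0 : Eu d) 2).indicator fun _ => C * K)
          (volume : Measure (Eu d)) := by
        rw [integrable_indicator_iff measurableSet_ball]
        exact integrableOn_const (by exact (measure_ball_lt_top).ne)
      refine hbi'.mono' (hmeas 1) ?_
      filter_upwards [hne] with x hx
      rw [one_smul, Real.norm_eq_abs, abs_mul]
      by_cases hx2 : x ∈ Metric.ball (0 : Eu d) 2
      · rw [Set.indicator_of_mem hx2]
        exact mul_le_mul (hC x hx) (hb1 x) (abs_nonneg _) hC0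
      · rw [Set.indicator_of_notMem hx2]
        rw [Metric.mem_ball, dist_zero_right, not_lt] at hx2
        rw [(hout x (by linarith)).1]
        simp
    have hbound : ∀ᵐ x : Eu d ∂volume, ∀ s ∈ Set.Ioo (1 / 2 : ℝ) (3 / 2),
        ‖l x * fderiv ℝ φ (s • x) x‖ ≤
          (Metric.ball (0 : Eu d) 2).indicator (fun _ => C * (2 * K)) x := by
      filter_upwards [hne] with x hx s hs
      rw [Real.norm_eq_abs, abs_mul]
      have hs0 : 0 < s := by have := hs.1; linarith
      by_cases hx2 : x ∈ Metric.ball (0 : Eu d) 2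
      · rw [Set.indicator_of_mem hx2]
        refine mul_le_mul (hC x hx) ?_ (abs_nonneg _) hC0
        have h1 := hb3 (s • x)
        rw [map_smul, smul_eq_mul, abs_mul, abs_of_pos hs0] at h1
        have h2 : 1 / 2 * |fderiv ℝ φ (s • x) x| ≤ s * |fderiv ℝ φ (s • x) x| :=
          mul_le_mul_of_nonneg_right hs.1.le (abs_nonneg _)
        linarith
      · rw [Set.indicator_of_notMem hx2]
        rw [Metric.mem_ball, dist_zero_right, not_lt] at hx2
        have h3 : 1 ≤ ‖s • x‖ := by
          rw [norm_smul, Real.norm_eq_abs, abs_of_pos hs0]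
          have := hs.1
          nlinarith
        rw [(hout (s • x) h3).2]
        simp
    have hdiff : ∀ᵐ x : Eu d ∂volume, ∀ s ∈ Set.Ioo (1 / 2 : ℝ) (3 / 2),
        HasDerivAt (fun s : ℝ => l x * φ (s • x)) (l x * fderiv ℝ φ (s • x) x) s := by
      refine Filter.Eventually.of_forall fun x s _ => ?_
      have h1 : HasDerivAt (fun s : ℝ => s • x) x s := by
        simpa using (hasDerivAt_id s).smul_const x
      have h2 := (hφd (s • x)).hasFDerivAt.comp_hasDerivAt s h1
      exact h2.const_mul (l x)
    have hmeas' : AEStronglyMeasurable (fun x => l x * fderiv ℝ φ ((1 : ℝ) • x) x)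
        (volume : Measure (Eu d)) := by
      simp only [one_smul]
      exact hl.mul hfd.aestronglyMeasurable
    have h := (hasDerivAt_integral_of_dominated_loc_of_deriv_le (μ := (volume : Measure (Eu d)))
      (F := fun s x => l x * φ (s • x)) (F' := fun s x => l x * fderiv ℝ φ (s • x) x)
      (x₀ := (1 : ℝ)) hs (Filter.Eventually.of_forall hmeas) hint hmeas' hbound hbi hdiff).2
    simpa only [one_smul] using h
  exact hd2.unique hd1

end Pool.UVF
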