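import Pool.Agent.Lib.MP_28fba0_gt.UV.MollA
import Pool.Agent.Lib.MP_28fba0_gt.UV.IBP

/-!
# UV-ApproxKey: the derivative of the mollification of a weakly differentiable function

`0 < r₀`, `1/(n+1) < r₀/2`, `r₀ ≤ ‖x‖ ≤ 1 - r₀`: the function `φ(y) = ρ_n(x - y)` is a test function
(smooth, support in the closed ball of radius `1/(n+1)` around `x`, inside
`{r₀/2 < ‖y‖ < 1 - r₀/2}`), `pd i φ y = - (pd i ρ_n)(x - y)`.  By `pd_moll`
`∂_i (moll n (1_B f))(x) = ∫ (∂_i ρ_n)(x - y) 1_B f(y) dy = - ∫_B f ∂_iφ = ∫_B g_i φ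
= ∫ ρ_n(x-y) g_i(y) 1_{B, ‖y‖ ≥ r₀/2} dy = moll n (1_{B, ‖·‖ ≥ r₀/2} g_i)(x)` (`moll_eq`).
-/

open Real Set MeasureTheory Filter Topology
open scoped ContDiff

namespace Pool.UVF

variable {d : ℕ}

private theorem bump_zero {n : ℕ} {z : Eu d} (hz : 1 / ((n : ℝ) + 1) < ‖z‖) :
    (bump d n).normed volume z = 0 := by
  by_contra h
  have h1 : z ∈ Function.support ((bump d n).normed volume) := h
  rw [ContDiffBump.support_normed_eq] at h1
  have h2 : ‖z‖ < (bump d n).rOut := by simpa using h1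
  have h3 : (bump d n).rOut = 1 / ((n : ℝ) + 1) := rfl
  linarith

private theorem testOf {r₀ : ℝ} (hr : 0 < r₀) {n : ℕ}
    (hn : 1 / ((n : ℝ) + 1) < r₀ / 2) {x : Eu d} (hx : r₀ ≤ ‖x‖) (hx' : ‖x‖ ≤ 1 - r₀) :
    IsTest (fun y : Eu d => (bump d n).normed volume (x - y)) := by
  have hsub : Function.support (fun y : Eu d => (bump d n).normed volume (x - y))
      ⊆ Metric.closedBall x (1 / ((n : ℝ) + 1)) := by
    intro y hy
    rw [Metric.mem_closedBall, dist_comm, dist_eq_norm]
    by_contra h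
    exact hy (bump_zero (not_le.1 h))
  have hts : tsupport (fun y : Eu d => (bump d n).normed volume (x - y))
      ⊆ Metric.closedBall x (1 / ((n : ℝ) + 1)) :=
    closure_minimal hsub Metric.isClosed_closedBall
  refine ⟨?_, ?_, ?_⟩
  · exact ((bump d n).contDiff_normed).comp (contDiff_const.sub contDiff_id)
  · exact HasCompactSupport.of_support_subset_isCompact (isCompact_closedBall _ _) hsub
  · intro y hy
    have h1 := hts hy
    rw [Metric.mem_closedBall, dist_comm, dist_eq_norm] at h1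
    have h2 : ‖y‖ ≤ ‖x‖ + ‖x - y‖ := by
      have := norm_sub_le x (x - y)
      rwa [sub_sub_cancel] at this
    have h3 : ‖x‖ ≤ ‖x - y‖ + ‖y‖ := by
      have := norm_add_le (x - y) y
      rwa [sub_add_cancel] at this
    refine ⟨?_, ?_⟩
    · simp only [Bd, Metric.mem_ball, dist_zero_right]
      linarith
    · rintro rfl
      rw [norm_zero] at h3
      linarith

private theorem pd_of_sub (n : ℕ) (x y : Eu d) (i : Fin d) :
    pd i (fun y : Eu d => (bump d n).normed volume (x - y)) y
      = - pd i ((bump d n).normed volume) (x - y) := by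
  have h1 : DifferentiableAt ℝ ((bump d n).normed (volume : Measure (Eu d))) (x - y) :=
    (((bump d n).contDiff_normed (n := 1)).differentiable (by simp)).differentiableAt
  have h2 : HasFDerivAt (fun y : Eu d => x - y) (-(ContinuousLinearMap.id ℝ (Eu d))) y := by
    simpa using (hasFDerivAt_id (𝕜 := ℝ) y).const_sub x
  have h3 := (h1.hasFDerivAt.comp y h2).fderiv
  unfold pd
  have h4 : fderiv ℝ (fun y : Eu d => (bump d n).normed volume (x - y)) y
      = (fderiv ℝ ((bump d n).normed volume) (x - y)).comp (-(ContinuousLinearMap.id ℝ (Eu d))) := h3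
  rw [h4]
  simp

theorem pd_moll_of_wgrad {f : Eu d → ℝ} {g : Fin d → Eu d → ℝ} (hf : Integrable f (mB d))
    (hw : HasWGrad f g) (i : Fin d) {r₀ : ℝ} (hr : 0 < r₀) {n : ℕ}
    (hn : 1 / ((n : ℝ) + 1) < r₀ / 2) {x : Eu d} (hx : r₀ ≤ ‖x‖) (hx' : ‖x‖ ≤ 1 - r₀) :
    pd i (moll n ((Bd d).indicator f)) x
      = moll n (((Bd d) ∩ {y | r₀ / 2 ≤ ‖y‖}).indicator (g i)) x := by
  have hBm : MeasurableSet (Bd d) := measurableSet_ball
  have hfi : Integrable ((Bd d).indicator f) volume := by
    rw [integrable_indicator_iff hBm]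
    exact hf
  rw [pd_moll hfi.locallyIntegrable, moll_eq]
  have h1 := hw _ (testOf hr hn hx hx') i
  have e1 : ∫ y, pd i ((bump d n).normed volume) (x - y) * (Bd d).indicator f y
      = ∫ y, - (f y * pd i (fun y : Eu d => (bump d n).normed volume (x - y)) y) ∂(mB d) := by
    rw [mB, ← integral_indicator hBm]
    refine integral_congr_ae (Filter.Eventually.of_forall fun y => ?_)
    by_cases hy : y ∈ Bd d
    · simp only [indicator_of_mem hy]
      rw [pd_of_sub]
      ring
    · simp only [indicator_of_notMem hy, mul_zero]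
  have e2 : ∫ y, (bump d n).normed volume (x - y) *
        (((Bd d) ∩ {y | r₀ / 2 ≤ ‖y‖}).indicator (g i)) y
      = ∫ y, g i y * (bump d n).normed volume (x - y) ∂(mB d) := by
    rw [mB, ← integral_indicator hBm]
    refine integral_congr_ae (Filter.Eventually.of_forall fun y => ?_)
    by_cases hy : y ∈ Bd d
    · by_cases hy2 : r₀ / 2 ≤ ‖y‖
      · have hm : y ∈ (Bd d) ∩ {y | r₀ / 2 ≤ ‖y‖} := ⟨hy, hy2⟩
        simp only [indicator_of_mem hy, indicator_of_mem hm]
        ring
      · have hm : y ∉ (Bd d) ∩ {y | r₀ / 2 ≤ ‖y‖} := fun h => hy2 h.2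
        have h3 : ‖x‖ ≤ ‖x - y‖ + ‖y‖ := by
          have := norm_add_le (x - y) y
          rwa [sub_add_cancel] at this
        have h4 : (bump d n).normed volume (x - y) = 0 := by
          refine bump_zero ?_
          rw [not_le] at hy2
          linarith
        simp only [indicator_of_mem hy, indicator_of_notMem hm, h4, mul_zero]
    · have hm : y ∉ (Bd d) ∩ {y | r₀ / 2 ≤ ‖y‖} := fun h => hy h.1
      simp only [indicator_of_notMem hy, indicator_of_notMem hm, mul_zero]
  rw [e1, e2, integral_neg, h1, neg_neg]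

end Pool.UVF
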