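import Pool.Agent.Lib.MP_28fba0_gt.UV.MollLp
import Pool.Agent.Lib.MP_28fba0_gt.UV.IBP
import Pool.Agent.Lib.MP_28fba0_gt.UV.ApproxKey

/-!
# UV-Approx: smooth approximation of weakly differentiable functions

`F n = moll n (indicator (Bd d) f)`.
* `∫_B |F n - f| → 0` and (if `f² ∈ L¹`) `∫_B (F n - f)² → 0`: `moll_tendsto_L1`, `moll_tendsto_L2` for
  the function `f` extended by `0`.
* derivatives: let `φ` be a test function, `r₀` from `IsTest.zero_near`.  For `1/(n+1) < r₀/2` and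
  `r₀ ≤ ‖x‖ ≤ 1 - r₀` (elsewhere `φ x = 0`): `∂_i F n(x) = moll n G_i (x)`, `G_i = g_i 1_{‖·‖ ≥ r₀/2} 1_B`
  (`pd_moll_of_wgrad`), `G_i` is in `L¹` (and in `L²` if `LocL2 (g i)`), and `G_i = g_i` on the support
  of `φ`.  Then `∫ |∂_i F n - g_i| |φ| ≤ C ∫ |moll n G_i - G_i| → 0`, same for the squares.
* bound: `abs_moll_le`.
-/

open Real Set MeasureTheory Filter Topology
open scoped ContDiff

namespace Pool.UVF

variable {d : ℕ}

theorem approx_meas_Bd (d : ℕ) : MeasurableSet (Bd d) := measurableSet_ball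

theorem approx_ind {f : Eu d → ℝ} (hf : Integrable f (mB d)) :
    Integrable ((Bd d).indicator f) (volume : Measure (Eu d)) :=
  (integrable_indicator_iff (approx_meas_Bd d)).2 hf

theorem approx_ae {p : ℝ → Prop} {f : Eu d → ℝ} (h0 : p 0) (h : ∀ᵐ x ∂(mB d), p (f x)) :
    ∀ᵐ x : Eu d, p ((Bd d).indicator f x) := by
  have h1 := (ae_restrict_iff' (approx_meas_Bd d)).1 h
  filter_upwards [h1] with x hx
  by_cases hxB : x ∈ Bd d
  · rw [Set.indicator_of_mem hxB]
    exact hx hxB
  · rw [Set.indicator_of_notMem hxB]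
    exact h0

/-- the truncation of `g` is integrable -/
theorem approx_trunc {g : Eu d → ℝ} {r : ℝ} (hg : IntegrableOn g {x | r ≤ ‖x‖} (mB d)) :
    Integrable (((Bd d) ∩ {y | r ≤ ‖y‖}).indicator g) (volume : Measure (Eu d)) := by
  have hm : MeasurableSet {x : Eu d | r ≤ ‖x‖} := (isClosed_le continuous_const continuous_norm).measurableSet
  rw [integrable_indicator_iff ((approx_meas_Bd d).inter hm)]
  have h2 : (mB d).restrict {x | r ≤ ‖x‖} = volume.restrict ((Bd d) ∩ {y | r ≤ ‖y‖}) := by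
    rw [mB, Measure.restrict_restrict hm, Set.inter_comm]
  rw [IntegrableOn, ← h2]
  exact hg

theorem approx_mono {u v : Eu d → ℝ} (hu : ∀ x, 0 ≤ u x) (hv : Integrable v (volume : Measure (Eu d)))
    (huv : ∀ x ∈ Bd d, u x ≤ v x) (hv0 : ∀ x, 0 ≤ v x) : ∫ x, u x ∂(mB d) ≤ ∫ x, v x := by
  have h1 : ∫ x, u x ∂(mB d) ≤ ∫ x, v x ∂(mB d) := by
    refine integral_mono_of_nonneg (Filter.Eventually.of_forall hu) hv.restrict ?_
    exact (ae_restrict_iff' (approx_meas_Bd d)).2 (Filter.Eventually.of_forall huv)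
  exact h1.trans (setIntegral_le_integral hv (Filter.Eventually.of_forall hv0))

theorem exists_approx {f : Eu d → ℝ} {g : Fin d → Eu d → ℝ} (hf : Integrable f (mB d))
    (hg : ∀ i, LocL1 (g i)) (hw : HasWGrad f g) :
    ∃ F : ℕ → Eu d → ℝ, (∀ n, ContDiff ℝ ∞ (F n)) ∧
      (∀ n, Integrable (F n) (mB d)) ∧
      Tendsto (fun n => ∫ x, |F n x - f x| ∂(mB d)) atTop (𝓝 0) ∧
      (∀ φ : Eu d → ℝ, IsTest φ → ∀ i,
        Tendsto (fun n => ∫ x, |pd i (F n) x - g i x| * |φ x| ∂(mB d)) atTop (𝓝 0)) ∧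
      (∀ C : ℝ, 0 ≤ C → (∀ᵐ x ∂(mB d), |f x| ≤ C) → ∀ n x, |F n x| ≤ C) ∧
      (Integrable (fun x => f x ^ 2) (mB d) →
        (∀ n, Integrable (fun x => (F n x - f x) ^ 2) (mB d)) ∧
        Tendsto (fun n => ∫ x, (F n x - f x) ^ 2 ∂(mB d)) atTop (𝓝 0)) ∧
      (∀ i, LocL2 (g i) → ∀ φ : Eu d → ℝ, IsTest φ →
        Tendsto (fun n => ∫ x, (pd i (F n) x - g i x) ^ 2 * (φ x) ^ 2 ∂(mB d)) atTop (𝓝 0)) := by
  have hf' := approx_ind hf
  -- the key formula
  have hkey : ∀ φ : Eu d → ℝ, IsTest φ → ∀ i, ∃ G : Eu d → ℝ,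
      Integrable G (volume : Measure (Eu d)) ∧
      (LocL2 (g i) → Integrable (fun x => G x ^ 2) (volume : Measure (Eu d))) ∧
      ∀ᶠ n : ℕ in atTop, ∀ x, x ∈ Bd d → φ x ≠ 0 →
        pd i (moll n ((Bd d).indicator f)) x - g i x = moll n G x - G x := by
    intro φ hφ i
    obtain ⟨r₀, hr0, hr1, hz⟩ := hφ.zero_near
    refine ⟨((Bd d) ∩ {y | r₀ / 2 ≤ ‖y‖}).indicator (g i), approx_trunc (hg i (r₀ / 2) (by positivity)),
      ?_, ?_⟩
    · intro h2
      have h3 := approx_trunc (h2.2 (r₀ / 2) (by positivity))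
      refine h3.congr (Filter.Eventually.of_forall ?_)
      intro x
      by_cases hx : x ∈ (Bd d) ∩ {y | r₀ / 2 ≤ ‖y‖}
      · simp only [Set.indicator_of_mem hx]
      · simp only [Set.indicator_of_notMem hx]
        norm_num
    · have h4 : Tendsto (fun n : ℕ => 1 / ((n : ℝ) + 1)) atTop (𝓝 0) :=
        tendsto_one_div_add_atTop_nhds_zero_nat
      have h5 : ∀ᶠ n : ℕ in atTop, 1 / ((n : ℝ) + 1) < r₀ / 2 :=
        h4.eventually_lt_const (by positivity)
      filter_upwards [h5] with n hn x hxB hx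
      have hx1 : r₀ ≤ ‖x‖ := by
        by_contra hlt
        exact hx (hz x (Or.inl (not_le.1 hlt))).1
      have hx2 : ‖x‖ ≤ 1 - r₀ := by
        by_contra hlt
        exact hx (hz x (Or.inr (not_le.1 hlt))).1
      rw [pd_moll_of_wgrad hf hw i hr0 hn hx1 hx2]
      have hmem : x ∈ (Bd d) ∩ {y | r₀ / 2 ≤ ‖y‖} := ⟨hxB, by
        show r₀ / 2 ≤ ‖x‖
        linarith⟩
      rw [Set.indicator_of_mem hmem]
  refine ⟨fun n => moll n ((Bd d).indicator f), fun n => contDiff_moll hf'.locallyIntegrable n,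
    fun n => (integrable_moll hf' n).restrict, ?_, ?_, ?_, ?_, ?_⟩
  · refine squeeze_zero (fun n => integral_nonneg (fun x => abs_nonneg _)) (fun n => ?_)
      (moll_tendsto_L1 hf')
    refine approx_mono (fun x => abs_nonneg _) ((integrable_moll hf' n).sub hf').abs ?_
      (fun x => abs_nonneg _)
    intro x hx
    rw [Set.indicator_of_mem hx]
  · intro φ hφ i
    obtain ⟨G, hG, -, hev⟩ := hkey φ hφ i
    obtain ⟨C, hC, hC1, -, -⟩ := hφ.bdd
    have hlim : Tendsto (fun n => C * ∫ x, |moll n G x - G x|) atTop (𝓝 (C * 0)) :=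
      (moll_tendsto_L1 hG).const_mul C
    rw [mul_zero] at hlim
    refine squeeze_zero' (Filter.Eventually.of_forall fun n => integral_nonneg
      (fun x => mul_nonneg (abs_nonneg _) (abs_nonneg _))) ?_ hlim
    filter_upwards [hev] with n hn
    rw [← integral_const_mul]
    refine approx_mono (fun x => mul_nonneg (abs_nonneg _) (abs_nonneg _))
      (((integrable_moll hG n).sub hG).abs.const_mul C) ?_
      (fun x => mul_nonneg hC.le (abs_nonneg _))
    intro x hx
    by_cases h0 : φ x = 0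
    · rw [h0, abs_zero, mul_zero]
      exact mul_nonneg hC.le (abs_nonneg _)
    · rw [hn x hx h0, mul_comm]
      exact mul_le_mul_of_nonneg_right (hC1 x) (abs_nonneg _)
  · intro C hC hfC n x
    exact abs_moll_le hC (approx_ae (p := fun t => |t| ≤ C) (by simpa using hC) hfC) n x
  · intro hf2
    have hf2' : Integrable (fun x => ((Bd d).indicator f x) ^ 2) (volume : Measure (Eu d)) := by
      refine (approx_ind hf2).congr (Filter.Eventually.of_forall ?_)
      intro x
      by_cases hx : x ∈ Bd d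
      · simp only [Set.indicator_of_mem hx]
      · simp only [Set.indicator_of_notMem hx]
        norm_num
    have hint := integrable_moll_sub_sq hf' hf2'
    refine ⟨fun n => ?_, ?_⟩
    · have h3 : Integrable (fun x => (moll n ((Bd d).indicator f) x - (Bd d).indicator f x) ^ 2)
          (mB d) := (hint n).restrict
      refine h3.congr ?_
      refine (ae_restrict_iff' (approx_meas_Bd d)).2 (Filter.Eventually.of_forall ?_)
      intro x hx
      simp only [Set.indicator_of_mem hx]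
    · refine squeeze_zero (fun n => integral_nonneg (fun x => sq_nonneg _)) (fun n => ?_)
        (moll_tendsto_L2 hf' hf2')
      refine approx_mono (fun x => sq_nonneg _) (hint n) ?_ (fun x => sq_nonneg _)
      intro x hx
      rw [Set.indicator_of_mem hx]
  · intro i hi φ hφ
    obtain ⟨G, hG, hG2, hev⟩ := hkey φ hφ i
    obtain ⟨C, hC, hC1, -, -⟩ := hφ.bdd
    have hG2' := hG2 hi
    have hlim : Tendsto (fun n => C ^ 2 * ∫ x, (moll n G x - G x) ^ 2) atTop (𝓝 (C ^ 2 * 0)) :=
      (moll_tendsto_L2 hG hG2').const_mul (C ^ 2)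
    rw [mul_zero] at hlim
    refine squeeze_zero' (Filter.Eventually.of_forall fun n => integral_nonneg
      (fun x => mul_nonneg (sq_nonneg _) (sq_nonneg _))) ?_ hlim
    filter_upwards [hev] with n hn
    rw [← integral_const_mul]
    refine approx_mono (fun x => mul_nonneg (sq_nonneg _) (sq_nonneg _))
      ((integrable_moll_sub_sq hG hG2' n).const_mul (C ^ 2)) ?_
      (fun x => mul_nonneg (sq_nonneg _) (sq_nonneg _))
    intro x hx
    by_cases h0 : φ x = 0
    · rw [h0]
      have : (0 : ℝ) ≤ C ^ 2 * (moll n G x - G x) ^ 2 := mul_nonneg (sq_nonneg _) (sq_nonneg _)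
      simpa using this
    · rw [hn x hx h0, mul_comm]
      refine mul_le_mul_of_nonneg_right ?_ (sq_nonneg _)
      exact sq_le_sq' (by linarith [(abs_le.1 (hC1 x)).1]) (abs_le.1 (hC1 x)).2

end Pool.UVF
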