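import Pool.Agent.Lib.MP_28fba0_gt.UV.Hom

/-!
# UV-BijB (part of Bij): `F_τ(x) = x + τ U(x)` for small `τ`

* `‖x + τ U x‖ = √(1+τ²) ‖x‖` from `‖U x‖ = ‖x‖`, `⟪x, U x⟫ = 0`.
* Let `L` be a Lipschitz constant of `U`, `|τ| L < 1`.  Injective: `‖F x - F y‖ ≥ (1 - |τ| L) ‖x-y‖`.
  Surjective: for `y` fixed, `x ↦ y - τ U x` is a contraction (`ContractingWith`), its fixed point is
  a preimage.
* Image of the punctured unit ball = punctured ball of radius `√(1+τ²)` (norm identity).
* `det (1 + τ jac U x) > 0`: `‖τ DU(x)‖ < 1` for small `τ` uniformly in `x ≠ 0`, so `1 + s τ DU(x)` is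
  invertible for `s ∈ [0,1]` and the determinant, continuous in `s`, `= 1` at `s = 0`, does not
  vanish (intermediate value theorem).  (Or: `det (1 + τ M)` is continuous in `(τ, M)` and `= 1` at
  `τ = 0`, `M` in a compact set.)
-/

open Matrix Real Set
open scoped RealInnerProductSpace

namespace Pool.UVF

variable {d : ℕ} {U : Eu d → Eu d}

theorem HomField.det_pos (hU : HomField U) : ∃ τ₀ : ℝ, 0 < τ₀ ∧ ∀ τ : ℝ, |τ| < τ₀ →
    ∀ x, x ≠ 0 → 0 < ((1 : Matrix (Fin d) (Fin d) ℝ) + τ • jac U x).det := by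
  obtain ⟨C, hC, hb⟩ := hU.jac_bounded
  let f : (Fin d → Fin d → ℝ) → ℝ := fun N => ((1 : Matrix (Fin d) (Fin d) ℝ) + Matrix.of N).det
  have hf : Continuous f := by
    have : Continuous (fun N : Fin d → Fin d → ℝ =>
        ((1 : Matrix (Fin d) (Fin d) ℝ) + Matrix.of N)) :=
      continuous_const.add (continuous_id)
    exact this.matrix_det
  have hf0 : 0 < f 0 := by
    have h0 : (Matrix.of (0 : Fin d → Fin d → ℝ)) = 0 := rfl
    have : f 0 = 1 := by
      change ((1 : Matrix (Fin d) (Fin d) ℝ) + Matrix.of (0 : Fin d → Fin d → ℝ)).det = 1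
      rw [h0, add_zero, Matrix.det_one]
    rw [this]
    exact one_pos
  have hev : ∀ᶠ N in nhds (0 : Fin d → Fin d → ℝ), 0 < f N :=
    hf.continuousAt.eventually (lt_mem_nhds hf0)
  obtain ⟨ε, hε, hball⟩ := Metric.eventually_nhds_iff.1 hev
  refine ⟨ε / (C + 1), by positivity, ?_⟩
  intro τ hτ x hx
  have key : 0 < f (fun j i => τ * jac U x j i) := by
    apply hball
    rw [dist_pi_lt_iff hε]
    intro j
    rw [dist_pi_lt_iff hε]
    intro i
    simp only [Pi.zero_apply, dist_zero_right, norm_mul, Real.norm_eq_abs]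
    have h1 := hb x hx j i
    have h2 : |τ| * |jac U x j i| ≤ |τ| * (C + 1) :=
      mul_le_mul_of_nonneg_left (by linarith) (abs_nonneg _)
    have h3 : |τ| * (C + 1) < ε := by
      rwa [lt_div_iff₀ (by linarith)] at hτ
    linarith
  exact key

end Pool.UVF
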