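import Pool.Agent.Lib.MP_28fba0_gt.UV.Hom

/-!
# UV-BijA (part of Bij): `F_τ(x) = x + τ U(x)` for small `τ`

* `‖x + τ U x‖ = √(1+τ²) ‖x‖` from `‖U x‖ = ‖x‖`, `⟪x, U x⟫ = 0`.
* Let `L` be a Lipschitz constant of `U`, `|τ| L < 1`.  Injective: `‖F x - F y‖ ≥ (1 - |τ| L) ‖x-y‖`.
  Surjective: for `y` fixed, `x ↦ y - τ U x` is a contraction (`ContractingWith`), its fixed point is
  a preimage.
* Image of the punctured unit ball = punctured ball of radius `√(1+τ²)` (norm identity).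
* `det (1 + τ jac U x) > 0`: `‖τ DU(x)‖ < 1` for small `τ` uniformly in `x ≠ 0`, so `1 + s τ DU(x)` is
  invertible for `s ∈ [0,1]` and the determinant, continuous in `s`, `= 1` at `s = 0`, does not
  vanish (intermediate value theorem).  (Or: `det (1 + τ M)` is continuous in `(τ, M)` and `= 1` at
  `τ = 0`, `M` in a compact set.)
-/

open Matrix Real Set
open scoped RealInnerProductSpace

namespace Pool.UVF

variable {d : ℕ} {U : Eu d → Eu d}

theorem HomField.norm_F (hU : HomField U) (τ : ℝ) (x : Eu d) :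
    ‖x + τ • U x‖ = √ (1 + τ ^ 2) * ‖x‖ := by
  have h1 : ‖x + τ • U x‖ ^ 2 = (1 + τ ^ 2) * ‖x‖ ^ 2 := by
    rw [norm_add_sq_real, real_inner_smul_right, hU.orth, norm_smul, hU.norm, mul_pow,
      Real.norm_eq_abs, sq_abs]
    ring
  have h2 : ‖x + τ • U x‖ = √ (‖x + τ • U x‖ ^ 2) := (Real.sqrt_sq (norm_nonneg _)).symm
  rw [h2, h1, Real.sqrt_mul (by positivity), Real.sqrt_sq (norm_nonneg _)]

theorem HomField.bij_F (hU : HomField U) : ∃ τ₀ : ℝ, 0 < τ₀ ∧ ∀ τ : ℝ, |τ| < τ₀ →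
    Function.Bijective (fun x : Eu d => x + τ • U x) := by
  obtain ⟨L, hL, hlip⟩ := hU.lipschitz
  have hL' : (0 : ℝ) < L := by exact_mod_cast hL
  refine ⟨1 / (L : ℝ), by positivity, fun τ hτ => ?_⟩
  have hτL : |τ| * L < 1 := by
    rwa [lt_div_iff₀ hL'] at hτ
  constructor
  · intro x y hxy
    simp only at hxy
    by_contra hne
    have h1 : x - y = τ • (U y - U x) := by
      rw [smul_sub, sub_eq_sub_iff_add_eq_add, hxy]
      abel
    have h2 : ‖x - y‖ ≤ |τ| * L * ‖x - y‖ := by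
      calc ‖x - y‖ = |τ| * ‖U y - U x‖ := by
            conv_lhs => rw [h1]
            rw [norm_smul, Real.norm_eq_abs]
        _ ≤ |τ| * (L * ‖x - y‖) := by
            apply mul_le_mul_of_nonneg_left _ (abs_nonneg _)
            have := hlip.dist_le_mul y x
            rwa [dist_eq_norm, dist_eq_norm, norm_sub_rev y x] at this
        _ = |τ| * L * ‖x - y‖ := by ring
    have h3 : 0 < ‖x - y‖ := norm_pos_iff.mpr (sub_ne_zero.mpr hne)
    nlinarith
  · intro y
    obtain ⟨K, hK⟩ : ∃ K : NNReal, (K : ℝ) = |τ| * L :=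
      ⟨Real.toNNReal (|τ| * L), Real.coe_toNNReal _ (by positivity)⟩
    have hcontr : ContractingWith K (fun x : Eu d => y - τ • U x) := by
      constructor
      · rw [← NNReal.coe_lt_coe, hK]
        exact hτL
      · apply LipschitzWith.of_dist_le_mul
        intro a b
        rw [dist_eq_norm, dist_eq_norm]
        have h4 : y - τ • U a - (y - τ • U b) = τ • (U b - U a) := by
          rw [smul_sub]; abel
        rw [h4, norm_smul, Real.norm_eq_abs]
        have := hlip.dist_le_mul b a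
        rw [dist_eq_norm, dist_eq_norm, norm_sub_rev b a] at this
        calc |τ| * ‖U b - U a‖ ≤ |τ| * (L * ‖a - b‖) := by
              apply mul_le_mul_of_nonneg_left this (abs_nonneg _)
          _ = K * ‖a - b‖ := by rw [hK]; ring
    refine ⟨hcontr.fixedPoint, ?_⟩
    have := hcontr.fixedPoint_isFixedPt
    rw [Function.IsFixedPt] at this
    simp only at this ⊢
    nth_rewrite 1 [← this]
    abel

theorem HomField.image_F (hU : HomField U) : ∃ τ₀ : ℝ, 0 < τ₀ ∧ ∀ τ : ℝ, |τ| < τ₀ →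
    InjOn (fun x : Eu d => x + τ • U x) (Metric.ball 0 1 \ {0}) ∧
    (fun x : Eu d => x + τ • U x) '' (Metric.ball 0 1 \ {0})
      = Metric.ball 0 (√ (1 + τ ^ 2)) \ {0} := by
  obtain ⟨τ₀, hτ₀, hb⟩ := hU.bij_F
  refine ⟨τ₀, hτ₀, fun τ hτ => ⟨(hb τ hτ).1.injOn, ?_⟩⟩
  have hs : 0 < √ (1 + τ ^ 2) := Real.sqrt_pos.mpr (by positivity)
  ext y
  constructor
  · rintro ⟨x, ⟨hx1, hx2⟩, rfl⟩
    have hx2' : x ≠ 0 := hx2
    rw [mem_ball_zero_iff] at hx1
    refine ⟨?_, ?_⟩
    · rw [mem_ball_zero_iff, hU.norm_F]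
      calc √ (1 + τ ^ 2) * ‖x‖ < √ (1 + τ ^ 2) * 1 := mul_lt_mul_of_pos_left hx1 hs
        _ = √ (1 + τ ^ 2) := mul_one _
    · intro h0
      have h0' : x + τ • U x = 0 := h0
      have : ‖x + τ • U x‖ = 0 := by rw [h0', norm_zero]
      rw [hU.norm_F] at this
      rcases mul_eq_zero.mp this with h | h
      · exact hs.ne' h
      · exact hx2' (norm_eq_zero.mp h)
  · rintro ⟨hy1, hy2⟩
    have hy2' : y ≠ 0 := hy2
    obtain ⟨x, hx⟩ := (hb τ hτ).2 y
    have hx' : x + τ • U x = y := hx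
    refine ⟨x, ⟨?_, ?_⟩, hx⟩
    · rw [mem_ball_zero_iff] at hy1 ⊢
      rw [← hx', hU.norm_F] at hy1
      exact lt_of_mul_lt_mul_left (by rwa [mul_one]) hs.le
    · intro h0
      have h0' : x = 0 := h0
      apply hy2'
      have h1 : ‖y‖ = 0 := by rw [← hx', hU.norm_F, h0', norm_zero, mul_zero]
      exact norm_eq_zero.mp h1

end Pool.UVF
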