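import Pool.Agent.Lib.MP_28fba0_gt.UV.GBasic
import Pool.Agent.Lib.MP_28fba0_gt.UV.AMGM

/-!
# UV-BlockEstB (part of BlockEst): estimates for one `2m × 2m` matrix `B`

`det (1 + B Bᵀ + α αᵀ) ≥ det (1 + Bᵀ B) + |α|²`.  With `G' = 1 + B Bᵀ`,
`det (G' + t α αᵀ) = det G' + t c`, `c = det G' · αᵀ G'⁻¹ α`, and
`det (G' + t α αᵀ) ≥ det (1 + t α αᵀ) = 1 + t |α|²` for all `t > 0`, so `c ≥ |α|²`.
-/

open Matrix

namespace Pool.UVF

variable {ι : Type*} [Fintype ι] [DecidableEq ι]

/-- `det (1 + S) ≥ 1` for positive semidefinite `S` -/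
theorem one_le_det_one_add {S : Matrix ι ι ℝ} (hS : S.PosSemidef) : 1 ≤ (1 + S).det := by
  have hsp := hS.1.spectral_theorem
  set U : Matrix ι ι ℝ := (hS.1.eigenvectorUnitary : Matrix ι ι ℝ) with hU
  have hUU : U * star U = 1 := by
    have := hS.1.eigenvectorUnitary.2
    exact (Matrix.mem_unitaryGroup_iff).1 this
  have h1 : (1 + S) = U * (1 + diagonal hS.1.eigenvalues) * star U := by
    rw [mul_add, add_mul, mul_one, hUU]
    congr 1
  have h2 : (1 + S).det = ∏ i, (1 + hS.1.eigenvalues i) := by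
    rw [h1, det_mul, det_mul, mul_right_comm, ← det_mul, hUU, det_one, one_mul]
    have : (1 : Matrix ι ι ℝ) + diagonal hS.1.eigenvalues
        = diagonal (fun i => 1 + hS.1.eigenvalues i) := by
      rw [← diagonal_one, diagonal_add]
    rw [this, det_diagonal]
  rw [h2]
  calc (1 : ℝ) = ∏ _i : ι, (1 : ℝ) := by simp
    _ ≤ ∏ i, (1 + hS.1.eigenvalues i) := by
      refine Finset.prod_le_prod (fun _ _ => zero_le_one) fun i _ => ?_
      have := hS.eigenvalues_nonneg i
      linarith

/-- `det (P + B Bᵀ) ≥ det P` for positive definite `P` -/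
theorem det_le_det_add {P : Matrix ι ι ℝ} (hP : P.PosDef) (B : Matrix ι ι ℝ) :
    P.det ≤ (P + B * Bᵀ).det := by
  have hu : IsUnit P.det := hP.det_pos.ne'.isUnit
  have h1 : P + B * Bᵀ = P * (1 + (P⁻¹ * B) * Bᵀ) := by
    rw [mul_add, mul_one, Matrix.mul_assoc, Matrix.mul_nonsing_inv_cancel_left _ _ hu]
  rw [h1, det_mul, Matrix.det_one_add_mul_comm]
  have h2 : (Bᵀ * (P⁻¹ * B)).PosSemidef := by
    have := hP.inv.posSemidef.conjTranspose_mul_mul_same B
    rwa [Matrix.conjTranspose_eq_transpose_of_trivial, Matrix.mul_assoc] at this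
  have h3 := one_le_det_one_add h2
  have h4 := hP.det_pos
  nlinarith

theorem det_add_ge (B : Matrix ι ι ℝ) (α : ι → ℝ) :
    (d0 B) ^ 2 + ∑ i, (α i) ^ 2 ≤ (1 + B * Bᵀ + vecMulVec α α).det := by
  have hps : (Bᵀ * B).PosSemidef := by
    have := Matrix.posSemidef_conjTranspose_mul_self B
    rwa [Matrix.conjTranspose_eq_transpose_of_trivial] at this
  have hps' : (B * Bᵀ).PosSemidef := by
    have := Matrix.posSemidef_self_mul_conjTranspose B
    rwa [Matrix.conjTranspose_eq_transpose_of_trivial] at this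
  have hd : (d0 B) ^ 2 = (1 + B * Bᵀ).det := by
    have h1 := one_le_det_one_add hps
    unfold d0 Gm
    rw [Real.sq_sqrt (by linarith), Matrix.det_one_add_mul_comm]
  have hG : (1 + B * Bᵀ).PosDef := Matrix.PosDef.one.add_posSemidef hps'
  have hu : IsUnit (1 + B * Bᵀ).det := hG.det_pos.ne'.isUnit
  set G := 1 + B * Bᵀ with hGdef
  set c : ℝ := G.det * (α ⬝ᵥ (G⁻¹ *ᵥ α)) with hc
  have hlin : ∀ t : ℝ, (G + vecMulVec (t • α) α).det = G.det + t * c := by
    intro t
    rw [vecMulVec_eq Unit, Matrix.det_add_replicateCol_mul_replicateRow hu]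
    rw [Matrix.det_unique (n := Unit)]
    simp only [Matrix.add_apply, Matrix.one_apply_eq]
    have : (replicateRow Unit α * G⁻¹ * replicateCol Unit (t • α)) default default
        = t * (α ⬝ᵥ (G⁻¹ *ᵥ α)) := by
      rw [Matrix.mul_assoc]
      simp only [Matrix.mul_apply, replicateRow_apply, replicateCol_apply, dotProduct, mulVec,
        Pi.smul_apply, smul_eq_mul, Finset.mul_sum]
      refine Finset.sum_congr rfl fun i _ => Finset.sum_congr rfl fun j _ => ?_
      ring
    rw [this, hc]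
    ring
  have hge : ∀ t : ℝ, 0 < t → 1 + t * ∑ i, (α i) ^ 2 ≤ G.det + t * c := by
    intro t ht
    rw [← hlin t]
    have hP : (1 + vecMulVec (t • α) α : Matrix ι ι ℝ).PosDef := by
      apply Matrix.PosDef.one.add_posSemidef
      have h0 : (vecMulVec (t • α) α : Matrix ι ι ℝ)
          = vecMulVec (√t • α) (star (√t • α)) := by
        ext i j
        simp only [vecMulVec_apply, Pi.smul_apply, smul_eq_mul, star_trivial]
        have := Real.mul_self_sqrt ht.le
        calc t * α i * α j = (√t * √t) * α i * α j := by rw [this]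
          _ = _ := by ring
      rw [h0]
      exact Matrix.posSemidef_vecMulVec_self_star _
    have h1 := det_le_det_add hP B
    have h2 : (1 + vecMulVec (t • α) α : Matrix ι ι ℝ).det = 1 + t * ∑ i, (α i) ^ 2 := by
      rw [vecMulVec_eq Unit, Matrix.det_one_add_replicateCol_mul_replicateRow]
      simp only [dotProduct, Pi.smul_apply, smul_eq_mul, Finset.mul_sum]
      congr 1
      refine Finset.sum_congr rfl fun i _ => ?_
      ring
    rw [h2] at h1
    have h3 : (1 + vecMulVec (t • α) α : Matrix ι ι ℝ) + B * Bᵀ = G + vecMulVec (t • α) α := by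
      rw [hGdef]; abel
    rwa [h3] at h1
  have hcs : ∑ i, (α i) ^ 2 ≤ c := by
    by_contra hcon
    push Not at hcon
    have hpos := hG.det_pos
    have hk : 0 < ∑ i, (α i) ^ 2 - c := by linarith
    have h1 := hge (G.det / (∑ i, (α i) ^ 2 - c)) (by positivity)
    have h2 : G.det / (∑ i, (α i) ^ 2 - c) * (∑ i, (α i) ^ 2 - c) = G.det := by
      field_simp
    nlinarith
  have h1 := hlin 1
  rw [one_smul, one_mul] at h1
  rw [hd, h1]
  linarith

end Pool.UVF
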