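import Pool.Agent.Lib.MP_28fba0_gt.UV.GBasic
import Pool.Agent.Lib.MP_28fba0_gt.UV.AMGM

/-!
# UV-BlockEstA (part of BlockEst): estimates for one `2m × 2m` matrix `B`

`γ = tG B / 2m`, `κ = tB B / 2m`, `λ = κ/γ = tB B / tG B`, `δ = γ(1-γ) - κ² ≥ 0`.

1. `(1 + λ²)^m ≤ D₀`.  `κ² ≤ γ (1-γ)` (`tB_sq_le`) gives `1 + λ² ≤ 1/γ`.  AM–GM for the positive
   definite matrix `G⁻¹`: `det G⁻¹ ≤ γ^{2m}`, i.e. `γ^{2m} ≥ D₀^{-2}`, `γ^m ≥ D₀^{-1}`.
2. `∑ (B - λ)_{ij}² ≤ (2m)² δ D₀²`.  `trace_shift` with `s = λ`: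
   `tr ((B-λ) G⁻¹ (B-λ)ᵀ) = 2m (1 - γ - κ²/γ) = 2m δ/γ`.  On the other hand
   `tr (G⁻¹) det G · tr ((B-λ) G⁻¹ (B-λ)ᵀ) ≥ ∑ (B-λ)_{ij}²`: if `G = U diag(μ) Uᵀ` with all
   `μ_i ≥ 1` (spectral theorem) and at least two indices (`m ≥ 1`), then
   `tr (G⁻¹) det G = ∑_i ∏_{j ≠ i} μ_j ≥ max μ`, so `tr(G⁻¹) det(G) G⁻¹ - 1` is positive
   semidefinite.  Finally `tr (G⁻¹) det G · 2m δ/γ = (2m)² δ D₀²` since `tr G⁻¹ = 2m γ`.
3. `det (1 + B Bᵀ + α αᵀ) ≥ det (1 + Bᵀ B) + |α|²`: `G' = 1 + B Bᵀ`, `det G' = det G`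
   (`Matrix.det_one_add_mul_comm`), matrix determinant lemma
   (`Matrix.det_add_replicateCol_mul_replicateRow` or direct)
   `det (G' + α αᵀ) = det G' (1 + αᵀ G'⁻¹ α)`, and `det(G') G'⁻¹ - 1` is positive semidefinite (all
   eigenvalues of `G'` are `≥ 1`: the eigenvalues of `det(G') G'⁻¹` are `∏_{j≠i} μ_j ≥ 1`).
   Alternatively by induction / Cauchy–Binet.
-/

open Matrix

namespace Pool.UVF

variable {ι : Type*} [Fintype ι] [DecidableEq ι]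

private theorem BlockEstA_eig (B : Matrix ι ι ℝ) (i : ι) :
    1 ≤ (Gm_posDef B).1.eigenvalues i := by
  have h := (Gm_posDef B).1.eigenvalues_eq i
  obtain ⟨v, hv⟩ : ∃ v, v = (Gm_posDef B).1.eigenvectorBasis i := ⟨_, rfl⟩
  rw [← hv] at h
  have hn : (v.ofLp) ⬝ᵥ (v.ofLp) = 1 := by
    have h1 : ‖v‖ = 1 := by rw [hv]; exact (Gm_posDef B).1.eigenvectorBasis.orthonormal.1 i
    have h2 : ‖v‖ ^ 2 = ∑ j, ‖v.ofLp j‖ ^ 2 := EuclideanSpace.norm_sq_eq v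
    rw [h1] at h2
    simp only [dotProduct, Real.norm_eq_abs, sq_abs] at h2 ⊢
    rw [one_pow] at h2
    rw [h2]
    exact Finset.sum_congr rfl fun j _ => by ring
  rw [h]
  have h3 : (Gm B) *ᵥ v.ofLp = v.ofLp + Bᵀ *ᵥ (B *ᵥ v.ofLp) := by
    rw [Gm, add_mulVec, one_mulVec, mulVec_mulVec]
  have h4 : v.ofLp ⬝ᵥ (Bᵀ *ᵥ (B *ᵥ v.ofLp)) = (B *ᵥ v.ofLp) ⬝ᵥ (B *ᵥ v.ofLp) := by
    rw [dotProduct_mulVec, vecMul_transpose]
  have h5 : 0 ≤ (B *ᵥ v.ofLp) ⬝ᵥ (B *ᵥ v.ofLp) := by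
    unfold dotProduct
    exact Finset.sum_nonneg fun j _ => mul_self_nonneg _
  rw [star_trivial, RCLike.re_to_real, h3, dotProduct_add, hn, h4]
  linarith

private theorem BlockEstA_prod (μ : ι → ℝ) (h1 : ∀ i, 1 ≤ μ i) (hc : 2 ≤ Fintype.card ι) (i : ι) :
    μ i ≤ (∑ k, (μ k)⁻¹) * ∏ j, μ j := by
  have : Nontrivial ι := Fintype.one_lt_card_iff_nontrivial.mp hc
  obtain ⟨k, hk⟩ := exists_ne i
  have hpos : ∀ j, 0 < μ j := fun j => lt_of_lt_of_le one_pos (h1 j)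
  have h2 : (μ k)⁻¹ ≤ ∑ k, (μ k)⁻¹ :=
    Finset.single_le_sum (f := fun k => (μ k)⁻¹) (fun j _ => (inv_pos.mpr (hpos j)).le) (Finset.mem_univ k)
  have h3 : (μ k)⁻¹ * ∏ j, μ j = ∏ j ∈ Finset.univ.erase k, μ j := by
    rw [← Finset.mul_prod_erase Finset.univ μ (Finset.mem_univ k), ← mul_assoc,
      inv_mul_cancel₀ (hpos k).ne', one_mul]
  have h4 : μ i ≤ ∏ j ∈ Finset.univ.erase k, μ j := by
    rw [← Finset.mul_prod_erase (Finset.univ.erase k) μ (a := i) (by simp [hk.symm])]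
    have h5 : 1 ≤ ∏ j ∈ (Finset.univ.erase k).erase i, μ j := by
      have := Finset.prod_le_prod (s := (Finset.univ.erase k).erase i) (f := fun _ => (1 : ℝ))
        (g := μ) (fun _ _ => zero_le_one) (fun j _ => h1 j)
      simpa using this
    nlinarith [hpos i]
  calc μ i ≤ (μ k)⁻¹ * ∏ j, μ j := by rw [h3]; exact h4
    _ ≤ _ := mul_le_mul_of_nonneg_right h2 (Finset.prod_nonneg fun j _ => (hpos j).le)

/-- `tr (G⁻¹) det G · G⁻¹ - 1` is positive semidefinite -/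
private theorem BlockEstA_psd (B : Matrix ι ι ℝ) (hc : 2 ≤ Fintype.card ι) (w : ι → ℝ) :
    w ⬝ᵥ w ≤ (tG B * (Gm B).det) * (w ⬝ᵥ ((Gm B)⁻¹ *ᵥ w)) := by
  have hG := (Gm_posDef B).1
  obtain ⟨μ, hμ⟩ : ∃ μ, μ = hG.eigenvalues := ⟨_, rfl⟩
  have h1 : ∀ i, 1 ≤ μ i := fun i => by rw [hμ]; exact BlockEstA_eig B i
  have hpos : ∀ j, 0 < μ j := fun j => lt_of_lt_of_le one_pos (h1 j)
  obtain ⟨U, hU⟩ : ∃ U : Matrix ι ι ℝ, U = (hG.eigenvectorUnitary : Matrix ι ι ℝ) := ⟨_, rfl⟩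
  have hUU : U * Uᵀ = 1 := by
    rw [hU]
    have := Unitary.coe_mul_star_self hG.eigenvectorUnitary
    simpa [star_eq_conjTranspose] using this
  have hUU' : Uᵀ * U = 1 := mul_eq_one_comm.mp hUU
  have hspec : Gm B = U * diagonal μ * Uᵀ := by
    have := hG.spectral_theorem
    rw [Unitary.conjStarAlgAut_apply] at this
    rw [hU, hμ]
    simpa [star_eq_conjTranspose, Function.comp_def] using this
  have hinv : (Gm B)⁻¹ = U * diagonal (fun i => (μ i)⁻¹) * Uᵀ := by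
    refine inv_eq_right_inv ?_
    rw [hspec]
    calc U * diagonal μ * Uᵀ * (U * diagonal (fun i => (μ i)⁻¹) * Uᵀ)
        = U * diagonal μ * (Uᵀ * U) * diagonal (fun i => (μ i)⁻¹) * Uᵀ := by
          simp only [Matrix.mul_assoc]
      _ = U * (diagonal μ * diagonal (fun i => (μ i)⁻¹)) * Uᵀ := by
          rw [hUU', Matrix.mul_one]
          simp only [Matrix.mul_assoc]
      _ = 1 := by
          have h2 : (fun i => μ i * (μ i)⁻¹) = fun _ => (1 : ℝ) :=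
            funext fun i => mul_inv_cancel₀ (hpos i).ne'
          rw [diagonal_mul_diagonal, h2, diagonal_one, Matrix.mul_one, hUU]
  have htr : tG B = ∑ i, (μ i)⁻¹ := by
    unfold tG
    rw [hinv, Matrix.trace_mul_comm, ← Matrix.mul_assoc, hUU', Matrix.one_mul, trace_diagonal]
  have hdet : (Gm B).det = ∏ i, μ i := by
    rw [hμ, hG.det_eq_prod_eigenvalues]
    rfl
  -- new vector
  obtain ⟨y, hy⟩ : ∃ y, y = Uᵀ *ᵥ w := ⟨_, rfl⟩
  have h5 : w ⬝ᵥ w = ∑ i, y i ^ 2 := by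
    have h6 : y ⬝ᵥ y = w ⬝ᵥ w := by
      rw [hy, dotProduct_mulVec, vecMul_transpose, mulVec_mulVec, hUU, one_mulVec]
    rw [← h6]
    exact Finset.sum_congr rfl fun i _ => by ring
  have h7 : w ⬝ᵥ ((Gm B)⁻¹ *ᵥ w) = ∑ i, (μ i)⁻¹ * y i ^ 2 := by
    rw [hinv, ← mulVec_mulVec, ← mulVec_mulVec, dotProduct_mulVec, ← mulVec_transpose, ← hy]
    unfold dotProduct
    refine Finset.sum_congr rfl fun i _ => ?_
    rw [mulVec_diagonal]
    ring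
  rw [h5, h7, Finset.mul_sum]
  refine Finset.sum_le_sum fun i _ => ?_
  have h8 := BlockEstA_prod μ h1 hc i
  rw [← htr, ← hdet] at h8
  have h9 : 1 ≤ tG B * (Gm B).det * (μ i)⁻¹ := by
    rw [← div_eq_mul_inv, le_div_iff₀ (hpos i), one_mul]
    exact h8
  have h10 := sq_nonneg (y i)
  calc y i ^ 2 = 1 * y i ^ 2 := by ring
    _ ≤ (tG B * (Gm B).det * (μ i)⁻¹) * y i ^ 2 := mul_le_mul_of_nonneg_right h9 h10
    _ = _ := by ring

theorem one_add_lam_sq_pow_le (m : ℕ) (hm : 1 ≤ m) (hc : Fintype.card ι = 2 * m)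
    (B : Matrix ι ι ℝ) : (1 + (tB B / tG B) ^ 2) ^ m ≤ d0 B := by
  have hne : Nonempty ι := Fintype.card_pos_iff.mp (by omega)
  have hτ := tG_pos B
  have hle := tG_le B
  have hsq := tB_sq_le B
  rw [hc] at hle hsq
  push_cast at hle hsq
  have hm0 : (0 : ℝ) < m := by exact_mod_cast (by omega : 0 < m)
  have h1 : 1 + (tB B / tG B) ^ 2 ≤ (2 * m) / tG B := by
    rw [div_pow, le_div_iff₀ hτ]
    have h2 : (tB B) ^ 2 / (tG B) ^ 2 * tG B = (tB B) ^ 2 / tG B := by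
      field_simp
    have h3 : (tB B) ^ 2 / tG B ≤ 2 * m - tG B := by
      rw [div_le_iff₀ hτ]
      linarith
    calc (1 + (tB B) ^ 2 / (tG B) ^ 2) * tG B
        = tG B + (tB B) ^ 2 / (tG B) ^ 2 * tG B := by ring
      _ ≤ (2 * m : ℝ) := by rw [h2]; linarith
  have h4 := det_le_trace_pow ((Gm B)⁻¹) (Gm_posDef B).inv.posSemidef
  have h5 : ((Gm B)⁻¹).trace = tG B := rfl
  rw [h5, hc, det_nonsing_inv, Ring.inverse_eq_inv', ← d0_sq] at h4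
  push_cast at h4
  have hd := one_le_d0 B
  have hd2 : 0 < (d0 B) ^ 2 := by positivity
  have h6 : (((2 * m) / tG B) ^ m) ^ 2 ≤ (d0 B) ^ 2 := by
    have h7 : (((2 * (m : ℝ)) / tG B) ^ m) ^ 2 = ((tG B / (2 * m)) ^ (2 * m))⁻¹ := by
      rw [← inv_pow, inv_div, ← pow_mul, mul_comm m 2]
    rw [h7]
    have h8 : 0 < (tG B / (2 * m)) ^ (2 * m) := by positivity
    rw [inv_le_comm₀ h8 hd2]
    exact h4
  have h9 : ((2 * m) / tG B) ^ m ≤ d0 B := by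
    refine le_of_sq_le_sq h6 (by linarith)
  exact (pow_le_pow_left₀ (by positivity) h1 m).trans h9

theorem frob_sub_le (m : ℕ) (hm : 1 ≤ m) (hc : Fintype.card ι = 2 * m) (B : Matrix ι ι ℝ) :
    ∑ i, ∑ j, ((B - (tB B / tG B) • (1 : Matrix ι ι ℝ)) i j) ^ 2 ≤
      (2 * m : ℝ) ^ 2 * ((tG B / (2 * m)) * (1 - tG B / (2 * m)) - (tB B / (2 * m)) ^ 2)
        * (d0 B) ^ 2 := by
  have hne : Nonempty ι := Fintype.card_pos_iff.mp (by omega)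
  have hτ := tG_pos B
  have hm0 : (0 : ℝ) < m := by exact_mod_cast (by omega : 0 < m)
  obtain ⟨M, hM⟩ : ∃ M, M = B - (tB B / tG B) • (1 : Matrix ι ι ℝ) := ⟨_, rfl⟩
  have h1 := trace_shift B (tB B / tG B)
  rw [← hM] at h1 ⊢
  have h2 : (M * (Gm B)⁻¹ * Mᵀ).trace = ∑ i, (M i) ⬝ᵥ ((Gm B)⁻¹ *ᵥ (M i)) := by
    unfold Matrix.trace
    refine Finset.sum_congr rfl fun i _ => ?_
    rw [diag_apply, dotProduct_mulVec]
    rfl
  have h3 : ∑ i, ∑ j, (M i j) ^ 2 = ∑ i, (M i) ⬝ᵥ (M i) := by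
    refine Finset.sum_congr rfl fun i _ => ?_
    unfold dotProduct
    exact Finset.sum_congr rfl fun j _ => by ring
  have h4 : ∑ i, (M i) ⬝ᵥ (M i) ≤ (tG B * (Gm B).det) * (M * (Gm B)⁻¹ * Mᵀ).trace := by
    rw [h2, Finset.mul_sum]
    exact Finset.sum_le_sum fun i _ => BlockEstA_psd B (by omega) (M i)
  rw [h3]
  refine h4.trans (le_of_eq ?_)
  rw [h1, ← d0_sq, hc]
  push_cast
  field_simp
  ring

end Pool.UVF
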