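import Pool.Agent.Lib.MP_28fba0_gt.UV.WProd
import Pool.Agent.Lib.MP_28fba0_gt.UV.Alg

/-!
# UV-ClassA1 (part of ClassA): first consequences of the limit equation

`h : LimitData V lam`; `x̂ = hat x`; on the ball a.e. `x ≠ 0`, `‖x̂‖ = 1`, `⟪x̂, V⟫ = 0`, `‖V‖ = 1`.
* sizes: `V x j` bounded by `1`, `lam ∈ L²(mB) ⊆ L¹(mB)` (finite measure), `a0`, `c0` entries are
  `≤ 3|lam| + 2` hence in `L²`; dividing by `‖x‖` keeps `LocL2`.
* `gradV`: `HasWGrad.smooth_mul` with `ψ = ‖x‖⁻¹`, `f = ‖x‖ V_j`: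
  `‖x‖⁻¹ a0_{ji} + ∂_i(‖x‖⁻¹) ‖x‖ V_j = (a0_{ji} - V_j x̂_i)/‖x‖ = c0_{ji}/‖x‖` (`a0_sub`).
* `div53`: `∫ a_{jj} ∂_iφ = - ∫ U_j ∂_j∂_iφ = ∫ a_{ji} ∂_jφ` (`U_j = ‖x‖ V_j`; apply `h.grad j` to the
  test functions `pd i φ`, `pd j φ`; `pd_comm`); sum over `j`, `∑ a_{jj} = (d-2) lam`
  (`sum_a0_diag`).
* `divV`: sum of `gradV` (`j = i`), `sum_c0_diag`.
* `div_hat`: the field `x̂` is smooth off `0` with divergence `(d-1)/‖x‖` (`pd_hat`; integration by
  parts with smooth functions; or apply `HasWGrad.smooth_mul` to `f = 1`, `g = 0`).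
-/

open Matrix Real Set MeasureTheory
open scoped RealInnerProductSpace ContDiff

namespace Pool.UVF

variable {d : ℕ} {V : Eu d → Eu d} {lam : Eu d → ℝ}

private theorem classA1_fin : IsFiniteMeasure (mB d) := by
  refine ⟨?_⟩
  unfold mB Bd
  rw [Measure.restrict_apply_univ]
  exact measure_ball_lt_top

private theorem classA1_meas_hat : Measurable (hat : Eu d → Eu d) := by
  unfold hat
  exact (measurable_norm.inv).smul measurable_id

private theorem classA1_meas_coord (j : Fin d) : Measurable (fun x : Eu d => x j) :=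
  (EuclideanSpace.proj j : Eu d →L[ℝ] ℝ).continuous.measurable

/-- everything that holds a.e. -/
theorem LimitData.ae_all (hd : 2 ≤ d) (h : LimitData V lam) :
    ∀ᵐ x ∂(mB d), x ≠ 0 ∧ ‖hat x‖ = 1 ∧ ‖V x‖ = 1 ∧ ⟪hat x, V x⟫ = 0 := by
  haveI : Nonempty (Fin d) := ⟨⟨0, by omega⟩⟩
  have h0 : ∀ᵐ x ∂(mB d), x ≠ 0 := by
    unfold mB
    apply ae_restrict_of_ae
    have : (volume : Measure (Eu d)) {(0 : Eu d)} = 0 := measure_singleton 0
    exact compl_mem_ae_iff.2 this
  filter_upwards [h0, h.unit] with x hx hu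
  have hn : ‖x‖ ≠ 0 := norm_ne_zero_iff.2 hx
  refine ⟨hx, ?_, hu.1, ?_⟩
  · unfold hat
    rw [norm_smul, norm_inv, norm_norm, inv_mul_cancel₀ hn]
  · unfold hat
    rw [real_inner_smul_left, hu.2, mul_zero]

theorem LimitData.integrable_lam (h : LimitData V lam) : Integrable lam (mB d) := by
  haveI := classA1_fin (d := d)
  have h1 : Integrable (fun x => 1 + lam x ^ 2) (mB d) := (integrable_const 1).add h.l2
  refine h1.mono' h.mlam.aestronglyMeasurable (Filter.Eventually.of_forall fun x => ?_)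
  rw [Real.norm_eq_abs]
  nlinarith [sq_nonneg (|lam x| - 1), sq_abs (lam x), abs_nonneg (lam x)]

theorem LimitData.abs_V_le (hd : 2 ≤ d) (h : LimitData V lam) (j : Fin d) :
    ∀ᵐ x ∂(mB d), |V x j| ≤ 1 := by
  filter_upwards [h.ae_all hd] with x hx
  rw [← hx.2.2.1, ← Real.norm_eq_abs]
  exact PiLp.norm_apply_le (V x) j

theorem LimitData.locL2_a0 (hd : 2 ≤ d) (h : LimitData V lam) (j i : Fin d) :
    LocL2 (fun x => a0 (lam x) (hat x) (V x) j i) := by
  haveI := classA1_fin (d := d)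
  have hc : ∀ k : Fin d, Measurable (fun x => V x k) := fun k =>
    (classA1_meas_coord k).comp h.mV
  have hh : ∀ k : Fin d, Measurable (fun x : Eu d => hat x k) := fun k =>
    (classA1_meas_coord k).comp classA1_meas_hat
  have hm : Measurable (fun x => a0 (lam x) (hat x) (V x) j i) := by
    unfold a0
    simp only [Matrix.of_apply]
    exact ((h.mlam.mul ((measurable_const.sub ((hh j).mul (hh i))).sub ((hc j).mul (hc i)))).add
      ((hc j).mul (hh i))).sub ((hh j).mul (hc i))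
  refine ⟨hm.aestronglyMeasurable, fun r₀ _ => ?_⟩
  have hi : Integrable (fun x => a0 (lam x) (hat x) (V x) j i ^ 2) (mB d) := by
    have h1 : Integrable (fun x => 18 * lam x ^ 2 + 8) (mB d) :=
      (h.l2.const_mul 18).add (integrable_const 8)
    refine h1.mono' (hm.pow_const 2).aestronglyMeasurable ?_
    filter_upwards [h.ae_all hd] with x hx
    have hb := abs_a0_le (l := lam x) hx.2.1 hx.2.2.1 j i
    rw [Real.norm_eq_abs, abs_pow]
    have hb0 := abs_nonneg (a0 (lam x) (hat x) (V x) j i)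
    have hl := abs_nonneg (lam x)
    have h2 := sq_abs (lam x)
    nlinarith [mul_self_le_mul_self hb0 hb, sq_nonneg (3 * |lam x| - 2)]
  exact hi.integrableOn

theorem LimitData.locL2_c0 (hd : 2 ≤ d) (h : LimitData V lam) (j i : Fin d) :
    LocL2 (fun x => c0 (lam x) (hat x) (V x) j i / ‖x‖) := by
  haveI := classA1_fin (d := d)
  have hc : ∀ k : Fin d, Measurable (fun x => V x k) := fun k =>
    (classA1_meas_coord k).comp h.mV
  have hh : ∀ k : Fin d, Measurable (fun x : Eu d => hat x k) := fun k =>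
    (classA1_meas_coord k).comp classA1_meas_hat
  have hm : Measurable (fun x => c0 (lam x) (hat x) (V x) j i / ‖x‖) := by
    unfold c0
    simp only [Matrix.of_apply]
    exact ((h.mlam.mul ((measurable_const.sub ((hh j).mul (hh i))).sub ((hc j).mul (hc i)))).sub
      ((hh j).mul (hc i))).div measurable_norm
  refine ⟨hm.aestronglyMeasurable, fun r₀ hr => ?_⟩
  have hs : MeasurableSet {x : Eu d | r₀ ≤ ‖x‖} := measurableSet_le measurable_const measurable_norm
  have h1 : Integrable (fun x => (18 * lam x ^ 2 + 18) / r₀ ^ 2) ((mB d).restrict {x | r₀ ≤ ‖x‖}) :=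
    (((h.l2.const_mul 18).add (integrable_const 18)).div_const _).integrableOn
  refine h1.mono' (hm.pow_const 2).aestronglyMeasurable ?_
  rw [ae_restrict_iff' hs]
  filter_upwards [h.ae_all hd, h.abs_V_le hd j] with x hx hVj hxr
  have hb := abs_a0_le (l := lam x) hx.2.1 hx.2.2.1 j i
  have hy : |hat x i| ≤ 1 := by
    rw [← hx.2.1, ← Real.norm_eq_abs]
    exact PiLp.norm_apply_le (hat x) i
  have hc1 : |c0 (lam x) (hat x) (V x) j i| ≤ 3 * |lam x| + 3 := by
    rw [← a0_sub]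
    have h3 : |V x j * hat x i| ≤ 1 := by
      rw [abs_mul]
      exact mul_le_one₀ hVj (abs_nonneg _) hy
    calc |a0 (lam x) (hat x) (V x) j i - V x j * hat x i|
        ≤ |a0 (lam x) (hat x) (V x) j i| + |V x j * hat x i| := abs_sub _ _
      _ ≤ 3 * |lam x| + 3 := by linarith
  have hr' : r₀ ≤ ‖x‖ := hxr
  rw [Real.norm_eq_abs, abs_pow, abs_div, abs_norm, div_pow]
  have hb0 := abs_nonneg (c0 (lam x) (hat x) (V x) j i)
  have hl := abs_nonneg (lam x)
  have h2 := sq_abs (lam x)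
  apply div_le_div₀ (by positivity) ?_ (by positivity) (pow_le_pow_left₀ hr.le hr' 2)
  nlinarith [mul_self_le_mul_self hb0 hc1, sq_nonneg (3 * |lam x| - 3)]

end Pool.UVF
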