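import Pool.Agent.Lib.MP_28fba0_gt.UV.WProd
import Pool.Agent.Lib.MP_28fba0_gt.UV.Alg
import Pool.Agent.Lib.MP_28fba0_gt.UV.ClassA1

/-!
# UV-ClassA2 (part of ClassA): first consequences of the limit equation

`h : LimitData V lam`; `x̂ = hat x`; on the ball a.e. `x ≠ 0`, `‖x̂‖ = 1`, `⟪x̂, V⟫ = 0`, `‖V‖ = 1`.
* sizes: `V x j` bounded by `1`, `lam ∈ L²(mB) ⊆ L¹(mB)` (finite measure), `a0`, `c0` entries are
  `≤ 3|lam| + 2` hence in `L²`; dividing by `‖x‖` keeps `LocL2`.
* `gradV`: `HasWGrad.smooth_mul` with `ψ = ‖x‖⁻¹`, `f = ‖x‖ V_j`: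
  `‖x‖⁻¹ a0_{ji} + ∂_i(‖x‖⁻¹) ‖x‖ V_j = (a0_{ji} - V_j x̂_i)/‖x‖ = c0_{ji}/‖x‖` (`a0_sub`).
* `div53`: `∫ a_{jj} ∂_iφ = - ∫ U_j ∂_j∂_iφ = ∫ a_{ji} ∂_jφ` (`U_j = ‖x‖ V_j`; apply `h.grad j` to the
  test functions `pd i φ`, `pd j φ`; `pd_comm`); sum over `j`, `∑ a_{jj} = (d-2) lam`
  (`sum_a0_diag`).
* `divV`: sum of `gradV` (`j = i`), `sum_c0_diag`.
* `div_hat`: the field `x̂` is smooth off `0` with divergence `(d-1)/‖x‖` (`pd_hat`; integration by
  parts with smooth functions; or apply `HasWGrad.smooth_mul` to `f = 1`, `g = 0`).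
-/

open Matrix Real Set MeasureTheory
open scoped RealInnerProductSpace ContDiff

namespace Pool.UVF

variable {d : ℕ} {V : Eu d → Eu d} {lam : Eu d → ℝ}

private theorem classA2_fin : IsFiniteMeasure (mB d) := by
  refine ⟨?_⟩
  unfold mB Bd
  rw [Measure.restrict_apply_univ]
  exact measure_ball_lt_top

private theorem classA2_meas_hat (j : Fin d) : Measurable (fun x : Eu d => hat x j) := by
  have h1 : Measurable (hat : Eu d → Eu d) := by
    unfold hat
    exact (measurable_norm.inv).smul measurable_id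
  exact (EuclideanSpace.proj j : Eu d →L[ℝ] ℝ).continuous.measurable.comp h1

private theorem classA2_ball : ∀ᵐ x ∂(mB d), ‖x‖ < 1 := by
  unfold mB Bd
  filter_upwards [ae_restrict_mem (μ := (volume : Measure (Eu d)))
    (measurableSet_ball (x := (0 : Eu d)) (ε := 1))] with x hx
  simpa using hx

private theorem classA2_locL1 {g : Eu d → ℝ} (hg : LocL2 g) : LocL1 g := by
  intro r₀ hr
  haveI := classA2_fin (d := d)
  have h1 : Integrable (fun x => 1 + g x ^ 2) ((mB d).restrict {x | r₀ ≤ ‖x‖}) :=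
    (integrable_const 1).add (hg.2 r₀ hr)
  refine h1.mono' hg.1.restrict (Filter.Eventually.of_forall fun x => ?_)
  rw [Real.norm_eq_abs]
  nlinarith [sq_nonneg (|g x| - 1), sq_abs (g x), abs_nonneg (g x)]

private theorem classA2_int {g φ : Eu d → ℝ} (hg : LocL1 g) (hφ : IsTest φ) :
    Integrable (fun x => g x * φ x) (mB d) := by
  obtain ⟨C, _, hC, _, _⟩ := hφ.bdd
  obtain ⟨r₀, hr, _, h0⟩ := hφ.zero_near
  exact hg.integrable_mul hφ.smooth.continuous.aestronglyMeasurable hC hr
    (fun x hx => (h0 x (Or.inl hx)).1)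

private theorem classA2_int_pd {g φ : Eu d → ℝ} (hg : LocL1 g) (hφ : IsTest φ) (i : Fin d) :
    Integrable (fun x => g x * pd i φ x) (mB d) := by
  obtain ⟨C, _, _, hC, _⟩ := hφ.bdd
  obtain ⟨r₀, hr, _, h0⟩ := hφ.zero_near
  exact hg.integrable_mul (hφ.continuous_pd i).aestronglyMeasurable (hC i) hr
    (fun x hx => (h0 x (Or.inl hx)).2.1 i)

private theorem classA2_hat_le {x : Eu d} (hx : x ≠ 0) (j : Fin d) : |hat x j| ≤ 1 := by
  have h1 : ‖hat x‖ = 1 := by
    unfold hat
    rw [norm_smul, norm_inv, norm_norm, inv_mul_cancel₀ (norm_ne_zero_iff.2 hx)]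
  rw [← h1, ← Real.norm_eq_abs]
  exact PiLp.norm_apply_le (hat x) j

theorem LimitData.gradV (hd : 2 ≤ d) (h : LimitData V lam) (j : Fin d) :
    HasWGrad (fun x => V x j) (fun i x => c0 (lam x) (hat x) (V x) j i / ‖x‖) := by
  haveI := classA2_fin (d := d)
  have hVm : Measurable (fun x => V x j) :=
    (EuclideanSpace.proj j : Eu d →L[ℝ] ℝ).continuous.measurable.comp h.mV
  have hf : LocL1 (fun x => ‖x‖ * V x j) := by
    intro r₀ _
    have : Integrable (fun x => ‖x‖ * V x j) (mB d) := by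
      refine (integrable_const (1 : ℝ)).mono' (measurable_norm.mul hVm).aestronglyMeasurable ?_
      filter_upwards [h.abs_V_le hd j, classA2_ball (d := d)] with x hx hb
      rw [Real.norm_eq_abs, abs_mul, abs_norm]
      exact mul_le_one₀ hb.le (abs_nonneg _) hx
    exact this.integrableOn
  have hg : ∀ i, LocL1 (fun x => a0 (lam x) (hat x) (V x) j i) := fun i =>
    classA2_locL1 (h.locL2_a0 hd j i)
  have h1 := HasWGrad.smooth_mul hf hg (h.grad j) (contDiffOn_inv_norm (d := d))
  intro φ hφ i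
  have h2 := h1 φ hφ i
  calc ∫ x, V x j * pd i φ x ∂(mB d)
      = ∫ x, ‖x‖⁻¹ * (‖x‖ * V x j) * pd i φ x ∂(mB d) := by
        apply integral_congr_ae
        filter_upwards [h.ae_all hd] with x hx
        have hn : ‖x‖ ≠ 0 := norm_ne_zero_iff.2 hx.1
        rw [← mul_assoc, inv_mul_cancel₀ hn, one_mul]
    _ = _ := h2
    _ = _ := by
        congr 1
        apply integral_congr_ae
        filter_upwards [h.ae_all hd] with x hx
        have hn : ‖x‖ ≠ 0 := norm_ne_zero_iff.2 hx.1
        rw [pd_inv_norm hx.1, ← a0_sub]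
        field_simp
        ring

theorem LimitData.divV (hd : 2 ≤ d) (h : LimitData V lam) :
    HasWDiv (fun j x => V x j) (fun x => (d - 2 : ℝ) * lam x / ‖x‖) := by
  haveI := classA2_fin (d := d)
  have hVm : ∀ j, Measurable (fun x => V x j) := fun j =>
    (EuclideanSpace.proj j : Eu d →L[ℝ] ℝ).continuous.measurable.comp h.mV
  have hV1 : ∀ j, LocL1 (fun x => V x j) := by
    intro j r₀ _
    have : Integrable (fun x => V x j) (mB d) := by
      refine (integrable_const (1 : ℝ)).mono' (hVm j).aestronglyMeasurable ?_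
      filter_upwards [h.abs_V_le hd j] with x hx
      rw [Real.norm_eq_abs]
      exact hx
    exact this.integrableOn
  intro φ hφ
  have hc : ∀ j, Integrable (fun x => c0 (lam x) (hat x) (V x) j j / ‖x‖ * φ x) (mB d) := fun j =>
    classA2_int (classA2_locL1 (h.locL2_c0 hd j j)) hφ
  rw [integral_finsetSum _ fun j _ => classA2_int_pd (hV1 j) hφ j,
    Finset.sum_congr rfl fun j _ => h.gradV hd j φ hφ j, Finset.sum_neg_distrib,
    ← integral_finsetSum _ fun j _ => hc j]
  congr 1
  apply integral_congr_ae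
  filter_upwards [h.ae_all hd] with x hx
  rw [← Finset.sum_mul, ← Finset.sum_div, sum_c0_diag hx.2.1 hx.2.2.1 hx.2.2.2]

private theorem classA2_zero (φ : Eu d → ℝ) (hφ : IsTest φ) (i : Fin d) :
    ∫ x, pd i φ x ∂(mB d) = 0 := by
  have h1 : ∫ x, pd i φ x ∂(mB d) = ∫ x, pd i φ x := by
    unfold mB
    apply setIntegral_eq_integral_of_forall_compl_eq_zero
    intro x hx
    obtain ⟨r₀, hr, _, h0⟩ := hφ.zero_near
    refine (h0 x (Or.inr ?_)).2.1 i
    have : ¬ ‖x‖ < 1 := fun hlt => hx (by simpa [Bd] using hlt)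
    linarith
  rw [h1]
  have hcpt : HasCompactSupport (pd i φ) := by
    have := hφ.cpt.fderiv (𝕜 := ℝ)
    exact this.comp_left (g := fun L : Eu d →L[ℝ] ℝ => L (EuclideanSpace.single i (1 : ℝ))) rfl
  have h2 := integral_mul_fderiv_eq_neg_fderiv_mul_of_integrable (μ := (volume : Measure (Eu d)))
    (f := fun _ : Eu d => (1 : ℝ)) (g := φ) (v := EuclideanSpace.single i (1 : ℝ))
    (by simp) (by
      have : Integrable (pd i φ) := (hφ.continuous_pd i).integrable_of_hasCompactSupport hcpt
      simp only [one_mul]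
      exact this)
    (by simpa using hφ.smooth.continuous.integrable_of_hasCompactSupport hφ.cpt)
    (fun x _ => differentiableAt_const _)
    (fun x _ => (hφ.smooth.differentiable (by simp)).differentiableAt)
  simpa [pd] using h2

theorem div_hat (hd : 2 ≤ d) :
    HasWDiv (fun (j : Fin d) (x : Eu d) => hat x j) (fun x => (d - 1 : ℝ) / ‖x‖) := by
  haveI := classA2_fin (d := d)
  haveI : Nonempty (Fin d) := ⟨⟨0, by omega⟩⟩
  have hne : ∀ᵐ x ∂(mB d), x ≠ 0 := by
    unfold mB
    apply ae_restrict_of_ae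
    have : (volume : Measure (Eu d)) {(0 : Eu d)} = 0 := measure_singleton 0
    exact compl_mem_ae_iff.2 this
  have hgrad : ∀ j : Fin d, HasWGrad (fun x : Eu d => hat x j)
      (fun i x => ((if j = i then 1 else 0) - hat x j * hat x i) / ‖x‖) := by
    intro j
    have h1 : HasWGrad (fun _ : Eu d => (1 : ℝ)) (fun _ _ => 0) := by
      intro φ hφ i
      simp [classA2_zero φ hφ i]
    have hL1 : LocL1 (fun _ : Eu d => (1 : ℝ)) := fun r₀ _ => (integrable_const 1).integrableOn
    have hL0 : ∀ i : Fin d, LocL1 ((fun (_ : Fin d) (_ : Eu d) => (0 : ℝ)) i) := fun i r₀ _ =>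
      (integrable_const 0).integrableOn
    have h2 := HasWGrad.smooth_mul hL1 hL0 h1 (contDiffOn_hat j)
    intro φ hφ i
    have h3 := h2 φ hφ i
    calc ∫ x, hat x j * pd i φ x ∂(mB d) = ∫ x, hat x j * 1 * pd i φ x ∂(mB d) := by
          simp only [mul_one]
      _ = _ := h3
      _ = _ := by
          congr 1
          apply integral_congr_ae
          filter_upwards [hne] with x hx
          rw [pd_hat hx]
          ring
  have hh1 : ∀ j : Fin d, LocL1 (fun x : Eu d => hat x j) := by
    intro j r₀ _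
    have : Integrable (fun x : Eu d => hat x j) (mB d) := by
      refine (integrable_const (1 : ℝ)).mono' (classA2_meas_hat j).aestronglyMeasurable ?_
      filter_upwards [hne] with x hx
      rw [Real.norm_eq_abs]
      exact classA2_hat_le hx j
    exact this.integrableOn
  have hq : ∀ j : Fin d, LocL1 (fun x : Eu d =>
      ((if j = j then (1 : ℝ) else 0) - hat x j * hat x j) / ‖x‖) := by
    intro j r₀ hr
    have hs : MeasurableSet {x : Eu d | r₀ ≤ ‖x‖} :=
      measurableSet_le measurable_const measurable_norm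
    have hm : Measurable (fun x : Eu d =>
        ((if j = j then (1 : ℝ) else 0) - hat x j * hat x j) / ‖x‖) :=
      (measurable_const.sub ((classA2_meas_hat j).mul (classA2_meas_hat j))).div measurable_norm
    refine Integrable.mono' (integrable_const (2 / r₀)) hm.aestronglyMeasurable ?_
    rw [ae_restrict_iff' hs]
    filter_upwards [hne] with x hx hxr
    have hr' : r₀ ≤ ‖x‖ := hxr
    rw [Real.norm_eq_abs, abs_div, abs_norm]
    apply div_le_div₀ (by norm_num) ?_ hr hr'
    have h1 := classA2_hat_le hx j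
    have h2 : |hat x j * hat x j| ≤ 1 := by
      rw [abs_mul]
      exact mul_le_one₀ h1 (abs_nonneg _) h1
    rw [if_pos rfl]
    calc |1 - hat x j * hat x j| ≤ |(1 : ℝ)| + |hat x j * hat x j| := abs_sub _ _
      _ ≤ 2 := by rw [abs_one]; linarith
  intro φ hφ
  rw [integral_finsetSum _ fun j _ => classA2_int_pd (hh1 j) hφ j,
    Finset.sum_congr rfl fun j _ => hgrad j φ hφ j, Finset.sum_neg_distrib,
    ← integral_finsetSum _ fun j _ => classA2_int (hq j) hφ]
  congr 1
  apply integral_congr_ae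
  filter_upwards [hne] with x hx
  have hn : ‖hat x‖ = 1 := by
    unfold hat
    rw [norm_smul, norm_inv, norm_norm, inv_mul_cancel₀ (norm_ne_zero_iff.2 hx)]
  have hsq : ∑ j, hat x j * hat x j = 1 := by
    have := EuclideanSpace.real_norm_sq_eq (hat x)
    rw [hn] at this
    calc ∑ j, hat x j * hat x j = ∑ j, hat x j ^ 2 := by simp only [pow_two]
      _ = 1 := by rw [← this]; norm_num
  rw [← Finset.sum_mul, ← Finset.sum_div, Finset.sum_sub_distrib, hsq]
  simp

end Pool.UVF
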