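import Pool.Agent.Lib.MP_28fba0_gt.UV.WProd
import Pool.Agent.Lib.MP_28fba0_gt.UV.Alg
import Pool.Agent.Lib.MP_28fba0_gt.UV.ClassA1

/-!
# UV-ClassA3 (part of ClassA): first consequences of the limit equation

`h : LimitData V lam`; `x̂ = hat x`; on the ball a.e. `x ≠ 0`, `‖x̂‖ = 1`, `⟪x̂, V⟫ = 0`, `‖V‖ = 1`.
* sizes: `V x j` bounded by `1`, `lam ∈ L²(mB) ⊆ L¹(mB)` (finite measure), `a0`, `c0` entries are
  `≤ 3|lam| + 2` hence in `L²`; dividing by `‖x‖` keeps `LocL2`.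
* `gradV`: `HasWGrad.smooth_mul` with `ψ = ‖x‖⁻¹`, `f = ‖x‖ V_j`:
  `‖x‖⁻¹ a0_{ji} + ∂_i(‖x‖⁻¹) ‖x‖ V_j = (a0_{ji} - V_j x̂_i)/‖x‖ = c0_{ji}/‖x‖` (`a0_sub`).
* `div53`: `∫ a_{jj} ∂_iφ = - ∫ U_j ∂_j∂_iφ = ∫ a_{ji} ∂_jφ` (`U_j = ‖x‖ V_j`; apply `h.grad j` to the
  test functions `pd i φ`, `pd j φ`; `pd_comm`); sum over `j`, `∑ a_{jj} = (d-2) lam`
  (`sum_a0_diag`).
* `divV`: sum of `gradV` (`j = i`), `sum_c0_diag`.
* `div_hat`: the field `x̂` is smooth off `0` with divergence `(d-1)/‖x‖` (`pd_hat`; integration by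
  parts with smooth functions; or apply `HasWGrad.smooth_mul` to `f = 1`, `g = 0`).
-/

open Matrix Real Set MeasureTheory
open scoped RealInnerProductSpace ContDiff

namespace Pool.UVF

variable {d : ℕ} {V : Eu d → Eu d} {lam : Eu d → ℝ}

private theorem ClassA3_int (hd : 2 ≤ d) (h : LimitData V lam) (j i : Fin d) {ψ : Eu d → ℝ}
    (hψ : Continuous ψ) {C : ℝ} (hC : ∀ x, |ψ x| ≤ C) :
    Integrable (fun x => a0 (lam x) (hat x) (V x) j i * ψ x) (mB d) := by
  have hm := (h.locL2_a0 hd j i).1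
  have hlam := h.integrable_lam
  have hfin : IsFiniteMeasure (mB d) := by
    refine ⟨?_⟩
    rw [mB, Measure.restrict_apply_univ]
    exact measure_ball_lt_top
  have hb : Integrable (fun x => (3 * |lam x| + 2) * C) (mB d) :=
    ((hlam.abs.const_mul 3).add (integrable_const 2)).mul_const C
  refine hb.mono' (hm.mul hψ.aestronglyMeasurable) ?_
  filter_upwards [h.ae_all hd] with x hx
  rw [norm_mul, Real.norm_eq_abs, Real.norm_eq_abs]
  exact mul_le_mul (abs_a0_le hx.2.1 hx.2.2.1 j i) (hC x) (abs_nonneg _) (by positivity)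

theorem LimitData.div53 (hd : 2 ≤ d) (h : LimitData V lam) (i : Fin d) :
    HasWDiv (fun j x => (if j = i then (d - 2 : ℝ) * lam x else 0)
      - a0 (lam x) (hat x) (V x) j i) (fun _ => 0) := by
  intro φ hφ
  obtain ⟨C, hC0, _, hC, _⟩ := hφ.bdd
  have hI : ∀ j k l : Fin d,
      Integrable (fun x => a0 (lam x) (hat x) (V x) j k * pd l φ x) (mB d) :=
    fun j k l => ClassA3_int hd h j k (hφ.continuous_pd l) (hC l)
  have h1 : ∀ j : Fin d, ∫ x, a0 (lam x) (hat x) (V x) j j * pd i φ x ∂(mB d)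
      = ∫ x, a0 (lam x) (hat x) (V x) j i * pd j φ x ∂(mB d) := by
    intro j
    have e1 := h.grad j (pd i φ) (hφ.pd_test i) j
    have e2 := h.grad j (pd j φ) (hφ.pd_test j) i
    have e3 : (fun x => ‖x‖ * V x j * pd j (pd i φ) x)
        = fun x => ‖x‖ * V x j * pd i (pd j φ) x := by
      funext x
      rw [pd_comm hφ]
    simp only [e3] at e1
    rw [e1] at e2
    exact neg_injective e2
  have h2 : ∀ᵐ x ∂(mB d), (∑ j, ((if j = i then (d - 2 : ℝ) * lam x else 0)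
      - a0 (lam x) (hat x) (V x) j i) * pd j φ x)
      = ∑ j, a0 (lam x) (hat x) (V x) j j * pd i φ x
        - ∑ j, a0 (lam x) (hat x) (V x) j i * pd j φ x := by
    filter_upwards [h.ae_all hd] with x hx
    have h3 := sum_a0_diag hx.2.1 hx.2.2.1 (lam x)
    simp only [sub_mul, Finset.sum_sub_distrib, ite_mul, zero_mul, Finset.sum_ite_eq',
      Finset.mem_univ, if_true]
    rw [← Finset.sum_mul, h3]
    ring
  rw [integral_congr_ae h2, integral_sub (integrable_finsetSum _ fun j _ => hI j j i)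
    (integrable_finsetSum _ fun j _ => hI j i j), integral_finsetSum _ (fun j _ => hI j j i),
    integral_finsetSum _ (fun j _ => hI j i j), Finset.sum_congr rfl (fun j _ => h1 j), sub_self]
  simp

end Pool.UVF
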