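import Pool.Agent.Lib.MP_28fba0_gt.UV.ClassA

/-!
# UV-ClassB: the weak divergence of `λ V` (equation (5.5))

`HasWDiv.mul` with `X = X^i = ((d-2) lam δ_{ij} - a_{ji})_j`, `ρ = 0`, `u = V_i`, `g_j = c_{ij}/‖x‖`, summed
over `i`:
`0 = ∑_{ij} ∫ ((d-2) lam δ_{ij} - a_{ji}) (V_i ∂_jφ + c_{ij}/‖x‖ φ)`
`  = (d-2) ∫ lam V·∇φ - ∫ (a V)·∇φ + ∫ ((d-2) lam tr c - tr (a c)) φ/‖x‖`,
`a V = - x̂` (`a0_mul_v`), `tr c = (d-2) lam`, `tr (a c) = (d-2) lam² - 1` (`trace_a0_c0`) and
`∫ x̂·∇φ = - ∫ (d-1) φ/‖x‖` (`div_hat`).  With `N = d - 2`: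
`N ∫ lam V·∇φ = - ∫ x̂·∇φ - ∫ (N² lam² - N lam² + 1) φ/‖x‖ = ∫ (N - N(N-1) lam²) φ/‖x‖`; divide by `N`.
-/

open Matrix Real Set MeasureTheory
open scoped RealInnerProductSpace

namespace Pool.UVF

variable {d : ℕ} {V : Eu d → Eu d} {lam : Eu d → ℝ}

private theorem classB_finite (d : ℕ) : IsFiniteMeasure (mB d) :=
  ⟨by
    rw [mB, Measure.restrict_apply_univ]
    exact measure_ball_lt_top⟩

private theorem classB_coord (hV : Measurable V) (i : Fin d) : Measurable fun x => V x i :=
  (EuclideanSpace.proj i : Eu d →L[ℝ] ℝ).continuous.measurable.comp hV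

private theorem classB_mul {f g : Eu d → ℝ} (hf : LocL2 f) (hg : LocL2 g) :
    LocL1 (fun x => f x * g x) := by
  intro r₀ hr
  have h1 := (hf.2 r₀ hr).add (hg.2 r₀ hr)
  refine Integrable.mono' h1 ((hf.1.mul hg.1).restrict) ?_
  refine Filter.Eventually.of_forall fun x => ?_
  simp only [Real.norm_eq_abs, Pi.add_apply, abs_mul]
  nlinarith [sq_nonneg (|f x| - |g x|), sq_abs (f x), sq_abs (g x), sq_nonneg (f x),
    sq_nonneg (g x)]

private theorem classB_sub {f g : Eu d → ℝ} (hf : LocL2 f) (hg : LocL2 g) :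
    LocL2 (fun x => f x - g x) := by
  refine ⟨hf.1.sub hg.1, fun r₀ hr => ?_⟩
  have h1 := ((hf.2 r₀ hr).add (hg.2 r₀ hr)).const_mul 2
  refine Integrable.mono' h1 (((hf.1.sub hg.1).pow 2).restrict) ?_
  refine Filter.Eventually.of_forall fun x => ?_
  simp only [Real.norm_eq_abs, Pi.add_apply, abs_pow, sq_abs]
  nlinarith [sq_nonneg (f x + g x)]

private theorem classB_lam (h : LimitData V lam) (c : ℝ) : LocL2 (fun x => c * lam x) := by
  refine ⟨(h.mlam.const_mul c).aestronglyMeasurable, fun r₀ _ => ?_⟩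
  have h1 : Integrable (fun x => c ^ 2 * lam x ^ 2) (mB d) := h.l2.const_mul _
  have h2 : (fun x => (c * lam x) ^ 2) = fun x => c ^ 2 * lam x ^ 2 := by
    funext x; ring
  rw [h2]
  exact h1.integrableOn

private theorem classB_zero : LocL2 (fun _ : Eu d => (0 : ℝ)) := by
  refine ⟨aestronglyMeasurable_const, fun r₀ _ => ?_⟩
  simp only [ne_eq, OfNat.ofNat_ne_zero, not_false_eq_true, zero_pow]
  exact integrableOn_zero

private theorem classB_bdd {f : Eu d → ℝ} (hf : Measurable f) {C : ℝ}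
    (hC : ∀ᵐ x ∂(mB d), |f x| ≤ C) : LocL2 f := by
  have := classB_finite d
  refine ⟨hf.aestronglyMeasurable, fun r₀ _ => ?_⟩
  apply Integrable.integrableOn
  refine Integrable.mono' (integrable_const (C ^ 2)) (hf.pow_const 2).aestronglyMeasurable ?_
  filter_upwards [hC] with x hx
  rw [Real.norm_eq_abs, abs_pow]
  exact pow_le_pow_left₀ (abs_nonneg _) hx 2

private theorem classB_int {g φ : Eu d → ℝ} (hg : LocL1 g) (hφ : IsTest φ) :
    Integrable (fun x => g x * φ x) (mB d) := by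
  obtain ⟨C, _, hC, _, _⟩ := hφ.bdd
  obtain ⟨r₀, hr, _, h0⟩ := hφ.zero_near
  exact hg.integrable_mul hφ.smooth.continuous.aestronglyMeasurable hC hr
    (fun x hx => (h0 x (Or.inl hx)).1)

private theorem classB_int' {g φ : Eu d → ℝ} (hg : LocL1 g) (hφ : IsTest φ) (j : Fin d) :
    Integrable (fun x => g x * pd j φ x) (mB d) := by
  obtain ⟨C, _, _, hC, _⟩ := hφ.bdd
  obtain ⟨r₀, hr, _, h0⟩ := hφ.zero_near
  exact hg.integrable_mul (hφ.continuous_pd j).aestronglyMeasurable (hC j) hr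
    (fun x hx => (h0 x (Or.inl hx)).2.1 j)

private theorem classB_hat_meas (j : Fin d) : Measurable fun x : Eu d => hat x j := by
  have h : (fun x : Eu d => hat x j) = fun x : Eu d => ‖x‖⁻¹ * x j := by
    funext x
    simp [hat]
  rw [h]
  exact (measurable_norm.inv).mul
    ((EuclideanSpace.proj j : Eu d →L[ℝ] ℝ).continuous.measurable)

private theorem classB_one_div_norm (d : ℕ) : LocL1 (fun x : Eu d => 1 / ‖x‖) := by
  have := classB_finite d
  intro r₀ hr
  refine Integrable.mono' (integrable_const (1 / r₀))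
    ((measurable_const.div measurable_norm).aestronglyMeasurable) ?_
  have hms : MeasurableSet {x : Eu d | r₀ ≤ ‖x‖} := measurableSet_le measurable_const measurable_norm
  filter_upwards [ae_restrict_mem hms] with x hx
  have hx' : r₀ ≤ ‖x‖ := hx
  rw [Real.norm_eq_abs, abs_of_nonneg (by positivity)]
  exact one_div_le_one_div_of_le hr hx'

private theorem classB_lamsq (h : LimitData V lam) : LocL1 (fun x => lam x ^ 2 / ‖x‖) := by
  intro r₀ hr
  have h1 : Integrable (fun x => (1 / r₀) * lam x ^ 2) (mB d) := h.l2.const_mul _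
  refine Integrable.mono' h1.integrableOn
    (((h.mlam.pow_const 2).div measurable_norm).aestronglyMeasurable) ?_
  have hms : MeasurableSet {x : Eu d | r₀ ≤ ‖x‖} := measurableSet_le measurable_const measurable_norm
  filter_upwards [ae_restrict_mem hms] with x hx
  have hx' : r₀ ≤ ‖x‖ := hx
  have hpos : 0 < ‖x‖ := lt_of_lt_of_le hr hx'
  rw [Real.norm_eq_abs, abs_of_nonneg (by positivity), div_eq_mul_one_div, mul_comm]
  exact mul_le_mul_of_nonneg_right (one_div_le_one_div_of_le hr hx') (sq_nonneg _)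

theorem LimitData.div_lamV (hd : 4 ≤ d) (h : LimitData V lam) :
    HasWDiv (fun j x => lam x * V x j)
      (fun x => - ((1 - (d - 3 : ℝ) * lam x ^ 2) / ‖x‖)) := by
  intro φ hφ
  have hd2 : 2 ≤ d := by omega
  have hdR : (4 : ℝ) ≤ d := by exact_mod_cast hd
  -- the fields
  set X : Fin d → Fin d → Eu d → ℝ := fun i j x =>
    (if j = i then (d - 2 : ℝ) * lam x else 0) - a0 (lam x) (hat x) (V x) j i with hX
  set c : Fin d → Fin d → Eu d → ℝ := fun i j x => c0 (lam x) (hat x) (V x) i j / ‖x‖ with hc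
  have hXL2 : ∀ i j, LocL2 (X i j) := by
    intro i j
    rw [hX]
    apply classB_sub
    · by_cases hji : j = i
      · simp only [hji, if_true]
        exact classB_lam h _
      · simp only [hji, if_false]
        exact classB_zero
    · exact h.locL2_a0 hd2 j i
  have hcL2 : ∀ i j, LocL2 (c i j) := fun i j => h.locL2_c0 hd2 i j
  have hVL2 : ∀ i, LocL2 (fun x => V x i) := fun i =>
    classB_bdd (classB_coord h.mV i) (h.abs_V_le hd2 i)
  have hkey : ∀ i : Fin d, ∫ x, (∑ j, X i j x * (V x i * pd j φ x + c i j x * φ x)) ∂(mB d) = 0 := by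
    intro i
    have h1 := HasWDiv.mul (X := X i) (ρ := fun _ => 0) (u := fun x => V x i) (g := c i)
      (hXL2 i) (fun r₀ _ => integrableOn_zero) (h.div53 hd2 i) (classB_coord h.mV i)
      (h.abs_V_le hd2 i) (hcL2 i) (h.gradV hd2 i) hφ
    rw [h1]
    simp
  have hFint : ∀ i : Fin d,
      Integrable (fun x => ∑ j, X i j x * (V x i * pd j φ x + c i j x * φ x)) (mB d) := by
    intro i
    apply integrable_finsetSum
    intro j _
    have e : (fun x => X i j x * (V x i * pd j φ x + c i j x * φ x))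
        = fun x => (X i j x * V x i) * pd j φ x + (X i j x * c i j x) * φ x := by
      funext x; ring
    rw [e]
    exact (classB_int' (classB_mul (hXL2 i j) (hVL2 i)) hφ j).add
      (classB_int (classB_mul (hXL2 i j) (hcL2 i j)) hφ)
  have hsum : ∫ x, (∑ i, ∑ j, X i j x * (V x i * pd j φ x + c i j x * φ x)) ∂(mB d) = 0 := by
    rw [integral_finsetSum _ (fun i _ => hFint i)]
    exact Finset.sum_eq_zero fun i _ => hkey i
  -- pointwise identity
  have hpt : ∀ᵐ x ∂(mB d), (∑ i, ∑ j, X i j x * (V x i * pd j φ x + c i j x * φ x))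
      = (d - 2 : ℝ) * (∑ j, lam x * V x j * pd j φ x) + (∑ j, hat x j * pd j φ x)
        + (((d - 2 : ℝ) * ((d - 2 : ℝ) - 1)) * (lam x ^ 2 / ‖x‖ * φ x) + 1 / ‖x‖ * φ x) := by
    filter_upwards [h.ae_all hd2] with x hx
    obtain ⟨hx0, hy, hv, hyv⟩ := hx
    have e1 : ∑ i, ∑ j, X i j x * (V x i * pd j φ x)
        = (d - 2 : ℝ) * (∑ j, lam x * V x j * pd j φ x) + ∑ j, hat x j * pd j φ x := by
      rw [Finset.sum_comm, Finset.mul_sum, ← Finset.sum_add_distrib]
      apply Finset.sum_congr rfl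
      intro j _
      have h1 := a0_mul_v hy hv hyv (lam x) j
      calc ∑ i, X i j x * (V x i * pd j φ x)
          = (∑ i, ((if j = i then (d - 2 : ℝ) * lam x else 0) * V x i)
              - ∑ i, a0 (lam x) (hat x) (V x) j i * V x i) * pd j φ x := by
            rw [← Finset.sum_sub_distrib, Finset.sum_mul]
            apply Finset.sum_congr rfl
            intro i _
            rw [hX]
            ring
        _ = ((d - 2 : ℝ) * lam x * V x j + hat x j) * pd j φ x := by
            rw [h1]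
            simp only [ite_mul, zero_mul, Finset.sum_ite_eq, Finset.mem_univ, if_true]
            ring
        _ = _ := by ring
    have e2 : ∑ i, ∑ j, X i j x * (c i j x * φ x)
        = ((d - 2 : ℝ) * ((d - 2 : ℝ) - 1)) * (lam x ^ 2 / ‖x‖ * φ x) + 1 / ‖x‖ * φ x := by
      have h1 := sum_c0_diag hy hv hyv (lam x)
      have h2 := trace_a0_c0 hy hv hyv (lam x)
      have h3 : ∑ i, ∑ j, X i j x * (c i j x * φ x)
          = ((d - 2 : ℝ) * lam x * (∑ i, c0 (lam x) (hat x) (V x) i i)
            - ∑ i, ∑ j, a0 (lam x) (hat x) (V x) j i * c0 (lam x) (hat x) (V x) i j)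
              * (φ x / ‖x‖) := by
        rw [Finset.mul_sum, ← Finset.sum_sub_distrib, Finset.sum_mul]
        apply Finset.sum_congr rfl
        intro i _
        have h4 : ∑ j, X i j x * (c i j x * φ x)
            = (∑ j, (if j = i then (d - 2 : ℝ) * lam x else 0) * c0 (lam x) (hat x) (V x) i j
              - ∑ j, a0 (lam x) (hat x) (V x) j i * c0 (lam x) (hat x) (V x) i j)
                * (φ x / ‖x‖) := by
          rw [← Finset.sum_sub_distrib, Finset.sum_mul]
          apply Finset.sum_congr rfl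
          intro j _
          rw [hX, hc]
          ring
        rw [h4]
        simp only [ite_mul, zero_mul, Finset.sum_ite_eq', Finset.mem_univ, if_true]
      rw [h3, h1, h2]
      ring
    have e3 : (∑ i, ∑ j, X i j x * (V x i * pd j φ x + c i j x * φ x))
        = (∑ i, ∑ j, X i j x * (V x i * pd j φ x)) + ∑ i, ∑ j, X i j x * (c i j x * φ x) := by
      rw [← Finset.sum_add_distrib]
      apply Finset.sum_congr rfl
      intro i _
      rw [← Finset.sum_add_distrib]
      apply Finset.sum_congr rfl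
      intro j _
      ring
    rw [e3, e1, e2]
  rw [integral_congr_ae hpt] at hsum
  -- integrability of the three pieces
  have i1 : Integrable (fun x => ∑ j, lam x * V x j * pd j φ x) (mB d) := by
    apply integrable_finsetSum
    intro j _
    have h1 : LocL2 lam := by
      have := classB_lam h 1
      simpa using this
    exact classB_int' (classB_mul h1 (hVL2 j)) hφ j
  have i2 : Integrable (fun x => ∑ j, hat x j * pd j φ x) (mB d) := by
    apply integrable_finsetSum
    intro j _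
    have hb : LocL2 (fun x : Eu d => hat x j) := by
      apply classB_bdd (classB_hat_meas j) (C := 1)
      filter_upwards [h.ae_all hd2] with x hx
      rw [← hx.2.1]
      exact PiLp.norm_apply_le (hat x) j
    have h1 : LocL2 (fun _ : Eu d => (1 : ℝ)) :=
      classB_bdd measurable_const (C := 1) (Filter.Eventually.of_forall fun x => by simp)
    have := classB_int' (classB_mul hb h1) hφ j
    simpa using this
  have i3 : Integrable (fun x => lam x ^ 2 / ‖x‖ * φ x) (mB d) := classB_int (classB_lamsq h) hφ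
  have i4 : Integrable (fun x => 1 / ‖x‖ * φ x) (mB d) := classB_int (classB_one_div_norm d) hφ
  have e1 : ∫ x, ((d - 2 : ℝ) * (∑ j, lam x * V x j * pd j φ x) + (∑ j, hat x j * pd j φ x)
        + (((d - 2 : ℝ) * ((d - 2 : ℝ) - 1)) * (lam x ^ 2 / ‖x‖ * φ x) + 1 / ‖x‖ * φ x)) ∂(mB d)
      = (d - 2 : ℝ) * (∫ x, (∑ j, lam x * V x j * pd j φ x) ∂(mB d))
        + (∫ x, (∑ j, hat x j * pd j φ x) ∂(mB d))
        + (((d - 2 : ℝ) * ((d - 2 : ℝ) - 1)) * (∫ x, lam x ^ 2 / ‖x‖ * φ x ∂(mB d))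
          + ∫ x, 1 / ‖x‖ * φ x ∂(mB d)) := by
    have j1 : Integrable (fun x => (d - 2 : ℝ) * (∑ j, lam x * V x j * pd j φ x)) (mB d) :=
      i1.const_mul _
    have j3 : Integrable (fun x => ((d - 2 : ℝ) * ((d - 2 : ℝ) - 1)) * (lam x ^ 2 / ‖x‖ * φ x))
        (mB d) := i3.const_mul _
    have j12 : Integrable (fun x => (d - 2 : ℝ) * (∑ j, lam x * V x j * pd j φ x)
        + ∑ j, hat x j * pd j φ x) (mB d) := j1.add i2
    have j34 : Integrable (fun x => ((d - 2 : ℝ) * ((d - 2 : ℝ) - 1)) * (lam x ^ 2 / ‖x‖ * φ x)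
        + 1 / ‖x‖ * φ x) (mB d) := j3.add i4
    rw [integral_add j12 j34, integral_add j1 i2, integral_add j3 i4,
      integral_const_mul, integral_const_mul]
  rw [e1] at hsum
  have hhat := div_hat hd2 φ hφ
  have e2 : ∫ x, ((d - 1 : ℝ) / ‖x‖) * φ x ∂(mB d) = (d - 1 : ℝ) * ∫ x, 1 / ‖x‖ * φ x ∂(mB d) := by
    rw [← integral_const_mul]
    congr 1
    funext x
    ring
  rw [e2] at hhat
  rw [hhat] at hsum
  have e3 : ∫ x, (- ((1 - (d - 3 : ℝ) * lam x ^ 2) / ‖x‖)) * φ x ∂(mB d)
      = - (∫ x, 1 / ‖x‖ * φ x ∂(mB d)) + (d - 3 : ℝ) * ∫ x, lam x ^ 2 / ‖x‖ * φ x ∂(mB d) := by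
    have j3 : Integrable (fun x => (d - 3 : ℝ) * (lam x ^ 2 / ‖x‖ * φ x)) (mB d) := i3.const_mul _
    have j4 : Integrable (fun x => - (1 / ‖x‖ * φ x)) (mB d) := i4.neg
    rw [← integral_const_mul, ← integral_neg, ← integral_add j4 j3]
    congr 1
    funext x
    ring
  rw [e3]
  have hN : (d - 2 : ℝ) ≠ 0 := by
    intro h0; linarith
  have h5 : (d - 2 : ℝ) * (∫ x, (∑ j, lam x * V x j * pd j φ x) ∂(mB d))
      = (d - 2 : ℝ) * (- (- (∫ x, 1 / ‖x‖ * φ x ∂(mB d))
        + (d - 3 : ℝ) * ∫ x, lam x ^ 2 / ‖x‖ * φ x ∂(mB d))) := by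
    linear_combination hsum
  exact mul_left_cancel₀ hN h5

end Pool.UVF
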