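import Pool.Agent.Lib.MP_28fba0_gt.UV.ClassB

/-!
# UV-ClassC2: the second integral of equation (5.7)

`∫ lam V_i V·∇φ = ∫ V_i φ (1 - (d-3) lam²)/‖x‖ + ∫ lam φ x̂_i/‖x‖`: `HasWDiv.mul` for `X = lam V`
(`div_lamV`), `u = V_i`, `g_j = c0_{ij}/‖x‖` (`gradV i`), `C = 1` (`abs_V_le`);
`∑_j V_j c0_{ij} = - x̂_i` (`c0_mul_v`).
-/

open Matrix Real Set MeasureTheory
open scoped RealInnerProductSpace

namespace Pool.UVF

variable {d : ℕ} {V : Eu d → Eu d} {lam : Eu d → ℝ}

private theorem meas_coord (h : LimitData V lam) (i : Fin d) : Measurable (fun x => V x i) :=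
  (EuclideanSpace.proj (𝕜 := ℝ) i).continuous.measurable.comp h.mV

private theorem meas_hat (i : Fin d) : Measurable (fun x : Eu d => hat x i) := by
  have h1 : Measurable (fun x : Eu d => hat x) := by
    unfold hat
    exact measurable_norm.inv.smul measurable_id
  exact (EuclideanSpace.proj (𝕜 := ℝ) i).continuous.measurable.comp h1

private theorem c2_locL2 (hd : 2 ≤ d) (h : LimitData V lam) (j : Fin d) :
    LocL2 (fun x => lam x * V x j) := by
  have hm : Measurable (fun x => lam x * V x j) := h.mlam.mul (meas_coord h j)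
  refine ⟨hm.aestronglyMeasurable, fun r₀ _ => ?_⟩
  refine Integrable.integrableOn ?_
  refine h.l2.mono' (hm.pow_const 2).aestronglyMeasurable ?_
  filter_upwards [h.abs_V_le hd j] with x hx
  rw [Real.norm_eq_abs, abs_of_nonneg (sq_nonneg _), mul_pow]
  have h1 : V x j ^ 2 ≤ 1 := by
    rw [← sq_abs]
    nlinarith [abs_nonneg (V x j)]
  nlinarith [sq_nonneg (lam x)]

private theorem c2_locL1 (h : LimitData V lam) :
    LocL1 (fun x : Eu d => - ((1 - (d - 3 : ℝ) * lam x ^ 2) / ‖x‖)) := by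
  intro r₀ hr
  have h1 : Integrable (fun x : Eu d => 1 - (d - 3 : ℝ) * lam x ^ 2) (mB d) := by
    have : IsFiniteMeasure (mB d) := by
      refine ⟨?_⟩
      rw [mB, Measure.restrict_apply_univ]
      exact measure_ball_lt_top
    exact (integrable_const 1).sub (h.l2.const_mul _)
  have h2 : IntegrableOn (fun x : Eu d => 1 - (d - 3 : ℝ) * lam x ^ 2) {x | r₀ ≤ ‖x‖} (mB d) :=
    h1.integrableOn
  have hS : MeasurableSet {x : Eu d | r₀ ≤ ‖x‖} := measurableSet_le measurable_const measurable_norm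
  refine (h2.norm.mul_const (r₀⁻¹)).mono' ?_ ?_
  · have hm : Measurable (fun x : Eu d => - ((1 - (d - 3 : ℝ) * lam x ^ 2) / ‖x‖)) :=
      ((measurable_const.sub ((h.mlam.pow_const 2).const_mul _)).div measurable_norm).neg
    exact hm.aestronglyMeasurable
  · filter_upwards [ae_restrict_mem hS] with x hx
    have hx' : r₀ ≤ ‖x‖ := hx
    rw [norm_neg, norm_div, norm_norm, div_eq_mul_inv]
    refine mul_le_mul_of_nonneg_left ?_ (norm_nonneg _)
    exact inv_anti₀ hr hx'

theorem LimitData.eqC2 (hd : 4 ≤ d) (h : LimitData V lam) (i : Fin d) {φ : Eu d → ℝ}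
    (hφ : IsTest φ) :
    ∫ x, lam x * V x i * (∑ j, V x j * pd j φ x) ∂(mB d)
      = ∫ x, (1 - (d - 3 : ℝ) * lam x ^ 2) * V x i / ‖x‖ * φ x ∂(mB d)
        + ∫ x, lam x * hat x i / ‖x‖ * φ x ∂(mB d) := by
  have hd2 : 2 ≤ d := by omega
  have hmul := HasWDiv.mul (c2_locL2 hd2 h) (c2_locL1 h) (h.div_lamV hd) (meas_coord h i)
    (h.abs_V_le hd2 i) (fun j => h.locL2_c0 hd2 i j) (h.gradV hd2 i) hφ
  obtain ⟨C, hC0, hC1, hC2, hC3⟩ := hφ.bdd
  obtain ⟨r₀, hr0, hr1, hr2⟩ := hφ.zero_near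
  have hφm : Measurable φ := hφ.smooth.continuous.measurable
  have hV : ∀ᵐ x ∂(mB d), ∀ j, |V x j| ≤ 1 := by
    rw [ae_all_iff]
    exact fun j => h.abs_V_le hd2 j
  -- integrability of the two parts
  have hA : Integrable (fun x => lam x * V x i * (∑ j, V x j * pd j φ x)) (mB d) := by
    refine (h.integrable_lam.norm.mul_const (d * C)).mono' ?_ ?_
    · refine (Measurable.mul (h.mlam.mul (meas_coord h i)) ?_).aestronglyMeasurable
      exact Finset.measurable_sum _ fun j _ => (meas_coord h j).mul (hφ.continuous_pd j).measurable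
    · filter_upwards [hV] with x hx
      have h1 : |∑ j, V x j * pd j φ x| ≤ d * C := by
        calc |∑ j, V x j * pd j φ x| ≤ ∑ j, |V x j * pd j φ x| := Finset.abs_sum_le_sum_abs _ _
          _ ≤ ∑ _j : Fin d, C := by
              refine Finset.sum_le_sum fun j _ => ?_
              rw [abs_mul]
              have := hC2 j x
              nlinarith [hx j, abs_nonneg (V x j), abs_nonneg (pd j φ x)]
          _ = d * C := by simp
      rw [norm_mul, norm_mul, Real.norm_eq_abs (V x i), Real.norm_eq_abs (∑ j, _)]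
      have h2 : ‖lam x‖ * |V x i| ≤ ‖lam x‖ := by
        nlinarith [hx i, norm_nonneg (lam x)]
      exact mul_le_mul h2 h1 (abs_nonneg _) (norm_nonneg _)
  have hB : Integrable (fun x => lam x * hat x i / ‖x‖ * φ x) (mB d) := by
    refine (h.integrable_lam.norm.mul_const (r₀⁻¹ * C)).mono' ?_ ?_
    · exact (((h.mlam.mul (meas_hat i)).div measurable_norm).mul hφm).aestronglyMeasurable
    · refine Filter.Eventually.of_forall fun x => ?_
      by_cases hx : ‖x‖ < r₀
      · rw [(hr2 x (Or.inl hx)).1, mul_zero, norm_zero]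
        have := norm_nonneg (lam x)
        positivity
      · have hx' : r₀ ≤ ‖x‖ := not_lt.1 hx
        have hx0 : 0 < ‖x‖ := hr0.trans_le hx'
        have h1 : |hat x i| ≤ 1 := by
          have h2 : ‖hat x‖ = 1 := by
            unfold hat
            rw [norm_smul, norm_inv, norm_norm, inv_mul_cancel₀ hx0.ne']
          have h3 := EuclideanSpace.norm_sq_eq (hat x)
          rw [h2] at h3
          have h4 : ‖hat x i‖ ^ 2 ≤ ∑ k, ‖hat x k‖ ^ 2 :=
            Finset.single_le_sum (f := fun k => ‖hat x k‖ ^ 2) (fun k _ => sq_nonneg _)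
              (Finset.mem_univ i)
          rw [← h3, Real.norm_eq_abs] at h4
          nlinarith [abs_nonneg (hat x i)]
        have h5 : ‖x‖⁻¹ ≤ r₀⁻¹ := inv_anti₀ hr0 hx'
        rw [norm_mul, norm_div, norm_mul, norm_norm, Real.norm_eq_abs (hat x i),
          Real.norm_eq_abs (φ x), div_eq_mul_inv]
        have h6 : ‖lam x‖ * |hat x i| ≤ ‖lam x‖ := by
          nlinarith [norm_nonneg (lam x)]
        have h7 : ‖lam x‖ * |hat x i| * ‖x‖⁻¹ ≤ ‖lam x‖ * r₀⁻¹ :=
          mul_le_mul h6 h5 (by positivity) (norm_nonneg _)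
        calc ‖lam x‖ * |hat x i| * ‖x‖⁻¹ * |φ x| ≤ ‖lam x‖ * r₀⁻¹ * C :=
              mul_le_mul h7 (hC1 x) (abs_nonneg _) (by positivity)
          _ = ‖lam x‖ * (r₀⁻¹ * C) := by ring
  have e1 : ∫ x, (∑ j, lam x * V x j * (V x i * pd j φ x
        + c0 (lam x) (hat x) (V x) i j / ‖x‖ * φ x)) ∂(mB d)
      = ∫ x, (lam x * V x i * (∑ j, V x j * pd j φ x) - lam x * hat x i / ‖x‖ * φ x) ∂(mB d) := by
    refine integral_congr_ae ?_
    filter_upwards [h.ae_all hd2] with x hx
    obtain ⟨-, hx1, hx2, hx3⟩ := hx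
    have h1 := c0_mul_v hx1 hx2 hx3 (lam x) i
    have h2 : ∑ j, lam x * V x j * (V x i * pd j φ x
        + c0 (lam x) (hat x) (V x) i j / ‖x‖ * φ x)
        = lam x * V x i * (∑ j, V x j * pd j φ x)
          + lam x * (∑ j, c0 (lam x) (hat x) (V x) i j * V x j) / ‖x‖ * φ x := by
      rw [Finset.mul_sum, Finset.mul_sum, Finset.sum_div, Finset.sum_mul,
        ← Finset.sum_add_distrib]
      refine Finset.sum_congr rfl fun j _ => ?_
      ring
    refine h2.trans ?_
    rw [h1]
    ring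
  have e2 : - ∫ x, - ((1 - (d - 3 : ℝ) * lam x ^ 2) / ‖x‖) * (V x i * φ x) ∂(mB d)
      = ∫ x, (1 - (d - 3 : ℝ) * lam x ^ 2) * V x i / ‖x‖ * φ x ∂(mB d) := by
    rw [← integral_neg]
    refine integral_congr_ae (Filter.Eventually.of_forall fun x => ?_)
    simp only
    ring
  rw [e1, e2, integral_sub hA hB] at hmul
  linarith

end Pool.UVF
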