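import Pool.Agent.Lib.MP_28fba0_gt.UV.ClassA

/-!
# UV-ClassC3: the third integral of equation (5.7)

`∫ x̂_i V·∇φ = - (d-2) ∫ lam x̂_i/‖x‖ φ - ∫ V_i/‖x‖ φ`: `divV` for the test function `x̂_i φ`
(`IsTest.smooth_mul`, `contDiffOn_hat`, `IsTest.pd_smooth_mul`); `∑_j V_j ∂_j x̂_i = V_i/‖x‖` (`pd_hat`,
`⟪x̂, V⟫ = 0`).
-/

open Matrix Real Set MeasureTheory
open scoped RealInnerProductSpace

namespace Pool.UVF

variable {d : ℕ} {V : Eu d → Eu d} {lam : Eu d → ℝ}

theorem LimitData.eqC3 (hd : 4 ≤ d) (h : LimitData V lam) (i : Fin d) {φ : Eu d → ℝ}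
    (hφ : IsTest φ) :
    ∫ x, hat x i * (∑ j, V x j * pd j φ x) ∂(mB d)
      = - (d - 2 : ℝ) * ∫ x, lam x * hat x i / ‖x‖ * φ x ∂(mB d)
        - ∫ x, V x i / ‖x‖ * φ x ∂(mB d) := by
  have hψ := contDiffOn_hat (d := d) i
  have hT : IsTest (fun x => hat x i * φ x) := hφ.smooth_mul hψ
  have hdiv := h.divV (by omega) _ hT
  have hae := h.ae_all (by omega)
  -- integrability of the parts
  have hT2 : IsTest (fun x => ‖x‖⁻¹ * φ x) := hφ.smooth_mul contDiffOn_inv_norm
  have hVm : ∀ j, AEStronglyMeasurable (fun x => V x j) (mB d) := fun j =>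
    (((EuclideanSpace.proj j : Eu d →L[ℝ] ℝ).continuous.measurable.comp h.mV)).aestronglyMeasurable
  have hfin : IsFiniteMeasure (mB d) := by
    constructor
    simp only [mB, Measure.restrict_apply MeasurableSet.univ, univ_inter, Bd]
    exact measure_ball_lt_top
  have hVle : ∀ j, ∀ᵐ x ∂(mB d), ‖V x j‖ ≤ 1 := fun j => by
    simpa [Real.norm_eq_abs] using h.abs_V_le (by omega) j
  -- bounded continuous factors
  have hbt : ∀ {f : Eu d → ℝ}, IsTest f → Integrable f (mB d) := by
    intro f hf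
    obtain ⟨C, -, hC, -, -⟩ := hf.bdd
    exact Integrable.of_bound hf.smooth.continuous.aestronglyMeasurable C
      (Filter.Eventually.of_forall hC)
  have hI3 : Integrable (fun x => V x i / ‖x‖ * φ x) (mB d) := by
    have := (hbt hT2).bdd_mul (c := 1) (hVm i) (hVle i)
    refine this.congr (Filter.Eventually.of_forall fun x => ?_)
    simp only
    rw [div_eq_mul_inv]; ring
  have hIj : ∀ j, Integrable (fun x => V x j * pd j (fun x => hat x i * φ x) x) (mB d) := by
    intro j
    exact (hbt (hT.pd_test j)).bdd_mul (c := 1) (hVm j) (hVle j)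
  have hI2 : Integrable (fun x => ∑ j, V x j * pd j (fun x => hat x i * φ x) x) (mB d) :=
    integrable_finset_sum _ fun j _ => hIj j
  have hkey : ∫ x, hat x i * (∑ j, V x j * pd j φ x) ∂(mB d)
      = ∫ x, ((∑ j, V x j * pd j (fun x => hat x i * φ x) x)
          - V x i / ‖x‖ * φ x) ∂(mB d) := by
    apply integral_congr_ae
    filter_upwards [hae] with x hx
    obtain ⟨hx0, -, -, horth⟩ := hx
    have hn : ‖x‖ ≠ 0 := norm_ne_zero_iff.mpr hx0
    have h1 : ∀ j, pd j (fun x => hat x i * φ x) x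
        = hat x i * pd j φ x + ((if i = j then 1 else 0) - hat x i * hat x j) / ‖x‖ * φ x := by
      intro j
      rw [hφ.pd_smooth_mul hψ j hx0, pd_hat hx0 i j]
    have h2 : ∑ j, hat x j * V x j = 0 := by
      have := horth
      rw [PiLp.inner_apply] at this
      simpa [mul_comm] using this
    have h3 : ∑ j, V x j * pd j (fun x => hat x i * φ x) x
        = hat x i * (∑ j, V x j * pd j φ x)
          + (V x i - hat x i * ∑ j, hat x j * V x j) / ‖x‖ * φ x := by
      have h4 : V x i = ∑ j, V x j * (if i = j then 1 else 0) := by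
        simp
      rw [h4]
      simp only [h1]
      rw [Finset.mul_sum, Finset.mul_sum, ← Finset.sum_sub_distrib, Finset.sum_div, Finset.sum_mul,
        ← Finset.sum_add_distrib]
      refine Finset.sum_congr rfl fun j _ => ?_
      ring
    rw [h3, h2]
    ring
  rw [hkey, integral_sub hI2 hI3, hdiv]
  congr 1
  rw [← integral_neg, ← integral_const_mul]
  refine integral_congr_ae (Filter.Eventually.of_forall fun x => ?_)
  simp only
  ring

end Pool.UVF
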