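import Pool.Agent.Lib.MP_28fba0_gt.UV.ClassA

/-!
# UV-ClassC4: the fourth integral of equation (5.7)

`∫ V_i x̂·∇φ = - (d-1) ∫ V_i/‖x‖ φ`: `HasWDiv.mul` for `X = x̂` (`div_hat`), `u = V_i`,
`g_j = c0_{ij}/‖x‖` (`gradV i`), `C = 1`; `∑_j x̂_j c0_{ij} = 0` (`c0_mul_y`).
-/

open Matrix Real Set MeasureTheory
open scoped RealInnerProductSpace

namespace Pool.UVF

variable {d : ℕ} {V : Eu d → Eu d} {lam : Eu d → ℝ}

theorem LimitData.eqC4 (hd : 4 ≤ d) (h : LimitData V lam) (i : Fin d) {φ : Eu d → ℝ}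
    (hφ : IsTest φ) :
    ∫ x, V x i * (∑ j, hat x j * pd j φ x) ∂(mB d)
      = - (d - 1 : ℝ) * ∫ x, V x i / ‖x‖ * φ x ∂(mB d) := by
  have hd2 : 2 ≤ d := by omega
  have hae := h.ae_all hd2
  have hfin : IsFiniteMeasure (mB d) := by
    constructor
    simp only [mB, Measure.restrict_apply MeasurableSet.univ, univ_inter, Bd]
    exact measure_ball_lt_top
  have hhat : Measurable (fun x : Eu d => hat x) := by
    unfold hat
    exact (measurable_norm.inv).smul measurable_id
  have hhatj : ∀ j, Measurable (fun x : Eu d => hat x j) := fun j =>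
    (EuclideanSpace.proj j : Eu d →L[ℝ] ℝ).continuous.measurable.comp hhat
  have hVi : Measurable (fun x => V x i) :=
    (EuclideanSpace.proj i : Eu d →L[ℝ] ℝ).continuous.measurable.comp h.mV
  have hhatb : ∀ (x : Eu d) j, |hat x j| ≤ 1 := by
    intro x j
    have h1 : ‖hat x j‖ ≤ ‖hat x‖ := PiLp.norm_apply_le _ _
    have h2 : ‖hat x‖ ≤ 1 := by
      unfold hat
      rw [norm_smul, norm_inv, norm_norm]
      exact inv_mul_le_one
    rw [← Real.norm_eq_abs]
    exact h1.trans h2
  have hX : ∀ j, LocL2 (fun x : Eu d => hat x j) := by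
    intro j
    refine ⟨(hhatj j).aestronglyMeasurable, fun r₀ _ => ?_⟩
    refine Integrable.integrableOn ?_
    refine Integrable.of_bound ((hhatj j).pow_const 2).aestronglyMeasurable 1
      (Filter.Eventually.of_forall fun x => ?_)
    rw [Real.norm_eq_abs, abs_pow]
    exact pow_le_one₀ (abs_nonneg _) (hhatb x j)
  have hρ : LocL1 (fun x : Eu d => (d - 1 : ℝ) / ‖x‖) := by
    intro r₀ hr
    have hm : Measurable (fun x : Eu d => (d - 1 : ℝ) / ‖x‖) := measurable_const.div measurable_norm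
    refine Integrable.of_bound (C := |(d - 1 : ℝ)| / r₀) hm.aestronglyMeasurable ?_
    have hs : MeasurableSet {x : Eu d | r₀ ≤ ‖x‖} := measurableSet_le measurable_const measurable_norm
    rw [ae_restrict_iff' hs]
    refine Filter.Eventually.of_forall fun x hx => ?_
    rw [Real.norm_eq_abs, abs_div, abs_norm]
    exact div_le_div_of_nonneg_left (abs_nonneg _) hr hx
  have hmul := HasWDiv.mul hX hρ (div_hat hd2) hVi (h.abs_V_le hd2 i)
    (fun j => h.locL2_c0 hd2 i j) (h.gradV hd2 i) hφ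
  have hkey : ∫ x, V x i * (∑ j, hat x j * pd j φ x) ∂(mB d)
      = ∫ x, (∑ j, hat x j * (V x i * pd j φ x
          + c0 (lam x) (hat x) (V x) i j / ‖x‖ * φ x)) ∂(mB d) := by
    apply integral_congr_ae
    filter_upwards [hae] with x hx
    obtain ⟨hx0, hy, hv, horth⟩ := hx
    have h1 : ∑ j, hat x j * (V x i * pd j φ x + c0 (lam x) (hat x) (V x) i j / ‖x‖ * φ x)
        = V x i * (∑ j, hat x j * pd j φ x)
          + (∑ j, c0 (lam x) (hat x) (V x) i j * hat x j) / ‖x‖ * φ x := by
      rw [Finset.mul_sum, Finset.sum_div, Finset.sum_mul, ← Finset.sum_add_distrib]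
      refine Finset.sum_congr rfl fun j _ => ?_
      ring
    rw [h1, c0_mul_y hy hv horth]
    ring
  rw [hkey, hmul, neg_mul, ← integral_const_mul]
  congr 1
  refine integral_congr_ae (Filter.Eventually.of_forall fun x => ?_)
  simp only
  ring

end Pool.UVF
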