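import Pool.Agent.Lib.MP_28fba0_gt.UV.ClassC1
import Pool.Agent.Lib.MP_28fba0_gt.UV.ClassC2
import Pool.Agent.Lib.MP_28fba0_gt.UV.ClassC3
import Pool.Agent.Lib.MP_28fba0_gt.UV.ClassC4

/-!
# UV-ClassC: the weak gradient of `λ` (equation (5.7))

`N = d - 2 ≥ 2`.  Claim: `∫ lam ∂_iφ = ∫ (1 + lam²) V_i/‖x‖ φ`.
`div53` (the `i`-th field): `N ∫ lam ∂_iφ = ∑_j ∫ a_{ji} ∂_jφ`
`  = ∫ lam ∂_iφ - ∫ lam x̂_i x̂·∇φ - ∫ lam V_i V·∇φ + ∫ x̂_i V·∇φ - ∫ V_i x̂·∇φ` (definition of `a0`;
integrability: `lam ∈ L²`, `V`, `x̂`, `∂φ` bounded), then `eqC1`–`eqC4`.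
Sum: `(N-1) ∫ lam ∂_iφ = (N-1) ∫ (1+lam²) V_i/‖x‖ φ`.
-/

open Matrix Real Set MeasureTheory
open scoped RealInnerProductSpace

namespace Pool.UVF

variable {d : ℕ} {V : Eu d → Eu d} {lam : Eu d → ℝ}

private theorem classC_fin : IsFiniteMeasure (mB d) := by
  refine ⟨?_⟩
  unfold mB Bd
  rw [Measure.restrict_apply_univ]
  exact measure_ball_lt_top

private theorem classC_meas_hat (j : Fin d) : Measurable (fun x : Eu d => hat x j) := by
  have h1 : Measurable (hat : Eu d → Eu d) := by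
    unfold hat
    exact (measurable_norm.inv).smul measurable_id
  exact (EuclideanSpace.proj j : Eu d →L[ℝ] ℝ).continuous.measurable.comp h1

private theorem classC_hat_le {x : Eu d} (hx : ‖hat x‖ = 1) (j : Fin d) : |hat x j| ≤ 1 := by
  rw [← hx, ← Real.norm_eq_abs]
  exact PiLp.norm_apply_le (hat x) j

private theorem classC_sum_le {y p : Fin d → ℝ} {C : ℝ} (hy : ∀ j, |y j| ≤ 1)
    (hp : ∀ j, |p j| ≤ C) : |∑ j, y j * p j| ≤ d * C := by
  calc |∑ j, y j * p j| ≤ ∑ j, |y j * p j| := Finset.abs_sum_le_sum_abs _ _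
    _ ≤ ∑ _j : Fin d, C := by
        apply Finset.sum_le_sum
        intro j _
        rw [abs_mul]
        calc |y j| * |p j| ≤ 1 * C := mul_le_mul (hy j) (hp j) (abs_nonneg _) (by norm_num)
          _ = C := one_mul C
    _ = d * C := by simp

private theorem classC_int5 {μ : Measure (Eu d)} {f1 f2 f3 f4 f5 : Eu d → ℝ} (i1 : Integrable f1 μ)
    (i2 : Integrable f2 μ) (i3 : Integrable f3 μ) (i4 : Integrable f4 μ) (i5 : Integrable f5 μ)
    (c : ℝ) :
    ∫ x, (c * f1 x + f2 x + f3 x - f4 x + f5 x) ∂μ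
      = c * ∫ x, f1 x ∂μ + ∫ x, f2 x ∂μ + ∫ x, f3 x ∂μ - ∫ x, f4 x ∂μ + ∫ x, f5 x ∂μ := by
  have a1 : Integrable (fun x => c * f1 x) μ := i1.const_mul c
  have a2 : Integrable (fun x => c * f1 x + f2 x) μ := a1.add i2
  have a3 : Integrable (fun x => c * f1 x + f2 x + f3 x) μ := a2.add i3
  have a4 : Integrable (fun x => c * f1 x + f2 x + f3 x - f4 x) μ := a3.sub i4
  rw [integral_add a4 i5, integral_sub a3 i4, integral_add a2 i3, integral_add a1 i2,
    integral_const_mul]

theorem LimitData.gradLam (hd : 4 ≤ d) (h : LimitData V lam) :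
    HasWGrad lam (fun i x => - ((1 + lam x ^ 2) * V x i / ‖x‖)) := by
  have hfin := classC_fin (d := d)
  have hd2 : 2 ≤ d := by omega
  have hVm : ∀ j, Measurable (fun x => V x j) := fun j =>
    (EuclideanSpace.proj j : Eu d →L[ℝ] ℝ).continuous.measurable.comp h.mV
  intro φ hφ i
  obtain ⟨C, hC0, hC1, hC2, _⟩ := hφ.bdd
  obtain ⟨r₀, hr, _, h0⟩ := hφ.zero_near
  have hpm : ∀ j, Measurable (pd j φ) := fun j => (hφ.continuous_pd j).measurable
  have hφm : Measurable φ := hφ.smooth.continuous.measurable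
  have hlamabs : Integrable (fun x => |lam x|) (mB d) := h.integrable_lam.abs
  -- the five functions
  have hSym : Measurable (fun x => ∑ j, hat x j * pd j φ x) :=
    Finset.measurable_sum _ fun j _ => (classC_meas_hat j).mul (hpm j)
  have hSvm : Measurable (fun x => ∑ j, V x j * pd j φ x) :=
    Finset.measurable_sum _ fun j _ => (hVm j).mul (hpm j)
  have hcoord : ∀ᵐ x ∂(mB d), (∀ j, |hat x j| ≤ 1) ∧ (∀ j, |V x j| ≤ 1) := by
    filter_upwards [h.ae_all hd2] with x hx
    refine ⟨fun j => classC_hat_le hx.2.1 j, fun j => ?_⟩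
    rw [← hx.2.2.1, ← Real.norm_eq_abs]
    exact PiLp.norm_apply_le (V x) j
  have hdC : 0 ≤ (d : ℝ) * C := by positivity
  have i1 : Integrable (fun x => lam x * pd i φ x) (mB d) := by
    refine (hlamabs.mul_const C).mono' (h.mlam.mul (hpm i)).aestronglyMeasurable
      (Filter.Eventually.of_forall fun x => ?_)
    rw [Real.norm_eq_abs, abs_mul]
    exact mul_le_mul_of_nonneg_left (hC2 i x) (abs_nonneg _)
  have i2 : Integrable (fun x => lam x * hat x i * (∑ j, hat x j * pd j φ x)) (mB d) := by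
    refine (hlamabs.mul_const (d * C)).mono'
      ((h.mlam.mul (classC_meas_hat i)).mul hSym).aestronglyMeasurable ?_
    filter_upwards [hcoord] with x hx
    rw [Real.norm_eq_abs, abs_mul, abs_mul]
    have h1 := classC_sum_le (y := fun j => hat x j) (p := fun j => pd j φ x) hx.1
      (fun j => hC2 j x)
    have h2 : |lam x| * |hat x i| ≤ |lam x| := mul_le_of_le_one_right (abs_nonneg _) (hx.1 i)
    exact mul_le_mul h2 h1 (abs_nonneg _) (abs_nonneg _)
  have i3 : Integrable (fun x => lam x * V x i * (∑ j, V x j * pd j φ x)) (mB d) := by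
    refine (hlamabs.mul_const (d * C)).mono'
      ((h.mlam.mul (hVm i)).mul hSvm).aestronglyMeasurable ?_
    filter_upwards [hcoord] with x hx
    rw [Real.norm_eq_abs, abs_mul, abs_mul]
    have h1 := classC_sum_le (y := fun j => V x j) (p := fun j => pd j φ x) hx.2
      (fun j => hC2 j x)
    have h2 : |lam x| * |V x i| ≤ |lam x| := mul_le_of_le_one_right (abs_nonneg _) (hx.2 i)
    exact mul_le_mul h2 h1 (abs_nonneg _) (abs_nonneg _)
  have i4 : Integrable (fun x => hat x i * (∑ j, V x j * pd j φ x)) (mB d) := by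
    refine (integrable_const (d * C : ℝ)).mono'
      ((classC_meas_hat i).mul hSvm).aestronglyMeasurable ?_
    filter_upwards [hcoord] with x hx
    rw [Real.norm_eq_abs, abs_mul]
    have h1 := classC_sum_le (y := fun j => V x j) (p := fun j => pd j φ x) hx.2
      (fun j => hC2 j x)
    calc |hat x i| * |∑ j, V x j * pd j φ x| ≤ 1 * (d * C) :=
          mul_le_mul (hx.1 i) h1 (abs_nonneg _) (by norm_num)
      _ = d * C := one_mul _
  have i5 : Integrable (fun x => V x i * (∑ j, hat x j * pd j φ x)) (mB d) := by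
    refine (integrable_const (d * C : ℝ)).mono'
      ((hVm i).mul hSym).aestronglyMeasurable ?_
    filter_upwards [hcoord] with x hx
    rw [Real.norm_eq_abs, abs_mul]
    have h1 := classC_sum_le (y := fun j => hat x j) (p := fun j => pd j φ x) hx.1
      (fun j => hC2 j x)
    calc |V x i| * |∑ j, hat x j * pd j φ x| ≤ 1 * (d * C) :=
          mul_le_mul (hx.2 i) h1 (abs_nonneg _) (by norm_num)
      _ = d * C := one_mul _
  -- bounded by `C / r₀`
  have hdiv : ∀ x : Eu d, |φ x| / ‖x‖ ≤ C / r₀ := by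
    intro x
    by_cases hx : ‖x‖ < r₀
    · rw [(h0 x (Or.inl hx)).1, abs_zero, zero_div]
      positivity
    · exact div_le_div₀ hC0.le (hC1 x) hr (not_lt.1 hx)
  have j1 : Integrable (fun x => V x i / ‖x‖ * φ x) (mB d) := by
    refine (integrable_const (C / r₀ : ℝ)).mono'
      (((hVm i).div measurable_norm).mul hφm).aestronglyMeasurable ?_
    filter_upwards [hcoord] with x hx
    rw [Real.norm_eq_abs, abs_mul, abs_div, abs_norm, div_mul_eq_mul_div, mul_div_assoc]
    calc |V x i| * (|φ x| / ‖x‖) ≤ 1 * (C / r₀) :=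
          mul_le_mul (hx.2 i) (hdiv x) (by positivity) (by norm_num)
      _ = C / r₀ := one_mul _
  have j2 : Integrable (fun x => lam x ^ 2 * (V x i / ‖x‖ * φ x)) (mB d) := by
    refine (h.l2.mul_const (C / r₀)).mono'
      ((h.mlam.pow_const 2).mul (((hVm i).div measurable_norm).mul hφm)).aestronglyMeasurable ?_
    filter_upwards [hcoord] with x hx
    rw [Real.norm_eq_abs, abs_mul, abs_pow, sq_abs]
    apply mul_le_mul_of_nonneg_left ?_ (sq_nonneg _)
    rw [abs_mul, abs_div, abs_norm, div_mul_eq_mul_div, mul_div_assoc]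
    calc |V x i| * (|φ x| / ‖x‖) ≤ 1 * (C / r₀) :=
          mul_le_mul (hx.2 i) (hdiv x) (by positivity) (by norm_num)
      _ = C / r₀ := one_mul _
  have e0 := h.div53 hd2 i φ hφ
  have e1 := h.eqC1 hd i hφ
  have e2 := h.eqC2 hd i hφ
  have e3 := h.eqC3 hd i hφ
  have e4 := h.eqC4 hd i hφ
  have key : ∀ x, (∑ j, ((if j = i then (d - 2 : ℝ) * lam x else 0)
      - a0 (lam x) (hat x) (V x) j i) * pd j φ x)
      = (d - 3 : ℝ) * (lam x * pd i φ x) + lam x * hat x i * (∑ j, hat x j * pd j φ x)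
        + lam x * V x i * (∑ j, V x j * pd j φ x) - hat x i * (∑ j, V x j * pd j φ x)
        + V x i * (∑ j, hat x j * pd j φ x) := by
    intro x
    have hterm : ∀ j, ((if j = i then (d - 2 : ℝ) * lam x else 0)
        - a0 (lam x) (hat x) (V x) j i) * pd j φ x
        = (if j = i then (d - 3 : ℝ) * (lam x * pd j φ x) else 0)
          + lam x * hat x i * (hat x j * pd j φ x) + lam x * V x i * (V x j * pd j φ x)
          - hat x i * (V x j * pd j φ x) + V x i * (hat x j * pd j φ x) := by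
      intro j
      unfold a0
      simp only [Matrix.of_apply]
      split_ifs <;> ring
    rw [Finset.sum_congr rfl fun j _ => hterm j]
    simp only [Finset.sum_add_distrib, Finset.sum_sub_distrib, Finset.mul_sum]
    simp
  simp only [key] at e0
  rw [classC_int5 i1 i2 i3 i4 i5, e1, e2, e3, e4] at e0
  have e5 : ∫ x, (1 - (d - 3 : ℝ) * lam x ^ 2) * V x i / ‖x‖ * φ x ∂(mB d)
      = ∫ x, V x i / ‖x‖ * φ x ∂(mB d)
        - (d - 3 : ℝ) * ∫ x, lam x ^ 2 * (V x i / ‖x‖ * φ x) ∂(mB d) := by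
    rw [← integral_const_mul, ← integral_sub j1 (j2.const_mul _)]
    congr 1
    funext x
    ring
  have e6 : ∫ x, - ((1 + lam x ^ 2) * V x i / ‖x‖) * φ x ∂(mB d)
      = - (∫ x, V x i / ‖x‖ * φ x ∂(mB d)
        + ∫ x, lam x ^ 2 * (V x i / ‖x‖ * φ x) ∂(mB d)) := by
    rw [← integral_add j1 j2, ← integral_neg]
    congr 1
    funext x
    ring
  rw [e5] at e0
  have hd3 : (d - 3 : ℝ) ≠ 0 := by
    have : (4 : ℝ) ≤ d := by exact_mod_cast hd
    linarith
  have e7 : ∫ x, lam x * pd i φ x ∂(mB d) = - ∫ x, - ((1 + lam x ^ 2) * V x i / ‖x‖) * φ x ∂(mB d) := by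
    rw [e6]
    apply mul_left_cancel₀ hd3
    simp only [zero_mul, integral_zero, neg_zero] at e0
    linear_combination e0
  exact e7

end Pool.UVF
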