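import Pool.Agent.Lib.MP_28fba0_gt.UV.ClassA

/-!
# UV-ClassC1: the first integral of equation (5.7)

`∫ lam x̂_i x̂·∇φ = - (d-1) ∫ lam x̂_i/‖x‖ φ`: `h.rad` for the test function `ψ φ`, `ψ = x̂_i/‖x‖`
(`IsTest.smooth_mul`, `contDiffOn_hat_div`, `IsTest.fderiv_smooth_mul`, `fderiv_hat_div`,
`fderiv_eq_sum_pd`): `∫ lam (x̂_i/‖x‖ Dφ(x)x - x̂_i/‖x‖ φ) = - d ∫ lam x̂_i/‖x‖ φ`, and
`Dφ(x)x/‖x‖ = ∑_j x̂_j ∂_jφ`.
-/

open Matrix Real Set MeasureTheory
open scoped RealInnerProductSpace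

namespace Pool.UVF

variable {d : ℕ} {V : Eu d → Eu d} {lam : Eu d → ℝ}

theorem LimitData.eqC1 (hd : 4 ≤ d) (h : LimitData V lam) (i : Fin d) {φ : Eu d → ℝ}
    (hφ : IsTest φ) :
    ∫ x, lam x * hat x i * (∑ j, hat x j * pd j φ x) ∂(mB d)
      = - (d - 1 : ℝ) * ∫ x, lam x * hat x i / ‖x‖ * φ x ∂(mB d) := by
  have hψ := contDiffOn_hat_div (d := d) i
  have hT : IsTest (fun x => hat x i / ‖x‖ * φ x) := hφ.smooth_mul hψ
  have hrad := h.rad _ hT
  have hae := h.ae_all (by omega)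
  have hlam := h.integrable_lam
  have hcont : Continuous (fun x : Eu d => hat x i / ‖x‖ * φ x) := hT.smooth.continuous
  have hfd : Continuous (fun x : Eu d => fderiv ℝ (fun x => hat x i / ‖x‖ * φ x) x x) := by
    have h1 : Continuous (fderiv ℝ (fun x : Eu d => hat x i / ‖x‖ * φ x)) :=
      hT.smooth.continuous_fderiv (by simp)
    exact h1.clm_apply continuous_id
  have hb1 : ∃ C, ∀ x : Eu d, ‖hat x i / ‖x‖ * φ x‖ ≤ C :=
    hcont.bounded_above_of_compact_support hT.cpt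
  have hb2 : ∃ C, ∀ x : Eu d, ‖fderiv ℝ (fun x => hat x i / ‖x‖ * φ x) x x‖ ≤ C := by
    apply hfd.bounded_above_of_compact_support
    have hc := hT.cpt.fderiv (𝕜 := ℝ)
    refine hc.mono ?_
    intro x hx
    simp only [Function.mem_support, ne_eq] at hx ⊢
    intro h0
    apply hx
    rw [h0]
    simp
  obtain ⟨C1, hC1⟩ := hb1
  obtain ⟨C2, hC2⟩ := hb2
  have hI1 : Integrable (fun x => lam x * (hat x i / ‖x‖ * φ x)) (mB d) :=
    hlam.mul_bdd (c := C1) hcont.aestronglyMeasurable (Filter.Eventually.of_forall hC1)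
  have hI2 : Integrable (fun x => lam x * fderiv ℝ (fun x => hat x i / ‖x‖ * φ x) x x) (mB d) :=
    hlam.mul_bdd (c := C2) hfd.aestronglyMeasurable (Filter.Eventually.of_forall hC2)
  have hkey : ∫ x, lam x * hat x i * (∑ j, hat x j * pd j φ x) ∂(mB d)
      = ∫ x, (lam x * fderiv ℝ (fun x => hat x i / ‖x‖ * φ x) x x
          + lam x * (hat x i / ‖x‖ * φ x)) ∂(mB d) := by
    apply integral_congr_ae
    filter_upwards [hae] with x hx
    obtain ⟨hx0, -, -, -⟩ := hx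
    have hn : ‖x‖ ≠ 0 := norm_ne_zero_iff.mpr hx0
    rw [hφ.fderiv_smooth_mul hψ hx0 x, fderiv_hat_div hx0 i, fderiv_eq_sum_pd (φ := φ) x x]
    have : ∀ j, x j = ‖x‖ * hat x j := by
      intro j
      simp only [hat, PiLp.smul_apply, smul_eq_mul]
      rw [← mul_assoc, mul_inv_cancel₀ hn, one_mul]
    have hs : ∑ j, x j * pd j φ x = ‖x‖ * ∑ j, hat x j * pd j φ x := by
      rw [Finset.mul_sum]
      refine Finset.sum_congr rfl fun j _ => ?_
      rw [this j]; ring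
    rw [hs]
    field_simp
    ring
  rw [hkey, integral_add hI2 hI1, hrad]
  have : (fun x => lam x * hat x i / ‖x‖ * φ x) = fun x => lam x * (hat x i / ‖x‖ * φ x) := by
    funext x; ring
  rw [this]
  ring

end Pool.UVF
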