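import Pool.Agent.Lib.MP_28fba0_gt.UV.ClassD1

/-!
# UV-ClassD2: the classification: `V` is a radial field

`const_of_wgrad_zero` for each `j` (`|P_j| ≤ 2`; measurable): `P = p` a.e.;
`‖lam x̂ - V‖² = lam² + 1` (`x̂ ⟂ V` unit), so `‖p‖ = 1` (the ball has positive measure, so there is such
an `x`).  Multiply by `√(1+lam²)`.
-/

open Matrix Real Set MeasureTheory
open scoped RealInnerProductSpace

namespace Pool.UVF

variable {d : ℕ} {V : Eu d → Eu d} {lam : Eu d → ℝ}

theorem LimitData.classify (hd : 4 ≤ d) (h : LimitData V lam) :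
    ∃ p : Eu d, ‖p‖ = 1 ∧ ∀ᵐ x ∂(mB d), √ (1 + lam x ^ 2) • p = lam x • hat x - V x := by
  have hs : ∀ x, 0 < √ (1 + lam x ^ 2) := fun x => Real.sqrt_pos.mpr (by positivity)
  have hss : ∀ x, √ (1 + lam x ^ 2) ^ 2 = 1 + lam x ^ 2 := fun x =>
    Real.sq_sqrt (by positivity)
  have hmV : ∀ j, Measurable fun x => V x j := by
    intro j
    have h1 := h.mV
    have h2 : Measurable fun y : Eu d => y j := by fun_prop
    exact h2.comp h1
  have hmh : ∀ j, Measurable fun x : Eu d => hat x j := by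
    intro j
    have : (fun x : Eu d => hat x j) = fun x : Eu d => (‖x‖)⁻¹ * x j := by
      funext x
      simp [hat]
    rw [this]
    fun_prop
  have hml := h.mlam
  have hP : ∀ j, Measurable fun x => (lam x * hat x j - V x j) / √ (1 + lam x ^ 2) := by
    intro j
    exact ((hml.mul (hmh j)).sub (hmV j)).div
      (Real.continuous_sqrt.measurable.comp (measurable_const.add (hml.pow_const 2)))
  have hcomp : ∀ (y : Eu d) (j : Fin d), |y j| ≤ ‖y‖ := by
    intro y j
    have := PiLp.norm_apply_le y j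
    simpa using this
  have hhat : ∀ x : Eu d, ‖hat x‖ ≤ 1 := by
    intro x
    unfold hat
    rw [norm_smul, norm_inv, norm_norm]
    by_cases hx : ‖x‖ = 0
    · simp [hx]
    · rw [inv_mul_cancel₀ hx]
  have hC : ∀ j, ∀ᵐ x ∂(mB d), |(lam x * hat x j - V x j) / √ (1 + lam x ^ 2)| ≤ 2 := by
    intro j
    filter_upwards [h.unit] with x hx
    rw [abs_div, abs_of_pos (hs x), div_le_iff₀ (hs x)]
    have h1 : |hat x j| ≤ 1 := (hcomp _ _).trans (hhat x)
    have h2 : |V x j| ≤ 1 := (hcomp _ _).trans hx.1.le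
    have h3 : |lam x| ≤ √ (1 + lam x ^ 2) := by
      apply Real.le_sqrt_of_sq_le
      rw [sq_abs]
      linarith
    have h4 : (1 : ℝ) ≤ √ (1 + lam x ^ 2) := by
      apply Real.le_sqrt_of_sq_le
      nlinarith [sq_nonneg (lam x)]
    calc |lam x * hat x j - V x j| ≤ |lam x * hat x j| + |V x j| := abs_sub _ _
      _ = |lam x| * |hat x j| + |V x j| := by rw [abs_mul]
      _ ≤ |lam x| * 1 + 1 := by gcongr
      _ ≤ 2 * √ (1 + lam x ^ 2) := by linarith
  choose c hc using fun j => const_of_wgrad_zero (by omega) (hP j) (hC j) (h.gradP hd j)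
  have hall : ∀ᵐ x ∂(mB d), ∀ j, (lam x * hat x j - V x j) / √ (1 + lam x ^ 2) = c j :=
    ae_all_iff.mpr hc
  have hmain : ∀ᵐ x ∂(mB d),
      √ (1 + lam x ^ 2) • (WithLp.toLp 2 c : Eu d) = lam x • hat x - V x := by
    filter_upwards [hall] with x hx
    ext j
    have h1 := hx j
    have h2 := (hs x).ne'
    simp only [PiLp.smul_apply, PiLp.sub_apply, smul_eq_mul]
    rw [← h1]
    field_simp
  refine ⟨WithLp.toLp 2 c, ?_, hmain⟩
  have hpos : mB d ≠ 0 := by
    intro h0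
    have h1 : mB d univ = 0 := by rw [h0]; simp
    unfold mB Bd at h1
    rw [Measure.restrict_apply MeasurableSet.univ, univ_inter] at h1
    exact (Metric.measure_ball_pos volume (0 : Eu d) one_pos).ne' h1
  haveI : NeZero (mB d) := ⟨hpos⟩
  have hne : ∀ᵐ x ∂(mB d), x ≠ 0 := by
    haveI : Nontrivial (Eu d) := by
      haveI : Nonempty (Fin d) := ⟨⟨0, by omega⟩⟩
      infer_instance
    unfold mB
    apply ae_restrict_of_ae
    rw [ae_iff]
    simp
  obtain ⟨x, h1, h2, h3⟩ := ((hmain.and (h.unit.and hne))).exists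
  have h4 : ‖hat x‖ = 1 := by
    unfold hat
    rw [norm_smul, norm_inv, norm_norm, inv_mul_cancel₀ (norm_ne_zero_iff.mpr h3)]
  have h5 : ⟪hat x, V x⟫ = 0 := by
    unfold hat
    rw [inner_smul_left, h2.2]
    simp
  have h6 : ‖lam x • hat x - V x‖ ^ 2 = 1 + lam x ^ 2 := by
    rw [@norm_sub_sq_real, inner_smul_left, h5, norm_smul, h4, h2.1]
    simp
    ring
  have h7 : ‖√ (1 + lam x ^ 2) • (WithLp.toLp 2 c : Eu d)‖ ^ 2 = 1 + lam x ^ 2 := by
    rw [h1, h6]
  rw [norm_smul, mul_pow, Real.norm_eq_abs, sq_abs, hss x] at h7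
  have h8 : (0 : ℝ) < 1 + lam x ^ 2 := by positivity
  have h9 : ‖(WithLp.toLp 2 c : Eu d)‖ ^ 2 = 1 := by
    have : (1 + lam x ^ 2) * ‖(WithLp.toLp 2 c : Eu d)‖ ^ 2 = (1 + lam x ^ 2) * 1 := by
      rw [h7, mul_one]
    exact mul_left_cancel₀ h8.ne' this
  have h10 := norm_nonneg (WithLp.toLp 2 c : Eu d)
  nlinarith [h9, h10]

end Pool.UVF
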