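import Pool.Agent.Lib.MP_28fba0_gt.UV.ClassA

/-!
# UV-ClassD3: consequences of the classification

Scalar products of `√(1+lam²) • p = lam • x̂ - V` with `x̂` and with `V` (`ae_all`).
-/

open Matrix Real Set MeasureTheory
open scoped RealInnerProductSpace

namespace Pool.UVF

variable {d : ℕ} {V : Eu d → Eu d} {lam : Eu d → ℝ}

/-- consequences: `(1 + lam²)(1 - ⟪p, x̂⟫²) = 1` and `√(1+lam²) ⟪V, p⟫ = - 1` -/
theorem LimitData.classify' (hd : 4 ≤ d) (h : LimitData V lam) {p : Eu d} (hp : ‖p‖ = 1)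
    (hpx : ∀ᵐ x ∂(mB d), √ (1 + lam x ^ 2) • p = lam x • hat x - V x) :
    ∀ᵐ x ∂(mB d), (1 + lam x ^ 2) * (1 - ⟪p, hat x⟫ ^ 2) = 1 ∧
      √ (1 + lam x ^ 2) * ⟪p, hat x⟫ = lam x ∧ √ (1 + lam x ^ 2) * ⟪V x, p⟫ = -1 := by
  filter_upwards [hpx, h.ae_all (by omega)] with x hx h2
  obtain ⟨-, hn, hV, ho⟩ := h2
  have hs : √ (1 + lam x ^ 2) ^ 2 = 1 + lam x ^ 2 := Real.sq_sqrt (by positivity)
  have hnn : ⟪hat x, hat x⟫ = 1 := by
    rw [real_inner_self_eq_norm_sq, hn]; norm_num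
  have hVV : ⟪V x, V x⟫ = 1 := by
    rw [real_inner_self_eq_norm_sq, hV]; norm_num
  have hVo : ⟪V x, hat x⟫ = 0 := by rw [real_inner_comm]; exact ho
  have e1 : √ (1 + lam x ^ 2) * ⟪p, hat x⟫ = lam x := by
    have := congrArg (fun w => ⟪w, hat x⟫) hx
    simp only [real_inner_smul_left, inner_sub_left, hnn, hVo] at this
    rw [this]; ring
  have e2 : √ (1 + lam x ^ 2) * ⟪V x, p⟫ = -1 := by
    have := congrArg (fun w => ⟪V x, w⟫) hx
    simp only [real_inner_smul_right, inner_sub_right, hVV, hVo] at this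
    rw [this]; ring
  refine ⟨?_, e1, e2⟩
  have e3 : (1 + lam x ^ 2) * ⟪p, hat x⟫ ^ 2 = lam x ^ 2 := by
    have e4 := congrArg (fun t : ℝ => t ^ 2) e1
    simp only [mul_pow] at e4
    rw [hs] at e4
    exact e4
  linear_combination -e3

end Pool.UVF
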