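import Pool.Agent.Lib.MP_28fba0_gt.UV.Defs

/-!
# UV-TestFnB (part of TestFn): test functions times functions smooth off the origin

* `ψ` smooth on `{0}ᶜ`, `φ` a test function in the punctured ball: `ψ φ` is a test function (it
  vanishes near `0`, where `ψ` may be singular), and
  `pd i (ψ φ) = ψ pd i φ + pd i ψ φ` everywhere off `0`.
* derivatives of `‖x‖⁻¹`, `x_j ‖x‖⁻¹` and `x_j (‖x‖²)⁻¹` off `0`:
  `∂_i ‖x‖⁻¹ = - x_i/‖x‖³`, `∂_i (x_j/‖x‖) = (δ_{ij} - x̂_i x̂_j)/‖x‖`,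
  `D(x_j/‖x‖²)(x) x = - x_j/‖x‖²`.
-/

open Real Set
open scoped ContDiff

namespace Pool.UVF

variable {d : ℕ}

theorem contDiffOn_inv_norm : ContDiffOn ℝ ∞ (fun x : Eu d => ‖x‖⁻¹) {0}ᶜ := by
  intro x hx
  have hx' : x ≠ 0 := hx
  exact ((contDiffAt_norm ℝ hx').inv (norm_ne_zero_iff.2 hx')).contDiffWithinAt

theorem hasFDerivAt_norm_aux {x : Eu d} (hx : x ≠ 0) :
    HasFDerivAt (fun x : Eu d => ‖x‖) (‖x‖⁻¹ • innerSL ℝ x) x := by
  have h1 : HasFDerivAt (fun x : Eu d => ‖x‖ ^ 2) (2 • (innerSL ℝ x)) x :=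
    (hasStrictFDerivAt_norm_sq x).hasFDerivAt
  have hn : (0 : ℝ) < ‖x‖ := norm_pos_iff.2 hx
  have h2 : HasFDerivAt (fun x : Eu d => √ (‖x‖ ^ 2))
      ((1 / (2 * √ (‖x‖ ^ 2))) • (2 • (innerSL ℝ x))) x :=
    h1.sqrt (by positivity)
  have h3 : (fun x : Eu d => √ (‖x‖ ^ 2)) = fun x => ‖x‖ := by
    funext y
    exact Real.sqrt_sq (norm_nonneg y)
  rw [h3] at h2
  have h4 : (1 / (2 * √ (‖x‖ ^ 2))) • (2 • (innerSL ℝ x)) = ‖x‖⁻¹ • innerSL ℝ x := by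
    rw [Real.sqrt_sq (norm_nonneg x)]
    ext w
    simp only [smul_apply, smul_eq_mul, nsmul_eq_mul, Nat.cast_ofNat]
    field_simp
  rw [← h4]
  exact h2

theorem fderiv_inv_norm {x : Eu d} (hx : x ≠ 0) :
    HasFDerivAt (fun x : Eu d => ‖x‖⁻¹) (-((‖x‖ ^ 3)⁻¹ • innerSL ℝ x)) x := by
  have hn : (0 : ℝ) < ‖x‖ := norm_pos_iff.2 hx
  have h := (hasDerivAt_inv hn.ne').comp_hasFDerivAt x (hasFDerivAt_norm_aux hx)
  have h' : HasFDerivAt (fun x : Eu d => ‖x‖⁻¹) ((-(‖x‖ ^ 2)⁻¹) • (‖x‖⁻¹ • innerSL ℝ x)) x := h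
  convert h' using 1
  ext w
  simp only [neg_apply, smul_apply, smul_eq_mul]
  field_simp

theorem pd_inv_norm {x : Eu d} (hx : x ≠ 0) (i : Fin d) :
    pd i (fun x : Eu d => ‖x‖⁻¹) x = - (hat x i) / ‖x‖ ^ 2 := by
  have hn : (0 : ℝ) < ‖x‖ := norm_pos_iff.2 hx
  unfold pd
  rw [(fderiv_inv_norm hx).fderiv]
  simp only [neg_apply, smul_apply, smul_eq_mul, innerSL_apply_apply, hat, PiLp.smul_apply]
  rw [EuclideanSpace.inner_single_right]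
  simp only [conj_trivial, one_mul]
  field_simp

theorem contDiffOn_coord (j : Fin d) : ContDiff ℝ ∞ (fun x : Eu d => x j) :=
  (EuclideanSpace.proj (𝕜 := ℝ) j).contDiff

theorem contDiffOn_hat (j : Fin d) : ContDiffOn ℝ ∞ (fun x : Eu d => hat x j) {0}ᶜ := by
  have h := (contDiffOn_inv_norm (d := d)).mul (contDiffOn_coord j).contDiffOn
  exact h

theorem hasFDerivAt_hat {x : Eu d} (hx : x ≠ 0) (j : Fin d) :
    HasFDerivAt (fun x : Eu d => hat x j)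
      (‖x‖⁻¹ • (EuclideanSpace.proj (𝕜 := ℝ) j : Eu d →L[ℝ] ℝ)
        + (x j) • (-((‖x‖ ^ 3)⁻¹ • innerSL ℝ x))) x := by
  have h1 := fderiv_inv_norm hx
  have h2 : HasFDerivAt (fun x : Eu d => x j) (EuclideanSpace.proj (𝕜 := ℝ) j : Eu d →L[ℝ] ℝ) x :=
    (EuclideanSpace.proj (𝕜 := ℝ) j : Eu d →L[ℝ] ℝ).hasFDerivAt
  exact h1.mul h2

theorem pd_hat {x : Eu d} (hx : x ≠ 0) (j i : Fin d) :
    pd i (fun x : Eu d => hat x j) x = ((if j = i then 1 else 0) - hat x j * hat x i) / ‖x‖ := by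
  have hn : (0 : ℝ) < ‖x‖ := norm_pos_iff.2 hx
  unfold pd
  rw [(hasFDerivAt_hat hx j).fderiv]
  simp only [add_apply, neg_apply, smul_apply, smul_eq_mul, innerSL_apply_apply, hat,
    PiLp.smul_apply]
  rw [EuclideanSpace.inner_single_right]
  simp only [conj_trivial, one_mul]
  have hp : (EuclideanSpace.proj (𝕜 := ℝ) j : Eu d →L[ℝ] ℝ) (EuclideanSpace.single i (1 : ℝ))
      = if j = i then 1 else 0 := PiLp.single_apply 2 ℝ i 1 j
  rw [hp]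
  split_ifs <;> field_simp <;> ring

theorem contDiffOn_hat_div (j : Fin d) : ContDiffOn ℝ ∞ (fun x : Eu d => hat x j / ‖x‖) {0}ᶜ := by
  have h := (contDiffOn_hat j).mul (contDiffOn_inv_norm (d := d))
  exact h

theorem fderiv_hat_div {x : Eu d} (hx : x ≠ 0) (j : Fin d) :
    fderiv ℝ (fun x : Eu d => hat x j / ‖x‖) x x = - (hat x j / ‖x‖) := by
  have hn : (0 : ℝ) < ‖x‖ := norm_pos_iff.2 hx
  have h1 : HasFDerivAt (fun x : Eu d => hat x j * ‖x‖⁻¹) _ x :=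
    (hasFDerivAt_hat hx j).mul (fderiv_inv_norm hx)
  have h2 : (fun x : Eu d => hat x j / ‖x‖) = fun x : Eu d => hat x j * ‖x‖⁻¹ := by
    funext y
    rw [div_eq_mul_inv]
  rw [h2, h1.fderiv]
  simp only [add_apply, neg_apply, smul_apply, smul_eq_mul, innerSL_apply_apply, hat,
    PiLp.smul_apply, real_inner_self_eq_norm_sq]
  have hp : (EuclideanSpace.proj (𝕜 := ℝ) j : Eu d →L[ℝ] ℝ) x = x j := rfl
  rw [hp]
  field_simp
  ring

end Pool.UVF
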