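import Pool.Agent.Lib.MP_28fba0_gt.UV.IBP
import Pool.Agent.Lib.MP_28fba0_gt.UV.TestFn

/-!
# UV-ConstA: a point has capacity `0`

`P` bounded with weak gradient `0` in the punctured ball, `d ≥ 2`; `φ` smooth with compact support in
the unit ball (not necessarily vanishing near `0`).  Cut-off `χ_ε(x) = χ(x/ε)`, `χ` a bump function
(`ContDiffBump (0 : Eu d)`), equal to `1` near `0`, `0 ≤ χ ≤ 1`, support in the unit ball.
`φ (1 - χ_ε)` is a test function in the punctured ball, so
`∫ P ∂_iφ = ∫ P ∂_i(φ χ_ε)`, and `|∫ P ∂_i(φ χ_ε)| ≤ C (sup|∂φ| + sup|φ| sup|∂χ|/ε) |ball 0 ε| → 0`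
(`|ball 0 ε| = ε^d |ball 0 1|`, `d ≥ 2`).
-/

open Real Set MeasureTheory Filter Topology
open scoped ContDiff

namespace Pool.UVF

variable {d : ℕ}

private theorem cpt_bound {f : Eu d → ℝ} (hf : ContDiff ℝ ∞ f) (hc : HasCompactSupport f) :
    ∃ M : ℝ, 0 ≤ M ∧ (∀ x, |f x| ≤ M) ∧ ∀ i x, |pd i f x| ≤ M := by
  obtain ⟨M₁, h₁⟩ := hf.continuous.bounded_above_of_compact_support hc
  have hdc : Continuous (fderiv ℝ f) := hf.continuous_fderiv (by simp)
  obtain ⟨M₂, h₂⟩ := hdc.bounded_above_of_compact_support (hc.fderiv (𝕜 := ℝ))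
  refine ⟨max M₁ M₂ , ?_, fun x => ?_, fun i x => ?_⟩
  · exact (norm_nonneg (f 0)).trans ((h₁ 0).trans (le_max_left _ _))
  · exact (h₁ x).trans (le_max_left _ _)
  · have h3 := (fderiv ℝ f x).le_opNorm (EuclideanSpace.single i (1 : ℝ))
    rw [EuclideanSpace.norm_single, norm_one, mul_one] at h3
    exact (h3.trans (h₂ x)).trans (le_max_right _ _)

private theorem pd_scale' {f : Eu d → ℝ} (hf : Differentiable ℝ f) (k : ℝ) (i : Fin d) (x : Eu d) :
    pd i (fun x => f (k • x)) x = k * pd i f (k • x) := by
  unfold pd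
  have h1 : HasFDerivAt (fun x : Eu d => k • x) (k • ContinuousLinearMap.id ℝ (Eu d)) x :=
    (hasFDerivAt_id x).const_smul k
  have h2 : HasFDerivAt (fun x => f (k • x))
      ((fderiv ℝ f (k • x)).comp (k • ContinuousLinearMap.id ℝ (Eu d))) x :=
    (hf (k • x)).hasFDerivAt.comp x h1
  rw [h2.fderiv]
  simp

private theorem pd_mul' {f g : Eu d → ℝ} (hf : Differentiable ℝ f) (hg : Differentiable ℝ g)
    (i : Fin d) (x : Eu d) :
    pd i (fun x => f x * g x) x = f x * pd i g x + g x * pd i f x := by
  unfold pd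
  rw [fderiv_fun_mul (hf x) (hg x)]
  simp

theorem integral_pd_eq_zero (hd : 2 ≤ d) {P : Eu d → ℝ} (hP : Measurable P) {C : ℝ}
    (hC : ∀ᵐ x ∂(mB d), |P x| ≤ C) (hw : HasWGrad P (fun _ _ => 0)) {φ : Eu d → ℝ}
    (hφ : ContDiff ℝ ∞ φ) (hφc : HasCompactSupport φ) (hφs : tsupport φ ⊆ Bd d) (i : Fin d) :
    ∫ x, P x * pd i φ x ∂(mB d) = 0 := by
  classical
  -- the bump function
  let χ : ContDiffBump (0 : Eu d) := ⟨1/2, 1, by norm_num, by norm_num⟩
  have hχ : ContDiff ℝ ∞ (χ : Eu d → ℝ) := χ.contDiff
  have hχd : Differentiable ℝ (χ : Eu d → ℝ) := hχ.differentiable (by simp)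
  have hφd : Differentiable ℝ φ := hφ.differentiable (by simp)
  obtain ⟨M, hM0, hM, hMd⟩ := cpt_bound hχ χ.hasCompactSupport
  obtain ⟨A, hA0, hA, hAd⟩ := cpt_bound hφ hφc
  haveI : IsFiniteMeasure (mB d) := ⟨by
    simp only [mB, Bd, Measure.restrict_apply_univ]
    exact measure_ball_lt_top⟩
  have hC' : ∀ᵐ x ∂(mB d), ‖P x‖ ≤ |C| := by
    filter_upwards [hC] with x hx
    exact hx.trans (le_abs_self C)
  -- integrability of `P * g` for bounded continuous `g`
  have hint : ∀ g : Eu d → ℝ, ContDiff ℝ ∞ g → HasCompactSupport g →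
      Integrable (fun x => P x * pd i g x) (mB d) := by
    intro g hg hgc
    obtain ⟨B, hB0, hB, hBd⟩ := cpt_bound hg hgc
    have hcont : Continuous (pd i g) := by
      unfold pd
      exact (hg.continuous_fderiv (by simp)).clm_apply continuous_const
    refine Integrable.mono' (integrable_const (|C| * B)) ?_ ?_
    · exact (hP.mul hcont.measurable).aestronglyMeasurable
    · filter_upwards [hC'] with x hx
      rw [norm_mul]
      exact mul_le_mul hx (hBd i x) (norm_nonneg _) (abs_nonneg _)
  -- the scaled cut-off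
  have key : ∀ k : ℝ, 1 ≤ k →
      |∫ x, P x * pd i φ x ∂(mB d)| ≤
        |C| * (A * (1 + M)) * (volume (Metric.ball (0 : Eu d) 1)).toReal * k⁻¹ := by
    intro k hk
    have hk0 : 0 < k := by linarith
    set χk : Eu d → ℝ := fun x => χ (k • x) with hχk
    have hχks : ContDiff ℝ ∞ χk := hχ.comp (contDiff_const_smul k)
    have hχkd : Differentiable ℝ χk := hχks.differentiable (by simp)
    have hone : ContDiff ℝ ∞ (fun x => 1 - χk x) := contDiff_const.sub hχks
    have hf1 : ContDiff ℝ ∞ (fun x => φ x * (1 - χk x)) := hφ.mul hone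
    have hf2 : ContDiff ℝ ∞ (fun x => φ x * χk x) := hφ.mul hχks
    have hc1 : HasCompactSupport (fun x => φ x * (1 - χk x)) := hφc.mul_right
    have hc2 : HasCompactSupport (fun x => φ x * χk x) := hφc.mul_right
    have htest : IsTest (fun x => φ x * (1 - χk x)) := by
      refine ⟨hf1, hc1, ?_⟩
      intro x hx
      refine ⟨hφs ?_, ?_⟩
      · exact closure_mono (fun y hy => by
          rw [Function.mem_support] at hy ⊢
          exact left_ne_zero_of_mul hy) hx
      · rintro rfl
        revert hx
        rw [imp_false, notMem_tsupport_iff_eventuallyEq]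
        have hnear : ∀ᶠ y in 𝓝 (0 : Eu d), k • y ∈ Metric.closedBall (0 : Eu d) (1/2) := by
          have hcont : Continuous (fun y : Eu d => k • y) := continuous_const_smul k
          have : Metric.closedBall (0 : Eu d) (1/2) ∈ 𝓝 (k • (0 : Eu d)) := by
            rw [smul_zero]
            exact Metric.closedBall_mem_nhds _ (by norm_num)
          exact hcont.continuousAt.eventually_mem this
        filter_upwards [hnear] with y hy
        have : χk y = 1 := χ.one_of_mem_closedBall hy
        simp [this]
    have hz := hw _ htest i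
    simp only [zero_mul, integral_zero, neg_zero] at hz
    have hsplit : ∫ x, P x * pd i φ x ∂(mB d) = ∫ x, P x * pd i (fun x => φ x * χk x) x ∂(mB d) := by
      have : ∀ x, P x * pd i φ x = P x * pd i (fun x => φ x * (1 - χk x)) x
          + P x * pd i (fun x => φ x * χk x) x := by
        intro x
        rw [pd_mul' hφd (hone.differentiable (by simp)), pd_mul' hφd hχkd]
        have h1 : pd i (fun x => 1 - χk x) x = - pd i χk x := by
          unfold pd
          rw [fderiv_const_sub]
          simp
        rw [h1]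
        ring
      simp_rw [this]
      rw [integral_add (hint _ hf1 hc1) (hint _ hf2 hc2), hz, zero_add]
    rw [hsplit]
    -- pointwise bound
    set E : Set (Eu d) := Metric.closedBall (0 : Eu d) (k⁻¹) with hE
    have hpt : ∀ x, |pd i (fun x => φ x * χk x) x| ≤ E.indicator (fun _ => A * (1 + M) * k) x := by
      intro x
      by_cases hx : x ∈ E
      · rw [Set.indicator_of_mem hx, pd_mul' hφd hχkd]
        have h1 : |χk x| ≤ 1 := by
          rw [abs_of_nonneg χ.nonneg]; exact χ.le_one
        have h2 : |pd i χk x| ≤ k * M := by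
          rw [hχk, pd_scale' hχd, abs_mul, abs_of_pos hk0]
          exact mul_le_mul_of_nonneg_left (hMd i _) hk0.le
        calc |φ x * pd i χk x + χk x * pd i φ x|
            ≤ |φ x| * |pd i χk x| + |χk x| * |pd i φ x| := by
              rw [← abs_mul, ← abs_mul]; exact abs_add_le _ _
          _ ≤ A * (k * M) + 1 * A := by
              gcongr
              · exact hA x
              · exact hAd i x
          _ ≤ A * (1 + M) * k := by nlinarith
      · rw [Set.indicator_of_notMem hx]
        have hnz : (fun x => φ x * χk x) =ᶠ[𝓝 x] 0 := by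
          have hopen : Eᶜ ∈ 𝓝 x := Metric.isClosed_closedBall.isOpen_compl.mem_nhds hx
          filter_upwards [hopen] with y hy
          have : χk y = 0 := by
            apply χ.zero_of_le_dist
            show (1 : ℝ) ≤ dist (k • y) 0
            rw [dist_zero_right, norm_smul, Real.norm_of_nonneg hk0.le]
            have hy' : k⁻¹ < ‖y‖ := by
              simpa [hE, Metric.mem_closedBall, dist_zero_right] using hy
            have := (mul_lt_mul_of_pos_left hy' hk0).le
            rwa [mul_inv_cancel₀ hk0.ne'] at this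
          simp [this]
        unfold pd
        rw [hnz.fderiv_eq]
        simp
    have hEm : MeasurableSet E := Metric.isClosed_closedBall.measurableSet
    have hb := norm_integral_le_of_norm_le (μ := mB d)
      (f := fun x => P x * pd i (fun x => φ x * χk x) x)
      (g := fun x => |C| * E.indicator (fun _ => A * (1 + M) * k) x)
      (((integrable_const _).indicator hEm).const_mul _) (by
        filter_upwards [hC'] with x hx
        rw [norm_mul]
        exact mul_le_mul hx (hpt x) (norm_nonneg _) (abs_nonneg _))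
    rw [Real.norm_eq_abs] at hb
    refine hb.trans ?_
    rw [integral_const_mul, integral_indicator_const _ hEm, smul_eq_mul]
    have hvol : (mB d).real E ≤ (k⁻¹) ^ 2 * (volume (Metric.ball (0 : Eu d) 1)).toReal := by
      have h1 : (mB d) E ≤ volume E := Measure.restrict_apply_le _ _
      have h2 : (volume E).toReal = (k⁻¹) ^ d * (volume (Metric.ball (0 : Eu d) 1)).toReal := by
        rw [hE, Measure.addHaar_closedBall _ _ (inv_nonneg.2 hk0.le), finrank_euclideanSpace,
          Fintype.card_fin, ENNReal.toReal_mul, ENNReal.toReal_ofReal (by positivity)]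
      have h3 : (mB d).real E ≤ (volume E).toReal :=
        ENNReal.toReal_mono (measure_closedBall_lt_top).ne h1
      refine h3.trans (h2.le.trans ?_)
      refine mul_le_mul_of_nonneg_right ?_ ENNReal.toReal_nonneg
      exact pow_le_pow_of_le_one (inv_nonneg.2 hk0.le) (inv_le_one_of_one_le₀ hk) hd
    have hV0 : 0 ≤ (volume (Metric.ball (0 : Eu d) 1)).toReal := ENNReal.toReal_nonneg
    calc |C| * ((mB d).real E * (A * (1 + M) * k))
        ≤ |C| * (((k⁻¹) ^ 2 * (volume (Metric.ball (0 : Eu d) 1)).toReal) * (A * (1 + M) * k)) := by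
          gcongr
      _ = |C| * (A * (1 + M)) * (volume (Metric.ball (0 : Eu d) 1)).toReal * k⁻¹ := by
          field_simp
  -- let `k → ∞`
  have hlim : Tendsto (fun k : ℝ =>
      |C| * (A * (1 + M)) * (volume (Metric.ball (0 : Eu d) 1)).toReal * k⁻¹) atTop (𝓝 0) := by
    have := tendsto_inv_atTop_zero (𝕜 := ℝ)
    simpa using this.const_mul (|C| * (A * (1 + M)) * (volume (Metric.ball (0 : Eu d) 1)).toReal)
  have hle : |∫ x, P x * pd i φ x ∂(mB d)| ≤ 0 :=
    ge_of_tendsto hlim (by filter_upwards [eventually_ge_atTop (1 : ℝ)] with k hk using key k hk)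
  exact abs_nonpos_iff.1 hle

end Pool.UVF
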