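import Pool.Agent.Lib.MP_28fba0_gt.UV.MollLp
import Pool.Agent.Lib.MP_28fba0_gt.UV.ConstA

/-!
# UV-WChainB: constancy

`moll n (P 1_B)` has derivative `0` on `ball 0 (1 - 1/(n+1))`: `pd_moll` and `integral_pd_eq_zero` for
`φ(y) = ρ_n(x - y)` (smooth, support in the closed ball of radius `1/(n+1)` around `x`, inside `B`); the
ball is convex, so `moll n (P 1_B)` is constant there (`IsOpen.is_const_of_fderiv_eq_zero` or
`Convex.is_const_of_fderivWithin_eq_zero`).  Let `n → ∞` (`moll_tendsto_L1`): `P` is a.e. equal to a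
constant on `ball 0 r` for all `r < 1` (a limit in `L¹(ball 0 r)` of constants is constant), hence on the
unit ball.
-/

open Real Set MeasureTheory Filter Topology
open scoped ContDiff

namespace Pool.UVF

variable {d : ℕ}

private theorem subseq_ae {α : Type*} [MeasurableSpace α] {μ : Measure α} {F : ℕ → α → ℝ}
    {f : α → ℝ} (hF : ∀ n, Integrable (F n) μ) (hf : Integrable f μ)
    (h : Tendsto (fun n => ∫ x, |F n x - f x| ∂μ) atTop (𝓝 0)) :
    ∃ ns : ℕ → ℕ, StrictMono ns ∧ ∀ᵐ x ∂μ, Tendsto (fun k => F (ns k) x) atTop (𝓝 (f x)) := by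
  refine TendstoInMeasure.exists_seq_tendsto_ae ?_
  refine tendstoInMeasure_of_tendsto_eLpNorm (p := 1) one_ne_zero
    (fun n => (hF n).aestronglyMeasurable) hf.aestronglyMeasurable ?_
  have h1 : ∀ n, eLpNorm (F n - f) 1 μ = ENNReal.ofReal (∫ x, |F n x - f x| ∂μ) := by
    intro n
    rw [eLpNorm_one_eq_lintegral_enorm, ← ofReal_integral_norm_eq_lintegral_enorm ((hF n).sub hf)]
    rfl
  simp_rw [h1]
  have := ENNReal.tendsto_ofReal h
  rwa [ENNReal.ofReal_zero] at this

private theorem fderiv_zero_of_pd {f : Eu d → ℝ} {x : Eu d} (h : ∀ i, pd i f x = 0) :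
    fderiv ℝ f x = 0 := by
  have h1 : (fderiv ℝ f x : Eu d →ₗ[ℝ] ℝ) = 0 := by
    refine (EuclideanSpace.basisFun (Fin d) ℝ).toBasis.ext fun i => ?_
    have := h i
    unfold pd at this
    simpa using this
  ext v
  have := LinearMap.congr_fun h1 v
  simpa using this

theorem const_of_wgrad_zero (hd : 2 ≤ d) {P : Eu d → ℝ} (hP : Measurable P) {C : ℝ}
    (hC : ∀ᵐ x ∂(mB d), |P x| ≤ C) (hw : HasWGrad P (fun _ _ => 0)) :
    ∃ c : ℝ, ∀ᵐ x ∂(mB d), P x = c := by
  have hBm : MeasurableSet (Bd d) := Metric.isOpen_ball.measurableSet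
  have hBf : volume (Bd d) ≠ ⊤ := measure_ball_lt_top.ne
  have hint0 : IntegrableOn P (Bd d) volume :=
    Measure.integrableOn_of_bounded hBf hP.aestronglyMeasurable (M := C) hC
  have hint : Integrable ((Bd d).indicator P) volume := hint0.integrable_indicator hBm
  -- the derivative of the mollification
  have hR : ∀ n : ℕ, ∀ x : Eu d, ‖x‖ < 1 - 1 / ((n : ℝ) + 1) →
      ∀ i, pd i (moll n ((Bd d).indicator P)) x = 0 := by
    intro n x hx i
    rw [pd_moll hint.locallyIntegrable n i x]
    set ρ : Eu d → ℝ := (bump d n).normed volume with hρ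
    have hρs : ContDiff ℝ ∞ ρ := (bump d n).contDiff_normed
    have hsupp : ∀ y : Eu d, y ∉ Metric.closedBall x (1 / ((n : ℝ) + 1)) → ρ (x - y) = 0 := by
      intro y hy
      by_contra hne
      have h1 : x - y ∈ tsupport ρ := subset_tsupport _ hne
      rw [hρ, (bump d n).tsupport_normed_eq, mem_closedBall_zero_iff] at h1
      apply hy
      rw [Metric.mem_closedBall, dist_comm, dist_eq_norm]
      exact h1
    have hφ : ContDiff ℝ ∞ (fun y => ρ (x - y)) := hρs.comp (contDiff_const.sub contDiff_id)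
    have hφc : HasCompactSupport (fun y => ρ (x - y)) :=
      HasCompactSupport.intro (isCompact_closedBall x (1 / ((n : ℝ) + 1))) hsupp
    have hφs : tsupport (fun y => ρ (x - y)) ⊆ Bd d := by
      have h1 : tsupport (fun y => ρ (x - y)) ⊆ Metric.closedBall x (1 / ((n : ℝ) + 1)) := by
        refine closure_minimal ?_ Metric.isClosed_closedBall
        intro y hy
        by_contra hcon
        exact hy (hsupp y hcon)
      refine h1.trans ?_
      intro y hy
      rw [Metric.mem_closedBall, dist_eq_norm] at hy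
      unfold Bd
      rw [mem_ball_zero_iff]
      have h2 : ‖y‖ ≤ ‖y - x‖ + ‖x‖ := by
        calc ‖y‖ = ‖(y - x) + x‖ := by rw [sub_add_cancel]
          _ ≤ _ := norm_add_le _ _
      linarith
    have hpd : ∀ y, pd i (fun y => ρ (x - y)) y = - pd i ρ (x - y) := by
      intro y
      have h1 : HasFDerivAt ρ (fderiv ℝ ρ (x - y)) (x - y) :=
        (hρs.differentiable (by simp) (x - y)).hasFDerivAt
      have h2 : HasFDerivAt (fun y : Eu d => x - y) (-(ContinuousLinearMap.id ℝ (Eu d))) y :=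
        (hasFDerivAt_id y).const_sub x
      have h3 := h1.comp y h2
      have h4 : fderiv ℝ (fun y => ρ (x - y)) y =
          (fderiv ℝ ρ (x - y)).comp (-(ContinuousLinearMap.id ℝ (Eu d))) := h3.fderiv
      unfold pd
      rw [h4]
      simp
    have key := integral_pd_eq_zero hd hP hC hw hφ hφc hφs i
    have e1 : ∫ y, pd i ρ (x - y) * (Bd d).indicator P y =
        ∫ y, - (P y * pd i (fun y => ρ (x - y)) y) ∂(mB d) := by
      unfold mB
      rw [← integral_indicator hBm]
      congr 1
      ext y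
      by_cases hy : y ∈ Bd d
      · rw [indicator_of_mem hy, indicator_of_mem hy, hpd y]; ring
      · rw [indicator_of_notMem hy, indicator_of_notMem hy, mul_zero]
    rw [e1, integral_neg, key, neg_zero]
  have hconst : ∀ n : ℕ, ∀ x : Eu d, ‖x‖ < 1 - 1 / ((n : ℝ) + 1) →
      moll n ((Bd d).indicator P) x = moll n ((Bd d).indicator P) 0 := by
    intro n x hx
    have h0 : (0 : ℝ) < 1 - 1 / ((n : ℝ) + 1) := lt_of_le_of_lt (norm_nonneg x) hx
    have hs : ContDiff ℝ ∞ (moll n ((Bd d).indicator P)) := contDiff_moll hint.locallyIntegrable n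
    refine IsOpen.is_const_of_fderiv_eq_zero (𝕜 := ℝ)
      (s := Metric.ball (0 : Eu d) (1 - 1 / ((n : ℝ) + 1))) Metric.isOpen_ball
      (convex_ball _ _).isPreconnected
      ((hs.differentiable (by simp)).differentiableOn) ?_ ?_ ?_
    · intro y hy
      rw [mem_ball_zero_iff] at hy
      exact fderiv_zero_of_pd (hR n y hy)
    · rwa [mem_ball_zero_iff]
    · exact Metric.mem_ball_self h0
  obtain ⟨ns, hns, hae⟩ := subseq_ae (fun n => integrable_moll hint n) hint (moll_tendsto_L1 hint)
  have hlim : ∀ x ∈ Bd d, Tendsto (fun k => moll (ns k) ((Bd d).indicator P) x) atTop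
      (𝓝 ((Bd d).indicator P x)) →
      Tendsto (fun k => moll (ns k) ((Bd d).indicator P) 0) atTop (𝓝 (P x)) := by
    intro x hx h
    rw [indicator_of_mem hx] at h
    refine h.congr' ?_
    have hx1 : ‖x‖ < 1 := mem_ball_zero_iff.mp hx
    have h1 : Tendsto (fun n : ℕ => 1 - 1 / ((n : ℝ) + 1)) atTop (𝓝 (1 - 0)) :=
      tendsto_const_nhds.sub tendsto_one_div_add_atTop_nhds_zero_nat
    rw [sub_zero] at h1
    have h2 : ∀ᶠ n : ℕ in atTop, ‖x‖ < 1 - 1 / ((n : ℝ) + 1) := h1.eventually_const_lt hx1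
    filter_upwards [hns.tendsto_atTop.eventually h2] with k hk
    exact hconst (ns k) x hk
  have hae' : ∀ᵐ x ∂(mB d), Tendsto (fun k => moll (ns k) ((Bd d).indicator P) 0) atTop
      (𝓝 (P x)) := by
    unfold mB
    filter_upwards [ae_restrict_of_ae hae, ae_restrict_mem hBm] with x h1 h2
    exact hlim x h2 h1
  by_cases hne : (ae (mB d)).NeBot
  · obtain ⟨x₀, hx₀⟩ := hae'.exists
    refine ⟨P x₀, ?_⟩
    filter_upwards [hae'] with x hx
    exact tendsto_nhds_unique hx hx₀
  · rw [not_neBot] at hne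
    refine ⟨0, ?_⟩
    rw [hne]
    exact eventually_bot

end Pool.UVF
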