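import Pool.Agent.Lib.MP_28fba0_gt.UV.ClassC
import Pool.Agent.Lib.MP_28fba0_gt.UV.WChain

/-!
# UV-ClassD1: `P = (lam x̂ - V)/√(1+lam²)` has weak gradient `0`

`P_j = Φ₁(lam) x̂_j - Φ₂(lam) V_j`, `Φ₁(s) = s/√(1+s²)`, `Φ₂(s) = 1/√(1+s²)`,
`Φ₁' = (1+s²)^{-3/2}`, `Φ₂' = - s (1+s²)^{-3/2}` (both bounded by `1`).
* `HasWGrad.comp` and `gradLam`: `∂_i Φ₁(lam) = - V_i/(‖x‖√(1+lam²))`,
  `∂_i Φ₂(lam) = lam V_i/(‖x‖√(1+lam²))`.
* `HasWGrad.smooth_mul` with `ψ = x̂_j`: `∂_i (x̂_j Φ₁(lam)) = x̂_j ∂_iΦ₁(lam) + Φ₁(lam) (δ - x̂_j x̂_i)/‖x‖`.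
* `∂_i (Φ₂(lam) V_j) = V_j ∂_iΦ₂(lam) + Φ₂(lam) c0_{ji}/‖x‖`: `HasWDiv.mul` with
  `X_k = if k = i then Φ₂(lam) else 0`, `ρ = ∂_iΦ₂(lam)`, `u = V_j`, `g_k = c0_{jk}/‖x‖`.
* sum: `‖x‖√(1+lam²) ∂_iP_j = -V_i x̂_j + lam(δ - x̂_jx̂_i) - lam V_iV_j - c0_{ji} = 0`
  (`c0_{ji} = lam (δ - x̂_jx̂_i - V_jV_i) - x̂_jV_i`).
-/

open Matrix Real Set MeasureTheory
open scoped RealInnerProductSpace

namespace Pool.UVF

variable {d : ℕ} {V : Eu d → Eu d} {lam : Eu d → ℝ}

/-- `√(1+s²)` -/
noncomputable def d1w (s : ℝ) : ℝ := √ (1 + s ^ 2)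

theorem d1w_pos (s : ℝ) : 0 < d1w s := Real.sqrt_pos.2 (by positivity)

theorem d1w_sq (s : ℝ) : d1w s ^ 2 = 1 + s ^ 2 := Real.sq_sqrt (by positivity)

theorem one_le_d1w (s : ℝ) : 1 ≤ d1w s := by
  nlinarith [d1w_sq s, d1w_pos s, sq_nonneg s]

theorem abs_le_d1w (s : ℝ) : |s| ≤ d1w s := Real.abs_le_sqrt (by linarith)

theorem d1w_deriv (s : ℝ) : HasDerivAt d1w (s / d1w s) s := by
  have h1 : HasDerivAt (fun s : ℝ => 1 + s ^ 2) (2 * s) s := by
    have := ((hasDerivAt_id s).pow 2).const_add 1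
    simpa using this
  have h2 := h1.sqrt (by positivity)
  have h3 : 2 * s / (2 * √ (1 + s ^ 2)) = s / d1w s := by
    have := (d1w_pos s).ne'
    unfold d1w at *
    field_simp
  rw [h3] at h2
  exact h2

/-- `Φ₁` -/
noncomputable def d1a (s : ℝ) : ℝ := s / d1w s

/-- `Φ₂` -/
noncomputable def d1b (s : ℝ) : ℝ := 1 / d1w s

theorem d1a_deriv (s : ℝ) : HasDerivAt d1a (1 / d1w s ^ 3) s := by
  have h := (hasDerivAt_id s).div (d1w_deriv s) (d1w_pos s).ne'
  have h3 : (1 * d1w s - id s * (s / d1w s)) / d1w s ^ 2 = 1 / d1w s ^ 3 := by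
    have h0 := (d1w_pos s).ne'
    have h1 := d1w_sq s
    simp only [id]
    field_simp
    linear_combination h1
  rw [h3] at h
  exact h

theorem d1b_deriv (s : ℝ) : HasDerivAt d1b (-(s / d1w s ^ 3)) s := by
  have h := (hasDerivAt_const s (1 : ℝ)).div (d1w_deriv s) (d1w_pos s).ne'
  have h3 : ((0 : ℝ) * d1w s - 1 * (s / d1w s)) / d1w s ^ 2 = -(s / d1w s ^ 3) := by
    have h0 := (d1w_pos s).ne'
    field_simp
    ring
  rw [h3] at h
  exact h

theorem d1w_contDiff : ContDiff ℝ 1 d1w := by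
  have h1 : ContDiff ℝ 1 (fun s : ℝ => 1 + s ^ 2) := by fun_prop
  exact h1.sqrt (fun s => by positivity)

theorem d1a_contDiff : ContDiff ℝ 1 d1a := contDiff_id.div d1w_contDiff (fun s => (d1w_pos s).ne')

theorem d1b_contDiff : ContDiff ℝ 1 d1b :=
  contDiff_const.div d1w_contDiff (fun s => (d1w_pos s).ne')

theorem d1a_bound (s : ℝ) : |deriv d1a s| ≤ 1 := by
  rw [(d1a_deriv s).deriv, abs_of_pos (by have := d1w_pos s; positivity)]
  rw [div_le_one (by have := d1w_pos s; positivity)]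
  exact one_le_pow₀ (one_le_d1w s)

theorem d1b_bound (s : ℝ) : |deriv d1b s| ≤ 1 := by
  rw [(d1b_deriv s).deriv, abs_neg, abs_div, abs_of_pos (a := d1w s ^ 3) (by have := d1w_pos s; positivity)]
  rw [div_le_one (by have := d1w_pos s; positivity)]
  calc |s| ≤ d1w s := abs_le_d1w s
    _ ≤ d1w s ^ 3 := le_self_pow₀ (one_le_d1w s) (by norm_num)

theorem abs_d1a_le (s : ℝ) : |d1a s| ≤ 1 := by
  rw [d1a, abs_div, abs_of_pos (d1w_pos s), div_le_one (d1w_pos s)]
  exact abs_le_d1w s

theorem abs_d1b_le (s : ℝ) : |d1b s| ≤ 1 := by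
  rw [d1b, abs_div, abs_of_pos (d1w_pos s), div_le_one (d1w_pos s), abs_one]
  exact one_le_d1w s

/-- locally bounded measurable functions are in `LocL1` -/
theorem d1_locL1 {g : Eu d → ℝ} (hm : AEStronglyMeasurable g (mB d))
    (hC : ∀ r : ℝ, 0 < r → ∃ C : ℝ, ∀ᵐ x ∂(mB d), r ≤ ‖x‖ → |g x| ≤ C) : LocL1 g := by
  intro r hr
  obtain ⟨C, hC⟩ := hC r hr
  have hms : MeasurableSet {x : Eu d | r ≤ ‖x‖} :=
    (isClosed_le continuous_const continuous_norm).measurableSet
  have hfin : mB d {x : Eu d | r ≤ ‖x‖} ≠ ⊤ := by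
    have h1 : mB d {x : Eu d | r ≤ ‖x‖} ≤ mB d univ := measure_mono (subset_univ _)
    have h2 : mB d univ < ⊤ := by
      rw [mB, Measure.restrict_apply_univ]
      exact measure_ball_lt_top
    exact (lt_of_le_of_lt h1 h2).ne
  refine Measure.integrableOn_of_bounded (M := C) hfin hm ?_
  rw [ae_restrict_iff' hms]
  filter_upwards [hC] with x hx hxr
  rw [Real.norm_eq_abs]
  exact hx hxr

theorem d1_meas_coord {W : Eu d → Eu d} (hW : Measurable W) (j : Fin d) :
    Measurable (fun x => W x j) :=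
  (EuclideanSpace.proj j : Eu d →L[ℝ] ℝ).continuous.measurable.comp hW

theorem d1_meas_hat : Measurable (hat : Eu d → Eu d) := by
  unfold hat
  exact measurable_norm.inv.smul measurable_id

theorem d1_abs_coord {v : Eu d} (hv : ‖v‖ = 1) (j : Fin d) : |v j| ≤ 1 := by
  have h := EuclideanSpace.norm_eq v
  have h2 : |v j| ^ 2 ≤ ∑ i, ‖v i‖ ^ 2 := by
    have := Finset.single_le_sum (f := fun i => ‖v i‖ ^ 2) (fun i _ => sq_nonneg _)
      (Finset.mem_univ j)
    simpa [Real.norm_eq_abs] using this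
  have h3 : ‖v‖ ^ 2 = ∑ i, ‖v i‖ ^ 2 := EuclideanSpace.norm_sq_eq v
  rw [hv] at h3
  have h4 : |v j| ^ 2 ≤ 1 := by linarith
  nlinarith [abs_nonneg (v j)]

/-- the limit integrand -/
theorem LimitData.d1_key (hd : 4 ≤ d) (h : LimitData V lam) (j i : Fin d) :
    ∀ᵐ x ∂(mB d), x ≠ 0 ∧ |hat x j| ≤ 1 ∧ |hat x i| ≤ 1 ∧ |V x j| ≤ 1 ∧ |V x i| ≤ 1 := by
  filter_upwards [h.ae_all (by omega)] with x hx
  obtain ⟨h1, h2, h3, -⟩ := hx
  exact ⟨h1, d1_abs_coord h2 j, d1_abs_coord h2 i, d1_abs_coord h3 j, d1_abs_coord h3 i⟩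

/-- weak gradient of `Φ₁(lam)` -/
theorem LimitData.d1_gradA (hd : 4 ≤ d) (h : LimitData V lam) :
    HasWGrad (fun x => d1a (lam x)) (fun i x => - (V x i / (‖x‖ * d1w (lam x)))) := by
  have hg : ∀ i, LocL1 (fun x => - ((1 + lam x ^ 2) * V x i / ‖x‖)) := by
    intro i r hr
    have hms : MeasurableSet {x : Eu d | r ≤ ‖x‖} :=
      (isClosed_le continuous_const continuous_norm).measurableSet
    have hb : Integrable (fun x => (1 + lam x ^ 2) * (1 / r)) ((mB d).restrict {x | r ≤ ‖x‖}) := by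
      have h1 : Integrable (fun _ : Eu d => (1 : ℝ)) (mB d) := by
        have : IsFiniteMeasure (mB d) := by
          rw [mB]
          exact ⟨by rw [Measure.restrict_apply_univ]; exact measure_ball_lt_top⟩
        exact integrable_const _
      exact ((h1.add h.l2).mul_const (1 / r)).restrict
    refine Integrable.mono' hb ?_ ?_
    · have hm : Measurable (fun x => - ((1 + lam x ^ 2) * V x i / ‖x‖)) :=
        (((measurable_const.add (h.mlam.pow_const 2)).mul (d1_meas_coord h.mV i)).div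
          measurable_norm).neg
      exact hm.aestronglyMeasurable
    · rw [ae_restrict_iff' hms]
      filter_upwards [h.d1_key hd i i] with x hx hxr
      obtain ⟨h1, -, -, h2, -⟩ := hx
      have hxr' : r ≤ ‖x‖ := hxr
      have hpos : 0 < ‖x‖ := lt_of_lt_of_le hr hxr'
      rw [norm_neg, norm_div, norm_mul, Real.norm_eq_abs, Real.norm_eq_abs, norm_norm,
        abs_of_nonneg (by positivity : (0 : ℝ) ≤ 1 + lam x ^ 2)]
      rw [mul_div_assoc]
      refine mul_le_mul_of_nonneg_left ?_ (by positivity)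
      rw [div_le_div_iff₀ hpos hr]
      nlinarith
  have hc := HasWGrad.comp h.mlam h.integrable_lam hg (h.gradLam hd) d1a_contDiff d1a_bound
  have he : (fun (i : Fin d) (x : Eu d) => deriv d1a (lam x) * - ((1 + lam x ^ 2) * V x i / ‖x‖))
      = (fun i x => - (V x i / (‖x‖ * d1w (lam x)))) := by
    funext i x
    rw [(d1a_deriv _).deriv, ← d1w_sq]
    have h0 := (d1w_pos (lam x)).ne'
    by_cases hx : ‖x‖ = 0
    · simp [hx]
    · field_simp
  rw [he] at hc
  exact hc

/-- weak gradient of `Φ₂(lam)` -/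
theorem LimitData.d1_gradB (hd : 4 ≤ d) (h : LimitData V lam) :
    HasWGrad (fun x => d1b (lam x)) (fun i x => lam x * V x i / (‖x‖ * d1w (lam x))) := by
  have hg : ∀ i, LocL1 (fun x => - ((1 + lam x ^ 2) * V x i / ‖x‖)) := by
    intro i r hr
    have hms : MeasurableSet {x : Eu d | r ≤ ‖x‖} :=
      (isClosed_le continuous_const continuous_norm).measurableSet
    have hb : Integrable (fun x => (1 + lam x ^ 2) * (1 / r)) ((mB d).restrict {x | r ≤ ‖x‖}) := by
      have h1 : Integrable (fun _ : Eu d => (1 : ℝ)) (mB d) := by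
        have : IsFiniteMeasure (mB d) := by
          rw [mB]
          exact ⟨by rw [Measure.restrict_apply_univ]; exact measure_ball_lt_top⟩
        exact integrable_const _
      exact ((h1.add h.l2).mul_const (1 / r)).restrict
    refine Integrable.mono' hb ?_ ?_
    · have hm : Measurable (fun x => - ((1 + lam x ^ 2) * V x i / ‖x‖)) :=
        (((measurable_const.add (h.mlam.pow_const 2)).mul (d1_meas_coord h.mV i)).div
          measurable_norm).neg
      exact hm.aestronglyMeasurable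
    · rw [ae_restrict_iff' hms]
      filter_upwards [h.d1_key hd i i] with x hx hxr
      obtain ⟨h1, -, -, h2, -⟩ := hx
      have hxr' : r ≤ ‖x‖ := hxr
      have hpos : 0 < ‖x‖ := lt_of_lt_of_le hr hxr'
      rw [norm_neg, norm_div, norm_mul, Real.norm_eq_abs, Real.norm_eq_abs, norm_norm,
        abs_of_nonneg (by positivity : (0 : ℝ) ≤ 1 + lam x ^ 2)]
      rw [mul_div_assoc]
      refine mul_le_mul_of_nonneg_left ?_ (by positivity)
      rw [div_le_div_iff₀ hpos hr]
      nlinarith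
  have hc := HasWGrad.comp h.mlam h.integrable_lam hg (h.gradLam hd) d1b_contDiff d1b_bound
  have he : (fun (i : Fin d) (x : Eu d) => deriv d1b (lam x) * - ((1 + lam x ^ 2) * V x i / ‖x‖))
      = (fun i x => lam x * V x i / (‖x‖ * d1w (lam x))) := by
    funext i x
    rw [(d1b_deriv _).deriv, ← d1w_sq]
    have h0 := (d1w_pos (lam x)).ne'
    by_cases hx : ‖x‖ = 0
    · simp [hx]
    · field_simp
  rw [he] at hc
  exact hc

theorem LimitData.gradP (hd : 4 ≤ d) (h : LimitData V lam) (j : Fin d) :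
    HasWGrad (fun x => (lam x * hat x j - V x j) / √ (1 + lam x ^ 2)) (fun _ _ => 0) := by
  intro φ hφ i
  have hd2 : 2 ≤ d := by omega
  obtain ⟨r, hr0, hr1, hz⟩ := hφ.zero_near
  obtain ⟨Cφ, hCφ, hCφ1, hCφ2, -⟩ := hφ.bdd
  have hmφ : AEStronglyMeasurable φ (mB d) := hφ.smooth.continuous.aestronglyMeasurable
  have hmdφ : AEStronglyMeasurable (pd i φ) (mB d) := (hφ.continuous_pd i).aestronglyMeasurable
  have hmw : Measurable (fun x => d1w (lam x)) := d1w_contDiff.continuous.measurable.comp h.mlam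
  have hma : Measurable (fun x => d1a (lam x)) := d1a_contDiff.continuous.measurable.comp h.mlam
  have hmb : Measurable (fun x => d1b (lam x)) := d1b_contDiff.continuous.measurable.comp h.mlam
  have hmhj : Measurable (fun x : Eu d => hat x j) := d1_meas_coord d1_meas_hat j
  have hmhi : Measurable (fun x : Eu d => hat x i) := d1_meas_coord d1_meas_hat i
  have hmVj : Measurable (fun x => V x j) := d1_meas_coord h.mV j
  have hmVi : Measurable (fun x => V x i) := d1_meas_coord h.mV i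
  have hmn : Measurable (fun x : Eu d => ‖x‖) := measurable_norm
  have hkey := h.d1_key hd j i
  -- the products with test functions are integrable
  have hint : ∀ g : Eu d → ℝ, LocL1 g → Integrable (fun x => g x * φ x) (mB d) := by
    intro g hg
    exact hg.integrable_mul hmφ hCφ1 hr0 (fun x hx => (hz x (Or.inl hx)).1)
  have hint' : ∀ g : Eu d → ℝ, LocL1 g → Integrable (fun x => g x * pd i φ x) (mB d) := by
    intro g hg
    exact hg.integrable_mul hmdφ (hCφ2 i) hr0 (fun x hx => (hz x (Or.inl hx)).2.1 i)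
  -- `Φ₁`
  have hLa : LocL1 (fun x => d1a (lam x)) :=
    d1_locL1 hma.aestronglyMeasurable
      (fun r hr => ⟨1, Filter.Eventually.of_forall fun x _ => abs_d1a_le _⟩)
  have hLga : ∀ k, LocL1 (fun x => - (V x k / (‖x‖ * d1w (lam x)))) := by
    intro k
    refine d1_locL1 (((d1_meas_coord h.mV k).div (hmn.mul hmw)).neg).aestronglyMeasurable ?_
    intro r hr
    refine ⟨1 / r, ?_⟩
    filter_upwards [h.d1_key hd k k] with x hx hxr
    obtain ⟨-, -, -, hx1, -⟩ := hx
    have hpos : 0 < ‖x‖ := lt_of_lt_of_le hr hxr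
    have hw := one_le_d1w (lam x)
    rw [abs_neg, abs_div, abs_of_pos (a := ‖x‖ * d1w (lam x)) (by positivity),
      div_le_div_iff₀ (by positivity) hr]
    nlinarith [abs_nonneg (V x k)]
  have hA := HasWGrad.smooth_mul hLa hLga (h.d1_gradA hd) (contDiffOn_hat j) φ hφ i
  -- `Φ₂`
  have hLgb : ∀ k, LocL1 (fun x => lam x * V x k / (‖x‖ * d1w (lam x))) := by
    intro k
    refine d1_locL1 ((h.mlam.mul (d1_meas_coord h.mV k)).div (hmn.mul hmw)).aestronglyMeasurable ?_
    intro r hr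
    refine ⟨1 / r, ?_⟩
    filter_upwards [h.d1_key hd k k] with x hx hxr
    obtain ⟨-, -, -, hx1, -⟩ := hx
    have hpos : 0 < ‖x‖ := lt_of_lt_of_le hr hxr
    have hw := d1w_pos (lam x)
    have hl := abs_le_d1w (lam x)
    rw [abs_div, abs_of_pos (a := ‖x‖ * d1w (lam x)) (by positivity), abs_mul,
      div_le_div_iff₀ (by positivity) hr]
    have h1 : |lam x| * |V x k| ≤ d1w (lam x) * 1 :=
      mul_le_mul hl hx1 (abs_nonneg _) hw.le
    nlinarith
  have hX : ∀ k, LocL2 (fun x => if k = i then d1b (lam x) else 0) := by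
    intro k
    by_cases hk : k = i
    · simp only [hk, if_true]
      refine ⟨hmb.aestronglyMeasurable, fun r hr => ?_⟩
      have h1 : LocL1 (fun x => d1b (lam x) ^ 2) :=
        d1_locL1 (hmb.pow_const 2).aestronglyMeasurable (fun r hr => ⟨1,
          Filter.Eventually.of_forall fun x _ => by
            rw [abs_of_nonneg (sq_nonneg _), sq_le_one_iff_abs_le_one]
            exact abs_d1b_le _⟩)
      exact h1 r hr
    · simp only [hk, if_false]
      refine ⟨aestronglyMeasurable_const, fun r hr => ?_⟩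
      have : (fun x : Eu d => (0 : ℝ) ^ 2) = fun _ => 0 := by
        funext x
        norm_num
      rw [this]
      exact integrableOn_zero
  have hdiv : HasWDiv (fun k x => if k = i then d1b (lam x) else 0)
      (fun x => lam x * V x i / (‖x‖ * d1w (lam x))) := by
    intro ψ hψ
    have := h.d1_gradB hd ψ hψ i
    rw [← this]
    congr 1
    funext x
    simp
  have hB := HasWDiv.mul hX (hLgb i) hdiv hmVj (h.abs_V_le hd2 j) (fun k => h.locL2_c0 hd2 j k)
    (h.gradV hd2 j) hφ
  have hB1 : ∀ x, (∑ k, (if k = i then d1b (lam x) else 0) *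
      (V x j * pd k φ x + c0 (lam x) (hat x) (V x) j k / ‖x‖ * φ x))
      = d1b (lam x) * V x j * pd i φ x + d1b (lam x) * (c0 (lam x) (hat x) (V x) j i / ‖x‖) * φ x := by
    intro x
    simp only [ite_mul, zero_mul, Finset.sum_ite_eq', Finset.mem_univ, if_true]
    ring
  simp only [hB1] at hB
  -- integrability
  have hLA1 : LocL1 (fun x => hat x j * d1a (lam x)) := by
    refine d1_locL1 (hmhj.mul hma).aestronglyMeasurable (fun r hr => ⟨1, ?_⟩)
    filter_upwards [hkey] with x hx _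
    rw [abs_mul]
    exact mul_le_one₀ hx.2.1 (abs_nonneg _) (abs_d1a_le _)
  have hLB1 : LocL1 (fun x => d1b (lam x) * V x j) := by
    refine d1_locL1 (hmb.mul hmVj).aestronglyMeasurable (fun r hr => ⟨1, ?_⟩)
    filter_upwards [hkey] with x hx _
    rw [abs_mul]
    exact mul_le_one₀ (abs_d1b_le _) (abs_nonneg _) hx.2.2.2.1
  have hmc : Measurable (fun x => c0 (lam x) (hat x) (V x) j i / ‖x‖) := by
    have h1 : (fun x => c0 (lam x) (hat x) (V x) j i / ‖x‖) = fun x =>
        (lam x * ((if j = i then 1 else 0) - hat x j * hat x i - V x j * V x i)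
          - hat x j * V x i) / ‖x‖ := by
      funext x
      simp [c0]
    rw [h1]
    exact ((h.mlam.mul ((measurable_const.sub (hmhj.mul hmhi)).sub (hmVj.mul hmVi))).sub
      (hmhj.mul hmVi)).div hmn
  have hcb : ∀ᵐ x ∂(mB d), |d1b (lam x) * c0 (lam x) (hat x) (V x) j i| ≤ 4 := by
    filter_upwards [hkey] with x hx
    obtain ⟨-, a1, a2, a3, a4⟩ := hx
    have h1 : d1b (lam x) * c0 (lam x) (hat x) (V x) j i
        = d1a (lam x) * ((if j = i then 1 else 0) - hat x j * hat x i - V x j * V x i)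
          - d1b (lam x) * (hat x j * V x i) := by
      simp only [c0, d1a, d1b, Matrix.of_apply]
      ring
    have h2 : |(if j = i then (1 : ℝ) else 0)| ≤ 1 := by
      split_ifs <;> simp
    have h3 : |hat x j * hat x i| ≤ 1 := by
      rw [abs_mul]
      exact mul_le_one₀ a1 (abs_nonneg _) a2
    have h4 : |V x j * V x i| ≤ 1 := by
      rw [abs_mul]
      exact mul_le_one₀ a3 (abs_nonneg _) a4
    have h5 : |hat x j * V x i| ≤ 1 := by
      rw [abs_mul]
      exact mul_le_one₀ a1 (abs_nonneg _) a4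
    have h6 : |(if j = i then (1 : ℝ) else 0) - hat x j * hat x i - V x j * V x i| ≤ 3 := by
      rw [abs_le] at h2 h3 h4 ⊢
      constructor <;> linarith
    have h7 : |d1a (lam x) * ((if j = i then 1 else 0) - hat x j * hat x i - V x j * V x i)| ≤ 3 := by
      rw [abs_mul]
      nlinarith [abs_d1a_le (lam x), abs_nonneg (d1a (lam x)),
        abs_nonneg ((if j = i then (1 : ℝ) else 0) - hat x j * hat x i - V x j * V x i)]
    have h8 : |d1b (lam x) * (hat x j * V x i)| ≤ 1 := by
      rw [abs_mul]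
      exact mul_le_one₀ (abs_d1b_le _) (abs_nonneg _) h5
    rw [h1]
    rw [abs_le] at h7 h8 ⊢
    constructor <;> linarith
  have hLC : LocL1 (fun x => d1b (lam x) * (c0 (lam x) (hat x) (V x) j i / ‖x‖)) := by
    refine d1_locL1 (hmb.mul hmc).aestronglyMeasurable (fun r hr => ⟨4 / r, ?_⟩)
    filter_upwards [hcb] with x hx hxr
    have hpos : 0 < ‖x‖ := lt_of_lt_of_le hr hxr
    rw [← mul_div_assoc, abs_div, abs_of_pos hpos, div_le_div_iff₀ hpos hr]
    nlinarith
  have hI1 := hint' _ hLA1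
  have hI2 := hint' _ hLB1
  have hI3 := hint _ hLC
  rw [integral_add hI2 hI3] at hB
  -- the limit integrand on the left
  have hP : ∫ x, (lam x * hat x j - V x j) / √ (1 + lam x ^ 2) * pd i φ x ∂(mB d)
      = (∫ x, hat x j * d1a (lam x) * pd i φ x ∂(mB d))
        - ∫ x, d1b (lam x) * V x j * pd i φ x ∂(mB d) := by
    rw [← integral_sub hI1 hI2]
    congr 1
    funext x
    have h0 := (d1w_pos (lam x)).ne'
    change (lam x * hat x j - V x j) / d1w (lam x) * pd i φ x = _
    simp only [d1a, d1b]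
    field_simp
  have hJ1 : Integrable (fun x => (hat x j * -(V x i / (‖x‖ * d1w (lam x)))
      + ((if j = i then 1 else 0) - hat x j * hat x i) / ‖x‖ * d1a (lam x)) * φ x) (mB d) := by
    refine hint _ (d1_locL1 ?_ ?_)
    · exact ((hmhj.mul (hmVi.div (hmn.mul hmw)).neg).add
        (((measurable_const.sub (hmhj.mul hmhi)).div hmn).mul hma)).aestronglyMeasurable
    · intro r hr
      refine ⟨3 / r, ?_⟩
      filter_upwards [hkey] with x hx hxr
      obtain ⟨-, a1, a2, a3, a4⟩ := hx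
      have hpos : 0 < ‖x‖ := lt_of_lt_of_le hr hxr
      have h2 : |(if j = i then (1 : ℝ) else 0)| ≤ 1 := by
        split_ifs <;> simp
      have h3 : |hat x j * hat x i| ≤ 1 := by
        rw [abs_mul]
        exact mul_le_one₀ a1 (abs_nonneg _) a2
      have h5 : |hat x j * V x i| ≤ 1 := by
        rw [abs_mul]
        exact mul_le_one₀ a1 (abs_nonneg _) a4
      have h6 : |d1b (lam x) * (hat x j * V x i)| ≤ 1 := by
        rw [abs_mul]
        exact mul_le_one₀ (abs_d1b_le _) (abs_nonneg _) h5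
      have h7 : |(if j = i then (1 : ℝ) else 0) - hat x j * hat x i| ≤ 2 := by
        rw [abs_le] at h2 h3 ⊢
        constructor <;> linarith
      have h8 : |d1a (lam x) * ((if j = i then (1 : ℝ) else 0) - hat x j * hat x i)| ≤ 2 := by
        rw [abs_mul]
        nlinarith [abs_d1a_le (lam x), abs_nonneg (d1a (lam x)),
          abs_nonneg ((if j = i then (1 : ℝ) else 0) - hat x j * hat x i)]
      have h9 : hat x j * -(V x i / (‖x‖ * d1w (lam x)))
          + ((if j = i then 1 else 0) - hat x j * hat x i) / ‖x‖ * d1a (lam x)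
          = (- (d1b (lam x) * (hat x j * V x i))
            + d1a (lam x) * ((if j = i then 1 else 0) - hat x j * hat x i)) / ‖x‖ := by
        have h0 := (d1w_pos (lam x)).ne'
        have h00 := hpos.ne'
        simp only [d1a, d1b]
        field_simp
      rw [h9, abs_div, abs_of_pos hpos, div_le_div_iff₀ hpos hr]
      have h10 : |- (d1b (lam x) * (hat x j * V x i))
            + d1a (lam x) * ((if j = i then 1 else 0) - hat x j * hat x i)| ≤ 3 := by
        rw [abs_le] at h6 h8 ⊢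
        constructor <;> linarith
      nlinarith
  have hA' : ∫ x, hat x j * d1a (lam x) * pd i φ x ∂(mB d)
      = - ∫ x, (hat x j * -(V x i / (‖x‖ * d1w (lam x)))
      + ((if j = i then 1 else 0) - hat x j * hat x i) / ‖x‖ * d1a (lam x)) * φ x ∂(mB d) := by
    rw [hA]
    congr 1
    refine integral_congr_ae ?_
    filter_upwards [hkey] with x hx
    rw [pd_hat hx.1 j i]
  have hJ2 : Integrable (fun x => lam x * V x i / (‖x‖ * d1w (lam x)) * (V x j * φ x)) (mB d) := by
    have h1 : LocL1 (fun x => lam x * V x i / (‖x‖ * d1w (lam x)) * V x j) := by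
      refine d1_locL1 (((h.mlam.mul hmVi).div (hmn.mul hmw)).mul hmVj).aestronglyMeasurable ?_
      intro r hr
      refine ⟨1 / r, ?_⟩
      filter_upwards [hkey] with x hx hxr
      obtain ⟨-, a1, a2, a3, a4⟩ := hx
      have hpos : 0 < ‖x‖ := lt_of_lt_of_le hr hxr
      have h9 : lam x * V x i / (‖x‖ * d1w (lam x)) * V x j
          = (d1a (lam x) * (V x i * V x j)) / ‖x‖ := by
        have h0 := (d1w_pos (lam x)).ne'
        have h00 := hpos.ne'
        simp only [d1a]
        field_simp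
      have h10 : |d1a (lam x) * (V x i * V x j)| ≤ 1 := by
        rw [abs_mul, abs_mul]
        exact mul_le_one₀ (abs_d1a_le _) (by positivity) (mul_le_one₀ a4 (abs_nonneg _) a3)
      rw [h9, abs_div, abs_of_pos hpos, div_le_div_iff₀ hpos hr]
      nlinarith
    refine (hint _ h1).congr (Filter.Eventually.of_forall ?_)
    intro x
    simp only
    ring
  rw [hP, hA']
  have hB2 : ∫ x, d1b (lam x) * V x j * pd i φ x ∂(mB d)
      = - (∫ x, lam x * V x i / (‖x‖ * d1w (lam x)) * (V x j * φ x) ∂(mB d))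
        - ∫ x, d1b (lam x) * (c0 (lam x) (hat x) (V x) j i / ‖x‖) * φ x ∂(mB d) := by
    linarith
  rw [hB2]
  have hfin : (∫ x, (hat x j * -(V x i / (‖x‖ * d1w (lam x)))
      + ((if j = i then 1 else 0) - hat x j * hat x i) / ‖x‖ * d1a (lam x)) * φ x ∂(mB d))
      = (∫ x, lam x * V x i / (‖x‖ * d1w (lam x)) * (V x j * φ x) ∂(mB d))
        + ∫ x, d1b (lam x) * (c0 (lam x) (hat x) (V x) j i / ‖x‖) * φ x ∂(mB d) := by
    rw [← integral_add hJ2 hI3]
    refine integral_congr_ae ?_
    filter_upwards [hkey] with x hx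
    have h0 := (d1w_pos (lam x)).ne'
    have h00 : ‖x‖ ≠ 0 := by simpa using hx.1
    simp only [c0, d1a, d1b, Matrix.of_apply]
    field_simp
    ring
  rw [hfin]
  simp only [zero_mul, integral_zero, neg_zero]
  ring

end Pool.UVF
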