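import Pool.Agent.Lib.MP_28fba0_gt.UV.Bij

/-!
# UV-CoVA (part of CoV): the change of variables `y = x + τ U(x)` for small `τ`

`MeasureTheory.integral_image_eq_integral_abs_det_fderiv_smul` on `s = ball 0 1 \ {0}` with
`f' x = id + τ • fderiv U x` (determinant: `LinearMap.det_toMatrix` in the standard basis of
`EuclideanSpace`, the matrix of `fderiv U x` is `jac U x`), integrand `g = 1` and `g y = y`;
`det > 0` removes the absolute value.  `{0}` is a null set (`d = 2m+2 ≥ 1`).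
`volume (ball 0 r) = r^d volume (ball 0 1)` (`Measure.addHaar_ball`), `(√(1+τ²))^{2m+2} =
(1+τ²)^{m+1}`; `∫_{ball 0 r} y dy = 0` by the symmetry `y ↦ -y`.
-/

open Matrix Real Set MeasureTheory
open scoped RealInnerProductSpace

namespace Pool.UVF

variable {m : ℕ} {U : Eu (2 * m + 2) → Eu (2 * m + 2)}

private theorem CoVA_det {d : ℕ} (U : Eu d → Eu d) (τ : ℝ) (x : Eu d) :
    (ContinuousLinearMap.id ℝ (Eu d) + τ • fderiv ℝ U x).det =
      ((1 : Matrix (Fin d) (Fin d) ℝ) + τ • jac U x).det := by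
  have h := LinearMap.det_toMatrix (EuclideanSpace.basisFun (Fin d) ℝ).toBasis
    ((ContinuousLinearMap.id ℝ (Eu d) + τ • fderiv ℝ U x : Eu d →L[ℝ] Eu d) : Eu d →ₗ[ℝ] Eu d)
  rw [ContinuousLinearMap.det, ← h]
  congr 1
  ext j i
  rw [LinearMap.toMatrix_apply]
  simp [jac, Matrix.one_apply]

private theorem CoVA_gen (hU : HomField U) : ∃ τ₀ : ℝ, 0 < τ₀ ∧ ∀ τ : ℝ, |τ| < τ₀ →
    ∫ x, ((1 : Matrix (Fin (2 * m + 2)) (Fin (2 * m + 2)) ℝ) + τ • jac U x).det
        ∂(mB (2 * m + 2)) = ∫ _y in Metric.ball (0 : Eu (2 * m + 2)) (√ (1 + τ ^ 2)), (1 : ℝ) := by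
  obtain ⟨τ₁, h1, H1⟩ := hU.image_F
  obtain ⟨τ₂, h2, H2⟩ := hU.det_pos
  refine ⟨min τ₁ τ₂, lt_min h1 h2, fun τ hτ => ?_⟩
  obtain ⟨hinj, himg⟩ := H1 τ (lt_of_lt_of_le hτ (min_le_left _ _))
  have hpos := H2 τ (lt_of_lt_of_le hτ (min_le_right _ _))
  have hnull : ∀ s : Set (Eu (2 * m + 2)), (s \ {0} : Set (Eu (2 * m + 2))) =ᵐ[volume] s :=
    fun s => sdiff_null_ae_eq_self (measure_singleton 0)
  have hcv := integral_image_eq_integral_abs_det_fderiv_smul (volume : Measure (Eu (2 * m + 2)))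
    (s := Metric.ball 0 1 \ {0}) (f := fun x => x + τ • U x)
    (f' := fun x => ContinuousLinearMap.id ℝ (Eu (2 * m + 2)) + τ • fderiv ℝ U x)
    (measurableSet_ball.diff (measurableSet_singleton 0))
    (fun x hx => by
      have hx0 : x ∈ ({0}ᶜ : Set (Eu (2 * m + 2))) := hx.2
      have hd : DifferentiableAt ℝ U x :=
        (hU.smooth.differentiableOn (by norm_num)).differentiableAt
          (isOpen_compl_singleton.mem_nhds hx0)
      exact ((hasFDerivAt_id x).add (hd.hasFDerivAt.const_smul τ)).hasFDerivWithinAt)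
    hinj (fun _ => (1 : ℝ))
  rw [himg, setIntegral_congr_set (hnull _), setIntegral_congr_set (hnull _)] at hcv
  rw [hcv, mB, Bd]
  have hae : ∀ᵐ x ∂(volume.restrict (Metric.ball (0 : Eu (2 * m + 2)) 1)), x ≠ 0 := by
    refine ae_restrict_of_ae ?_
    rw [ae_iff]
    simp
  refine integral_congr_ae ?_
  filter_upwards [hae] with x hx
  rw [smul_eq_mul, mul_one, CoVA_det, abs_of_pos (hpos x hx)]

theorem HomField.small_det (hU : HomField U) : ∃ τ₀ : ℝ, 0 < τ₀ ∧ ∀ τ : ℝ, |τ| < τ₀ →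
    ∫ x, ((1 : Matrix (Fin (2 * m + 2)) (Fin (2 * m + 2)) ℝ) + τ • jac U x).det
        ∂(mB (2 * m + 2)) = (1 + τ ^ 2) ^ (m + 1) * bv (2 * m + 2) := by
  obtain ⟨τ₀, h0, H⟩ := CoVA_gen hU
  refine ⟨τ₀, h0, fun τ hτ => ?_⟩
  rw [H τ hτ, bv, Bd]
  have hr : 0 ≤ √ (1 + τ ^ 2) := Real.sqrt_nonneg _
  have hpow : (√ (1 + τ ^ 2)) ^ (2 * m + 2) = (1 + τ ^ 2) ^ (m + 1) := by
    rw [show 2 * m + 2 = 2 * (m + 1) by ring, pow_mul, Real.sq_sqrt (by positivity)]
  rw [setIntegral_const, smul_eq_mul, mul_one, Measure.real, Measure.addHaar_ball _ _ hr,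
    finrank_euclideanSpace_fin, hpow, ENNReal.toReal_mul, ENNReal.toReal_ofReal (by positivity)]

end Pool.UVF
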