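import Pool.Agent.Lib.MP_28fba0_gt.UV.GBasic

/-!
# UV-ConjA (part of Conj): invariance under an orthogonal change of basis, and the adapted basis
-/

open Matrix
open scoped RealInnerProductSpace

namespace Pool.UVF

variable {ι κ : Type*} [Fintype ι] [DecidableEq ι] [Fintype κ] [DecidableEq κ]

theorem det_conj {Q : Matrix ι κ ℝ} (h1 : Qᵀ * Q = 1) (h2 : Q * Qᵀ = 1) (M : Matrix ι ι ℝ) :
    (Qᵀ * M * Q).det = M.det := by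
  have h : (Qᵀ * (M * Q)).det = ((M * Q) * Qᵀ).det := by
    apply Matrix.det_comm'
    all_goals first | exact h1 | exact h2
  rw [Matrix.mul_assoc, h, Matrix.mul_assoc, h2, Matrix.mul_one]

theorem Gm_conj_aux {Q : Matrix ι κ ℝ} (h1 : Qᵀ * Q = 1) (h2 : Q * Qᵀ = 1) (M : Matrix ι ι ℝ) :
    Gm (Qᵀ * M * Q) = Qᵀ * Gm M * Q := by
  unfold Gm
  rw [Matrix.transpose_mul, Matrix.transpose_mul, Matrix.transpose_transpose, Matrix.mul_add,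
    Matrix.add_mul, Matrix.mul_one, h1]
  congr 1
  calc Qᵀ * (Mᵀ * Q) * (Qᵀ * M * Q) = Qᵀ * Mᵀ * (Q * Qᵀ) * M * Q := by
        simp only [Matrix.mul_assoc]
    _ = Qᵀ * (Mᵀ * M) * Q := by rw [h2, Matrix.mul_one]; simp only [Matrix.mul_assoc]

theorem inv_conj_aux {Q : Matrix ι κ ℝ} (h1 : Qᵀ * Q = 1) (h2 : Q * Qᵀ = 1) (M : Matrix ι ι ℝ)
    (hM : IsUnit M.det) :
    (Qᵀ * M * Q)⁻¹ = Qᵀ * M⁻¹ * Q := by
  apply Matrix.inv_eq_right_inv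
  calc Qᵀ * M * Q * (Qᵀ * M⁻¹ * Q) = Qᵀ * M * (Q * Qᵀ) * M⁻¹ * Q := by
        simp only [Matrix.mul_assoc]
    _ = Qᵀ * (M * M⁻¹) * Q := by rw [h2, Matrix.mul_one]; simp only [Matrix.mul_assoc]
    _ = 1 := by rw [Matrix.mul_nonsing_inv _ hM, Matrix.mul_one, h1]

theorem isUnit_det_Gm_aux (M : Matrix ι ι ℝ) : IsUnit (Gm M).det := by
  have h := one_le_det_Gm M
  exact isUnit_iff_ne_zero.mpr (by linarith)

theorem d0_conj {Q : Matrix ι κ ℝ} (h1 : Qᵀ * Q = 1) (h2 : Q * Qᵀ = 1) (M : Matrix ι ι ℝ) :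
    d0 (Qᵀ * M * Q) = d0 M := by
  unfold d0
  rw [Gm_conj_aux h1 h2, det_conj h1 h2]

theorem tG_conj {Q : Matrix ι κ ℝ} (h1 : Qᵀ * Q = 1) (h2 : Q * Qᵀ = 1) (M : Matrix ι ι ℝ) :
    tG (Qᵀ * M * Q) = tG M := by
  unfold tG
  rw [Gm_conj_aux h1 h2, inv_conj_aux h1 h2 _ (isUnit_det_Gm_aux M), Matrix.trace_mul_comm,
    ← Matrix.mul_assoc, h2, Matrix.one_mul]

theorem tB_conj {Q : Matrix ι κ ℝ} (h1 : Qᵀ * Q = 1) (h2 : Q * Qᵀ = 1) (M : Matrix ι ι ℝ) :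
    tB (Qᵀ * M * Q) = tB M := by
  unfold tB
  rw [Gm_conj_aux h1 h2, inv_conj_aux h1 h2 _ (isUnit_det_Gm_aux M)]
  have h : Qᵀ * (Gm M)⁻¹ * Q * (Qᵀ * M * Q) = Qᵀ * ((Gm M)⁻¹ * M) * Q := by
    calc Qᵀ * (Gm M)⁻¹ * Q * (Qᵀ * M * Q) = Qᵀ * (Gm M)⁻¹ * (Q * Qᵀ) * M * Q := by
          simp only [Matrix.mul_assoc]
      _ = Qᵀ * ((Gm M)⁻¹ * M) * Q := by rw [h2, Matrix.mul_one]; simp only [Matrix.mul_assoc]
  rw [h, Matrix.trace_mul_comm, ← Matrix.mul_assoc, h2, Matrix.one_mul]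

theorem sum_sq_eq_trace_aux (M : Matrix ι ι ℝ) :
    ∑ i, ∑ j, (M i j) ^ 2 = (Mᵀ * M).trace := by
  rw [Matrix.trace, Finset.sum_comm]
  refine Finset.sum_congr rfl fun j _ => ?_
  rw [Matrix.diag_apply, Matrix.mul_apply]
  refine Finset.sum_congr rfl fun i _ => ?_
  rw [Matrix.transpose_apply, sq]

theorem frob_conj {Q : Matrix ι κ ℝ} (h1 : Qᵀ * Q = 1) (h2 : Q * Qᵀ = 1) (M : Matrix ι ι ℝ) :
    ∑ p, ∑ q, ((Qᵀ * M * Q) p q) ^ 2 = ∑ i, ∑ j, (M i j) ^ 2 := by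
  rw [sum_sq_eq_trace_aux, sum_sq_eq_trace_aux]
  have h : (Qᵀ * M * Q)ᵀ * (Qᵀ * M * Q) = Qᵀ * (Mᵀ * M) * Q := by
    rw [Matrix.transpose_mul, Matrix.transpose_mul, Matrix.transpose_transpose]
    calc Qᵀ * (Mᵀ * Q) * (Qᵀ * M * Q) = Qᵀ * Mᵀ * (Q * Qᵀ) * M * Q := by
          simp only [Matrix.mul_assoc]
      _ = Qᵀ * (Mᵀ * M) * Q := by rw [h2, Matrix.mul_one]; simp only [Matrix.mul_assoc]
  rw [h, Matrix.trace_mul_comm, ← Matrix.mul_assoc, h2, Matrix.one_mul]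

end Pool.UVF
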