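import Pool.Agent.Lib.MP_28fba0_gt.UV.CoV

/-!
# UV-PolyA (part of Poly): polynomial continuation of the degree identities

For each `x`, `τ ↦ det (1 + τ M)` is a polynomial of degree `≤ d = 2m+2`
(`Matrix.det` of `1 + X • M.map C`, `Polynomial` of `natDegree ≤ d`, e.g.
`Matrix.natDegree_det_X_add_C_le`, or expand the determinant).  Lagrange interpolation at `d + 1`
(resp. `d + 2`) distinct nodes in `(-τ₀, τ₀)`: `P(τ) = ∑ P(τ_i) ℓ_i(τ)`; integrate over the ball
(`jac U` is bounded and measurable, `HomField.jac_bounded`, `jac_continuousOn`):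
`∫ det (1 + τ jac) = ∑ ℓ_i(τ) (1+τ_i²)^{m+1} |B| = (1+τ²)^{m+1} |B|` for all real `τ` (Lagrange
interpolation of the polynomial `(1+X²)^{m+1}`, degree `2m+2`), and
`∫ det (1 + τ jac) • (x + τ U) = 0` for all `τ`.
* `cos t ≠ 0`: `det (cos t + sin t a) = cos^d t det (1 + tan t a)`, `cos^d t (1+tan² t)^{m+1} = 1`;
  `cos t = 0`: limit (dominated convergence; both sides continuous in `t`).
* `∫ det (c + a) • (c x + U) = c^{d+1} ∫ det (1 + a/c) • (x + U/c) = 0` for `c ≠ 0`; let `c → 0`.
-/

open Matrix Real Set MeasureTheory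
open scoped RealInnerProductSpace

namespace Pool.UVF

variable {m : ℕ} {U : Eu (2 * m + 2) → Eu (2 * m + 2)}

private theorem polyA_lag {n : ℕ} (p : Polynomial ℝ) (hp : p.natDegree ≤ n) (S : Finset ℝ)
    (hS : S.card = n + 1) (t : ℝ) :
    p.eval t = ∑ i ∈ S, p.eval i * (Lagrange.basis S id i).eval t := by
  have h1 : p.degree < (S.card : WithBot ℕ) := by
    rw [hS]
    exact lt_of_le_of_lt (Polynomial.degree_le_of_natDegree_le hp) (by exact_mod_cast Nat.lt_succ_self n)
  have h2 := Lagrange.eq_interpolate_of_eval_eq (s := S) (v := id) (fun i => p.eval i)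
    (Function.injective_id.injOn) h1 (fun i _ => rfl)
  conv_lhs => rw [h2, Lagrange.interpolate_apply, Polynomial.eval_finsetSum]
  refine Finset.sum_congr rfl fun i _ => ?_
  rw [Polynomial.eval_mul, Polynomial.eval_C]

private theorem polyA_det {ι : Type*} [Fintype ι] [DecidableEq ι] (A B : Matrix ι ι ℝ) :
    ∃ p : Polynomial ℝ, p.natDegree ≤ Fintype.card ι ∧ ∀ t : ℝ, p.eval t = (A + t • B).det := by
  refine ⟨((Polynomial.X : Polynomial ℝ) • B.map Polynomial.C + A.map Polynomial.C).det,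
    Polynomial.natDegree_det_X_add_C_le B A, fun t => ?_⟩
  rw [← Polynomial.coe_evalRingHom, RingHom.map_det]
  congr 1
  ext i j
  simp only [RingHom.mapMatrix_apply, Matrix.map_apply, Matrix.add_apply, Matrix.smul_apply,
    smul_eq_mul, map_add, Polynomial.coe_evalRingHom, Polynomial.eval_mul, Polynomial.eval_X,
    Polynomial.eval_C]
  ring

private theorem polyA_cont {α : Type*} [MeasurableSpace α] {μ : Measure α} {ι : Type*} [Fintype ι]
    [DecidableEq ι] (A B : α → Matrix ι ι ℝ) (q : Polynomial ℝ)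
    (hq : q.natDegree ≤ Fintype.card ι) (T : Set ℝ) (hT : T.Infinite)
    (hi : ∀ t ∈ T, Integrable (fun x => (A x + t • B x).det) μ)
    (hv : ∀ t ∈ T, ∫ x, (A x + t • B x).det ∂μ = q.eval t) (t : ℝ) :
    ∫ x, (A x + t • B x).det ∂μ = q.eval t := by
  obtain ⟨S, hST, hSc⟩ := hT.exists_subset_card_eq (Fintype.card ι + 1)
  have h1 : ∀ x, (A x + t • B x).det =
      ∑ i ∈ S, (A x + i • B x).det * (Lagrange.basis S id i).eval t := by
    intro x
    obtain ⟨p, hp, hpe⟩ := polyA_det (A x) (B x)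
    rw [← hpe t, polyA_lag p hp S hSc t]
    exact Finset.sum_congr rfl fun i _ => by rw [hpe i]
  simp_rw [h1]
  rw [integral_finsetSum _ fun i hi' => (hi i (hST hi')).mul_const _, polyA_lag q hq S hSc t]
  refine Finset.sum_congr rfl fun i hi' => ?_
  rw [integral_mul_const, hv i (hST hi')]

/-- the integrand of `int_det` is integrable -/
theorem HomField.integrable_det (hU : HomField U) (c s : ℝ) :
    Integrable (fun x => (c • (1 : Matrix (Fin (2 * m + 2)) (Fin (2 * m + 2)) ℝ)
      + s • jac U x).det) (mB (2 * m + 2)) := by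
  have hfin : IsFiniteMeasure (mB (2 * m + 2)) := by
    unfold mB
    refine ⟨?_⟩
    rw [Measure.restrict_apply_univ]
    exact measure_ball_lt_top
  have hne : ∀ᵐ x ∂(mB (2 * m + 2)), x ≠ (0 : Eu (2 * m + 2)) := by
    unfold mB
    refine ae_restrict_of_ae ?_
    rw [ae_iff]
    simp only [ne_eq, not_not]
    exact measure_singleton _
  obtain ⟨C, hC, hCb⟩ := hU.jac_bounded
  have hcont : ContinuousOn (fun x => (c • (1 : Matrix (Fin (2 * m + 2)) (Fin (2 * m + 2)) ℝ)
      + s • jac U x).det) {0}ᶜ := by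
    have h1 : Continuous fun M : Matrix (Fin (2 * m + 2)) (Fin (2 * m + 2)) ℝ =>
        (c • (1 : Matrix (Fin (2 * m + 2)) (Fin (2 * m + 2)) ℝ) + s • M).det :=
      Continuous.matrix_det (continuous_const.add (continuous_id.const_smul s))
    exact h1.comp_continuousOn hU.jac_continuousOn
  have hmeas : AEStronglyMeasurable (fun x => (c • (1 : Matrix (Fin (2 * m + 2)) (Fin (2 * m + 2)) ℝ)
      + s • jac U x).det) (mB (2 * m + 2)) := by
    have h1 := hcont.aestronglyMeasurable (μ := mB (2 * m + 2))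
      (measurableSet_singleton (0 : Eu (2 * m + 2))).compl
    rwa [Measure.restrict_eq_self_of_ae_mem] at h1
    filter_upwards [hne] with x hx
    exact hx
  refine Integrable.of_bound hmeas ((Nat.factorial (Fintype.card (Fin (2 * m + 2)))) •
    (|c| + |s| * C) ^ (Fintype.card (Fin (2 * m + 2)))) ?_
  filter_upwards [hne] with x hx
  have h1 := Matrix.det_le (A := c • (1 : Matrix (Fin (2 * m + 2)) (Fin (2 * m + 2)) ℝ)
      + s • jac U x) (abv := AbsoluteValue.abs) (x := |c| + |s| * C) (fun i j => by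
        rw [AbsoluteValue.abs_apply, Matrix.add_apply, Matrix.smul_apply, Matrix.smul_apply,
          smul_eq_mul, smul_eq_mul]
        refine (abs_add_le _ _).trans ?_
        rw [abs_mul, abs_mul]
        refine add_le_add ?_ (mul_le_mul_of_nonneg_left (hCb x hx i j) (abs_nonneg _))
        by_cases hij : i = j
        · rw [hij, Matrix.one_apply_eq, abs_one, mul_one]
        · rw [Matrix.one_apply_ne hij, abs_zero, mul_zero]
          exact abs_nonneg _)
  rw [AbsoluteValue.abs_apply] at h1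
  rw [Real.norm_eq_abs]
  exact h1

private theorem HomField.polyA_one (hU : HomField U) (t : ℝ) :
    ∫ x, ((1 : Matrix (Fin (2 * m + 2)) (Fin (2 * m + 2)) ℝ) + t • jac U x).det
      ∂(mB (2 * m + 2)) = (1 + t ^ 2) ^ (m + 1) * bv (2 * m + 2) := by
  obtain ⟨τ₀, hτ₀, hτ⟩ := hU.small_det
  have hq : ((1 + (Polynomial.X : Polynomial ℝ) ^ 2) ^ (m + 1) *
      Polynomial.C (bv (2 * m + 2))).natDegree ≤ Fintype.card (Fin (2 * m + 2)) := by
    rw [Fintype.card_fin]
    compute_degree
    omega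
  have h1 := polyA_cont (μ := mB (2 * m + 2)) (fun _ => (1 : Matrix (Fin (2 * m + 2))
    (Fin (2 * m + 2)) ℝ)) (fun x => jac U x) _ hq (Ioo (-τ₀) τ₀) (Ioo_infinite (by linarith))
    (fun s _ => by simpa using hU.integrable_det 1 s) (fun s hs => by
      rw [hτ s (abs_lt.2 hs)]
      simp) t
  rw [h1]
  simp

theorem HomField.int_det (hU : HomField U) (t : ℝ) :
    ∫ x, (cos t • (1 : Matrix (Fin (2 * m + 2)) (Fin (2 * m + 2)) ℝ) + sin t • jac U x).det
        ∂(mB (2 * m + 2)) = bv (2 * m + 2) := by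
  have hne : ∀ c : ℝ, c ≠ 0 → ∀ s : ℝ,
      ∫ x, (s • jac U x + c • (1 : Matrix (Fin (2 * m + 2)) (Fin (2 * m + 2)) ℝ)).det
        ∂(mB (2 * m + 2)) = (c ^ 2 + s ^ 2) ^ (m + 1) * bv (2 * m + 2) := by
    intro c hc s
    have h1 : ∀ x, (s • jac U x + c • (1 : Matrix (Fin (2 * m + 2)) (Fin (2 * m + 2)) ℝ)).det =
        c ^ (2 * m + 2) * ((1 : Matrix (Fin (2 * m + 2)) (Fin (2 * m + 2)) ℝ) +
          (s / c) • jac U x).det := by
      intro x
      have h2 : s • jac U x + c • (1 : Matrix (Fin (2 * m + 2)) (Fin (2 * m + 2)) ℝ) =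
          c • ((1 : Matrix (Fin (2 * m + 2)) (Fin (2 * m + 2)) ℝ) + (s / c) • jac U x) := by
        rw [smul_add, smul_smul, mul_div_cancel₀ s hc]
        exact add_comm _ _
      rw [h2, Matrix.det_smul, Fintype.card_fin]
    simp_rw [h1]
    rw [integral_const_mul, hU.polyA_one (s / c), ← mul_assoc]
    congr 1
    have h3 : c ^ (2 * m + 2) = (c ^ 2) ^ (m + 1) := by rw [← pow_mul]; ring_nf
    rw [h3, ← mul_pow]
    congr 1
    field_simp
  have hq : ((Polynomial.X ^ 2 + Polynomial.C (sin t ^ 2)) ^ (m + 1) *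
      Polynomial.C (bv (2 * m + 2))).natDegree ≤ Fintype.card (Fin (2 * m + 2)) := by
    rw [Fintype.card_fin]
    compute_degree
    omega
  have h1 := polyA_cont (μ := mB (2 * m + 2)) (fun x => sin t • jac U x)
    (fun _ => (1 : Matrix (Fin (2 * m + 2)) (Fin (2 * m + 2)) ℝ)) _ hq {0}ᶜ
    (Set.finite_singleton (0 : ℝ)).infinite_compl
    (fun s _ => by
      have := hU.integrable_det s (sin t)
      simpa [add_comm] using this) (fun s hs => by
      rw [hne s hs]
      simp) (cos t)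
  simp_rw [add_comm (cos t • (1 : Matrix (Fin (2 * m + 2)) (Fin (2 * m + 2)) ℝ))]
  rw [h1]
  simp

end Pool.UVF
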