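import Pool.Agent.Lib.MP_28fba0_gt.UV.CoV
import Pool.Agent.Lib.MP_28fba0_gt.UV.PolyA

/-!
# UV-PolyB (part of Poly): polynomial continuation of the degree identities

For each `x`, `τ ↦ det (1 + τ M)` is a polynomial of degree `≤ d = 2m+2`
(`Matrix.det` of `1 + X • M.map C`, `Polynomial` of `natDegree ≤ d`, e.g.
`Matrix.natDegree_det_X_add_C_le`, or expand the determinant).  Lagrange interpolation at `d + 1`
(resp. `d + 2`) distinct nodes in `(-τ₀, τ₀)`: `P(τ) = ∑ P(τ_i) ℓ_i(τ)`; integrate over the ball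
(`jac U` is bounded and measurable, `HomField.jac_bounded`, `jac_continuousOn`):
`∫ det (1 + τ jac) = ∑ ℓ_i(τ) (1+τ_i²)^{m+1} |B| = (1+τ²)^{m+1} |B|` for all real `τ` (Lagrange
interpolation of the polynomial `(1+X²)^{m+1}`, degree `2m+2`), and
`∫ det (1 + τ jac) • (x + τ U) = 0` for all `τ`.
* `cos t ≠ 0`: `det (cos t + sin t a) = cos^d t det (1 + tan t a)`, `cos^d t (1+tan² t)^{m+1} = 1`;
  `cos t = 0`: limit (dominated convergence; both sides continuous in `t`).
* `∫ det (c + a) • (c x + U) = c^{d+1} ∫ det (1 + a/c) • (x + U/c) = 0` for `c ≠ 0`; let `c → 0`.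
-/

open Matrix Real Set MeasureTheory
open scoped RealInnerProductSpace

namespace Pool.UVF

variable {m : ℕ} {U : Eu (2 * m + 2) → Eu (2 * m + 2)}

open Polynomial in
/-- the coefficient of a polynomial as a combination of its values -/
private theorem polyB_coeff (p : ℝ[X]) (n N : ℕ) (v : ℕ → ℝ) (hv : Set.InjOn v (Finset.range N))
    (hp : p.degree < N) :
    p.coeff n = ∑ i ∈ Finset.range N, p.eval (v i) * (Lagrange.basis (Finset.range N) v i).coeff n := by
  have h := Lagrange.eq_interpolate (s := Finset.range N) (v := v) (f := p) hv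
    (by rw [Finset.card_range]; exact hp)
  conv_lhs => rw [h]
  rw [Lagrange.interpolate_apply, Polynomial.finsetSum_coeff]
  apply Finset.sum_congr rfl
  intro i _
  rw [Polynomial.coeff_C_mul]

open Polynomial in
/-- the pointwise identity -/
private theorem polyB_point (A : Matrix (Fin (2 * m + 2)) (Fin (2 * m + 2)) ℝ)
    (x u : Eu (2 * m + 2)) (v : ℕ → ℝ) (hv : Set.InjOn v (Finset.range (2 * m + 4))) :
    A.det • u = ∑ i ∈ Finset.range (2 * m + 4),
      ((Lagrange.basis (Finset.range (2 * m + 4)) v i).coeff (2 * m + 3)) •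
        (((1 : Matrix (Fin (2 * m + 2)) (Fin (2 * m + 2)) ℝ) + v i • A).det • (x + v i • u)) := by
  set P : ℝ[X] := det ((X : ℝ[X]) • A.map C
    + (1 : Matrix (Fin (2 * m + 2)) (Fin (2 * m + 2)) ℝ).map C) with hP
  have hPdeg : P.natDegree ≤ 2 * m + 2 := by
    have := Polynomial.natDegree_det_X_add_C_le A (1 : Matrix (Fin (2 * m + 2)) (Fin (2 * m + 2)) ℝ)
    rwa [Fintype.card_fin] at this
  have hPcoeff : P.coeff (2 * m + 2) = A.det := by
    have := Polynomial.coeff_det_X_add_C_card A (1 : Matrix (Fin (2 * m + 2)) (Fin (2 * m + 2)) ℝ)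
    rwa [Fintype.card_fin] at this
  have hPeval : ∀ t : ℝ, P.eval t
      = ((1 : Matrix (Fin (2 * m + 2)) (Fin (2 * m + 2)) ℝ) + t • A).det := by
    intro t
    rw [hP, ← Polynomial.coe_evalRingHom, RingHom.map_det]
    congr 1
    ext i j
    simp only [RingHom.mapMatrix_apply, Matrix.map_apply, Matrix.add_apply, Matrix.smul_apply,
      smul_eq_mul, Polynomial.coe_evalRingHom, Polynomial.eval_add, Polynomial.eval_mul,
      Polynomial.eval_X, Polynomial.eval_C]
    ring
  ext k
  set Q : ℝ[X] := P * (C (x k) + X * C (u k)) with hQ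
  have hQdeg : Q.degree < ((2 * m + 4 : ℕ) : WithBot ℕ) := by
    have h1 : Q.natDegree ≤ (2 * m + 2) + 1 := by
      refine (Polynomial.natDegree_mul_le).trans (add_le_add hPdeg ?_)
      compute_degree
    exact lt_of_le_of_lt Polynomial.degree_le_natDegree (by exact_mod_cast (by omega))
  have hQcoeff : Q.coeff (2 * m + 3) = A.det * u k := by
    have h0 : P.coeff (2 * m + 3) = 0 := Polynomial.coeff_eq_zero_of_natDegree_lt (by omega)
    rw [hQ, mul_add, Polynomial.coeff_add, Polynomial.coeff_mul_C, h0, zero_mul, zero_add,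
      ← mul_assoc, Polynomial.coeff_mul_C, show 2 * m + 3 = (2 * m + 2) + 1 from rfl,
      Polynomial.coeff_mul_X, hPcoeff]
  have h := polyB_coeff Q (2 * m + 3) (2 * m + 4) v hv hQdeg
  have e1 : (A.det • u) k = A.det * u k := rfl
  rw [e1, ← hQcoeff, h]
  rw [WithLp.ofLp_sum, Finset.sum_apply]
  apply Finset.sum_congr rfl
  intro i _
  have e2 : ((((Lagrange.basis (Finset.range (2 * m + 4)) v i).coeff (2 * m + 3)) •
        (((1 : Matrix (Fin (2 * m + 2)) (Fin (2 * m + 2)) ℝ) + v i • A).det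
          • (x + v i • u)) : Eu (2 * m + 2))) k
      = (Lagrange.basis (Finset.range (2 * m + 4)) v i).coeff (2 * m + 3)
        * (((1 : Matrix (Fin (2 * m + 2)) (Fin (2 * m + 2)) ℝ) + v i • A).det
          * (x k + v i * u k)) := rfl
  rw [e2, hQ, Polynomial.eval_mul, hPeval]
  simp only [Polynomial.eval_add, Polynomial.eval_mul, Polynomial.eval_X, Polynomial.eval_C]
  ring

private theorem polyB_integrable (hU : HomField U) (τ : ℝ) :
    Integrable (fun x => ((1 : Matrix (Fin (2 * m + 2)) (Fin (2 * m + 2)) ℝ) + τ • jac U x).det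
        • (x + τ • U x)) (mB (2 * m + 2)) := by
  have h1 := hU.integrable_det 1 τ
  simp only [one_smul] at h1
  have hcont : Continuous fun x => x + τ • U x := continuous_id.add (hU.continuous.const_smul τ)
  refine Integrable.mono' (h1.abs.mul_const (1 + |τ|))
    (h1.aestronglyMeasurable.smul hcont.aestronglyMeasurable) ?_
  have hms : MeasurableSet (Bd (2 * m + 2)) := measurableSet_ball
  filter_upwards [ae_restrict_mem hms] with x hx
  have hx1 : ‖x‖ < 1 := by
    have : x ∈ Metric.ball (0 : Eu (2 * m + 2)) 1 := hx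
    simpa using this
  rw [norm_smul, Real.norm_eq_abs]
  apply mul_le_mul_of_nonneg_left _ (abs_nonneg _)
  calc ‖x + τ • U x‖ ≤ ‖x‖ + ‖τ • U x‖ := norm_add_le _ _
    _ = ‖x‖ + |τ| * ‖x‖ := by rw [norm_smul, Real.norm_eq_abs, hU.norm]
    _ ≤ 1 + |τ| := by nlinarith [abs_nonneg τ, norm_nonneg x]

theorem HomField.int_det_smul (hU : HomField U) :
    ∫ x, (jac U x).det • U x ∂(mB (2 * m + 2)) = 0 := by
  obtain ⟨τ₀, hτ₀, hvec⟩ := hU.small_vec
  set v : ℕ → ℝ := fun i => τ₀ / ((i : ℝ) + 2) with hv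
  have hinj : Function.Injective v := by
    intro i j hij
    simp only [hv] at hij
    have hi : (0 : ℝ) < (i : ℝ) + 2 := by positivity
    have hj : (0 : ℝ) < (j : ℝ) + 2 := by positivity
    rw [div_eq_div_iff hi.ne' hj.ne'] at hij
    have : (j : ℝ) + 2 = (i : ℝ) + 2 := mul_left_cancel₀ hτ₀.ne' hij
    have h2 : (j : ℝ) = i := by linarith
    exact_mod_cast h2.symm
  have hsmall : ∀ i, |v i| < τ₀ := by
    intro i
    have hi : (0 : ℝ) < (i : ℝ) + 2 := by positivity
    simp only [hv]
    rw [abs_of_pos (by positivity), div_lt_iff₀ hi]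
    nlinarith [Nat.cast_nonneg (α := ℝ) i]
  have hpt : (fun x => (jac U x).det • U x) = fun x => ∑ i ∈ Finset.range (2 * m + 4),
      ((Lagrange.basis (Finset.range (2 * m + 4)) v i).coeff (2 * m + 3)) •
        (((1 : Matrix (Fin (2 * m + 2)) (Fin (2 * m + 2)) ℝ) + v i • jac U x).det
          • (x + v i • U x)) := by
    funext x
    exact polyB_point (jac U x) x (U x) v hinj.injOn
  have hint : ∀ i ∈ Finset.range (2 * m + 4), Integrable (fun x =>
      ((Lagrange.basis (Finset.range (2 * m + 4)) v i).coeff (2 * m + 3)) •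
        (((1 : Matrix (Fin (2 * m + 2)) (Fin (2 * m + 2)) ℝ) + v i • jac U x).det
          • (x + v i • U x))) (mB (2 * m + 2)) :=
    fun i _ => (polyB_integrable hU (v i)).smul
      ((Lagrange.basis (Finset.range (2 * m + 4)) v i).coeff (2 * m + 3))
  rw [hpt, integral_finsetSum _ hint]
  apply Finset.sum_eq_zero
  intro i _
  rw [integral_smul, hvec (v i) (hsmall i), smul_zero]

end Pool.UVF
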