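import Pool.Agent.Lib.MP_28fba0_gt.UV.HomInt
import Pool.Agent.Lib.MP_28fba0_gt.UV.Poly

/-!
# UV-Deficit: the integrated determinant inequality

`g_x(t) = det (cos t + sin t · jac U x)`, `jac U x = Am U x + v x̂ᵀ - x̂ vᵀ`.
`∫_B ∫_0^π g dt dx = ∫_0^π ∫_B g dx dt = π |B|` (Fubini: `jac U` is bounded and measurable on the
ball; `HomField.int_det`), and for `x ≠ 0`
`∫_0^π g dt ≤ ∫_0^π |g| dt ≤ D₀ (Icos m - 4 cdef m δ)` (`integral_abs_det_le`, `HomField.adapted`).
-/

open Matrix Real Set MeasureTheory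

namespace Pool.UVF

variable {m : ℕ} {U : Eu (2 * m + 2) → Eu (2 * m + 2)}

/-- almost every point of the ball is nonzero -/
private theorem ae_ne_zero_dfc (m : ℕ) : ∀ᵐ x ∂(mB (2 * m + 2)), x ≠ 0 := by
  unfold mB
  apply ae_restrict_of_ae
  rw [ae_iff]
  simp

private theorem measurable_jac_dfc {d : ℕ} (U : Eu d → Eu d) (j i : Fin d) :
    Measurable (fun x => jac U x j i) := by
  unfold jac
  simp only [Matrix.of_apply]
  have h : Measurable (fun x => fderiv ℝ U x (EuclideanSpace.single i (1 : ℝ))) :=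
    measurable_fderiv_apply_const ℝ U _
  exact (EuclideanSpace.proj j : Eu d →L[ℝ] ℝ).continuous.measurable.comp h

private theorem measurable_det_dfc {d : ℕ} (U : Eu d → Eu d) :
    Measurable (fun p : Eu d × ℝ => (cos p.2 • (1 : Matrix (Fin d) (Fin d) ℝ)
      + sin p.2 • jac U p.1).det) := by
  have h : ∀ p : Eu d × ℝ, (cos p.2 • (1 : Matrix (Fin d) (Fin d) ℝ)
      + sin p.2 • jac U p.1).det = ∑ σ : Equiv.Perm (Fin d), ((Equiv.Perm.sign σ : ℤ) : ℝ) *
        ∏ i, (cos p.2 * (1 : Matrix (Fin d) (Fin d) ℝ) (σ i) i + sin p.2 * jac U p.1 (σ i) i) := by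
    intro p
    rw [Matrix.det_apply']
    rfl
  simp only [h]
  refine Finset.measurable_sum _ fun σ _ => ?_
  refine Measurable.const_mul ?_ _
  refine Finset.measurable_prod _ fun i _ => ?_
  refine Measurable.add ?_ ?_
  · exact (measurable_cos.comp measurable_snd).mul_const _
  · exact (measurable_sin.comp measurable_snd).mul
      ((measurable_jac_dfc U (σ i) i).comp measurable_fst)

theorem HomField.pi_le (hm : 2 ≤ m) (hU : HomField U) :
    π * bv (2 * m + 2) ≤ ∫ x, d0 (Tm U x) * (Icos m - 4 * cdef m * del m (Tm U x))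
      ∂(mB (2 * m + 2)) := by
  classical
  set μ := mB (2 * m + 2) with hμ
  have : IsFiniteMeasure μ := by
    rw [hμ]; unfold mB Bd
    refine ⟨?_⟩
    rw [Measure.restrict_apply_univ]
    exact measure_ball_lt_top
  set ν : Measure ℝ := volume.restrict (Ioc 0 π) with hν
  have : IsFiniteMeasure ν := by
    rw [hν]; infer_instance
  let g : Eu (2 * m + 2) → ℝ → ℝ := fun x t =>
    (cos t • (1 : Matrix (Fin (2 * m + 2)) (Fin (2 * m + 2)) ℝ) + sin t • jac U x).det
  -- bound
  obtain ⟨C, hC0, hC⟩ := hU.jac_bounded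
  obtain ⟨K, hK⟩ : ∃ K : ℝ, ∀ x : Eu (2 * m + 2), x ≠ 0 → ∀ t : ℝ, |g x t| ≤ K := by
    refine ⟨Nat.factorial (Fintype.card (Fin (2 * m + 2)))
      • (1 + C) ^ (Fintype.card (Fin (2 * m + 2))), fun x hx t => ?_⟩
    have := Matrix.det_le (abv := (AbsoluteValue.abs : AbsoluteValue ℝ ℝ)) (x := 1 + C)
      (A := cos t • (1 : Matrix (Fin (2 * m + 2)) (Fin (2 * m + 2)) ℝ) + sin t • jac U x) ?_
    · exact this
    · intro j i
      have h1 : |cos t * (1 : Matrix (Fin (2 * m + 2)) (Fin (2 * m + 2)) ℝ) j i| ≤ 1 := by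
        rw [abs_mul]
        have h2 : |(1 : Matrix (Fin (2 * m + 2)) (Fin (2 * m + 2)) ℝ) j i| ≤ 1 := by
          rw [Matrix.one_apply]; split_ifs <;> simp
        calc |cos t| * |(1 : Matrix (Fin (2 * m + 2)) (Fin (2 * m + 2)) ℝ) j i| ≤ 1 * 1 :=
              mul_le_mul (abs_cos_le_one t) h2 (abs_nonneg _) zero_le_one
          _ = 1 := by ring
      have h3 : |sin t * jac U x j i| ≤ C := by
        rw [abs_mul]
        calc |sin t| * |jac U x j i| ≤ 1 * C :=
              mul_le_mul (abs_sin_le_one t) (hC x hx j i) (abs_nonneg _) zero_le_one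
          _ = C := by ring
      calc AbsoluteValue.abs ((cos t • (1 : Matrix (Fin (2 * m + 2)) (Fin (2 * m + 2)) ℝ)
            + sin t • jac U x) j i)
          = |cos t * (1 : Matrix (Fin (2 * m + 2)) (Fin (2 * m + 2)) ℝ) j i
            + sin t * jac U x j i| := rfl
        _ ≤ 1 + C := (abs_add_le _ _).trans (add_le_add h1 h3)
  have hae := ae_ne_zero_dfc m
  rw [← hμ] at hae
  -- integrability on the product
  have hprod : Integrable (Function.uncurry g) (μ.prod ν) := by
    refine Integrable.of_bound (C := K) ?_ ?_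
    · exact (measurable_det_dfc U).aestronglyMeasurable
    · have h1 : ∀ᵐ p ∂(μ.prod ν), p.1 ≠ 0 := by
        exact (Measure.quasiMeasurePreserving_fst (μ := μ) (ν := ν)).ae hae
      filter_upwards [h1] with p hp
      exact hK p.1 hp p.2
  -- Fubini
  have hswap : ∫ x, ∫ t, g x t ∂ν ∂μ = ∫ t, ∫ x, g x t ∂μ ∂ν :=
    integral_integral_swap hprod
  have hin : ∀ t : ℝ, ∫ x, g x t ∂μ = bv (2 * m + 2) := fun t => hU.int_det t
  have hpi : ∫ t, ∫ x, g x t ∂μ ∂ν = π * bv (2 * m + 2) := by
    simp only [hin]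
    rw [integral_const, hν]
    simp [Measure.real, Real.pi_pos.le]
  rw [← hpi, ← hswap]
  refine integral_mono_ae ?_ ?_ ?_
  · exact hprod.integral_prod_left
  · have h1 := hU.integrable_d0 hm
    have h2 := hU.integrable_del_d0 hm
    have h3 : (fun x => d0 (Tm U x) * (Icos m - 4 * cdef m * del m (Tm U x)))
        = fun x => Icos m * d0 (Tm U x) - 4 * cdef m * (del m (Tm U x) * d0 (Tm U x)) := by
      funext x; ring
    rw [h3]
    exact (h1.const_mul _).sub (h2.const_mul _)
  · filter_upwards [hae] with x hx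
    have h1 := integral_abs_det_le hm (hU.adapted hx)
    have h2 : Am U x + vecMulVec (vh U x).ofLp (hat x).ofLp
        - vecMulVec (hat x).ofLp (vh U x).ofLp = jac U x := by
      unfold Am; abel
    rw [h2] at h1
    refine le_trans ?_ h1
    rw [intervalIntegral.integral_of_le Real.pi_pos.le]
    have hgi : Continuous (g x) := by
      have : g x = fun t => ∑ σ : Equiv.Perm (Fin (2 * m + 2)), ((Equiv.Perm.sign σ : ℤ) : ℝ) *
          ∏ i, (cos t * (1 : Matrix (Fin (2 * m + 2)) (Fin (2 * m + 2)) ℝ) (σ i) i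
            + sin t * jac U x (σ i) i) := by
        funext t
        show Matrix.det _ = _
        rw [Matrix.det_apply']
        rfl
      rw [this]
      fun_prop
    refine integral_mono ?_ ?_ ?_
    · exact (hgi.integrableOn_Ioc)
    · exact (hgi.abs.integrableOn_Ioc)
    · intro t
      exact le_abs_self _

end Pool.UVF
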