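import Pool.Agent.Lib.MP_28fba0_gt.UV.Deficit

/-!
# UV-Deficit2A (part of Deficit2): `∫ |a - a₀| ≤ C √ε`

Let `∫ D ≤ (b + ε)|B|`, `0 < ε ≤ 1`, `I = Icos m`, `I b = π` (`Icos_eq`).  From `HomField.pi_le` and
`D₀ ≤ D`: `4 cdef ∫ δ D₀ + I ∫ (D - D₀) ≤ I ∫ D - π |B| ≤ I ε |B|`.  Pointwise (`frob_le`):
`∑ (a - a₀)_{ji}² ≤ (2m)² δ D₀² + (D² - D₀²)`, so
`∑ |a - a₀| ≤ d √(∑ (…)²) ≤ d (2m √δ D₀ + √(D - D₀) √(D + D₀))` and by Cauchy–Schwarz
`∫ √δ D₀ ≤ √(∫ δ D₀) √(∫ D₀)`, `∫ √(D-D₀) √(D+D₀) ≤ √(∫ (D-D₀)) √(∫ 2 D)`, `∫ D ≤ (b+1)|B|`.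
(A pointwise AM–GM version avoids Cauchy–Schwarz: `√δ D₀ ≤ (δ D₀/√ε + √ε D₀)/2` etc.)
`|λ| ≤ 1 + λ² ≤ (1+λ²)^m ≤ D₀ ≤ D` and `|a₀| ≤ 3|λ| + 2` give the bound of `∫ ∑ |jac|`.
-/

open Matrix Real Set MeasureTheory

namespace Pool.UVF

variable {m : ℕ} {U : Eu (2 * m + 2) → Eu (2 * m + 2)}

theorem HomField.d0_le_DD (hm : 2 ≤ m) (hU : HomField U) {x : Eu (2 * m + 2)} (hx : x ≠ 0) :
    d0 (Tm U x) ≤ DD U x := by
  have h := d0_sq_le hm (hU.adapted hx)
  unfold DD
  exact Real.le_sqrt_of_sq_le h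

theorem HomField.lam_pow_le (hm : 2 ≤ m) (hU : HomField U) {x : Eu (2 * m + 2)} (hx : x ≠ 0) :
    (1 + (lamOf m (Tm U x)) ^ 2) ^ m ≤ DD U x :=
  (one_add_lam_pow_le hm (hU.adapted hx)).trans (hU.d0_le_DD hm hx)

theorem HomField.abs_det_jac_le (hm : 2 ≤ m) (hU : HomField U) {x : Eu (2 * m + 2)}
    (hx : x ≠ 0) : |(jac U x).det| ≤ DD U x := by
  have h := abs_det_a_le hm (hU.adapted hx)
  have h2 : Am U x + vecMulVec (vh U x).ofLp (hat x).ofLp
      - vecMulVec (hat x).ofLp (vh U x).ofLp = jac U x := by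
    unfold Am; abel
  rw [h2] at h
  exact h.trans (hU.d0_le_DD hm hx)

/-- almost every point of the ball is nonzero -/
private theorem ae_ne_zero_dfa (m : ℕ) : ∀ᵐ x ∂(mB (2 * m + 2)), x ≠ 0 := by
  unfold mB
  apply ae_restrict_of_ae
  rw [ae_iff]
  simp

/-- the lower bound of Gluck–Ziller -/
theorem HomField.bound (hm : 2 ≤ m) (hU : HomField U) :
    bGZ m * bv (2 * m + 2) ≤ ∫ x, DD U x ∂(mB (2 * m + 2)) := by
  have h1 := hU.pi_le hm
  have h2 : ∫ x, d0 (Tm U x) * (Icos m - 4 * cdef m * del m (Tm U x)) ∂(mB (2 * m + 2))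
      ≤ ∫ x, Icos m * DD U x ∂(mB (2 * m + 2)) := by
    refine integral_mono_ae ?_ ?_ ?_
    · have h3 : (fun x => d0 (Tm U x) * (Icos m - 4 * cdef m * del m (Tm U x)))
          = fun x => Icos m * d0 (Tm U x) - 4 * cdef m * (del m (Tm U x) * d0 (Tm U x)) := by
        funext x; ring
      rw [h3]
      exact ((hU.integrable_d0 hm).const_mul _).sub ((hU.integrable_del_d0 hm).const_mul _)
    · exact hU.integrable_DD.const_mul _
    · filter_upwards [ae_ne_zero_dfa m] with x hx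
      have hd0 : 1 ≤ d0 (Tm U x) := one_le_d0 _
      have hdel : 0 ≤ del m (Tm U x) := del_nonneg_of hm (hU.adapted hx)
      have hc := cdef_pos m hm
      have hI := Icos_pos m
      have hD := hU.d0_le_DD hm hx
      have h5 : 0 ≤ 4 * cdef m * del m (Tm U x) * d0 (Tm U x) := by positivity
      nlinarith
  rw [integral_const_mul] at h2
  have h3 := h1.trans h2
  have h4 := Icos_eq m
  have hI := Icos_pos m
  rw [← h4, mul_assoc] at h3
  exact le_of_mul_le_mul_left h3 hI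

theorem HomField.integrable_err (hm : 2 ≤ m) (hU : HomField U) :
    Integrable (errU m U) (mB (2 * m + 2)) := by
  unfold errU
  refine integrable_finsetSum _ fun j _ => integrable_finsetSum _ fun i _ => Integrable.abs ?_
  refine integrable_of_hom0 (by omega) ?_ ?_
  · have hlam := hU.lam_continuousOn hm
    have hjac := hU.jac_continuousOn
    have hcU := hU.continuous
    have hhat : ∀ k : Fin (2 * m + 2), ContinuousOn (fun x : Eu (2 * m + 2) => hat x k) {0}ᶜ := by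
      intro k
      unfold hat
      simp only [PiLp.smul_apply, smul_eq_mul]
      refine ContinuousOn.mul ?_ ?_
      · exact ContinuousOn.inv₀ continuous_norm.continuousOn (fun x hx => norm_ne_zero_iff.2 hx)
      · exact (EuclideanSpace.proj k : Eu (2 * m + 2) →L[ℝ] ℝ).continuous.continuousOn
    have hvh : ∀ k : Fin (2 * m + 2), ContinuousOn (fun x : Eu (2 * m + 2) => vh U x k) {0}ᶜ := by
      intro k
      unfold vh
      simp only [PiLp.smul_apply, smul_eq_mul]
      refine ContinuousOn.mul ?_ ?_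
      · exact ContinuousOn.inv₀ continuous_norm.continuousOn (fun x hx => norm_ne_zero_iff.2 hx)
      · exact ((EuclideanSpace.proj k : Eu (2 * m + 2) →L[ℝ] ℝ).continuous.comp hcU).continuousOn
    have hj : ContinuousOn (fun x => jac U x j i) {0}ᶜ := by
      exact (continuous_apply_apply j i).comp_continuousOn hjac
    refine hj.sub ?_
    unfold a0
    simp only [Matrix.of_apply]
    refine ((hlam.mul ((continuousOn_const.sub ((hhat j).mul (hhat i))).sub
      ((hvh j).mul (hvh i)))).add ((hvh j).mul (hhat i))).sub ((hhat j).mul (hvh i))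
  · intro s hs x hx
    have h1 := hU.jac_smul hs hx
    have h2 := hU.Tm_smul hs hx
    have h3 : hat (s • x) = hat x := by
      unfold hat
      rw [norm_smul, smul_smul, Real.norm_eq_abs, abs_of_pos hs, mul_inv]
      congr 1
      field_simp
    have h4 : vh U (s • x) = vh U x := by
      unfold vh
      rw [hU.hom s hs.le, norm_smul, smul_smul, Real.norm_eq_abs, abs_of_pos hs, mul_inv]
      congr 1
      field_simp
    rw [h1, h2, h3, h4]

end Pool.UVF
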