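import Pool.Agent.Lib.MP_28fba0_gt.UV.Deficit
import Pool.Agent.Lib.MP_28fba0_gt.UV.Deficit2A

/-!
# UV-Deficit2B (part of Deficit2): `∫ |a - a₀| ≤ C √ε`

Let `∫ D ≤ (b + ε)|B|`, `0 < ε ≤ 1`, `I = Icos m`, `I b = π` (`Icos_eq`).  From `HomField.pi_le` and
`D₀ ≤ D`: `4 cdef ∫ δ D₀ + I ∫ (D - D₀) ≤ I ∫ D - π |B| ≤ I ε |B|`.  Pointwise (`frob_le`):
`∑ (a - a₀)_{ji}² ≤ (2m)² δ D₀² + (D² - D₀²)`, so
`∑ |a - a₀| ≤ d √(∑ (…)²) ≤ d (2m √δ D₀ + √(D - D₀) √(D + D₀))` and by Cauchy–Schwarz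
`∫ √δ D₀ ≤ √(∫ δ D₀) √(∫ D₀)`, `∫ √(D-D₀) √(D+D₀) ≤ √(∫ (D-D₀)) √(∫ 2 D)`, `∫ D ≤ (b+1)|B|`.
(A pointwise AM–GM version avoids Cauchy–Schwarz: `√δ D₀ ≤ (δ D₀/√ε + √ε D₀)/2` etc.)
`|λ| ≤ 1 + λ² ≤ (1+λ²)^m ≤ D₀ ≤ D` and `|a₀| ≤ 3|λ| + 2` give the bound of `∫ ∑ |jac|`.
-/

open Matrix Real Set MeasureTheory

namespace Pool.UVF

variable {m : ℕ} {U : Eu (2 * m + 2) → Eu (2 * m + 2)}

private theorem sum_abs_sq_le {n : ℕ} (F : Fin n → Fin n → ℝ) :
    (∑ j, ∑ i, |F j i|) ^ 2 ≤ (n : ℝ) ^ 2 * ∑ j, ∑ i, (F j i) ^ 2 := by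
  have h1 : (∑ j, ∑ i, |F j i|) ^ 2 ≤ (n : ℝ) * ∑ j, (∑ i, |F j i|) ^ 2 := by
    have := sq_sum_le_card_mul_sum_sq (s := (Finset.univ : Finset (Fin n)))
      (f := fun j => ∑ i, |F j i|)
    simpa using this
  have h2 : ∀ j, (∑ i, |F j i|) ^ 2 ≤ (n : ℝ) * ∑ i, (F j i) ^ 2 := by
    intro j
    have := sq_sum_le_card_mul_sum_sq (s := (Finset.univ : Finset (Fin n)))
      (f := fun i => |F j i|)
    simpa using this
  calc (∑ j, ∑ i, |F j i|) ^ 2 ≤ (n : ℝ) * ∑ j, (∑ i, |F j i|) ^ 2 := h1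
    _ ≤ (n : ℝ) * ∑ j, (n : ℝ) * ∑ i, (F j i) ^ 2 :=
        mul_le_mul_of_nonneg_left (Finset.sum_le_sum fun j _ => h2 j) (by positivity)
    _ = (n : ℝ) ^ 2 * ∑ j, ∑ i, (F j i) ^ 2 := by
        rw [← Finset.mul_sum]; ring

private theorem err_pt (hm : 2 ≤ m) (hU : HomField U) {x : Eu (2 * m + 2)} (hx : x ≠ 0)
    {s : ℝ} (hs : 0 < s) :
    errU m U x ≤ (2 * m + 2 : ℝ) * ((m / s) * (del m (Tm U x) * d0 (Tm U x))
      + (m + 1) * s * DD U x + (1 / (2 * s)) * (DD U x - d0 (Tm U x))) := by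
  have hA := hU.adapted hx
  have hδ : 0 ≤ del m (Tm U x) := del_nonneg_of hm hA
  have hd1 : 1 ≤ d0 (Tm U x) := one_le_d0 _
  have hdD : d0 (Tm U x) ≤ DD U x := hU.d0_le_DD hm hx
  have hfrob := frob_le hm hA
  have hdet : (1 + (Am U x)ᵀ * Am U x).det = DD U x ^ 2 := by
    have h1 := d0_sq_le hm hA
    have h2 : 0 ≤ (1 + (Am U x)ᵀ * Am U x).det := le_trans (sq_nonneg _) h1
    unfold DD
    rw [Real.sq_sqrt h2]
  have hT : Am U x * (1 - vecMulVec (vh U x).ofLp (vh U x).ofLp) = Tm U x := rfl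
  rw [hdet, hT] at hfrob
  have hjac : ∀ j i, (Am U x + vecMulVec (vh U x).ofLp (hat x).ofLp
      - vecMulVec (hat x).ofLp (vh U x).ofLp - a0 (lamOf m (Tm U x)) (hat x) (vh U x)) j i =
      jac U x j i - a0 (lamOf m (Tm U x)) (hat x) (vh U x) j i := by
    intro j i
    unfold Am
    simp only [Matrix.sub_apply, Matrix.add_apply]
    ring
  simp only [hjac] at hfrob
  set δ : ℝ := del m (Tm U x) with hδd
  set D0 : ℝ := d0 (Tm U x) with hD0
  set D : ℝ := DD U x with hDD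
  set S : ℝ := ∑ j, ∑ i, (jac U x j i - a0 (lamOf m (Tm U x)) (hat x) (vh U x) j i) ^ 2 with hS
  have he : (errU m U x) ^ 2 ≤ (2 * m + 2 : ℝ) ^ 2 * S := by
    have := sum_abs_sq_le (fun j i => jac U x j i - a0 (lamOf m (Tm U x)) (hat x) (vh U x) j i)
    unfold errU
    push_cast at this
    exact this
  have he0 : 0 ≤ errU m U x :=
    Finset.sum_nonneg fun j _ => Finset.sum_nonneg fun i _ => abs_nonneg _
  have hm0 : (0 : ℝ) ≤ m := Nat.cast_nonneg m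
  set p : ℝ := m * (δ * D0 / s + s * D0) with hp
  set q : ℝ := ((D - D0) / s + s * (D + D0)) / 2 with hq
  have hp0 : 0 ≤ p := by
    have : 0 ≤ δ * D0 / s + s * D0 := by positivity
    positivity
  have hq0 : 0 ≤ q := by
    have h1 : 0 ≤ (D - D0) / s := div_nonneg (by linarith) hs.le
    have h2 : 0 ≤ s * (D + D0) := mul_nonneg hs.le (by linarith)
    linarith
  have hp2 : (2 * m : ℝ) ^ 2 * δ * D0 ^ 2 ≤ p ^ 2 := by
    have h1 : 4 * ((δ * D0 / s) * (s * D0)) ≤ (δ * D0 / s + s * D0) ^ 2 := by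
      nlinarith [sq_nonneg (δ * D0 / s - s * D0)]
    have h2 : (δ * D0 / s) * (s * D0) = δ * D0 ^ 2 := by field_simp
    rw [h2] at h1
    calc (2 * m : ℝ) ^ 2 * δ * D0 ^ 2 = (m : ℝ) ^ 2 * (4 * (δ * D0 ^ 2)) := by ring
      _ ≤ (m : ℝ) ^ 2 * (δ * D0 / s + s * D0) ^ 2 :=
          mul_le_mul_of_nonneg_left h1 (by positivity)
      _ = p ^ 2 := by rw [hp]; ring
  have hq2 : D ^ 2 - D0 ^ 2 ≤ q ^ 2 := by
    have h1 : 4 * (((D - D0) / s) * (s * (D + D0))) ≤ ((D - D0) / s + s * (D + D0)) ^ 2 := by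
      nlinarith [sq_nonneg ((D - D0) / s - s * (D + D0))]
    have h2 : ((D - D0) / s) * (s * (D + D0)) = D ^ 2 - D0 ^ 2 := by field_simp; ring
    rw [h2] at h1
    have h3 : q ^ 2 = ((D - D0) / s + s * (D + D0)) ^ 2 / 4 := by rw [hq]; ring
    rw [h3]; linarith
  have hSpq : S ≤ (p + q) ^ 2 := by nlinarith [mul_nonneg hp0 hq0]
  have hle : errU m U x ≤ (2 * m + 2 : ℝ) * (p + q) := by
    apply le_of_sq_le_sq _ (by positivity)
    calc (errU m U x) ^ 2 ≤ (2 * m + 2 : ℝ) ^ 2 * S := he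
      _ ≤ (2 * m + 2 : ℝ) ^ 2 * (p + q) ^ 2 := mul_le_mul_of_nonneg_left hSpq (by positivity)
      _ = _ := by ring
  refine hle.trans (mul_le_mul_of_nonneg_left ?_ (by positivity))
  have h1 : p ≤ (m / s) * (δ * D0) + m * s * D := by
    have : p = (m / s) * (δ * D0) + m * s * D0 := by rw [hp]; ring
    rw [this]
    have := mul_le_mul_of_nonneg_left hdD (mul_nonneg hm0 hs.le)
    linarith
  have h2 : q ≤ (1 / (2 * s)) * (D - D0) + s * D := by
    have : q = (1 / (2 * s)) * (D - D0) + s * (D + D0) / 2 := by rw [hq]; field_simp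
    rw [this]
    nlinarith [mul_le_mul_of_nonneg_left hdD hs.le]
  nlinarith

theorem err_le (m : ℕ) (hm : 2 ≤ m) : ∃ C : ℝ, 0 < C ∧ ∀ U : Eu (2 * m + 2) → Eu (2 * m + 2),
    HomField U → ∀ ε : ℝ, 0 < ε → ε ≤ 1 →
    ∫ x, DD U x ∂(mB (2 * m + 2)) ≤ (bGZ m + ε) * bv (2 * m + 2) →
    ∫ x, errU m U x ∂(mB (2 * m + 2)) ≤ C * √ ε := by
  have c0 := cdef_pos m hm
  have I0 := Icos_pos m
  have b0 := bGZ_pos m
  have hIb := Icos_eq m
  have B0 : 0 ≤ bv (2 * m + 2) := ENNReal.toReal_nonneg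
  have hm0 : (0 : ℝ) ≤ m := Nat.cast_nonneg m
  refine ⟨(2 * m + 2 : ℝ) * (m * Icos m * bv (2 * m + 2) / (4 * cdef m)
    + (m + 1) * (bGZ m + 1) * bv (2 * m + 2) + bv (2 * m + 2) / 2) + 1, by positivity, ?_⟩
  intro U hU ε hε hε1 hD
  have hs : 0 < √ ε := Real.sqrt_pos.mpr hε
  have hss : √ ε * √ ε = ε := Real.mul_self_sqrt hε.le
  set s : ℝ := √ ε with hsd
  have hpi := hU.pi_le hm
  have iD := hU.integrable_DD
  have iD0 := hU.integrable_d0 hm
  have iδ := hU.integrable_del_d0 hm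
  have iE := hU.integrable_err hm
  have e1 : ∫ x, d0 (Tm U x) * (Icos m - 4 * cdef m * del m (Tm U x)) ∂(mB (2 * m + 2)) =
      Icos m * ∫ x, d0 (Tm U x) ∂(mB (2 * m + 2)) -
        4 * cdef m * ∫ x, del m (Tm U x) * d0 (Tm U x) ∂(mB (2 * m + 2)) := by
    rw [← integral_const_mul, ← integral_const_mul, ← integral_sub (iD0.const_mul _)
      (iδ.const_mul _)]
    congr 1
    ext x
    ring
  rw [e1] at hpi
  have hae : ∀ᵐ x ∂(mB (2 * m + 2)), x ≠ 0 := by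
    unfold mB
    apply ae_restrict_of_ae
    exact Measure.ae_ne volume 0
  have hδ0 : 0 ≤ ∫ x, del m (Tm U x) * d0 (Tm U x) ∂(mB (2 * m + 2)) := by
    apply integral_nonneg_of_ae
    filter_upwards [hae] with x hx
    exact mul_nonneg (del_nonneg_of hm (hU.adapted hx)) (le_trans zero_le_one (one_le_d0 _))
  have hdiff0 : ∫ x, d0 (Tm U x) ∂(mB (2 * m + 2)) ≤ ∫ x, DD U x ∂(mB (2 * m + 2)) := by
    apply integral_mono_ae iD0 iD
    filter_upwards [hae] with x hx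
    exact hU.d0_le_DD hm hx
  set A1 : ℝ := ∫ x, del m (Tm U x) * d0 (Tm U x) ∂(mB (2 * m + 2)) with hA1
  set A2 : ℝ := ∫ x, d0 (Tm U x) ∂(mB (2 * m + 2)) with hA2
  set A3 : ℝ := ∫ x, DD U x ∂(mB (2 * m + 2)) with hA3
  set B : ℝ := bv (2 * m + 2) with hB
  -- the deficit
  have hdef : 4 * cdef m * A1 + Icos m * (A3 - A2) ≤ Icos m * ε * B := by
    have h1 : Icos m * A3 ≤ Icos m * ((bGZ m + ε) * B) := mul_le_mul_of_nonneg_left hD I0.le
    have h2 : Icos m * ((bGZ m + ε) * B) = π * B + Icos m * ε * B := by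
      rw [← hIb]; ring
    linarith
  have hA1le : A1 ≤ Icos m * ε * B / (4 * cdef m) := by
    rw [le_div_iff₀ (by positivity)]
    have : 0 ≤ Icos m * (A3 - A2) := mul_nonneg I0.le (by linarith)
    linarith
  have hA32 : A3 - A2 ≤ ε * B := by
    have h1 : Icos m * (A3 - A2) ≤ Icos m * (ε * B) := by
      have : 0 ≤ 4 * cdef m * A1 := by positivity
      linarith
    exact le_of_mul_le_mul_left h1 I0
  have hA3le : A3 ≤ (bGZ m + 1) * B := by
    refine hD.trans (mul_le_mul_of_nonneg_right (by linarith) B0)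
  -- integrate the pointwise estimate
  have hint : ∫ x, errU m U x ∂(mB (2 * m + 2)) ≤
      (2 * m + 2 : ℝ) * ((m / s) * A1 + (m + 1) * s * A3 + (1 / (2 * s)) * (A3 - A2)) := by
    have i1 : Integrable (fun x => (m / s) * (del m (Tm U x) * d0 (Tm U x)))
      (mB (2 * m + 2)) := iδ.const_mul _
    have i2 : Integrable (fun x => (m + 1) * s * DD U x) (mB (2 * m + 2)) := iD.const_mul _
    have i3 : Integrable (fun x => (1 / (2 * s)) * (DD U x - d0 (Tm U x)))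
      (mB (2 * m + 2)) := (iD.sub iD0).const_mul _
    have h1 : ∫ x, errU m U x ∂(mB (2 * m + 2)) ≤
        ∫ x, (2 * m + 2 : ℝ) * ((m / s) * (del m (Tm U x) * d0 (Tm U x))
          + (m + 1) * s * DD U x + (1 / (2 * s)) * (DD U x - d0 (Tm U x)))
          ∂(mB (2 * m + 2)) := by
      apply integral_mono_ae iE (((i1.add i2).add i3).const_mul _)
      filter_upwards [hae] with x hx
      exact err_pt hm hU hx hs
    refine h1.trans (le_of_eq ?_)
    have i12 : Integrable (fun x => (m / s) * (del m (Tm U x) * d0 (Tm U x))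
        + (m + 1) * s * DD U x) (mB (2 * m + 2)) := i1.add i2
    rw [integral_const_mul, integral_add i12 i3, integral_add i1 i2,
      integral_const_mul, integral_const_mul, integral_const_mul, integral_sub iD iD0]
  refine hint.trans ?_
  have t1 : (m / s) * A1 ≤ m * Icos m * B / (4 * cdef m) * s := by
    calc (m / s) * A1 ≤ (m / s) * (Icos m * ε * B / (4 * cdef m)) :=
          mul_le_mul_of_nonneg_left hA1le (by positivity)
      _ = m * Icos m * B / (4 * cdef m) * s := by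
          rw [← hss]; field_simp
  have t2 : (m + 1) * s * A3 ≤ (m + 1) * (bGZ m + 1) * B * s := by
    have := mul_le_mul_of_nonneg_left hA3le (by positivity : (0:ℝ) ≤ (m + 1) * s)
    linarith
  have t3 : (1 / (2 * s)) * (A3 - A2) ≤ B / 2 * s := by
    calc (1 / (2 * s)) * (A3 - A2) ≤ (1 / (2 * s)) * (ε * B) :=
          mul_le_mul_of_nonneg_left hA32 (by positivity)
      _ = B / 2 * s := by
          rw [← hss]; field_simp
  have t4 : (2 * m + 2 : ℝ) * ((m / s) * A1 + (m + 1) * s * A3 + (1 / (2 * s)) * (A3 - A2)) ≤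
      (2 * m + 2 : ℝ) * ((m * Icos m * B / (4 * cdef m)
    + (m + 1) * (bGZ m + 1) * B + B / 2) * s) :=
    mul_le_mul_of_nonneg_left (by linarith) (by positivity)
  linarith

end Pool.UVF
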