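import Pool.Agent.Lib.MP_28fba0_gt.UV.Deficit
import Pool.Agent.Lib.MP_28fba0_gt.UV.Deficit2B
import Pool.Agent.Lib.MP_28fba0_gt.UV.Alg

/-!
# UV-Deficit2C (part of Deficit2): `∫ |a - a₀| ≤ C √ε`

Let `∫ D ≤ (b + ε)|B|`, `0 < ε ≤ 1`, `I = Icos m`, `I b = π` (`Icos_eq`).  From `HomField.pi_le` and
`D₀ ≤ D`: `4 cdef ∫ δ D₀ + I ∫ (D - D₀) ≤ I ∫ D - π |B| ≤ I ε |B|`.  Pointwise (`frob_le`):
`∑ (a - a₀)_{ji}² ≤ (2m)² δ D₀² + (D² - D₀²)`, so
`∑ |a - a₀| ≤ d √(∑ (…)²) ≤ d (2m √δ D₀ + √(D - D₀) √(D + D₀))` and by Cauchy–Schwarz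
`∫ √δ D₀ ≤ √(∫ δ D₀) √(∫ D₀)`, `∫ √(D-D₀) √(D+D₀) ≤ √(∫ (D-D₀)) √(∫ 2 D)`, `∫ D ≤ (b+1)|B|`.
(A pointwise AM–GM version avoids Cauchy–Schwarz: `√δ D₀ ≤ (δ D₀/√ε + √ε D₀)/2` etc.)
`|λ| ≤ 1 + λ² ≤ (1+λ²)^m ≤ D₀ ≤ D` and `|a₀| ≤ 3|λ| + 2` give the bound of `∫ ∑ |jac|`.
-/

open Matrix Real Set MeasureTheory

namespace Pool.UVF

variable {m : ℕ} {U : Eu (2 * m + 2) → Eu (2 * m + 2)}

theorem Deficit2C_norm_le_sum {d : ℕ} (y : Eu d) : ‖y‖ ≤ ∑ j, |y j| := by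
  have h := (EuclideanSpace.basisFun (Fin d) ℝ).sum_repr y
  calc ‖y‖ = ‖∑ j, (EuclideanSpace.basisFun (Fin d) ℝ).repr y j •
        (EuclideanSpace.basisFun (Fin d) ℝ) j‖ := by rw [h]
    _ ≤ ∑ j, ‖(EuclideanSpace.basisFun (Fin d) ℝ).repr y j •
        (EuclideanSpace.basisFun (Fin d) ℝ) j‖ := norm_sum_le _ _
    _ = ∑ j, |y j| := by
        refine Finset.sum_congr rfl fun j _ => ?_
        rw [norm_smul, (EuclideanSpace.basisFun (Fin d) ℝ).norm_eq_one, mul_one,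
          EuclideanSpace.basisFun_repr, Real.norm_eq_abs]

theorem Deficit2C_opNorm_le {d : ℕ} (L : Eu d →L[ℝ] Eu d) :
    ‖L‖ ≤ ∑ j, ∑ i, |(L (EuclideanSpace.single i (1 : ℝ))) j| := by
  refine L.opNorm_le_bound (Finset.sum_nonneg fun j _ => Finset.sum_nonneg fun i _ =>
    abs_nonneg _) fun w => ?_
  have hw : L w = ∑ i, w i • L (EuclideanSpace.single i (1 : ℝ)) := by
    have h := (EuclideanSpace.basisFun (Fin d) ℝ).sum_repr w
    conv_lhs => rw [← h, map_sum]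
    refine Finset.sum_congr rfl fun i _ => ?_
    rw [map_smul, EuclideanSpace.basisFun_repr, EuclideanSpace.basisFun_apply]
  calc ‖L w‖ = ‖∑ i, w i • L (EuclideanSpace.single i (1 : ℝ))‖ := by rw [hw]
    _ ≤ ∑ i, ‖w i • L (EuclideanSpace.single i (1 : ℝ))‖ := norm_sum_le _ _
    _ ≤ ∑ i, ‖w‖ * ∑ j, |(L (EuclideanSpace.single i (1 : ℝ))) j| := by
        refine Finset.sum_le_sum fun i _ => ?_
        rw [norm_smul]
        exact mul_le_mul (PiLp.norm_apply_le w i)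
          (Deficit2C_norm_le_sum _) (norm_nonneg _) (norm_nonneg _)
    _ = (∑ j, ∑ i, |(L (EuclideanSpace.single i (1 : ℝ))) j|) * ‖w‖ := by
        rw [← Finset.mul_sum, Finset.sum_comm, mul_comm]

theorem Deficit2C_pt (hm : 2 ≤ m) (hU : HomField U) {x : Eu (2 * m + 2)} (hx : x ≠ 0) :
    ‖fderiv ℝ U x‖ ≤ errU m U x + ((2 * m + 2 : ℕ) : ℝ) ^ 2 * (3 * DD U x + 2) := by
  have hA := hU.adapted hx
  set l := lamOf m (Tm U x) with hl
  have h1 : |l| ≤ DD U x := by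
    have h2 : |l| ≤ 1 + l ^ 2 := by
      nlinarith [sq_abs l, sq_nonneg (|l| - 1), abs_nonneg l]
    have h3 : 1 + l ^ 2 ≤ (1 + l ^ 2) ^ m :=
      le_self_pow₀ (by nlinarith [sq_nonneg l]) (by omega)
    exact h2.trans (h3.trans (hU.lam_pow_le hm hx))
  have h4 : ∀ j i, |jac U x j i| ≤
      |jac U x j i - a0 l (hat x) (vh U x) j i| + (3 * DD U x + 2) := by
    intro j i
    have h5 := abs_a0_le (l := l) hA.nx hA.nv j i
    calc |jac U x j i| = |(jac U x j i - a0 l (hat x) (vh U x) j i) +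
          a0 l (hat x) (vh U x) j i| := by rw [sub_add_cancel]
      _ ≤ |jac U x j i - a0 l (hat x) (vh U x) j i| + |a0 l (hat x) (vh U x) j i| :=
          abs_add_le _ _
      _ ≤ _ := by linarith
  calc ‖fderiv ℝ U x‖ ≤ ∑ j, ∑ i, |(fderiv ℝ U x (EuclideanSpace.single i (1 : ℝ))) j| :=
        Deficit2C_opNorm_le _
    _ ≤ ∑ j, ∑ i, (|jac U x j i - a0 l (hat x) (vh U x) j i| + (3 * DD U x + 2)) :=
        Finset.sum_le_sum fun j _ => Finset.sum_le_sum fun i _ => h4 j i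
    _ = errU m U x + ((2 * m + 2 : ℕ) : ℝ) ^ 2 * (3 * DD U x + 2) := by
        simp only [Finset.sum_add_distrib, Finset.sum_const, Finset.card_univ, Fintype.card_fin,
          nsmul_eq_mul]
        rw [errU, ← hl]
        ring

theorem jac_l1_le (m : ℕ) (hm : 2 ≤ m) : ∃ C : ℝ, 0 < C ∧ ∀ U : Eu (2 * m + 2) → Eu (2 * m + 2),
    HomField U → ∫ x, DD U x ∂(mB (2 * m + 2)) ≤ (bGZ m + 1) * bv (2 * m + 2) →
    ∫ x, ‖fderiv ℝ U x‖ ∂(mB (2 * m + 2)) ≤ C := by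
  obtain ⟨C, hC, hE⟩ := err_le m hm
  have hfin : IsFiniteMeasure (mB (2 * m + 2)) := by
    refine ⟨?_⟩
    rw [mB, Measure.restrict_apply_univ]
    exact measure_ball_lt_top
  have hbv : 0 ≤ bv (2 * m + 2) := ENNReal.toReal_nonneg
  have hb := bGZ_pos m
  set K : ℝ := ((2 * m + 2 : ℕ) : ℝ) ^ 2 with hK
  have hK0 : 0 ≤ K := by positivity
  refine ⟨C + K * (3 * ((bGZ m + 1) * bv (2 * m + 2)) + 2 * bv (2 * m + 2)), by positivity,
    fun U hU hD => ?_⟩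
  have h1 : ∀ᵐ x ∂(mB (2 * m + 2)), ‖fderiv ℝ U x‖ ≤ errU m U x + K * (3 * DD U x + 2) := by
    have h0 : ∀ᵐ x ∂(volume : Measure (Eu (2 * m + 2))), x ≠ 0 :=
      measure_eq_zero_iff_ae_notMem.1 (measure_singleton (0 : Eu (2 * m + 2)))
    filter_upwards [ae_restrict_of_ae (s := Bd (2 * m + 2)) h0] with x hx
    exact Deficit2C_pt hm hU hx
  have hI1 := hU.integrable_err hm
  have hI2 := hU.integrable_DD
  have hI3 : Integrable (fun x => K * (3 * DD U x + 2)) (mB (2 * m + 2)) :=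
    ((hI2.const_mul 3).add (integrable_const 2)).const_mul K
  calc ∫ x, ‖fderiv ℝ U x‖ ∂(mB (2 * m + 2))
      ≤ ∫ x, (errU m U x + K * (3 * DD U x + 2)) ∂(mB (2 * m + 2)) :=
        integral_mono_of_nonneg (Filter.Eventually.of_forall fun x => norm_nonneg _)
          (hI1.add hI3) h1
    _ = ∫ x, errU m U x ∂(mB (2 * m + 2)) +
        K * (3 * ∫ x, DD U x ∂(mB (2 * m + 2)) + 2 * bv (2 * m + 2)) := by
        rw [integral_add hI1 hI3, integral_const_mul,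
          integral_add (hI2.const_mul 3) (integrable_const 2), integral_const_mul, integral_const]
        have : (mB (2 * m + 2)).real univ = bv (2 * m + 2) := by
          rw [Measure.real, mB, Measure.restrict_apply_univ, bv]
        rw [this, smul_eq_mul, mul_comm (bv _) 2]
    _ ≤ C + K * (3 * ((bGZ m + 1) * bv (2 * m + 2)) + 2 * bv (2 * m + 2)) := by
        have h2 := hE U hU 1 one_pos le_rfl hD
        rw [Real.sqrt_one, mul_one] at h2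
        gcongr

end Pool.UVF
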