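import Mathlib

/-!
# MP_28fba0_gt (Gluck–Ziller problem): definitions

Unit vector fields on the unit sphere of `ℝ^d` and their volume; auxiliary objects.
-/

open MeasureTheory Real Set
open scoped ContDiff Matrix RealInnerProductSpace

namespace Pool.UVF

/-- `ℝ^d` with its Euclidean norm. -/
abbrev Eu (d : ℕ) := EuclideanSpace ℝ (Fin d)

/-- The orthogonal projection `w ↦ w - ⟪x, w⟫ x` onto `x^⊥` (used for `‖x‖ = 1`). -/
noncomputable def tproj {d : ℕ} (x : Eu d) : Eu d →L[ℝ] Eu d :=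
  ContinuousLinearMap.id ℝ (Eu d) - (innerSL ℝ x).smulRight x

/-- `V` is (an extension to `ℝ^d ∖ {0}` of) a `C¹` unit tangent vector field on the unit sphere. -/
structure IsField {d : ℕ} (V : Eu d → Eu d) : Prop where
  smooth : ContDiffOn ℝ 1 V {0}ᶜ
  norm : ∀ x, ‖x‖ = 1 → ‖V x‖ = 1
  tangent : ∀ x, ‖x‖ = 1 → ⟪x, V x⟫ = 0

/-- The covariant derivative `w ↦ ∇_w V` of the field at the point `x` of the unit sphere, as an
endomorphism of `ℝ^d`: `w ↦ π_x (DV(x) (π_x w))`, `π_x` the projection onto the tangent space.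
It kills `x` and has values in `x^⊥`. -/
noncomputable def nabla {d : ℕ} (V : Eu d → Eu d) (x : Eu d) : Eu d →L[ℝ] Eu d :=
  (tproj x) ∘L ((fderiv ℝ V x) ∘L (tproj x))

/-- The density `√det(Id + (∇V)ᵗ ∘ ∇V)` at a point `x` of the unit sphere.  (The endomorphism
`(∇V)ᵗ ∘ ∇V` of `ℝ^d` kills `x` and maps `x^⊥` to itself, so that the determinant over `ℝ^d` is the
one over the tangent space `x^⊥`.) -/
noncomputable def dens {d : ℕ} (V : Eu d → Eu d) (x : Eu d) : ℝ :=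
  √ (LinearMap.det (((1 : Eu d →L[ℝ] Eu d) +
    (ContinuousLinearMap.adjoint (nabla V x)) ∘L (nabla V x) : Eu d →L[ℝ] Eu d) : Eu d →ₗ[ℝ] Eu d))

/-- The volume of a unit vector field on the unit sphere of `ℝ^d`. -/
noncomputable def vol {d : ℕ} (V : Eu d → Eu d) : ℝ :=
  ∫ x : Metric.sphere (0 : Eu d) 1, dens V (x : Eu d) ∂((volume : Measure (Eu d)).toSphere)

/-- The area of the unit sphere of `ℝ^d`. -/
noncomputable def area (d : ℕ) : ℝ := ((volume : Measure (Eu d)).toSphere univ).toReal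

/-! ### auxiliary objects -/

/-- the open unit ball -/
def Bd (d : ℕ) : Set (Eu d) := Metric.ball 0 1

/-- Lebesgue measure on the unit ball -/
noncomputable def mB (d : ℕ) : Measure (Eu d) := volume.restrict (Bd d)

/-- the Lebesgue measure of the unit ball -/
noncomputable def bv (d : ℕ) : ℝ := (volume (Bd d)).toReal

/-- `x / ‖x‖` -/
noncomputable def hat {d : ℕ} (x : Eu d) : Eu d := (‖x‖⁻¹) • x

/-- the `1`-homogeneous extension `U(x) = ‖x‖ V(x/‖x‖)` -/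
noncomputable def Uext {d : ℕ} (V : Eu d → Eu d) (x : Eu d) : Eu d := ‖x‖ • V (hat x)

/-- Jacobian matrix: `(jac U x) j i = ∂_i U_j (x)` -/
noncomputable def jac {d : ℕ} (U : Eu d → Eu d) (x : Eu d) : Matrix (Fin d) (Fin d) ℝ :=
  Matrix.of fun j i => (fderiv ℝ U x (EuclideanSpace.single i (1 : ℝ))) j

/-- partial derivative -/
noncomputable def pd {d : ℕ} (i : Fin d) (f : Eu d → ℝ) (x : Eu d) : ℝ :=
  fderiv ℝ f x (EuclideanSpace.single i (1 : ℝ))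

/-- the constant of the Gluck–Ziller bound -/
noncomputable def bGZ (m : ℕ) : ℝ := 4 ^ m / (Nat.choose (2 * m) m : ℝ)

/-- `∫_0^π cos^{2m} t dt` -/
noncomputable def Icos (m : ℕ) : ℝ := ∫ t in (0 : ℝ)..π, (Real.cos t) ^ (2 * m)

/-- the constant of the deficit -/
noncomputable def cdef (m : ℕ) : ℝ := (Nat.choose m 2 : ℝ) * (π / 2) / 2 ^ m

/-! matrices -/

section
variable {ι : Type*} [Fintype ι] [DecidableEq ι]

/-- `G = 1 + Bᵀ B` -/
def Gm (B : Matrix ι ι ℝ) : Matrix ι ι ℝ := 1 + Bᵀ * B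

/-- `D₀ = √det(1 + Bᵀ B)` -/
noncomputable def d0 (B : Matrix ι ι ℝ) : ℝ := √ (Gm B).det

/-- `tr G⁻¹` -/
noncomputable def tG (B : Matrix ι ι ℝ) : ℝ := ((Gm B)⁻¹).trace

/-- `tr (G⁻¹ B)` -/
noncomputable def tB (B : Matrix ι ι ℝ) : ℝ := ((Gm B)⁻¹ * B).trace

end

/-- `γ` of the `N × N` block (`N = 2m`), from a `(2m+2) × (2m+2)` matrix with two more directions in
the kernel and cokernel -/
noncomputable def gam (m : ℕ) {d : ℕ} (T : Matrix (Fin d) (Fin d) ℝ) : ℝ := (tG T - 2) / (2 * m)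

/-- `κ` -/
noncomputable def kap (m : ℕ) {d : ℕ} (T : Matrix (Fin d) (Fin d) ℝ) : ℝ := tB T / (2 * m)

/-- `δ = γ (1 - γ) - κ²` -/
noncomputable def del (m : ℕ) {d : ℕ} (T : Matrix (Fin d) (Fin d) ℝ) : ℝ :=
  gam m T * (1 - gam m T) - (kap m T) ^ 2

/-- `λ = κ / γ` -/
noncomputable def lamOf (m : ℕ) {d : ℕ} (T : Matrix (Fin d) (Fin d) ℝ) : ℝ := kap m T / gam m T

/-- the model Jacobian `a₀ = λ (1 - x̂ x̂ᵀ - v vᵀ) + v x̂ᵀ - x̂ vᵀ` (here `y` stands for `x̂`) -/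
noncomputable def a0 {d : ℕ} (l : ℝ) (y v : Eu d) : Matrix (Fin d) (Fin d) ℝ :=
  Matrix.of fun j i => l * ((if j = i then 1 else 0) - y j * y i - v j * v i) + v j * y i - y j * v i

/-- the weak derivative matrix of `V = U/r`, times `r`: `c = λ (1 - x̂ x̂ᵀ - v vᵀ) - x̂ vᵀ` -/
noncomputable def c0 {d : ℕ} (l : ℝ) (y v : Eu d) : Matrix (Fin d) (Fin d) ℝ :=
  Matrix.of fun j i => l * ((if j = i then 1 else 0) - y j * y i - v j * v i) - y j * v i

/-- the abstract form of `Uext V`: `C¹` off `0`, `1`-homogeneous, `‖U x‖ = ‖x‖`, `⟪x, U x⟫ = 0` -/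
structure HomField {d : ℕ} (U : Eu d → Eu d) : Prop where
  smooth : ContDiffOn ℝ 1 U {0}ᶜ
  hom : ∀ s : ℝ, 0 ≤ s → ∀ x, U (s • x) = s • U x
  norm : ∀ x, ‖U x‖ = ‖x‖
  orth : ∀ x, ⟪x, U x⟫ = 0

/-- `v = U(x)/‖x‖` -/
noncomputable def vh {d : ℕ} (U : Eu d → Eu d) (x : Eu d) : Eu d := ‖x‖⁻¹ • U x

/-- `A = a - v x̂ᵀ + x̂ vᵀ`, the matrix of the covariant derivative -/
noncomputable def Am {d : ℕ} (U : Eu d → Eu d) (x : Eu d) : Matrix (Fin d) (Fin d) ℝ :=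
  jac U x - Matrix.vecMulVec (vh U x).ofLp (hat x).ofLp
    + Matrix.vecMulVec (hat x).ofLp (vh U x).ofLp

/-- `T = A (1 - v vᵀ)` -/
noncomputable def Tm {d : ℕ} (U : Eu d → Eu d) (x : Eu d) : Matrix (Fin d) (Fin d) ℝ :=
  Am U x * (1 - Matrix.vecMulVec (vh U x).ofLp (vh U x).ofLp)

/-- the density `D = √det(1 + Aᵀ A)` -/
noncomputable def DD {d : ℕ} (U : Eu d → Eu d) (x : Eu d) : ℝ := √ (1 + (Am U x)ᵀ * Am U x).det

/-- test functions in the punctured unit ball -/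
structure IsTest {d : ℕ} (φ : Eu d → ℝ) : Prop where
  smooth : ContDiff ℝ ∞ φ
  cpt : HasCompactSupport φ
  supp : tsupport φ ⊆ Bd d \ {0}

/-- the vector field `X` on the unit ball has weak divergence `ρ` in the punctured ball -/
def HasWDiv {d : ℕ} (X : Fin d → Eu d → ℝ) (ρ : Eu d → ℝ) : Prop :=
  ∀ φ : Eu d → ℝ, IsTest φ →
    ∫ x, (∑ j, X j x * pd j φ x) ∂(mB d) = - ∫ x, ρ x * φ x ∂(mB d)

/-- `f` has weak gradient `g` in the punctured ball -/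
def HasWGrad {d : ℕ} (f : Eu d → ℝ) (g : Fin d → Eu d → ℝ) : Prop :=
  ∀ φ : Eu d → ℝ, IsTest φ → ∀ i,
    ∫ x, f x * pd i φ x ∂(mB d) = - ∫ x, g i x * φ x ∂(mB d)

/-- `g` is integrable on the unit ball away from the origin -/
def LocL1 {d : ℕ} (g : Eu d → ℝ) : Prop :=
  ∀ r₀ : ℝ, 0 < r₀ → IntegrableOn g {x | r₀ ≤ ‖x‖} (mB d)

/-- `g` is square integrable on the unit ball away from the origin -/
def LocL2 {d : ℕ} (g : Eu d → ℝ) : Prop :=
  AEStronglyMeasurable g (mB d) ∧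
  ∀ r₀ : ℝ, 0 < r₀ → IntegrableOn (fun x => g x ^ 2) {x | r₀ ≤ ‖x‖} (mB d)

/-- the error `∑ |a - a₀|` -/
noncomputable def errU (m : ℕ) {d : ℕ} (U : Eu d → Eu d) (x : Eu d) : ℝ :=
  ∑ j, ∑ i, |jac U x j i - a0 (lamOf m (Tm U x)) (hat x) (vh U x) j i|

/-- a minimizing sequence for the bound, converging in the weak sense -/
structure ConvData (m : ℕ) (U : ℕ → Eu (2 * m + 2) → Eu (2 * m + 2))
    (V : Eu (2 * m + 2) → Eu (2 * m + 2)) (lam : Eu (2 * m + 2) → ℝ) : Prop where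
  hU : ∀ k, HomField (U k)
  hD : ∀ k, ∫ x, DD (U k) x ∂(mB (2 * m + 2)) ≤ (bGZ m + 1 / ((k : ℝ) + 1)) * bv (2 * m + 2)
  mV : Measurable V
  mlam : Measurable lam
  l2 : Integrable (fun x => lam x ^ 2) (mB (2 * m + 2))
  aeV : ∀ᵐ x ∂(mB (2 * m + 2)), Filter.Tendsto (fun k => vh (U k) x) Filter.atTop (nhds (V x))
  weak : ∀ h : Eu (2 * m + 2) → ℝ, MemLp h 2 (mB (2 * m + 2)) →
    Filter.Tendsto (fun k => ∫ x, lamOf m (Tm (U k) x) * h x ∂(mB (2 * m + 2))) Filter.atTop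
      (nhds (∫ x, lam x * h x ∂(mB (2 * m + 2))))
  err : Filter.Tendsto (fun k => ∫ x, errU m (U k) x ∂(mB (2 * m + 2))) Filter.atTop (nhds 0)
  aeErr : ∀ᵐ x ∂(mB (2 * m + 2)), Filter.Tendsto (fun k => errU m (U k) x) Filter.atTop (nhds 0)

/-- the data of the limit: a unit field `V` and `λ` with `∇V = λ (1 - V ⊗ V)` in the weak sense -/
structure LimitData {d : ℕ} (V : Eu d → Eu d) (lam : Eu d → ℝ) : Prop where
  mV : Measurable V
  mlam : Measurable lam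
  unit : ∀ᵐ x ∂(mB d), ‖V x‖ = 1 ∧ ⟪x, V x⟫ = 0
  l2 : Integrable (fun x => lam x ^ 2) (mB d)
  grad : ∀ j, HasWGrad (fun x => ‖x‖ * V x j) (fun i x => a0 (lam x) (hat x) (V x) j i)
  rad : ∀ φ : Eu d → ℝ, IsTest φ →
    ∫ x, lam x * fderiv ℝ φ x x ∂(mB d) = - (d : ℝ) * ∫ x, lam x * φ x ∂(mB d)

end Pool.UVF
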