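import Pool.Agent.Lib.MP_28fba0_gt.UV.Defs

/-!
# UV-GBasicA (part of GBasic): the matrix `G = 1 + Bᵀ B`

* `Gm B` is positive definite, `det ≥ 1` (all eigenvalues are `≥ 1`; or
  `Matrix.PosSemidef` of `Gm B - 1`; or `det (1 + Bᵀ B) = ∑ of squares of minors`).
* `(Gm B)⁻¹ * (Bᵀ * B) = 1 - (Gm B)⁻¹`, so its trace is `n - tr G⁻¹`; both traces are `≥ 0`
  (`tr (G⁻¹ Bᵀ B) = tr (B G⁻¹ Bᵀ)`, positive semidefinite), `tr G⁻¹ > 0`.
* `(tr (G⁻¹ B))² ≤ tr G⁻¹ · tr (G⁻¹ Bᵀ B)`: for every real `s`,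
  `0 ≤ tr ((B - s) G⁻¹ (B - s)ᵀ) = tr (G⁻¹ Bᵀ B) - 2 s tr (G⁻¹ B) + s² tr G⁻¹`
  (`tr (G⁻¹ Bᵀ) = tr (B G⁻¹) = tr (G⁻¹ B)` because `G⁻¹` is symmetric); take
  `s = tr (G⁻¹ B) / tr G⁻¹`.
-/

open Matrix

namespace Pool.UVF

variable {ι : Type*} [Fintype ι] [DecidableEq ι]

omit [DecidableEq ι] in
private theorem btb_posSemidef (B : Matrix ι ι ℝ) : (Bᵀ * B).PosSemidef := by
  have h := Matrix.posSemidef_conjTranspose_mul_self B
  simpa [Matrix.conjTranspose_eq_transpose_of_trivial] using h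

theorem Gm_posDef (B : Matrix ι ι ℝ) : (Gm B).PosDef := by
  unfold Gm
  exact Matrix.PosDef.one.add_posSemidef (btb_posSemidef B)

theorem one_le_det_Gm (B : Matrix ι ι ℝ) : 1 ≤ (Gm B).det := by
  have hH : (Gm B).IsHermitian := (Gm_posDef B).isHermitian
  rw [hH.det_eq_prod_eigenvalues]
  have hev : ∀ i, 1 ≤ hH.eigenvalues i := by
    intro i
    have hmul := hH.mulVec_eigenvectorBasis i
    set w : ι → ℝ := ⇑(hH.eigenvectorBasis i) with hw
    have hnorm : w ⬝ᵥ w = 1 := by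
      have h1 : ‖hH.eigenvectorBasis i‖ = 1 := hH.eigenvectorBasis.orthonormal.1 i
      have h2 := EuclideanSpace.real_norm_sq_eq (hH.eigenvectorBasis i)
      rw [h1, one_pow] at h2
      rw [h2]
      simp only [dotProduct, hw]
      exact Finset.sum_congr rfl fun j _ => (sq _).symm
    have hdot : w ⬝ᵥ (Gm B *ᵥ w) = hH.eigenvalues i := by
      rw [hmul, dotProduct_smul, hnorm, smul_eq_mul, mul_one]
    have hdot2 : w ⬝ᵥ (Gm B *ᵥ w) = 1 + (B *ᵥ w) ⬝ᵥ (B *ᵥ w) := by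
      rw [Gm, Matrix.add_mulVec, Matrix.one_mulVec, dotProduct_add, hnorm, ← Matrix.mulVec_mulVec,
        Matrix.dotProduct_mulVec, Matrix.vecMul_transpose]
    rw [← hdot, hdot2]
    have : 0 ≤ (B *ᵥ w) ⬝ᵥ (B *ᵥ w) :=
      Finset.sum_nonneg fun j _ => mul_self_nonneg _
    linarith
  have := Finset.prod_le_prod (s := Finset.univ) (f := fun _ : ι => (1:ℝ))
    (g := fun i => hH.eigenvalues i) (fun _ _ => zero_le_one) (fun i _ => hev i)
  simpa using this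

theorem one_le_d0 (B : Matrix ι ι ℝ) : 1 ≤ d0 B := by
  unfold d0
  rw [Real.one_le_sqrt]
  exact one_le_det_Gm B

theorem d0_sq (B : Matrix ι ι ℝ) : (d0 B) ^ 2 = (Gm B).det := by
  unfold d0
  exact Real.sq_sqrt (zero_le_one.trans (one_le_det_Gm B))

theorem tG_pos [Nonempty ι] (B : Matrix ι ι ℝ) : 0 < tG B := by
  unfold tG
  exact (Gm_posDef B).inv.trace_pos

end Pool.UVF
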