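import Pool.Agent.Lib.MP_28fba0_gt.UV.Defs
import Pool.Agent.Lib.MP_28fba0_gt.UV.GBasicA

/-!
# UV-GBasicB (part of GBasic): the matrix `G = 1 + Bᵀ B`

* `Gm B` is positive definite, `det ≥ 1` (all eigenvalues are `≥ 1`; or
  `Matrix.PosSemidef` of `Gm B - 1`; or `det (1 + Bᵀ B) = ∑ of squares of minors`).
* `(Gm B)⁻¹ * (Bᵀ * B) = 1 - (Gm B)⁻¹`, so its trace is `n - tr G⁻¹`; both traces are `≥ 0`
  (`tr (G⁻¹ Bᵀ B) = tr (B G⁻¹ Bᵀ)`, positive semidefinite), `tr G⁻¹ > 0`.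
* `(tr (G⁻¹ B))² ≤ tr G⁻¹ · tr (G⁻¹ Bᵀ B)`: for every real `s`,
  `0 ≤ tr ((B - s) G⁻¹ (B - s)ᵀ) = tr (G⁻¹ Bᵀ B) - 2 s tr (G⁻¹ B) + s² tr G⁻¹`
  (`tr (G⁻¹ Bᵀ) = tr (B G⁻¹) = tr (G⁻¹ B)` because `G⁻¹` is symmetric); take
  `s = tr (G⁻¹ B) / tr G⁻¹`.
-/

open Matrix

namespace Pool.UVF

variable {ι : Type*} [Fintype ι] [DecidableEq ι]

private theorem isUnit_det_Gm (B : Matrix ι ι ℝ) : IsUnit (Gm B).det :=
  (zero_lt_one.trans_le (one_le_det_Gm B)).ne'.isUnit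

private theorem Gm_transpose (B : Matrix ι ι ℝ) : (Gm B)ᵀ = Gm B := by
  simp [Gm, Matrix.transpose_mul]

private theorem Gm_inv_transpose (B : Matrix ι ι ℝ) : ((Gm B)⁻¹)ᵀ = (Gm B)⁻¹ := by
  rw [Matrix.transpose_nonsing_inv, Gm_transpose]

private theorem inv_posSemidef (B : Matrix ι ι ℝ) : ((Gm B)⁻¹).PosSemidef :=
  (Gm_posDef B).inv.posSemidef

private theorem trace_conj_nonneg (B A : Matrix ι ι ℝ) : 0 ≤ (A * (Gm B)⁻¹ * Aᵀ).trace := by
  have h := (inv_posSemidef B).mul_mul_conjTranspose_same A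
  rw [Matrix.conjTranspose_eq_transpose_of_trivial] at h
  exact h.trace_nonneg

theorem trace_inv_mul_BtB (B : Matrix ι ι ℝ) :
    ((Gm B)⁻¹ * (Bᵀ * B)).trace = (Fintype.card ι : ℝ) - tG B := by
  have h : Bᵀ * B = Gm B - 1 := by simp [Gm]
  rw [h, Matrix.mul_sub, Matrix.nonsing_inv_mul _ (isUnit_det_Gm B), Matrix.mul_one,
    Matrix.trace_sub, Matrix.trace_one, tG]

private theorem trace_BGB (B : Matrix ι ι ℝ) :
    (B * (Gm B)⁻¹ * Bᵀ).trace = (Fintype.card ι : ℝ) - tG B := by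
  rw [← trace_inv_mul_BtB, Matrix.mul_assoc, Matrix.trace_mul_comm, Matrix.mul_assoc]

theorem tG_le (B : Matrix ι ι ℝ) : tG B ≤ (Fintype.card ι : ℝ) := by
  have h := trace_conj_nonneg B B
  rw [trace_BGB] at h
  linarith

/-- `tr ((B - s) G⁻¹ (B - s)ᵀ)` -/
theorem trace_shift (B : Matrix ι ι ℝ) (s : ℝ) :
    ((B - s • (1 : Matrix ι ι ℝ)) * (Gm B)⁻¹ * (B - s • (1 : Matrix ι ι ℝ))ᵀ).trace
      = ((Fintype.card ι : ℝ) - tG B) - 2 * s * tB B + s ^ 2 * tG B := by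
  have h1 : (B * (Gm B)⁻¹).trace = tB B := by rw [Matrix.trace_mul_comm, tB]
  have h2 : ((Gm B)⁻¹ * Bᵀ).trace = tB B := by
    rw [← Matrix.trace_transpose, Matrix.transpose_mul, Matrix.transpose_transpose,
      Gm_inv_transpose, h1]
  rw [Matrix.transpose_sub, Matrix.transpose_smul, Matrix.transpose_one, Matrix.sub_mul,
    Matrix.mul_sub, Matrix.sub_mul, Matrix.sub_mul, Matrix.smul_mul, Matrix.one_mul,
    Matrix.mul_smul, Matrix.mul_one, Matrix.smul_mul, Matrix.mul_smul, Matrix.mul_one,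
    Matrix.trace_sub, Matrix.trace_sub, Matrix.trace_sub, Matrix.trace_smul, Matrix.trace_smul,
    Matrix.trace_smul, Matrix.trace_smul, trace_BGB, h1, h2]
  simp only [smul_eq_mul, tG]
  ring

theorem tB_sq_le (B : Matrix ι ι ℝ) :
    (tB B) ^ 2 ≤ tG B * ((Fintype.card ι : ℝ) - tG B) := by
  rcases isEmpty_or_nonempty ι with h | h
  · simp [tB, tG, Matrix.trace]
  · have hG := tG_pos B
    have h0 := trace_conj_nonneg B (B - (tB B / tG B) • (1 : Matrix ι ι ℝ))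
    rw [trace_shift] at h0
    have h1 : tG B * ((Fintype.card ι : ℝ) - tG B) - tB B ^ 2
        = tG B * (((Fintype.card ι : ℝ) - tG B) - 2 * (tB B / tG B) * tB B
          + (tB B / tG B) ^ 2 * tG B) := by
      field_simp
      ring
    have h2 := mul_nonneg hG.le h0
    rw [← h1] at h2
    linarith

end Pool.UVF
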