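import Pool.Agent.Lib.MP_28fba0_gt.UV.Defs
import Pool.Agent.Lib.MP_28fba0_gt.UV.GBasicA

/-!
# UV-GCont (part of GBasic): the matrix `G = 1 + Bᵀ B`

* `Gm B` is positive definite, `det ≥ 1` (all eigenvalues are `≥ 1`; or
  `Matrix.PosSemidef` of `Gm B - 1`; or `det (1 + Bᵀ B) = ∑ of squares of minors`).
* `(Gm B)⁻¹ * (Bᵀ * B) = 1 - (Gm B)⁻¹`, so its trace is `n - tr G⁻¹`; both traces are `≥ 0`
  (`tr (G⁻¹ Bᵀ B) = tr (B G⁻¹ Bᵀ)`, positive semidefinite), `tr G⁻¹ > 0`.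
* `(tr (G⁻¹ B))² ≤ tr G⁻¹ · tr (G⁻¹ Bᵀ B)`: for every real `s`,
  `0 ≤ tr ((B - s) G⁻¹ (B - s)ᵀ) = tr (G⁻¹ Bᵀ B) - 2 s tr (G⁻¹ B) + s² tr G⁻¹`
  (`tr (G⁻¹ Bᵀ) = tr (B G⁻¹) = tr (G⁻¹ B)` because `G⁻¹` is symmetric); take
  `s = tr (G⁻¹ B) / tr G⁻¹`.
-/

open Matrix

namespace Pool.UVF

variable {ι : Type*} [Fintype ι] [DecidableEq ι]

private theorem continuous_Gm : Continuous (Gm : Matrix ι ι ℝ → Matrix ι ι ℝ) := by
  unfold Gm
  exact Continuous.add (continuous_const (y := (1 : Matrix ι ι ℝ)))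
    (Continuous.matrix_mul (Continuous.matrix_transpose continuous_id) continuous_id)

private theorem continuous_inv : Continuous (fun B : Matrix ι ι ℝ => (Gm B)⁻¹) := by
  have h : (fun B : Matrix ι ι ℝ => (Gm B)⁻¹) =
      fun B => ((Gm B).det)⁻¹ • (Gm B).adjugate := by
    funext B
    rw [Matrix.inv_def, Ring.inverse_eq_inv']
  rw [h]
  have h1 : Continuous fun B : Matrix ι ι ℝ => ((Gm B).det)⁻¹ := by
    refine Continuous.inv₀ (Continuous.matrix_det continuous_Gm) fun B => ?_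
    have := one_le_det_Gm B
    linarith
  exact h1.smul (Continuous.matrix_adjugate continuous_Gm)

/-- continuity of the three functions (the inverse is `(det G)⁻¹ • adjugate G`, `det G ≥ 1`) -/
theorem continuous_d0 : Continuous (d0 : Matrix ι ι ℝ → ℝ) := by
  unfold d0
  exact Real.continuous_sqrt.comp continuous_Gm.matrix_det

theorem continuous_tG : Continuous (tG : Matrix ι ι ℝ → ℝ) := by
  unfold tG
  exact continuous_inv.matrix_trace

theorem continuous_tB : Continuous (tB : Matrix ι ι ℝ → ℝ) := by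
  unfold tB
  exact (continuous_inv.matrix_mul continuous_id).matrix_trace

end Pool.UVF
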