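import Pool.Agent.Lib.MP_28fba0_gt.UV.AMGM
import Pool.Agent.Lib.MP_28fba0_gt.UV.GBasic

/-!
# UV-DetBound: `|det (cos t + sin t B)| ≤ D₀ (γ cos² + 2κ sin cos + (1-γ) sin²)^m`

`card ι = 2m`, `γ = tr G⁻¹ / 2m`, `κ = tr (G⁻¹ B) / 2m`.

Proof.  `M = cos t • 1 + sin t • B`.  `M G⁻¹ Mᵀ` is positive semidefinite, its determinant is
`det(M)² / det G`, its trace is `cos² tr G⁻¹ + 2 sin cos tr (G⁻¹ B) + sin² (2m - tr G⁻¹)` (expand;
`tr (B G⁻¹) = tr (G⁻¹ B)`, `tr (G⁻¹ Bᵀ) = tr (G⁻¹ B)`, `tr (B G⁻¹ Bᵀ) = tr (G⁻¹ Bᵀ B)`).  By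
`det_le_trace_pow`: `det(M)² / det G ≤ q^{2m}`, `q = γ cos² + 2κ sin cos + (1-γ) sin² ≥ 0`
(a trace of a positive semidefinite matrix).  Take square roots.
-/

open Matrix

namespace Pool.UVF

variable {ι : Type*} [Fintype ι] [DecidableEq ι]

private theorem detBound_trace (B : Matrix ι ι ℝ) (c s : ℝ) :
    ((c • (1 : Matrix ι ι ℝ) + s • B) * (Gm B)⁻¹ * (c • (1 : Matrix ι ι ℝ) + s • B)ᵀ).trace
      = c ^ 2 * tG B + 2 * s * c * tB B + s ^ 2 * ((Fintype.card ι : ℝ) - tG B) := by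
  have hsymm : ((Gm B)⁻¹)ᵀ = (Gm B)⁻¹ := by
    have h := (Gm_posDef B).inv.isHermitian
    have h2 : ((Gm B)⁻¹)ᴴ = (Gm B)⁻¹ := h
    rwa [Matrix.conjTranspose_eq_transpose_of_trivial] at h2
  have h1 : (B * (Gm B)⁻¹).trace = tB B := by
    rw [Matrix.trace_mul_comm]; rfl
  have h2 : ((Gm B)⁻¹ * Bᵀ).trace = tB B := by
    rw [← h1, ← Matrix.trace_transpose (B * (Gm B)⁻¹), Matrix.transpose_mul, hsymm]
  have h3 : (B * (Gm B)⁻¹ * Bᵀ).trace = (Fintype.card ι : ℝ) - tG B := by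
    rw [← trace_inv_mul_BtB, Matrix.mul_assoc, Matrix.trace_mul_comm, Matrix.mul_assoc]
  have h0 : ((Gm B)⁻¹).trace = tG B := rfl
  have hexp : (c • (1 : Matrix ι ι ℝ) + s • B) * (Gm B)⁻¹ * (c • (1 : Matrix ι ι ℝ) + s • B)ᵀ
      = (c * c) • (Gm B)⁻¹ + (c * s) • (B * (Gm B)⁻¹) + (s * c) • ((Gm B)⁻¹ * Bᵀ)
        + (s * s) • (B * (Gm B)⁻¹ * Bᵀ) := by
    simp only [Matrix.transpose_add, Matrix.transpose_smul, Matrix.transpose_one,
      Matrix.add_mul, Matrix.mul_add, Matrix.smul_mul, Matrix.mul_smul, Matrix.one_mul,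
      Matrix.mul_one, smul_smul, smul_add]
    abel
  rw [hexp]
  simp only [Matrix.trace_add, Matrix.trace_smul, smul_eq_mul, h0, h1, h2, h3]
  ring

theorem abs_det_le (m : ℕ) (hm : 1 ≤ m) (hc : Fintype.card ι = 2 * m) (B : Matrix ι ι ℝ) (t : ℝ) :
    |(Real.cos t • (1 : Matrix ι ι ℝ) + Real.sin t • B).det| ≤
      d0 B * ((tG B / (2 * m)) * (Real.cos t) ^ 2
        + 2 * (tB B / (2 * m)) * Real.sin t * Real.cos t
        + (1 - tG B / (2 * m)) * (Real.sin t) ^ 2) ^ m := by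
  have : Nonempty ι := by
    rw [← Fintype.card_pos_iff, hc]; omega
  set c := Real.cos t with hcdef
  set s := Real.sin t with hsdef
  set M : Matrix ι ι ℝ := c • (1 : Matrix ι ι ℝ) + s • B with hM
  set q : ℝ := (tG B / (2 * m)) * c ^ 2 + 2 * (tB B / (2 * m)) * s * c
        + (1 - tG B / (2 * m)) * s ^ 2 with hq
  have hmpos : (0 : ℝ) < m := by exact_mod_cast hm
  have hP : (M * (Gm B)⁻¹ * Mᵀ).PosSemidef := by
    have h := (Gm_posDef B).inv.posSemidef.mul_mul_conjTranspose_same M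
    rwa [Matrix.conjTranspose_eq_transpose_of_trivial] at h
  have htr : (M * (Gm B)⁻¹ * Mᵀ).trace / (Fintype.card ι : ℝ) = q := by
    rw [hM, detBound_trace B c s, hc, hq]
    push_cast
    field_simp
  have hq0 : 0 ≤ q := by
    rw [← htr]
    exact div_nonneg hP.trace_nonneg (Nat.cast_nonneg _)
  have hdetG : 1 ≤ (Gm B).det := one_le_det_Gm B
  have hdetGpos : 0 < (Gm B).det := lt_of_lt_of_le one_pos hdetG
  have hdet : (M * (Gm B)⁻¹ * Mᵀ).det = M.det ^ 2 / (Gm B).det := by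
    rw [Matrix.det_mul, Matrix.det_mul, Matrix.det_transpose, Matrix.det_nonsing_inv,
      Ring.inverse_eq_inv']
    field_simp
  have hmain := det_le_trace_pow _ hP
  rw [htr, hdet, hc, div_le_iff₀ hdetGpos] at hmain
  have h2 : M.det ^ 2 ≤ (d0 B * q ^ m) ^ 2 := by
    calc M.det ^ 2 ≤ q ^ (2 * m) * (Gm B).det := hmain
      _ = (d0 B * q ^ m) ^ 2 := by
          rw [mul_pow, d0_sq, ← pow_mul, mul_comm m 2]; ring
  have h3 : 0 ≤ d0 B * q ^ m := mul_nonneg (by have := one_le_d0 B; linarith) (pow_nonneg hq0 m)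
  exact abs_le_of_sq_le_sq h2 h3

/-- the case `t = π/2` gives `|det B| ≤ D₀` (`0 ≤ 1 - γ ≤ 1`) -/
theorem abs_det_le_d0 (m : ℕ) (hm : 1 ≤ m) (hc : Fintype.card ι = 2 * m) (B : Matrix ι ι ℝ) :
    |B.det| ≤ d0 B := by
  have : Nonempty ι := by
    rw [← Fintype.card_pos_iff, hc]; omega
  have hmpos : (0 : ℝ) < m := by exact_mod_cast hm
  have h := abs_det_le m hm hc B (Real.pi / 2)
  simp only [Real.cos_pi_div_two, Real.sin_pi_div_two, zero_smul, one_smul, zero_add] at h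
  refine h.trans ?_
  have h1 : tG B / (2 * m) ≤ 1 := by
    rw [div_le_one (by positivity)]
    have := tG_le B
    rw [hc] at this
    push_cast at this
    exact this
  have h2 : 0 ≤ tG B / (2 * m) := div_nonneg (tG_pos B).le (by positivity)
  have h3 : (tG B / (2 * m) * 0 ^ 2 + 2 * (tB B / (2 * m)) * 1 * 0
      + (1 - tG B / (2 * m)) * 1 ^ 2) ^ m ≤ 1 := by
    apply pow_le_one₀
    · nlinarith
    · nlinarith
  have h4 : 0 ≤ d0 B := by have := one_le_d0 B; linarith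
  calc d0 B * _ ≤ d0 B * 1 := mul_le_mul_of_nonneg_left h3 h4
    _ = d0 B := mul_one _

end Pool.UVF
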