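import Pool.Agent.Lib.MP_28fba0_gt.UV.StrongLam
import Pool.Agent.Lib.MP_28fba0_gt.UV.Poly
import Pool.Agent.Lib.MP_28fba0_gt.UV.Alg

/-!
# UV-DetLimit: passing to the limit in `∫ det(jac U_k) • U_k = 0`

Along the subsequence `ψ` of `ConvData.strong`: a.e. `λ_k → lam`, `vh (U k) → V`, `errU → 0`, so
`jac (U k) x → a0 (lam x) (hat x) (V x)` entrywise, and `det` is continuous:
`det (jac (U k) x) → lam^{2m}` (`det_a0`); `U k x = ‖x‖ • vh (U k) x → ‖x‖ • V x`.
`‖det(jac U_k) • U_k‖ ≤ |det| ‖x‖ ≤ D_k` on the ball (`abs_det_jac_le`), `D_k → Ψ(lam)` in `L¹`.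
Generalised dominated convergence: on `{D_k ≤ 2Ψ + 1}` dominated by `2Ψ+1`; on `{D_k > 2Ψ+1}`,
`D_k ≤ 2 |D_k - Ψ|`.  Hence `∫ lam^{2m} • (‖x‖ • V) = lim ∫ det • U_k = 0` (`HomField.int_det_smul`).
-/

open Matrix Real Set MeasureTheory Filter Topology

namespace Pool.UVF

variable {m : ℕ} {U : ℕ → Eu (2 * m + 2) → Eu (2 * m + 2)} {V : Eu (2 * m + 2) → Eu (2 * m + 2)}
  {lam : Eu (2 * m + 2) → ℝ}

private theorem detLimit_err_le (m : ℕ) {d : ℕ} (U : Eu d → Eu d) (x : Eu d) (j i : Fin d) :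
    |jac U x j i - a0 (lamOf m (Tm U x)) (hat x) (vh U x) j i| ≤ errU m U x := by
  unfold errU
  refine le_trans ?_ (Finset.single_le_sum (f := fun j => ∑ i, |jac U x j i -
    a0 (lamOf m (Tm U x)) (hat x) (vh U x) j i|)
    (fun j _ => Finset.sum_nonneg fun i _ => abs_nonneg _) (Finset.mem_univ j))
  exact Finset.single_le_sum (f := fun i => |jac U x j i -
    a0 (lamOf m (Tm U x)) (hat x) (vh U x) j i|) (fun i _ => abs_nonneg _) (Finset.mem_univ i)

private theorem detLimit_a0_tendsto {d : ℕ} {l : ℕ → ℝ} {l0 : ℝ} {v : ℕ → Eu d} {v0 : Eu d}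
    (y : Eu d) (hl : Tendsto l atTop (𝓝 l0)) (hv : Tendsto v atTop (𝓝 v0)) (j i : Fin d) :
    Tendsto (fun k => a0 (l k) y (v k) j i) atTop (𝓝 (a0 l0 y v0 j i)) := by
  have h1 : ∀ j, Tendsto (fun k => v k j) atTop (𝓝 (v0 j)) := by
    intro j
    have hc : Continuous (fun w : Eu d => w j) := by fun_prop
    exact (hc.tendsto v0).comp hv
  unfold a0
  simp only [Matrix.of_apply]
  exact ((hl.mul ((tendsto_const_nhds.sub (tendsto_const_nhds)).sub ((h1 j).mul (h1 i)))).add
    ((h1 j).mul_const _)).sub ((h1 i).const_mul _)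

private theorem detLimit_norm_vh {d : ℕ} {U : Eu d → Eu d} (hU : HomField U) {x : Eu d}
    (hx : x ≠ 0) : ‖vh U x‖ = 1 ∧ inner ℝ (hat x) (vh U x) = 0 := by
  have h0 : ‖x‖ ≠ 0 := norm_ne_zero_iff.2 hx
  constructor
  · unfold vh
    rw [norm_smul, norm_inv, norm_norm, hU.norm, inv_mul_cancel₀ h0]
  · unfold vh hat
    rw [inner_smul_left, inner_smul_right, hU.orth]
    simp

theorem ConvData.limit_det (hm : 2 ≤ m) (h : ConvData m U V lam)
    (hI : Integrable (fun x => (1 + lam x ^ 2) ^ m) (mB (2 * m + 2)))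
    (hE : ∫ x, (1 + lam x ^ 2) ^ m ∂(mB (2 * m + 2)) = bGZ m * bv (2 * m + 2)) :
    Integrable (fun x => (lam x ^ (2 * m)) • (‖x‖ • V x)) (mB (2 * m + 2)) ∧
    ∫ x, (lam x ^ (2 * m)) • (‖x‖ • V x) ∂(mB (2 * m + 2)) = 0 := by
  obtain ⟨ψ, hψ, hlam, hD⟩ := h.strong hm hI hE
  set μ : Measure (Eu (2 * m + 2)) := mB (2 * m + 2) with hμ
  have hfinB : IsFiniteMeasure μ :=
    ⟨by rw [hμ, mB, Measure.restrict_apply_univ]; exact measure_ball_lt_top⟩
  have hne : ∀ᵐ x ∂μ, x ≠ 0 := by
    have h1 : ∀ᵐ x : Eu (2 * m + 2), x ≠ 0 := by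
      have : ({0} : Set (Eu (2 * m + 2)))ᶜ ∈ ae (volume : Measure (Eu (2 * m + 2))) :=
        compl_mem_ae_iff.2 (measure_singleton 0)
      exact this
    exact ae_restrict_of_ae h1
  have hball : ∀ᵐ x ∂μ, ‖x‖ ≤ 1 := by
    rw [hμ, mB, Bd]
    filter_upwards [ae_restrict_mem (μ := volume) (measurableSet_ball
      (x := (0 : Eu (2 * m + 2))) (ε := 1))] with x hx
    rw [Metric.mem_ball, dist_zero_right] at hx
    exact hx.le
  set fk : ℕ → Eu (2 * m + 2) → Eu (2 * m + 2) :=
    fun k x => (jac (U (ψ k)) x).det • U (ψ k) x with hfk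
  set f : Eu (2 * m + 2) → Eu (2 * m + 2) := fun x => (lam x ^ (2 * m)) • (‖x‖ • V x) with hf
  set Ps : Eu (2 * m + 2) → ℝ := fun x => (1 + lam x ^ 2) ^ m with hPs
  -- measurability
  have hmk : ∀ k, AEStronglyMeasurable (fk k) μ := by
    intro k
    have h1 : ContinuousOn (fk k) {0}ᶜ := by
      have h2 := (h.hU (ψ k)).jac_continuousOn
      have h3 : ContinuousOn (fun x => (jac (U (ψ k)) x).det) {0}ᶜ :=
        (continuous_id.matrix_det).comp_continuousOn h2
      exact h3.smul (h.hU (ψ k)).continuous.continuousOn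
    have h4 := h1.aestronglyMeasurable (μ := volume)
      (measurableSet_singleton (0 : Eu (2 * m + 2))).compl
    rw [restrict_compl_singleton] at h4
    exact h4.mono_measure Measure.restrict_le_self
  -- the unit vector field of the limit
  have hV : ∀ᵐ x ∂μ, ‖V x‖ = 1 ∧ inner ℝ (hat x) (V x) = 0 := by
    filter_upwards [h.aeV, hne] with x hx h0
    constructor
    · have h1 := hx.norm
      have h2 : (fun k => ‖vh (U k) x‖) = fun _ => (1 : ℝ) := by
        ext k
        exact (detLimit_norm_vh (h.hU k) h0).1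
      rw [h2] at h1
      exact (tendsto_nhds_unique h1 tendsto_const_nhds)
    · have h1 : Tendsto (fun k => inner ℝ (hat x) (vh (U k) x)) atTop
          (𝓝 (inner ℝ (hat x) (V x))) := Tendsto.inner tendsto_const_nhds hx
      have h2 : (fun k => inner ℝ (hat x) (vh (U k) x)) = fun _ => (0 : ℝ) := by
        ext k
        exact (detLimit_norm_vh (h.hU k) h0).2
      rw [h2] at h1
      exact (tendsto_nhds_unique h1 tendsto_const_nhds)
  -- a.e. convergence
  have hae : ∀ᵐ x ∂μ, Tendsto (fun k => fk k x) atTop (𝓝 (f x)) := by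
    filter_upwards [h.aeV, h.aeErr, hlam, hne, hV] with x h1 h2 h3 h0 h4
    have h1' := h1.comp hψ.tendsto_atTop
    have h2' := h2.comp hψ.tendsto_atTop
    have hhat : ‖hat x‖ = 1 := by
      unfold hat
      rw [norm_smul, norm_inv, norm_norm, inv_mul_cancel₀ (norm_ne_zero_iff.2 h0)]
    have hjac : Tendsto (fun k => jac (U (ψ k)) x) atTop (𝓝 (a0 (lam x) (hat x) (V x))) := by
      refine tendsto_pi_nhds.2 fun j => tendsto_pi_nhds.2 fun i => ?_
      have h5 := detLimit_a0_tendsto (hat x) h3 h1' j i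
      have h6 : Tendsto (fun k => jac (U (ψ k)) x j i -
          a0 (lamOf m (Tm (U (ψ k)) x)) (hat x) (vh (U (ψ k)) x) j i) atTop (𝓝 0) := by
        refine squeeze_zero_norm (fun k => ?_) h2'
        rw [Real.norm_eq_abs]
        exact detLimit_err_le m (U (ψ k)) x j i
      have h7 := h6.add h5
      rw [zero_add] at h7
      refine h7.congr fun k => ?_
      simp
    have hdet : Tendsto (fun k => (jac (U (ψ k)) x).det) atTop (𝓝 (lam x ^ (2 * m))) := by
      have h8 := ((continuous_id.matrix_det (A := fun A : Matrix (Fin (2 * m + 2))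
        (Fin (2 * m + 2)) ℝ => A)).tendsto (a0 (lam x) (hat x) (V x))).comp hjac
      rw [← det_a0 hhat h4.1 h4.2 (lam x)]
      exact h8
    have hU' : Tendsto (fun k => U (ψ k) x) atTop (𝓝 (‖x‖ • V x)) := by
      have h9 := h1'.const_smul ‖x‖
      refine h9.congr fun k => ?_
      simp only [Function.comp, vh, smul_smul]
      rw [mul_inv_cancel₀ (norm_ne_zero_iff.2 h0), one_smul]
    exact hdet.smul hU'
  -- bounds
  have hbk : ∀ k, ∀ᵐ x ∂μ, ‖fk k x‖ ≤ DD (U (ψ k)) x := by
    intro k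
    filter_upwards [hne, hball] with x h0 h1
    rw [hfk]
    simp only
    rw [norm_smul, (h.hU (ψ k)).norm, Real.norm_eq_abs]
    calc |(jac (U (ψ k)) x).det| * ‖x‖ ≤ |(jac (U (ψ k)) x).det| * 1 :=
          mul_le_mul_of_nonneg_left h1 (abs_nonneg _)
      _ = |(jac (U (ψ k)) x).det| := mul_one _
      _ ≤ _ := (h.hU (ψ k)).abs_det_jac_le hm h0
  have hb : ∀ᵐ x ∂μ, ‖f x‖ ≤ Ps x := by
    filter_upwards [hball, hV] with x h1 h2
    rw [hf]
    simp only
    rw [norm_smul, norm_smul, h2.1, mul_one, norm_norm, Real.norm_eq_abs, abs_pow,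
      pow_mul, sq_abs]
    calc (lam x ^ 2) ^ m * ‖x‖ ≤ (lam x ^ 2) ^ m * 1 :=
          mul_le_mul_of_nonneg_left h1 (by positivity)
      _ = (lam x ^ 2) ^ m := mul_one _
      _ ≤ (1 + lam x ^ 2) ^ m := pow_le_pow_left₀ (sq_nonneg _) (by linarith) m
  have hP1 : ∀ x, 1 ≤ Ps x := by
    intro x
    exact one_le_pow₀ (by nlinarith [sq_nonneg (lam x)])
  have hfm : AEStronglyMeasurable f μ := aestronglyMeasurable_of_tendsto_ae atTop hmk hae
  have hfi : Integrable f μ := Integrable.mono' hI hfm hb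
  have hki : ∀ k, Integrable (fk k) μ := fun k =>
    Integrable.mono' ((h.hU (ψ k)).integrable_DD) (hmk k) (hbk k)
  -- the truncations
  set Fk : ℕ → Eu (2 * m + 2) → Eu (2 * m + 2) :=
    fun k x => if ‖fk k x‖ ≤ 2 * Ps x + 1 then fk k x else 0 with hFk
  have hPm : AEStronglyMeasurable Ps μ := hI.aestronglyMeasurable
  have hFm : ∀ k, AEStronglyMeasurable (Fk k) μ := by
    intro k
    have h1 : NullMeasurableSet {x | ‖fk k x‖ ≤ 2 * Ps x + 1} μ :=
      nullMeasurableSet_le (hmk k).norm.aemeasurable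
        ((hPm.aemeasurable.const_mul 2).add_const 1)
    have h2 : Fk k = ({x | ‖fk k x‖ ≤ 2 * Ps x + 1}).indicator (fk k) := by
      ext1 x
      rfl
    rw [h2]
    exact (hmk k).indicator₀ h1
  have hFlim : Tendsto (fun k => ∫ x, Fk k x ∂μ) atTop (𝓝 (∫ x, f x ∂μ)) := by
    refine tendsto_integral_of_dominated_convergence (fun x => 2 * Ps x + 1) hFm
      ((hI.const_mul 2).add (integrable_const 1)) ?_ ?_
    · intro k
      refine Eventually.of_forall fun x => ?_
      simp only [hFk]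
      split_ifs with h1
      · exact h1
      · rw [norm_zero]
        linarith [hP1 x]
    · filter_upwards [hae, hb] with x h1 h2
      refine h1.congr' ?_
      have h3 : ‖f x‖ < 2 * Ps x + 1 := by linarith [hP1 x]
      filter_upwards [h1.norm.eventually_lt_const h3] with k hk
      simp only [hFk]
      rw [if_pos hk.le]
  have hFi : ∀ k, Integrable (Fk k) μ := by
    intro k
    refine Integrable.mono' ((hI.const_mul 2).add (integrable_const 1)) (hFm k) ?_
    refine Eventually.of_forall fun x => ?_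
    simp only [hFk, Pi.add_apply]
    split_ifs with h1
    · exact h1
    · rw [norm_zero]
      linarith [hP1 x]
  have hF0 : Tendsto (fun k => ∫ x, Fk k x ∂μ) atTop (𝓝 0) := by
    have h1 : Tendsto (fun k => 2 * ∫ x, |DD (U (ψ k)) x - Ps x| ∂μ) atTop (𝓝 0) := by
      have := hD.const_mul 2
      rwa [mul_zero] at this
    refine squeeze_zero_norm (fun k => ?_) h1
    have h2 : ∫ x, Fk k x ∂μ = - ∫ x, (fk k x - Fk k x) ∂μ := by
      rw [integral_sub (hki k) (hFi k), (h.hU (ψ k)).int_det_smul]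
      simp
    rw [h2, norm_neg, ← integral_const_mul]
    refine (norm_integral_le_integral_norm _).trans ?_
    refine integral_mono_of_nonneg (Eventually.of_forall fun x => norm_nonneg _)
      ((((h.hU (ψ k)).integrable_DD.sub hI).abs).const_mul 2) ?_
    filter_upwards [hbk k] with x h3
    simp only [hFk]
    split_ifs with h4
    · rw [sub_self, norm_zero]
      positivity
    · rw [sub_zero]
      push Not at h4
      have h5 : DD (U (ψ k)) x - Ps x ≤ |DD (U (ψ k)) x - Ps x| := le_abs_self _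
      have h6 := hP1 x
      linarith
  exact ⟨hfi, tendsto_nhds_unique hFlim hF0⟩

end Pool.UVF
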