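import Pool.Agent.Lib.MP_28fba0_gt.UV.Defs

/-!
# UV-ExplPolar: polar coordinates for `lintegral`, `0`-homogeneous factor

`F` measurable, `0`-homogeneous off `0`:
`∫⁻ F(x) w(‖x‖) dx = d (∫⁻_B F) ∫⁻_{r>0} r^{d-1} w(r) dr`.
`Measure.measurePreserving_homeomorphUnitSphereProd` (the map `{0}ᶜ → sphere × Ioi 0`), Tonelli
(`lintegral_prod_mul`-type), `Measure.volumeIoiPow` (`withDensity` of `r^{d-1}`); the same formula with
`w = 1_{(0,1)}` gives `∫⁻_B F = (∫⁻_S F dσ) ∫_0^1 r^{d-1} = (∫⁻_S F dσ)/d`.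
-/

open Real Set MeasureTheory
open scoped RealInnerProductSpace ENNReal

namespace Pool.UVF

theorem lint_polar_aux {d : ℕ} (hd : 1 ≤ d) {F : Eu d → ℝ≥0∞} (hF : Measurable F)
    (hh : ∀ s : ℝ, 0 < s → ∀ x, x ≠ 0 → F (s • x) = F x) {w : ℝ → ℝ≥0∞} (hw : Measurable w) :
    ∫⁻ x : Eu d, F x * w ‖x‖
      = (∫⁻ s : Metric.sphere (0 : Eu d) 1, F s ∂((volume : Measure (Eu d)).toSphere)) *
      ∫⁻ r in Ioi (0 : ℝ), ENNReal.ofReal (r ^ (d - 1)) * w r := by
  have : Nonempty (Fin d) := ⟨⟨0, hd⟩⟩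
  have : Nontrivial (Eu d) := inferInstance
  have hdim : Module.finrank ℝ (Eu d) = d := by simp
  have h1 : ∫⁻ x : Eu d, F x * w ‖x‖
      = ∫⁻ x : ({(0 : Eu d)}ᶜ : Set (Eu d)), F x * w ‖(x : Eu d)‖
        ∂((volume : Measure (Eu d)).comap (↑)) := by
    rw [lintegral_subtype_comap (measurableSet_singleton _).compl (fun x : Eu d => F x * w ‖x‖),
      restrict_compl_singleton]
  have hmeas : Measurable (fun p : Metric.sphere (0 : Eu d) 1 × Ioi (0 : ℝ) =>
      F p.1 * w p.2) :=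
    (hF.comp (measurable_subtype_coe.comp measurable_fst)).mul
      (hw.comp (measurable_subtype_coe.comp measurable_snd))
  have h2 := (volume : Measure (Eu d)).measurePreserving_homeomorphUnitSphereProd.lintegral_comp hmeas
  have h3 : ∀ x : ({(0 : Eu d)}ᶜ : Set (Eu d)),
      F ((homeomorphUnitSphereProd (Eu d) x).1 : Eu d)
        * w ((homeomorphUnitSphereProd (Eu d) x).2 : ℝ) = F x * w ‖(x : Eu d)‖ := by
    intro x
    have hx : (x : Eu d) ≠ 0 := x.2
    rw [homeomorphUnitSphereProd_apply_fst_coe, homeomorphUnitSphereProd_apply_snd_coe]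
    rw [hh _ (inv_pos.2 (norm_pos_iff.2 hx)) _ hx]
  simp only [h3] at h2
  rw [h1, h2, hdim]
  rw [lintegral_prod_mul (f := fun s : Metric.sphere (0 : Eu d) 1 => F s)
    (g := fun r : Ioi (0 : ℝ) => w r) (hF.comp measurable_subtype_coe).aemeasurable
    (hw.comp measurable_subtype_coe).aemeasurable]
  congr 1
  have h5 := lintegral_withDensity_eq_lintegral_mul
    ((volume : Measure ℝ).comap (Subtype.val : Ioi (0 : ℝ) → ℝ))
    (f := fun r : Ioi (0 : ℝ) => ENNReal.ofReal ((r : ℝ) ^ (d - 1)))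
    ((measurable_subtype_coe.pow_const _).ennreal_ofReal) (g := fun r : Ioi (0 : ℝ) => w r)
    (hw.comp measurable_subtype_coe)
  rw [Measure.volumeIoiPow, h5, ← lintegral_subtype_comap measurableSet_Ioi
    (fun r : ℝ => ENNReal.ofReal (r ^ (d - 1)) * w r)]
  rfl

theorem lint_polar {d : ℕ} (hd : 1 ≤ d) {F : Eu d → ℝ≥0∞} (hF : Measurable F)
    (hh : ∀ s : ℝ, 0 < s → ∀ x, x ≠ 0 → F (s • x) = F x) {w : ℝ → ℝ≥0∞} (hw : Measurable w) :
    ∫⁻ x : Eu d, F x * w ‖x‖ = (d : ℝ≥0∞) * (∫⁻ x, F x ∂(mB d)) *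
      ∫⁻ r in Ioi (0 : ℝ), ENNReal.ofReal (r ^ (d - 1)) * w r := by
  have hw1 : Measurable ((Iio (1 : ℝ)).indicator (fun _ => (1 : ℝ≥0∞))) :=
    measurable_const.indicator measurableSet_Iio
  have h1 := lint_polar_aux hd hF hh hw1
  have h2 : ∫⁻ x : Eu d, F x * (Iio (1 : ℝ)).indicator (fun _ => (1 : ℝ≥0∞)) ‖x‖
      = ∫⁻ x, F x ∂(mB d) := by
    rw [mB, ← lintegral_indicator (show MeasurableSet (Bd d) from measurableSet_ball)]
    congr 1
    funext x
    by_cases hx : ‖x‖ < 1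
    · have hx1 : x ∈ Bd d := by simpa [Bd] using hx
      have hx2 : ‖x‖ ∈ Iio (1 : ℝ) := hx
      rw [Set.indicator_of_mem hx1, Set.indicator_of_mem hx2, mul_one]
    · have hx1 : x ∉ Bd d := by simpa [Bd] using hx
      have hx2 : ‖x‖ ∉ Iio (1 : ℝ) := hx
      rw [Set.indicator_of_notMem hx1, Set.indicator_of_notMem hx2, mul_zero]
  have h3 : ∫⁻ r in Ioi (0 : ℝ), ENNReal.ofReal (r ^ (d - 1)) *
      (Iio (1 : ℝ)).indicator (fun _ => (1 : ℝ≥0∞)) r = ENNReal.ofReal (1 / d) := by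
    have h4 : ∀ r : ℝ, ENNReal.ofReal (r ^ (d - 1)) * (Iio (1 : ℝ)).indicator (fun _ => (1 : ℝ≥0∞)) r
        = (Iio (1 : ℝ)).indicator (fun r => ENNReal.ofReal (r ^ (d - 1))) r := by
      intro r
      by_cases hr : r ∈ Iio (1 : ℝ)
      · rw [Set.indicator_of_mem hr, Set.indicator_of_mem hr, mul_one]
      · rw [Set.indicator_of_notMem hr, Set.indicator_of_notMem hr, mul_zero]
    simp only [h4]
    rw [lintegral_indicator measurableSet_Iio, Measure.restrict_restrict measurableSet_Iio,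
      Set.Iio_inter_Ioi, Measure.restrict_congr_set Ioo_ae_eq_Ioc]
    rw [← ofReal_integral_eq_lintegral_ofReal (intervalIntegral.intervalIntegrable_pow _).1,
      ← intervalIntegral.integral_of_le zero_le_one, integral_pow]
    · have : ((d - 1 : ℕ) : ℝ) + 1 = d := by
        rw [Nat.cast_sub hd]
        simp
      rw [this]
      have h0 : d - 1 + 1 ≠ 0 := by omega
      simp
    · filter_upwards [ae_restrict_mem measurableSet_Ioc] with y hy
      exact pow_nonneg hy.1.le _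
  rw [h2, h3] at h1
  rw [lint_polar_aux hd hF hh hw, h1]
  congr 1
  have hd0 : (0 : ℝ) < d := by exact_mod_cast hd
  rw [ENNReal.ofReal_div_of_pos hd0, ENNReal.ofReal_one, ENNReal.ofReal_natCast, mul_comm, mul_assoc,
    one_div, ENNReal.inv_mul_cancel, mul_one]
  · exact_mod_cast hd0.ne'
  · exact ENNReal.natCast_ne_top d

end Pool.UVF
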