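import Pool.Agent.Lib.MP_28fba0_gt.UV.Defs

/-!
# UV-ExplRot: rotation to the first basis vector

There is a linear isometry equivalence `L` of `ℝ^d` mapping `p` to `e_0` (extend `p` and `e_0` to
orthonormal bases, `Orthonormal.exists_orthonormalBasis_extension_of_card_eq`; or the reflection
through the hyperplane orthogonal to `p - e_0`); it preserves Lebesgue measure
(`LinearIsometryEquiv.measurePreserving`) and the ball, `hat (L x) = L (hat x)`,
`⟪p, hat x⟫ = ⟪e_0, hat (L x)⟫ = (hat (L x)) 0`.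
-/

open Real Set MeasureTheory
open scoped RealInnerProductSpace ENNReal

namespace Pool.UVF

theorem lint_rot (n m : ℕ) (p : Eu (n + 1)) (hp : ‖p‖ = 1) :
    ∫⁻ x, ENNReal.ofReal (((1 - ⟪p, hat x⟫ ^ 2)⁻¹) ^ m) ∂(mB (n + 1))
      = ∫⁻ x, ENNReal.ofReal (((1 - (hat x 0) ^ 2)⁻¹) ^ m) ∂(mB (n + 1)) := by
  set e0 : Eu (n + 1) := EuclideanSpace.single 0 (1 : ℝ) with he0
  have hne : ‖p‖ = ‖e0‖ := by rw [hp, he0]; simp
  obtain ⟨L, hL⟩ : ∃ L : Eu (n + 1) ≃ₗᵢ[ℝ] Eu (n + 1), L p = e0 :=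
    ⟨Submodule.reflection (ℝ ∙ (p - e0))ᗮ, Submodule.reflection_sub hne⟩
  have hmp : MeasurePreserving L (volume : Measure (Eu (n + 1))) volume := L.measurePreserving
  have hpre : L ⁻¹' (Bd (n + 1)) = Bd (n + 1) := by
    ext x
    simp [Bd]
  have hval : ∀ x, ⟪p, hat x⟫ = hat (L x) 0 := by
    intro x
    have h1 : hat (L x) = L (hat x) := by
      unfold hat
      rw [L.norm_map, map_smul]
    rw [h1, ← L.inner_map_map p (hat x), hL, he0, EuclideanSpace.inner_single_left]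
    simp
  unfold mB
  calc ∫⁻ x in Bd (n + 1), ENNReal.ofReal (((1 - ⟪p, hat x⟫ ^ 2)⁻¹) ^ m)
      = ∫⁻ x in L ⁻¹' (Bd (n + 1)), ENNReal.ofReal (((1 - (hat (L x) 0) ^ 2)⁻¹) ^ m) := by
        rw [hpre]
        simp_rw [hval]
    _ = ∫⁻ x in Bd (n + 1), ENNReal.ofReal (((1 - (hat x 0) ^ 2)⁻¹) ^ m) :=
        hmp.setLIntegral_comp_preimage_emb L.toHomeomorph.measurableEmbedding
          (fun x => ENNReal.ofReal (((1 - (hat x 0) ^ 2)⁻¹) ^ m)) (Bd (n + 1))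

end Pool.UVF
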