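import Pool.Agent.Lib.MP_28fba0_gt.UV.Defs

/-!
# UV-ExplSplit: Tonelli on `ℝ^{n+1} = ℝ × ℝ^n`

`EuclideanSpace.volume_preserving_…` (between `EuclideanSpace ℝ (Fin n)` and `Fin n → ℝ`) and
`volume_preserving_piFinSuccAbove (fun _ => ℝ) 0`; `lintegral_prod_mul`.
-/

open Real Set MeasureTheory
open scoped RealInnerProductSpace ENNReal

namespace Pool.UVF

theorem lint_split (n : ℕ) {G H : ℝ → ℝ≥0∞} (hG : Measurable G) (hH : Measurable H) :
    ∫⁻ x : Eu (n + 1), G (x 0) * H (√ (∑ i : Fin n, (x i.succ) ^ 2))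
      = (∫⁻ s, G s) * ∫⁻ y : Eu n, H ‖y‖ := by
  have hm : Measurable fun z : Fin n → ℝ => H (√ (∑ i : Fin n, (z i) ^ 2)) := by
    apply hH.comp
    fun_prop
  -- the left side on `Fin (n+1) → ℝ`
  have h1 : ∫⁻ x : Eu (n + 1), G (x 0) * H (√ (∑ i : Fin n, (x i.succ) ^ 2))
      = ∫⁻ z : Fin (n + 1) → ℝ, G (z 0) * H (√ (∑ i : Fin n, (z i.succ) ^ 2)) := by
    have := (PiLp.volume_preserving_ofLp (Fin (n + 1))).lintegral_comp
      (f := fun z : Fin (n + 1) → ℝ => G (z 0) * H (√ (∑ i : Fin n, (z i.succ) ^ 2))) (by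
        apply Measurable.mul
        · exact hG.comp (measurable_pi_apply 0)
        · apply hH.comp
          fun_prop)
    exact this
  have h2 : ∫⁻ y : Eu n, H ‖y‖ = ∫⁻ z : Fin n → ℝ, H (√ (∑ i : Fin n, (z i) ^ 2)) := by
    have := (PiLp.volume_preserving_ofLp (Fin n)).lintegral_comp
      (f := fun z : Fin n → ℝ => H (√ (∑ i : Fin n, (z i) ^ 2))) hm
    rw [← this]
    apply lintegral_congr
    intro y
    rw [EuclideanSpace.norm_eq]
    simp
  have h3 : ∫⁻ z : Fin (n + 1) → ℝ, G (z 0) * H (√ (∑ i : Fin n, (z i.succ) ^ 2))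
      = ∫⁻ w : ℝ × (Fin n → ℝ), G w.1 * H (√ (∑ i : Fin n, (w.2 i) ^ 2)) := by
    have := (volume_preserving_piFinSuccAbove (fun _ : Fin (n + 1) => ℝ) 0).lintegral_comp
      (f := fun w : ℝ × (Fin n → ℝ) => G w.1 * H (√ (∑ i : Fin n, (w.2 i) ^ 2))) (by
        apply Measurable.mul
        · exact hG.comp measurable_fst
        · exact hm.comp measurable_snd)
    rw [← this]
    apply lintegral_congr
    intro z
    rfl
  rw [h1, h3, h2, Measure.volume_eq_prod, lintegral_prod_mul hG.aemeasurable hm.aemeasurable]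

end Pool.UVF
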