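import Pool.Agent.Lib.MP_28fba0_gt.UV.Defs

/-!
# UV-ExplVol: volumes of balls

`EuclideanSpace.volume_ball` (`√π^n / Γ(n/2+1)`); `|B_{2m+2}| = π^{m+1}/(m+1)!`,
`|B_{2m+1}| = π^m 2^{2m+1} m!/(2m+1)!` (see also `InnerProductSpace.volume_ball_of_dim_even`,
`…_of_dim_odd`, or induction on `m` with `Γ(s+1) = s Γ(s)`, `Real.Gamma_nat_add_half`).
Both sides are `π^{m+1} 2^{2m+1} m!/(2m)!`.
-/

open Real Set MeasureTheory
open scoped RealInnerProductSpace ENNReal

namespace Pool.UVF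

open scoped Nat in
private theorem bv_even (m : ℕ) : bv (2 * m + 2) = π ^ (m + 1) / ((m + 1)! : ℝ) := by
  have : Nontrivial (Eu (2 * m + 2)) := by
    apply Module.nontrivial_of_finrank_pos (R := ℝ)
    simp
  have h := InnerProductSpace.volume_ball_of_dim_even (E := Eu (2 * m + 2)) (k := m + 1)
    (by simp; ring) 0 1
  rw [bv, Bd, h]
  simp only [ENNReal.ofReal_one, one_pow, one_mul]
  rw [ENNReal.toReal_ofReal (by positivity)]

open scoped Nat in
private theorem bv_odd (m : ℕ) : bv (2 * m + 1) = π ^ m * 2 ^ (m + 1) / ((2 * m + 1)‼ : ℝ) := by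
  have h := InnerProductSpace.volume_ball_of_dim_odd (E := Eu (2 * m + 1)) (k := m)
    (by simp) 0 1
  rw [bv, Bd, h]
  simp only [ENNReal.ofReal_one, one_pow, one_mul, finrank_euclideanSpace, Fintype.card_fin]
  rw [ENNReal.toReal_ofReal (by positivity)]

theorem bv_ratio (m : ℕ) :
    π * ((2 * m + 1 : ℕ) : ℝ) * bv (2 * m + 1) = bGZ m * (((2 * m + 2 : ℕ) : ℝ) * bv (2 * m + 2)) := by
  open scoped Nat in
  rw [bv_even, bv_odd, bGZ]
  have h1 : ((2 * m + 1)! : ℝ) = ((2 * m + 1)‼ : ℝ) * (2 ^ m * (m ! : ℝ)) := by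
    have := Nat.factorial_eq_mul_doubleFactorial (2 * m)
    rw [Nat.doubleFactorial_two_mul] at this
    exact_mod_cast this
  have h2 : ((2 * m + 1)! : ℝ) = (2 * m + 1) * ((2 * m)! : ℝ) := by
    rw [Nat.factorial_succ]; push_cast; ring
  have h3 : ((Nat.choose (2 * m) m : ℕ) : ℝ) * (m ! : ℝ) * (m ! : ℝ) = ((2 * m)! : ℝ) := by
    have := Nat.choose_mul_factorial_mul_factorial (n := 2 * m) (k := m) (by omega)
    rw [show 2 * m - m = m by omega] at this
    exact_mod_cast this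
  have h4 : (((m + 1)! : ℕ) : ℝ) = (m + 1) * (m ! : ℝ) := by
    rw [Nat.factorial_succ]; push_cast; ring
  have hd : ((2 * m + 1)‼ : ℝ) ≠ 0 := by positivity
  have hm : (m ! : ℝ) ≠ 0 := by positivity
  have hc : ((Nat.choose (2 * m) m : ℕ) : ℝ) ≠ 0 := by
    have : 0 < Nat.choose (2 * m) m := Nat.choose_pos (by omega)
    positivity
  have h5 : ((2 * m + 1)‼ : ℝ) * (2 ^ m * (m ! : ℝ)) =
      (2 * m + 1) * (((Nat.choose (2 * m) m : ℕ) : ℝ) * (m ! : ℝ) * (m ! : ℝ)) := by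
    rw [← h1, h2, h3]
  have h6 : ((2 * m + 1)‼ : ℝ) * 2 ^ m =
      (2 * m + 1) * (((Nat.choose (2 * m) m : ℕ) : ℝ) * (m ! : ℝ)) := by
    apply mul_right_cancel₀ hm
    linarith
  rw [h4]
  have hm1 : (m : ℝ) + 1 ≠ 0 := by positivity
  push_cast
  field_simp
  have h7 : (4 : ℝ) ^ m = 2 ^ m * 2 ^ m := by
    rw [← mul_pow]; norm_num
  rw [h7]
  linear_combination (-(2 : ℝ) * 2 ^ m * π ^ (m + 1)) * h6

end Pool.UVF
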