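import Pool.Agent.Lib.MP_28fba0_gt.UV.Defs

/-!
# UV-Polar: ball and sphere

For `f` continuous on `{0}ᶜ` and `0`-homogeneous: `d ∫_B f dx = ∫_S f dσ`, `σ = volume.toSphere`.
Mathlib: `MeasureTheory.Measure.measurePreserving_homeomorphUnitSphereProd`,
`MeasureTheory.Measure.toSphere`, `Measure.volumeIoiPow`; for the area:
`Measure.toSphere_apply_univ'`/`toSphere_apply_univ` (`= dim · μ (ball 0 1)`).  A short way for the
integral: `toSphere` is defined by `μ.toSphere s = dim • μ (Ioo 0 1 • s)`, so that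
`σ = d • map (hat) (volume.restrict (ball 0 1 \ {0}))`; then `integral_map`.
-/

open Real Set MeasureTheory

namespace Pool.UVF

theorem area_eq (d : ℕ) (hd : 1 ≤ d) : area d = d * bv d := by
  unfold area bv Bd
  rw [Measure.toSphere_apply_univ, ENNReal.toReal_mul, ENNReal.toReal_natCast,
    finrank_euclideanSpace_fin]

theorem bv_pos (d : ℕ) : 0 < bv d := by
  unfold bv Bd
  exact ENNReal.toReal_pos (Metric.measure_ball_pos _ _ one_pos).ne' measure_ball_lt_top.ne

theorem integral_ball_eq_sphere {d : ℕ} (hd : 1 ≤ d) {f : Eu d → ℝ} (hc : ContinuousOn f {0}ᶜ)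
    (hh : ∀ s : ℝ, 0 < s → ∀ x, x ≠ 0 → f (s • x) = f x) :
    ∫ x : Metric.sphere (0 : Eu d) 1, f (x : Eu d) ∂((volume : Measure (Eu d)).toSphere)
      = d * ∫ x, f x ∂(mB d) := by
  classical
  haveI : NeZero d := ⟨by omega⟩
  set g : Metric.sphere (0 : Eu d) 1 × Ioi (0 : ℝ) → Eu d :=
    Subtype.val ∘ (homeomorphUnitSphereProd (Eu d)).symm with hg
  have hemb : MeasurableEmbedding g :=
    (MeasurableEmbedding.subtype_coe (measurableSet_singleton _).compl).comp
      (Homeomorph.measurableEmbedding _)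
  have hgp : ∀ p : Metric.sphere (0 : Eu d) 1 × Ioi (0 : ℝ), g p = (p.2 : ℝ) • (p.1 : Eu d) :=
    fun p => rfl
  have hrange : range g = {0}ᶜ := by
    rw [hg, range_comp, Homeomorph.range_coe, image_univ, Subtype.range_coe]
  have hnz : ∀ y : Metric.sphere (0 : Eu d) 1, (y : Eu d) ≠ 0 := fun y =>
    ne_zero_of_mem_unit_sphere y
  have hF : Continuous fun y : Metric.sphere (0 : Eu d) 1 => f (y : Eu d) :=
    hc.comp_continuous continuous_subtype_val fun y => hnz y
  have h1 : ∫ x : Metric.sphere (0 : Eu d) 1, f (x : Eu d) ∂((volume : Measure (Eu d)).toSphere)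
      = d * ∫ p in (univ : Set (Metric.sphere (0 : Eu d) 1)) ×ˢ Iio ⟨1, mem_Ioi.2 one_pos⟩,
        f (p.1 : Eu d) ∂((volume : Measure (Eu d)).comap g) := by
    unfold Measure.toSphere
    rw [← Nat.cast_smul_eq_nsmul ENNReal, integral_smul_measure, Measure.fst,
      integral_map measurable_fst.aemeasurable hF.aestronglyMeasurable, finrank_euclideanSpace_fin,
      ENNReal.toReal_natCast, smul_eq_mul]
  have hpre : g ⁻¹' (Bd d) = univ ×ˢ Iio ⟨1, mem_Ioi.2 one_pos⟩ := by
    ext p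
    have : ‖g p‖ = p.2 := by
      rw [hgp, norm_smul, norm_eq_of_mem_sphere, mul_one, Real.norm_eq_abs,
        abs_of_pos (mem_Ioi.1 p.2.2)]
    simp only [mem_preimage, Bd, mem_ball_zero_iff, this, mem_prod, mem_univ, true_and, mem_Iio]
    rw [← Subtype.coe_lt_coe]
  have h2 : ∫ p in (univ : Set (Metric.sphere (0 : Eu d) 1)) ×ˢ Iio ⟨1, mem_Ioi.2 one_pos⟩,
        f (p.1 : Eu d) ∂((volume : Measure (Eu d)).comap g)
      = ∫ p in g ⁻¹' (Bd d), f (g p) ∂((volume : Measure (Eu d)).comap g) := by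
    rw [hpre]
    congr 1
    ext p
    rw [hgp, hh _ (mem_Ioi.1 p.2.2) _ (hnz _)]
  have h3 : (volume : Measure (Eu d)).restrict {0}ᶜ = volume := by
    apply Measure.restrict_eq_self_of_ae_mem
    rw [ae_iff]
    simp
  rw [h1, h2, ← hemb.setIntegral_map, hemb.map_comap, hrange, h3]
  rfl

end Pool.UVF
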