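import Pool.Agent.Lib.MP_28fba0_gt.UV.Trig
import Pool.Agent.Lib.MP_28fba0_gt.UV.Polar
import Pool.Agent.Lib.MP_28fba0_gt.UV.ExplRot
import Pool.Agent.Lib.MP_28fba0_gt.UV.ExplPolar
import Pool.Agent.Lib.MP_28fba0_gt.UV.ExplSplit
import Pool.Agent.Lib.MP_28fba0_gt.UV.ExplVol

/-!
# UV-Explicit: `∫_B (1 - ⟪p, x̂⟫²)^{-m} dx = b |B|`, `d = 2m+2`

1. `lint_rot`: `p = e_0`; `F(x) = (1 - (hat x 0)²)^{-m}`, `1 - (hat x 0)² = ‖y‖²/‖x‖²`,
   `‖y‖² = ∑_{i : Fin (2m+1)} (x i.succ)²` (off the null set `‖y‖ = 0`).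
2. `lint_polar` for `F` and `w(r) = ofReal (r^{-2m} e^{-r²})`:
   `∫⁻ F(x) w(‖x‖) dx = (2m+2) (∫⁻_B F) ∫_0^∞ r^{2m+1-2m} e^{-r²} dr`, the last integral is `1/2`
   (`integral_rpow_mul_exp_neg_mul_sq`-type lemmas or the antiderivative `-e^{-r²}/2`).
   `F(x) w(‖x‖) = e^{-s²} · ‖y‖^{-2m} e^{-‖y‖²}` a.e. (`s = x 0`), so by `lint_split` (`n = 2m+1`) the left
   side is `√π · ∫⁻_{ℝ^{2m+1}} ‖y‖^{-2m} e^{-‖y‖²} dy` (`integral_gaussian`), and by `lint_polar` with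
   `F = 1`, `d = 2m+1` this is `√π · (2m+1) |B_{2m+1}| ∫_0^∞ e^{-r²} dr = π (2m+1) |B_{2m+1}| / 2`.
   Hence `(2m+2) ∫⁻_B F = π (2m+1) |B_{2m+1}| = b (2m+2) |B_{2m+2}|` (`bv_ratio`).
3. `F ≥ 0`, measurable, so finite `lintegral` gives integrability and the value of the integral
   (`ofReal_integral_eq_lintegral_ofReal`).
-/

open Real Set MeasureTheory
open scoped RealInnerProductSpace ENNReal

namespace Pool.UVF

private theorem expl_hat_meas (d : ℕ) : Measurable (hat : Eu d → Eu d) := by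
  unfold hat
  exact (measurable_norm.inv).smul measurable_id

private theorem expl_hat_smul {d : ℕ} (s : ℝ) (hs : 0 < s) (x : Eu d) : hat (s • x) = hat x := by
  unfold hat
  rw [norm_smul, Real.norm_of_nonneg hs.le, mul_inv, smul_smul, mul_assoc, mul_comm ‖x‖⁻¹ s,
    ← mul_assoc, inv_mul_cancel₀ hs.ne', one_mul]

private theorem expl_normsq {n : ℕ} (x : Eu (n + 1)) :
    ‖x‖ ^ 2 = (x 0) ^ 2 + ∑ i : Fin n, (x i.succ) ^ 2 := by
  rw [EuclideanSpace.norm_sq_eq, Fin.sum_univ_succ]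
  simp only [Real.norm_eq_abs, sq_abs]

private theorem expl_key {n m : ℕ} (x : Eu (n + 1)) :
    ((1 - (hat x 0) ^ 2)⁻¹) ^ m * ((‖x‖ ^ (2 * m))⁻¹ * rexp (-‖x‖ ^ 2)) =
      rexp (-(x 0) ^ 2) * (((√ (∑ i : Fin n, (x i.succ) ^ 2)) ^ (2 * m))⁻¹ *
        rexp (-(√ (∑ i : Fin n, (x i.succ) ^ 2)) ^ 2)) := by
  set S : ℝ := ∑ i : Fin n, (x i.succ) ^ 2 with hS
  have hS0 : 0 ≤ S := Finset.sum_nonneg fun i _ => sq_nonneg _
  have hN : ‖x‖ ^ 2 = (x 0) ^ 2 + S := expl_normsq x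
  have h1 : (1 - (hat x 0) ^ 2) * ‖x‖ ^ 2 = S := by
    have h2 : hat x 0 = ‖x‖⁻¹ * x 0 := by simp [hat]
    rw [h2]
    by_cases hx : ‖x‖ = 0
    · have h3 : ‖x‖ ^ 2 = 0 := by rw [hx]; norm_num
      rw [h3, mul_zero]
      rw [h3] at hN
      nlinarith [sq_nonneg (x 0)]
    · have h4 : (‖x‖⁻¹ * x 0) ^ 2 * ‖x‖ ^ 2 = (x 0) ^ 2 := by
        rw [mul_pow, inv_pow]
        field_simp
      rw [sub_mul, one_mul, h4, hN]
      ring
  have h2 : √S ^ 2 = S := Real.sq_sqrt hS0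
  rw [pow_mul, pow_mul, h2, ← inv_pow (‖x‖ ^ 2) m, ← inv_pow S m, ← mul_assoc, ← mul_pow, ← mul_inv,
    h1, hN, neg_add, Real.exp_add]
  ring

private theorem expl_gauss : ∫⁻ s : ℝ, ENNReal.ofReal (rexp (-s ^ 2)) = ENNReal.ofReal (√π) := by
  have h1 : Integrable fun s : ℝ => rexp (-s ^ 2) := by
    have := integrable_exp_neg_mul_sq (b := 1) one_pos
    simpa using this
  rw [← ofReal_integral_eq_lintegral_ofReal h1 (ae_of_all _ fun s => (Real.exp_pos _).le)]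
  congr 1
  have := integral_gaussian 1
  simpa using this

private theorem expl_gauss_Ioi :
    ∫⁻ s in Ioi (0 : ℝ), ENNReal.ofReal (rexp (-s ^ 2)) = ENNReal.ofReal (√π / 2) := by
  have h1 : Integrable fun s : ℝ => rexp (-s ^ 2) := by
    have := integrable_exp_neg_mul_sq (b := 1) one_pos
    simpa using this
  rw [← ofReal_integral_eq_lintegral_ofReal h1.integrableOn
    (ae_of_all _ fun s => (Real.exp_pos _).le)]
  congr 1
  have := integral_gaussian_Ioi 1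
  simpa using this

private theorem expl_half :
    ∫⁻ r in Ioi (0 : ℝ), ENNReal.ofReal (r * rexp (-r ^ 2)) = ENNReal.ofReal (1 / 2) := by
  have hd : ∀ x : ℝ, HasDerivAt (fun r : ℝ => -(rexp (-r ^ 2)) / 2) (x * rexp (-x ^ 2)) x := by
    intro x
    have h1 : HasDerivAt (fun r : ℝ => -r ^ 2) (-(2 * x)) x := by
      have := (hasDerivAt_pow 2 x).fun_neg
      simpa using this
    have h2 := (h1.exp.fun_neg.div_const 2)
    have h3 : x * rexp (-x ^ 2) = -(rexp (-x ^ 2) * -(2 * x)) / 2 := by ring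
    rw [h3]
    exact h2
  have hlim : Filter.Tendsto (fun r : ℝ => -(rexp (-r ^ 2)) / 2) Filter.atTop (nhds 0) := by
    have h1 : Filter.Tendsto (fun r : ℝ => rexp (-r ^ 2)) Filter.atTop (nhds 0) :=
      Real.tendsto_exp_neg_atTop_nhds_zero.comp (Filter.tendsto_pow_atTop two_ne_zero)
    have h2 := (h1.neg.div_const 2)
    simpa using h2
  have hpos : ∀ x ∈ Ioi (0 : ℝ), 0 ≤ x * rexp (-x ^ 2) := fun x hx =>
    mul_nonneg (le_of_lt hx) (Real.exp_pos _).le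
  have hint := integrableOn_Ioi_deriv_of_nonneg' (a := (0 : ℝ)) (fun x _ => hd x) hpos hlim
  have hval := integral_Ioi_of_hasDerivAt_of_nonneg' (a := (0 : ℝ)) (fun x _ => hd x) hpos hlim
  rw [← ofReal_integral_eq_lintegral_ofReal hint
    ((ae_restrict_iff' measurableSet_Ioi).2 (ae_of_all _ hpos)), hval]
  congr 1
  norm_num

private theorem expl_lint (m : ℕ) :
    ∫⁻ x, ENNReal.ofReal (((1 - (hat x 0) ^ 2)⁻¹) ^ m) ∂(mB (2 * m + 2)) =
      ENNReal.ofReal (bGZ m * bv (2 * m + 2)) := by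
  set F : Eu (2 * m + 2) → ℝ≥0∞ := fun x => ENNReal.ofReal (((1 - (hat x 0) ^ 2)⁻¹) ^ m) with hF
  set H : ℝ → ℝ≥0∞ := fun t => ENNReal.ofReal ((t ^ (2 * m))⁻¹ * rexp (-t ^ 2)) with hH
  set G : ℝ → ℝ≥0∞ := fun t => ENNReal.ofReal (rexp (-t ^ 2)) with hG
  have hHm : Measurable H := by
    rw [hH]; fun_prop
  have hGm : Measurable G := by
    rw [hG]; fun_prop
  have hFm : Measurable F := by
    have h0 : Measurable fun x : Eu (2 * m + 2) => hat x 0 :=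
      (EuclideanSpace.proj (𝕜 := ℝ) (0 : Fin (2 * m + 2))).continuous.measurable.comp
        (expl_hat_meas _)
    rw [hF]
    exact (((measurable_const.sub (h0.pow_const 2)).inv).pow_const m).ennreal_ofReal
  have hpol := lint_polar (d := 2 * m + 2) (by omega) hFm (fun s hs x _ => by
    rw [hF]; simp only; rw [expl_hat_smul s hs x]) hHm
  have hleft : ∫⁻ x : Eu (2 * m + 2), F x * H ‖x‖ =
      ∫⁻ x : Eu (2 * m + 1 + 1), G (x 0) * H (√ (∑ i : Fin (2 * m + 1), (x i.succ) ^ 2)) := by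
    refine lintegral_congr fun x => ?_
    rw [hF, hH, hG]
    simp only
    have hle : 0 ≤ ((1 - (hat x 0) ^ 2)⁻¹) ^ m := by
      refine pow_nonneg (inv_nonneg.2 ?_) _
      have h2 : hat x 0 = ‖x‖⁻¹ * x 0 := by simp [hat]
      have h3 : |x 0| ≤ ‖x‖ := by
        have := EuclideanSpace.norm_sq_eq x
        have h5 := expl_normsq (n := 2 * m + 1) x
        have h6 : (0 : ℝ) ≤ ∑ i : Fin (2 * m + 1), (x i.succ) ^ 2 :=
          Finset.sum_nonneg fun i _ => sq_nonneg _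
        exact abs_le_of_sq_le_sq (by linarith) (norm_nonneg x)
      have h4 : |‖x‖⁻¹ * x 0| ≤ 1 := by
        rw [abs_mul, abs_inv, abs_norm]
        by_cases hx : ‖x‖ = 0
        · rw [hx]; simp
        · have hx' : 0 < ‖x‖ := lt_of_le_of_ne (norm_nonneg x) (Ne.symm hx)
          calc ‖x‖⁻¹ * |x 0| ≤ ‖x‖⁻¹ * ‖x‖ := mul_le_mul_of_nonneg_left h3 (by positivity)
            _ = 1 := inv_mul_cancel₀ hx
      rw [h2]
      have := abs_le_one_iff_mul_self_le_one.1 h4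
      nlinarith
    rw [← ENNReal.ofReal_mul hle, ← ENNReal.ofReal_mul (Real.exp_pos _).le]
    congr 1
    exact expl_key (n := 2 * m + 1) x
  rw [hleft, lint_split (2 * m + 1) hGm hHm, hG, expl_gauss] at hpol
  have hpol2 := lint_polar (d := 2 * m + 1) (by omega) (F := fun _ => (1 : ℝ≥0∞))
    measurable_const (fun _ _ _ _ => rfl) hHm
  simp only [one_mul, lintegral_const] at hpol2
  rw [hpol2] at hpol
  have hR1 : ∫⁻ r in Ioi (0 : ℝ), ENNReal.ofReal (r ^ (2 * m + 1 - 1)) * H r =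
      ENNReal.ofReal (√π / 2) := by
    rw [← expl_gauss_Ioi]
    refine setLIntegral_congr_fun measurableSet_Ioi fun r hr => ?_
    have hr' : 0 < r := hr
    rw [hH]
    simp only
    rw [← ENNReal.ofReal_mul (by positivity)]
    congr 1
    rw [Nat.add_sub_cancel, ← mul_assoc, mul_inv_cancel₀ (by positivity), one_mul]
  have hR2 : ∫⁻ r in Ioi (0 : ℝ), ENNReal.ofReal (r ^ (2 * m + 2 - 1)) * H r =
      ENNReal.ofReal (1 / 2) := by
    rw [← expl_half]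
    refine setLIntegral_congr_fun measurableSet_Ioi fun r hr => ?_
    have hr' : 0 < r := hr
    rw [hH]
    simp only
    rw [← ENNReal.ofReal_mul (by positivity)]
    congr 1
    have h1 : 2 * m + 2 - 1 = 2 * m + 1 := by omega
    rw [h1, pow_succ]
    have h2 : r ^ (2 * m) ≠ 0 := by positivity
    field_simp
  rw [hR1, hR2] at hpol
  have hvol : (mB (2 * m + 1)) univ = ENNReal.ofReal (bv (2 * m + 1)) := by
    rw [mB, Measure.restrict_apply_univ, bv, ENNReal.ofReal_toReal]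
    exact measure_ball_lt_top.ne
  rw [hvol] at hpol
  have hb1 : 0 ≤ bv (2 * m + 1) := ENNReal.toReal_nonneg
  have hb2 : 0 ≤ bv (2 * m + 2) := ENNReal.toReal_nonneg
  have hbG : 0 ≤ bGZ m := by unfold bGZ; positivity
  have hsp : 0 ≤ √π := Real.sqrt_nonneg _
  have hc1 : ((2 * m + 1 : ℕ) : ℝ≥0∞) = ENNReal.ofReal ((2 * m + 1 : ℕ) : ℝ) :=
    (ENNReal.ofReal_natCast _).symm
  have hc2 : ((2 * m + 2 : ℕ) : ℝ≥0∞) = ENNReal.ofReal ((2 * m + 2 : ℕ) : ℝ) :=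
    (ENNReal.ofReal_natCast _).symm
  have hn1 : (0 : ℝ) ≤ ((2 * m + 1 : ℕ) : ℝ) := Nat.cast_nonneg _
  have hn2 : (0 : ℝ) < ((2 * m + 2 : ℕ) : ℝ) := by exact_mod_cast Nat.succ_pos _
  rw [hc1, hc2, ← ENNReal.ofReal_mul hn1, ← ENNReal.ofReal_mul (by positivity),
    ← ENNReal.ofReal_mul hsp] at hpol
  have hval : √π * (((2 * m + 1 : ℕ) : ℝ) * bv (2 * m + 1) * (√π / 2)) =
      (((2 * m + 2 : ℕ) : ℝ) * (1 / 2)) * (bGZ m * bv (2 * m + 2)) := by
    have h1 := bv_ratio m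
    have h2 : √π * √π = π := Real.mul_self_sqrt Real.pi_pos.le
    calc √π * (((2 * m + 1 : ℕ) : ℝ) * bv (2 * m + 1) * (√π / 2))
        = (√π * √π) * ((2 * m + 1 : ℕ) : ℝ) * bv (2 * m + 1) / 2 := by ring
      _ = bGZ m * (((2 * m + 2 : ℕ) : ℝ) * bv (2 * m + 2)) / 2 := by rw [h2, h1]
      _ = _ := by ring
  rw [hval, ENNReal.ofReal_mul (by positivity)] at hpol
  have hfin : ENNReal.ofReal (((2 * m + 2 : ℕ) : ℝ) * (1 / 2)) ≠ ⊤ := ENNReal.ofReal_ne_top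
  have hne : ENNReal.ofReal (((2 * m + 2 : ℕ) : ℝ) * (1 / 2)) ≠ 0 := by
    rw [Ne, ENNReal.ofReal_eq_zero, not_le]
    positivity
  have hfinal : ENNReal.ofReal (((2 * m + 2 : ℕ) : ℝ) * (1 / 2)) *
      ENNReal.ofReal (bGZ m * bv (2 * m + 2)) =
      ENNReal.ofReal (((2 * m + 2 : ℕ) : ℝ) * (1 / 2)) * ∫⁻ x, F x ∂(mB (2 * m + 2)) := by
    rw [hpol]
    conv_rhs => rw [ENNReal.ofReal_mul hn2.le]
    ring
  exact ((ENNReal.mul_right_inj hne hfin).1 hfinal).symm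

theorem explicit_integral (m : ℕ) (p : Eu (2 * m + 2)) (hp : ‖p‖ = 1) :
    Integrable (fun x => ((1 - ⟪p, hat x⟫ ^ 2)⁻¹) ^ m) (mB (2 * m + 2)) ∧
    ∫ x, ((1 - ⟪p, hat x⟫ ^ 2)⁻¹) ^ m ∂(mB (2 * m + 2)) = bGZ m * bv (2 * m + 2) := by
  have hl : ∫⁻ x, ENNReal.ofReal (((1 - ⟪p, hat x⟫ ^ 2)⁻¹) ^ m) ∂(mB (2 * m + 2)) =
      ENNReal.ofReal (bGZ m * bv (2 * m + 2)) := by
    rw [← expl_lint m]
    exact lint_rot (2 * m + 1) m p hp
  have hnn : ∀ x : Eu (2 * m + 2), 0 ≤ ((1 - ⟪p, hat x⟫ ^ 2)⁻¹) ^ m := by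
    intro x
    refine pow_nonneg (inv_nonneg.2 ?_) _
    have h1 : ‖hat x‖ ≤ 1 := by
      rw [hat, norm_smul, norm_inv, norm_norm]
      by_cases hx : ‖x‖ = 0
      · rw [hx]; simp
      · rw [inv_mul_cancel₀ hx]
    have h2 : |⟪p, hat x⟫| ≤ 1 := by
      refine (abs_real_inner_le_norm p (hat x)).trans ?_
      rw [hp, one_mul]; exact h1
    have := abs_le_one_iff_mul_self_le_one.1 h2
    nlinarith
  have hm : Measurable fun x : Eu (2 * m + 2) => ((1 - ⟪p, hat x⟫ ^ 2)⁻¹) ^ m := by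
    have h0 : Measurable fun x : Eu (2 * m + 2) => ⟪p, hat x⟫ :=
      (measurable_const.inner (expl_hat_meas _))
    exact ((measurable_const.sub (h0.pow_const 2)).inv).pow_const m
  have hbG : 0 ≤ bGZ m * bv (2 * m + 2) := by
    have : 0 ≤ bGZ m := by unfold bGZ; positivity
    exact mul_nonneg this ENNReal.toReal_nonneg
  refine ⟨⟨hm.aestronglyMeasurable, ?_⟩, ?_⟩
  · rw [hasFiniteIntegral_iff_ofReal (ae_of_all _ hnn), hl]
    exact ENNReal.ofReal_lt_top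
  · rw [integral_eq_lintegral_of_nonneg_ae (ae_of_all _ hnn) hm.aestronglyMeasurable, hl,
      ENNReal.toReal_ofReal hbG]

end Pool.UVF
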