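import Pool.Agent.Lib.MP_28fba0_gt.UV.Defs

/-!
# UV-ExtA (part of Ext): the `1`-homogeneous extension of a field
-/

open Matrix Real
open scoped RealInnerProductSpace

namespace Pool.UVF

variable {d : ℕ}

theorem norm_hat_aux {x : Eu d} (hx : x ≠ 0) : ‖hat x‖ = 1 := by
  have hn : 0 < ‖x‖ := norm_pos_iff.mpr hx
  rw [hat, norm_smul, norm_inv, norm_norm, inv_mul_cancel₀ hn.ne']

theorem hat_smul_aux {s : ℝ} (hs : 0 < s) (x : Eu d) : hat (s • x) = hat x := by
  rw [hat, hat, norm_smul, Real.norm_eq_abs, abs_of_pos hs, smul_smul, mul_inv, mul_assoc,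
    mul_comm, mul_assoc, mul_inv_cancel₀ hs.ne', mul_one]

theorem homField_Uext {V : Eu d → Eu d} (hV : IsField V) : HomField (Uext V) := by
  constructor
  · intro x hx
    have hx0 : x ≠ 0 := hx
    have h1 : ContDiffAt ℝ 1 (fun y : Eu d => ‖y‖) x := contDiffAt_norm ℝ hx0
    have h2 : ContDiffAt ℝ 1 (fun y : Eu d => ‖y‖⁻¹) x := h1.inv (norm_ne_zero_iff.mpr hx0)
    have h3 : ContDiffAt ℝ 1 (hat : Eu d → Eu d) x := h2.smul contDiffAt_id
    have hh : hat x ≠ 0 := by
      intro h
      have := norm_hat_aux hx0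
      rw [h, norm_zero] at this
      exact zero_ne_one this
    have h4 : ContDiffAt ℝ 1 V (hat x) :=
      hV.smooth.contDiffAt (isOpen_compl_singleton.mem_nhds hh)
    exact (h1.smul (h4.comp x h3)).contDiffWithinAt
  · intro s hs x
    rcases hs.eq_or_lt with h | h
    · subst h
      simp [Uext]
    · rw [Uext, Uext, hat_smul_aux h, norm_smul, Real.norm_eq_abs, abs_of_pos h, mul_smul]
  · intro x
    by_cases hx : x = 0
    · subst hx
      simp [Uext]
    · rw [Uext, norm_smul, norm_norm, hV.norm _ (norm_hat_aux hx), mul_one]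
  · intro x
    by_cases hx : x = 0
    · subst hx
      simp
    · have hn : 0 < ‖x‖ := norm_pos_iff.mpr hx
      have h := hV.tangent _ (norm_hat_aux hx)
      rw [Uext, real_inner_smul_right]
      have h2 : ⟪x, V (hat x)⟫ = 0 := by
        have h3 : ⟪hat x, V (hat x)⟫ = ‖x‖⁻¹ * ⟪x, V (hat x)⟫ := by
          conv_lhs => rw [show ⟪hat x, V (hat x)⟫ = ⟪‖x‖⁻¹ • x, V (hat x)⟫ from rfl]
          rw [real_inner_smul_left]
        rw [h3] at h
        rcases mul_eq_zero.mp h with h4 | h4
        · exact absurd h4 (inv_pos.mpr hn).ne'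
        · exact h4
      rw [h2, mul_zero]

end Pool.UVF
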