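import Pool.Agent.Lib.MP_28fba0_gt.UV.Defs
import Pool.Agent.Lib.MP_28fba0_gt.UV.ExtA

open Matrix Real
open scoped RealInnerProductSpace

namespace Pool.UVF

variable {d : ℕ}

theorem extB_norm {x : Eu d} (hx : ‖x‖ = 1) :
    HasFDerivAt (fun y : Eu d => ‖y‖) (innerSL ℝ x) x := by
  have hx0 : x ≠ 0 := by
    rintro rfl
    simp at hx
  have h1 := (hasStrictFDerivAt_norm_sq x).hasFDerivAt
  have h2 : HasDerivAt Real.sqrt (1 / (2 * √ (‖x‖ ^ 2))) (‖x‖ ^ 2) :=
    Real.hasDerivAt_sqrt (by positivity)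
  have h3 := h2.comp_hasFDerivAt x h1
  have h4 : (Real.sqrt ∘ fun y : Eu d => ‖y‖ ^ 2) = fun y => ‖y‖ := by
    funext y
    simp [Real.sqrt_sq (norm_nonneg y)]
  rw [h4] at h3
  refine h3.congr_fderiv ?_
  rw [hx]
  ext w
  simp

theorem extB_hat {x : Eu d} (hx : ‖x‖ = 1) :
    HasFDerivAt (hat : Eu d → Eu d) (tproj x) x := by
  have h1 := extB_norm hx
  have h2 : HasFDerivAt (fun y : Eu d => (‖y‖)⁻¹) (-(innerSL ℝ x)) x := by
    have h3 := (hasDerivAt_inv (x := ‖x‖) (by rw [hx]; exact one_ne_zero)).comp_hasFDerivAt x h1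
    refine h3.congr_fderiv ?_
    rw [hx]
    ext w
    simp
  have h3 := h2.smul (hasFDerivAt_id x)
  refine h3.congr_fderiv ?_
  ext w i
  simp [tproj, hx]
  ring

theorem extB_hat_self {x : Eu d} (hx : ‖x‖ = 1) : hat x = x := by
  simp [hat, hx]

theorem extB_V {V : Eu d → Eu d} (hV : IsField V) {x : Eu d} (hx : ‖x‖ = 1) :
    HasFDerivAt V (fderiv ℝ V x) x := by
  have hx0 : x ≠ 0 := by
    rintro rfl
    simp at hx
  have h1 : ContDiffAt ℝ 1 V x := hV.smooth.contDiffAt (isOpen_compl_singleton.mem_nhds hx0)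
  exact (h1.differentiableAt (by norm_num)).hasFDerivAt

theorem extB_Vhat {V : Eu d → Eu d} (hV : IsField V) {x : Eu d} (hx : ‖x‖ = 1) :
    HasFDerivAt (fun y => V (hat y)) ((fderiv ℝ V x) ∘L (tproj x)) x := by
  have h2 := extB_V hV hx
  have h3 : HasFDerivAt V (fderiv ℝ V x) (hat x) := by
    rw [extB_hat_self hx]; exact h2
  exact h3.comp x (extB_hat hx)

theorem extB_U {V : Eu d → Eu d} (hV : IsField V) {x : Eu d} (hx : ‖x‖ = 1) (w : Eu d) :
    fderiv ℝ (Uext V) x w = ⟪x, w⟫ • V x + fderiv ℝ V x (tproj x w) := by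
  have h1 := (extB_norm hx).smul (extB_Vhat hV hx)
  have h2 : fderiv ℝ (Uext V) x = _ := h1.fderiv
  rw [h2]
  simp [hx, extB_hat_self hx]
  abel

theorem extB_inner {V : Eu d → Eu d} (hV : IsField V) {x : Eu d} (hx : ‖x‖ = 1) (w : Eu d) :
    ⟪x, fderiv ℝ V x (tproj x w)⟫ = - ⟪V x, w⟫ := by
  have hx0 : x ≠ 0 := by
    rintro rfl
    simp at hx
  have h1 := (extB_hat hx).inner ℝ (extB_Vhat hV hx)
  have h2 : (fun y : Eu d => ⟪hat y, V (hat y)⟫) =ᶠ[nhds x] fun _ => (0 : ℝ) := by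
    filter_upwards [isOpen_compl_singleton.mem_nhds hx0] with y hy
    have hy0 : y ≠ 0 := hy
    refine hV.tangent (hat y) ?_
    simp [hat, norm_smul, hy0]
  have h3 : HasFDerivAt (fun y : Eu d => ⟪hat y, V (hat y)⟫) (0 : Eu d →L[ℝ] ℝ) x :=
    (hasFDerivAt_const (0 : ℝ) x).congr_of_eventuallyEq h2
  have h4 := h1.unique h3
  have h5 := congrArg (fun L : Eu d →L[ℝ] ℝ => L w) h4
  simp only [ContinuousLinearMap.coe_comp, Function.comp_apply, _root_.zero_apply,
    fderivInnerCLM_apply, ContinuousLinearMap.prod_apply] at h5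
  rw [extB_hat_self hx] at h5
  have h6 : ⟪tproj x w, V x⟫ = ⟪V x, w⟫ := by
    simp only [tproj, _root_.sub_apply, ContinuousLinearMap.id_apply,
      ContinuousLinearMap.smulRight_apply, innerSL_apply_apply, inner_sub_left, inner_smul_left,
      hV.tangent x hx, mul_zero, sub_zero]
    rw [real_inner_comm]
  linarith

theorem dens_eq {V : Eu d → Eu d} (hV : IsField V) {x : Eu d} (hx : ‖x‖ = 1) :
    DD (Uext V) x = dens V x := by
  have hv : vh (Uext V) x = V x := by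
    simp [vh, Uext, hx, extB_hat_self hx]
  set b := (EuclideanSpace.basisFun (Fin d) ℝ) with hb
  have hN : Am (Uext V) x
      = LinearMap.toMatrix b.toBasis b.toBasis ((nabla V x : Eu d →L[ℝ] Eu d) : Eu d →ₗ[ℝ] Eu d) := by
    ext j i
    rw [LinearMap.toMatrix_apply]
    have h1 : fderiv ℝ (Uext V) x (EuclideanSpace.single i (1 : ℝ))
        = ⟪x, EuclideanSpace.single i (1 : ℝ)⟫ • V x
          + fderiv ℝ V x (tproj x (EuclideanSpace.single i (1 : ℝ))) := extB_U hV hx _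
    have h2 : nabla V x (EuclideanSpace.single i (1 : ℝ))
        = fderiv ℝ V x (tproj x (EuclideanSpace.single i (1 : ℝ)))
          + ⟪V x, EuclideanSpace.single i (1 : ℝ)⟫ • x := by
      have h3 := extB_inner hV hx (EuclideanSpace.single i (1 : ℝ))
      have h4 : ∀ z : Eu d, tproj x z = z - ⟪x, z⟫ • x := fun z => rfl
      have h5 : nabla V x (EuclideanSpace.single i (1 : ℝ))
        = tproj x (fderiv ℝ V x (tproj x (EuclideanSpace.single i (1 : ℝ)))) := rfl
      rw [h5, h4 (fderiv ℝ V x (tproj x (EuclideanSpace.single i (1 : ℝ)))), h3, neg_smul,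
        sub_neg_eq_add]
    simp only [Am, jac, Matrix.add_apply, Matrix.sub_apply, Matrix.of_apply, Matrix.vecMulVec_apply,
      hv, extB_hat_self hx, h1]
    simp only [hb, OrthonormalBasis.coe_toBasis_repr_apply]
    simp [h2, EuclideanSpace.inner_single_right]
    ring
  unfold DD dens
  congr 1
  rw [← LinearMap.det_toMatrix b.toBasis]
  congr 1
  rw [hN]
  have h5 : (((1 : Eu d →L[ℝ] Eu d) +
    (ContinuousLinearMap.adjoint (nabla V x)) ∘L (nabla V x) : Eu d →L[ℝ] Eu d) : Eu d →ₗ[ℝ] Eu d)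
    = LinearMap.id + (LinearMap.adjoint ((nabla V x : Eu d →L[ℝ] Eu d) : Eu d →ₗ[ℝ] Eu d)) ∘ₗ
      ((nabla V x : Eu d →L[ℝ] Eu d) : Eu d →ₗ[ℝ] Eu d) := by
    ext w i
    simp [LinearMap.adjoint_eq_toCLM_adjoint]
    rfl
  rw [h5, map_add, LinearMap.toMatrix_id, LinearMap.toMatrix_comp b.toBasis b.toBasis b.toBasis,
    LinearMap.toMatrix_adjoint]
  rfl

end Pool.UVF
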