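import Pool.Agent.Lib.MP_28fba0_gt.UV.Defs

/-!
# UV-WeakL2: weak sequential compactness in `L²`

The Hilbert space `H = Lp (Eu q) 2 μ` is separable (`μ` a finite Borel measure on `ℝ^d`); a bounded
sequence has a weakly convergent subsequence: `WeakDual.isSeqCompact_closedBall` and the Riesz
isomorphism (see `outputs/live/Pool/Agent/Lib/MP_ad5d82_an/h24/H/H3a.lean` and
`MP_f761d9_an/CZero.lean` for the pattern).  The limit has a measurable representative; test with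
`h • e_i`.  (Alternatively apply the scalar case `q` times.)
-/

open Real Set MeasureTheory Filter Topology

namespace Pool.UVF

private theorem weakL2_hilbert {H : Type*} [NormedAddCommGroup H] [InnerProductSpace ℝ H]
    [CompleteSpace H] [TopologicalSpace.SeparableSpace H] (x : ℕ → H) (M : ℝ)
    (hM : ∀ n, ‖x n‖ ≤ M) :
    ∃ v : H, ∃ k : ℕ → ℕ, StrictMono k ∧
      ∀ y : H, Tendsto (fun n => inner ℝ (x (k n)) y) atTop (𝓝 (inner ℝ v y)) := by
  have hseq := WeakDual.isSeqCompact_closedBall ℝ H 0 M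
  let f : ℕ → WeakDual ℝ H := fun n =>
    StrongDual.toWeakDual (InnerProductSpace.toDual ℝ H (x n))
  have hf : ∀ n, f n ∈ (WeakDual.toStrongDual ⁻¹' Metric.closedBall (0 : StrongDual ℝ H) M) := by
    intro n
    rw [mem_preimage, mem_closedBall_zero_iff]
    change ‖InnerProductSpace.toDual ℝ H (x n)‖ ≤ M
    rw [LinearIsometryEquiv.norm_map]
    exact hM n
  obtain ⟨φ, -, k, hk, hlim⟩ := hseq hf
  set v : H := (InnerProductSpace.toDual ℝ H).symm (WeakDual.toStrongDual φ) with hv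
  refine ⟨v, k, hk, ?_⟩
  intro y
  have h1 := (WeakDual.eval_continuous (𝕜 := ℝ) y).tendsto φ
  have h2 := h1.comp hlim
  have h3 : inner ℝ v y = φ y := by
    rw [hv, InnerProductSpace.toDual_symm_apply]
    rfl
  rw [h3]
  exact h2

private theorem weakL2_scalar {d : ℕ} (μ : Measure (Eu d)) [IsFiniteMeasure μ]
    (f : ℕ → Eu d → ℝ) (hf : ∀ k, AEStronglyMeasurable (f k) μ)
    (hint : ∀ k, Integrable (fun x => f k x ^ 2) μ) (C : ℝ)
    (hC : ∀ k, ∫ x, f k x ^ 2 ∂μ ≤ C) :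
    ∃ φ : ℕ → ℕ, StrictMono φ ∧ ∃ g : Eu d → ℝ,
      (Measurable g ∧ Integrable (fun x => g x ^ 2) μ) ∧
      ∀ h : Eu d → ℝ, MemLp h 2 μ →
        Tendsto (fun k => ∫ x, f (φ k) x * h x ∂μ) atTop (𝓝 (∫ x, g x * h x ∂μ)) := by
  have hm : ∀ k, MemLp (f k) 2 μ := fun k => (memLp_two_iff_integrable_sq (hf k)).2 (hint k)
  have hinner : ∀ (a b : Eu d → ℝ) (ha : MemLp a 2 μ) (hb : MemLp b 2 μ),
      inner ℝ (ha.toLp a) (hb.toLp b) = ∫ x, a x * b x ∂μ := by
    intro a b ha hb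
    rw [MeasureTheory.L2.inner_def]
    apply integral_congr_ae
    filter_upwards [ha.coeFn_toLp, hb.coeFn_toLp] with x h1 h2
    rw [h1, h2]
    simp [mul_comm]
  haveI : Fact ((2 : ENNReal) ≠ ⊤) := ⟨by norm_num⟩
  obtain ⟨v, φ, hφ, hlim⟩ := weakL2_hilbert (H := Lp ℝ 2 μ) (fun k => (hm k).toLp (f k))
    (Real.sqrt C) (by
      intro n
      apply Real.le_sqrt_of_sq_le
      rw [← real_inner_self_eq_norm_sq, hinner]
      refine le_trans (le_of_eq ?_) (hC n)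
      congr 1
      ext x
      ring)
  obtain ⟨g, hg1, hg2⟩ := (Lp.memLp v).aestronglyMeasurable.aemeasurable
  have hv : MemLp g 2 μ := (memLp_congr_ae hg2).1 (Lp.memLp v)
  have hvg : v = hv.toLp g := by
    apply Lp.ext
    exact hg2.trans hv.coeFn_toLp.symm
  refine ⟨φ, hφ, g, ⟨hg1, (memLp_two_iff_integrable_sq hv.aestronglyMeasurable).1 hv⟩, ?_⟩
  intro h hh
  have := hlim (hh.toLp h)
  rw [hvg, hinner] at this
  simpa only [hinner] using this

private theorem weakL2_finset {d q : ℕ} (μ : Measure (Eu d)) [IsFiniteMeasure μ]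
    (f : ℕ → Fin q → Eu d → ℝ) (hf : ∀ k i, AEStronglyMeasurable (f k i) μ)
    (hint : ∀ k i, Integrable (fun x => f k i x ^ 2) μ) (C : ℝ)
    (hC : ∀ k i, ∫ x, f k i x ^ 2 ∂μ ≤ C) (s : Finset (Fin q)) :
    ∃ φ : ℕ → ℕ, StrictMono φ ∧ ∃ g : Fin q → Eu d → ℝ, ∀ i ∈ s,
      (Measurable (g i) ∧ Integrable (fun x => g i x ^ 2) μ) ∧
      ∀ h : Eu d → ℝ, MemLp h 2 μ →
        Tendsto (fun k => ∫ x, f (φ k) i x * h x ∂μ) atTop (𝓝 (∫ x, g i x * h x ∂μ)) := by
  classical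
  induction s using Finset.induction_on with
  | empty => exact ⟨id, strictMono_id, fun _ _ => 0, by simp⟩
  | insert a s ha ih =>
    obtain ⟨φ, hφ, g, hg⟩ := ih
    obtain ⟨ψ, hψ, g', hg', hl⟩ := weakL2_scalar μ (fun k => f (φ k) a) (fun k => hf _ _)
      (fun k => hint _ _) C (fun k => hC _ _)
    refine ⟨φ ∘ ψ, hφ.comp hψ, fun i => if i = a then g' else g i, ?_⟩
    intro i hi
    rcases Finset.mem_insert.1 hi with rfl | hi
    · simp only [if_true]
      exact ⟨hg', hl⟩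
    · have hne : i ≠ a := fun h => ha (h ▸ hi)
      simp only [if_neg hne]
      exact ⟨(hg i hi).1, fun h hh => ((hg i hi).2 h hh).comp hψ.tendsto_atTop⟩

theorem weak_compact {d q : ℕ} (μ : Measure (Eu d)) [IsFiniteMeasure μ]
    (f : ℕ → Fin q → Eu d → ℝ) (hf : ∀ k i, AEStronglyMeasurable (f k i) μ)
    (hint : ∀ k i, Integrable (fun x => f k i x ^ 2) μ) (C : ℝ)
    (hC : ∀ k i, ∫ x, f k i x ^ 2 ∂μ ≤ C) :
    ∃ φ : ℕ → ℕ, StrictMono φ ∧ ∃ g : Fin q → Eu d → ℝ,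
      (∀ i, Measurable (g i) ∧ Integrable (fun x => g i x ^ 2) μ) ∧
      ∀ i, ∀ h : Eu d → ℝ, MemLp h 2 μ →
        Tendsto (fun k => ∫ x, f (φ k) i x * h x ∂μ) atTop (𝓝 (∫ x, g i x * h x ∂μ)) := by
  obtain ⟨φ, hφ, g, hg⟩ := weakL2_finset μ f hf hint C hC Finset.univ
  exact ⟨φ, hφ, g, fun i => (hg i (Finset.mem_univ i)).1, fun i => (hg i (Finset.mem_univ i)).2⟩

end Pool.UVF
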