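import Pool.Agent.Lib.MP_28fba0_gt.UV.Deficit2
import Pool.Agent.Lib.MP_28fba0_gt.UV.WeakL2

/-!
# UV-ExtractB: subsequence of the `λ_k`
-/

open Real Set MeasureTheory Filter Topology

namespace Pool.UVF

private theorem exB_noAtoms (m : ℕ) : NullSingletonClass (volume : Measure (Eu (2 * m + 2))) := by
  have : Nontrivial (Eu (2 * m + 2)) := by
    refine ⟨⟨EuclideanSpace.single 0 1, 0, ?_⟩⟩
    intro h
    have := congrArg (fun v : Eu (2 * m + 2) => v 0) h
    simp at this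
  infer_instance

private theorem exB_ae (m : ℕ) : ∀ᵐ x ∂(mB (2 * m + 2)), x ≠ 0 := by
  have := exB_noAtoms m
  refine ae_restrict_of_ae ?_
  rw [ae_iff]
  simp

private theorem exB_meas (m : ℕ) {f : Eu (2 * m + 2) → ℝ} (hf : ContinuousOn f {0}ᶜ) :
    AEStronglyMeasurable f (mB (2 * m + 2)) := by
  have := exB_noAtoms m
  have h1 : AEStronglyMeasurable f (volume.restrict ({0}ᶜ : Set (Eu (2 * m + 2)))) :=
    hf.aestronglyMeasurable (measurableSet_singleton _).compl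
  rw [restrict_compl_singleton] at h1
  exact h1.restrict

private theorem exB_fin (d : ℕ) : IsFiniteMeasure (mB d) := by
  refine ⟨?_⟩
  rw [mB, Measure.restrict_apply_univ]
  exact measure_ball_lt_top

theorem exists_sub_lam (m : ℕ) (hm : 2 ≤ m) (U : ℕ → Eu (2 * m + 2) → Eu (2 * m + 2))
    (hU : ∀ k, HomField (U k))
    (hD : ∀ k : ℕ, ∫ x, DD (U k) x ∂(mB (2 * m + 2))
      ≤ (bGZ m + 1 / ((k : ℝ) + 1)) * bv (2 * m + 2)) :
    ∃ φ : ℕ → ℕ, StrictMono φ ∧ ∃ lam : Eu (2 * m + 2) → ℝ, Measurable lam ∧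
      Integrable (fun x => lam x ^ 2) (mB (2 * m + 2)) ∧
      ∀ h : Eu (2 * m + 2) → ℝ, MemLp h 2 (mB (2 * m + 2)) →
        Tendsto (fun k => ∫ x, lamOf m (Tm (U (φ k)) x) * h x ∂(mB (2 * m + 2))) atTop
          (𝓝 (∫ x, lam x * h x ∂(mB (2 * m + 2)))) := by
  have := exB_fin (2 * m + 2)
  have hmeas : ∀ k, AEStronglyMeasurable (fun x => lamOf m (Tm (U k) x)) (mB (2 * m + 2)) :=
    fun k => exB_meas m ((hU k).lam_continuousOn hm)
  have hle : ∀ k, ∀ᵐ x ∂(mB (2 * m + 2)), lamOf m (Tm (U k) x) ^ 2 ≤ DD (U k) x := by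
    intro k
    filter_upwards [exB_ae m] with x hx
    have h1 := (hU k).lam_pow_le hm hx
    have h2 : (0 : ℝ) ≤ lamOf m (Tm (U k) x) ^ 2 := sq_nonneg _
    have h3 : 1 + lamOf m (Tm (U k) x) ^ 2 ≤ (1 + lamOf m (Tm (U k) x) ^ 2) ^ m :=
      le_self_pow₀ (by linarith) (by omega)
    linarith
  have hint : ∀ k, Integrable (fun x => lamOf m (Tm (U k) x) ^ 2) (mB (2 * m + 2)) := by
    intro k
    refine (hU k).integrable_DD.mono' ((hmeas k).pow 2) ?_
    filter_upwards [hle k] with x hx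
    rw [Real.norm_of_nonneg (sq_nonneg _)]
    exact hx
  have hbv : 0 ≤ bv (2 * m + 2) := ENNReal.toReal_nonneg
  have hC : ∀ k, ∫ x, lamOf m (Tm (U k) x) ^ 2 ∂(mB (2 * m + 2)) ≤
      (bGZ m + 1) * bv (2 * m + 2) := by
    intro k
    refine (integral_mono_ae (hint k) (hU k).integrable_DD (hle k)).trans ((hD k).trans ?_)
    refine mul_le_mul_of_nonneg_right ?_ hbv
    have : 1 / ((k : ℝ) + 1) ≤ 1 := by
      rw [div_le_one (by positivity)]
      have : (0 : ℝ) ≤ (k : ℝ) := Nat.cast_nonneg k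
      linarith
    linarith
  obtain ⟨φ, hφ, g, hg, hw⟩ := weak_compact (q := 1) (mB (2 * m + 2))
    (fun k _ x => lamOf m (Tm (U k) x)) (fun k _ => hmeas k) (fun k _ => hint k)
    ((bGZ m + 1) * bv (2 * m + 2)) (fun k _ => hC k)
  exact ⟨φ, hφ, g 0, (hg 0).1, (hg 0).2, fun h hh => hw 0 h hh⟩

end Pool.UVF
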