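import Pool.Agent.Lib.MP_28fba0_gt.UV.Deficit2

open Real Set MeasureTheory Filter Topology

namespace Pool.UVF

theorem errU_nonneg' (m : ℕ) {d : ℕ} (U : Eu d → Eu d) (x : Eu d) : 0 ≤ errU m U x := by
  unfold errU
  exact Finset.sum_nonneg fun j _ => Finset.sum_nonneg fun i _ => abs_nonneg _

theorem err_tendsto (m : ℕ) (hm : 2 ≤ m) (U : ℕ → Eu (2 * m + 2) → Eu (2 * m + 2))
    (hU : ∀ k, HomField (U k))
    (hD : ∀ k : ℕ, ∫ x, DD (U k) x ∂(mB (2 * m + 2))
      ≤ (bGZ m + 1 / ((k : ℝ) + 1)) * bv (2 * m + 2)) :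
    Tendsto (fun k => ∫ x, errU m (U k) x ∂(mB (2 * m + 2))) atTop (𝓝 0) := by
  obtain ⟨C, hC, h⟩ := err_le m hm
  have h1 : Tendsto (fun k : ℕ => C * √ (1 / ((k : ℝ) + 1))) atTop (𝓝 0) := by
    have h2 := (tendsto_one_div_add_atTop_nhds_zero_nat (𝕜 := ℝ)).sqrt.const_mul C
    simpa using h2
  refine squeeze_zero (fun k => integral_nonneg fun x => errU_nonneg' m _ _) (fun k => ?_) h1
  refine h (U k) (hU k) _ (by positivity) ?_ (hD k)
  rw [div_le_one (by positivity)]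
  have : (0 : ℝ) ≤ k := by positivity
  linarith

theorem exists_sub_err (m : ℕ) (hm : 2 ≤ m) (U : ℕ → Eu (2 * m + 2) → Eu (2 * m + 2))
    (hU : ∀ k, HomField (U k))
    (h : Tendsto (fun k => ∫ x, errU m (U k) x ∂(mB (2 * m + 2))) atTop (𝓝 0)) :
    ∃ φ : ℕ → ℕ, StrictMono φ ∧
      ∀ᵐ x ∂(mB (2 * m + 2)), Tendsto (fun k => errU m (U (φ k)) x) atTop (𝓝 0) := by
  have hi : ∀ k, Integrable (errU m (U k)) (mB (2 * m + 2)) := fun k =>
    (hU k).integrable_err hm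
  have h1 : TendstoInMeasure (mB (2 * m + 2)) (fun k => errU m (U k)) atTop (fun _ => (0 : ℝ)) := by
    refine tendstoInMeasure_of_tendsto_eLpNorm (p := 1) one_ne_zero (fun k => (hi k).1)
      aestronglyMeasurable_const ?_
    have h2 : ∀ k, eLpNorm (errU m (U k) - fun _ => (0 : ℝ)) 1 (mB (2 * m + 2))
        = ENNReal.ofReal (∫ x, errU m (U k) x ∂(mB (2 * m + 2))) := by
      intro k
      rw [eLpNorm_one_eq_lintegral_enorm, ofReal_integral_eq_lintegral_ofReal (hi k)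
        (Eventually.of_forall fun x => errU_nonneg' m _ _)]
      refine lintegral_congr fun x => ?_
      simp only [Pi.sub_apply, sub_zero]
      rw [Real.enorm_eq_ofReal (errU_nonneg' m _ _)]
    simp_rw [h2]
    have h3 := ENNReal.tendsto_ofReal h
    simpa using h3
  obtain ⟨φ, hφ, hae⟩ := h1.exists_seq_tendsto_ae
  exact ⟨φ, hφ, hae⟩

end Pool.UVF
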