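import Pool.Agent.Lib.MP_28fba0_gt.UV.ExtractA
import Pool.Agent.Lib.MP_28fba0_gt.UV.ExtractB
import Pool.Agent.Lib.MP_28fba0_gt.UV.ExtractC

open Real Set MeasureTheory Filter Topology

namespace Pool.UVF

theorem exists_convData (m : ℕ) (hm : 2 ≤ m) (U : ℕ → Eu (2 * m + 2) → Eu (2 * m + 2))
    (hU : ∀ k, HomField (U k))
    (hD : ∀ k : ℕ, ∫ x, DD (U k) x ∂(mB (2 * m + 2))
      ≤ (bGZ m + 1 / ((k : ℝ) + 1)) * bv (2 * m + 2)) :
    ∃ (U' : ℕ → Eu (2 * m + 2) → Eu (2 * m + 2)) (V : Eu (2 * m + 2) → Eu (2 * m + 2))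
      (lam : Eu (2 * m + 2) → ℝ), ConvData m U' V lam := by
  have hbv : 0 ≤ bv (2 * m + 2) := ENNReal.toReal_nonneg
  have hsub : ∀ (W : ℕ → Eu (2 * m + 2) → Eu (2 * m + 2)),
      (∀ k : ℕ, ∫ x, DD (W k) x ∂(mB (2 * m + 2))
        ≤ (bGZ m + 1 / ((k : ℝ) + 1)) * bv (2 * m + 2)) → ∀ φ : ℕ → ℕ, StrictMono φ →
      ∀ k : ℕ, ∫ x, DD (W (φ k)) x ∂(mB (2 * m + 2))
        ≤ (bGZ m + 1 / ((k : ℝ) + 1)) * bv (2 * m + 2) := by
    intro W hW φ hφ k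
    refine (hW (φ k)).trans (mul_le_mul_of_nonneg_right ?_ hbv)
    have h1 : (k : ℝ) ≤ (φ k : ℝ) := by exact_mod_cast hφ.id_le k
    have h2 : 1 / ((φ k : ℝ) + 1) ≤ 1 / ((k : ℝ) + 1) :=
      one_div_le_one_div_of_le (by positivity) (by linarith)
    linarith
  obtain ⟨φ1, hφ1, V, hV, hVt⟩ := exists_sub_fields m hm U hU hD
  obtain ⟨φ2, hφ2, lam, hlam, hl2, hw⟩ := exists_sub_lam m hm (fun k => U (φ1 k))
    (fun k => hU _) (hsub U hD φ1 hφ1)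
  have hD2 := hsub (fun k => U (φ1 k)) (hsub U hD φ1 hφ1) φ2 hφ2
  have herr := err_tendsto m hm (fun k => U (φ1 (φ2 k))) (fun k => hU _) hD2
  obtain ⟨φ3, hφ3, he⟩ := exists_sub_err m hm (fun k => U (φ1 (φ2 k))) (fun k => hU _) herr
  refine ⟨fun k => U (φ1 (φ2 (φ3 k))), V, lam, ?_⟩
  have ht3 := hφ3.tendsto_atTop
  have ht2 := hφ2.tendsto_atTop
  exact
    { hU := fun k => hU _
      hD := hsub (fun k => U (φ1 (φ2 k))) hD2 φ3 hφ3
      mV := hV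
      mlam := hlam
      l2 := hl2
      aeV := hVt.mono fun x hx => hx.comp (ht2.comp ht3)
      weak := fun h hh => (hw h hh).comp ht3
      err := herr.comp ht3
      aeErr := he }

end Pool.UVF
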