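import Pool.Agent.Lib.MP_28fba0_gt.UV.StrongDef

/-!
# UV-StrongB: weak convergence ⇒ convergence of the averages in `L¹(B)`

For every `x ∈ B`, `avg η (U_k i) x → avg η (W i) x`: weak convergence tested with the indicator
function of `ball x η ⊆ ball 0 2` (translate the integral).  `|avg η (U_k i)| ≤ 2` on `B`; dominated
convergence (finite measure; measurability of `avg`: it is continuous, or Fubini).
-/

open Real Set MeasureTheory Filter Topology

namespace Pool.UVF

variable {d : ℕ}

private theorem strongB_avg_eq (f : Eu d → ℝ) {η : ℝ} (h1 : η ≤ 1) {x : Eu d}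
    (hx : x ∈ Metric.ball (0 : Eu d) 1) :
    avg η f x = ((volume (Metric.ball (0 : Eu d) η)).toReal)⁻¹ *
      ∫ y in Metric.ball (0 : Eu d) 2, f y * (Metric.ball x η).indicator (fun _ => (1 : ℝ)) y := by
  unfold avg
  congr 1
  rw [← integral_indicator measurableSet_ball]
  have e1 : (fun h => (Metric.ball (0 : Eu d) η).indicator (fun h => f (x + h)) h) =
      fun h => (fun y => (Metric.ball x η).indicator f y) (x + h) := by
    ext h
    simp only [indicator, Metric.mem_ball, dist_zero_right, dist_self_add_left]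
  have e2 : (∫ h, (Metric.ball (0 : Eu d) η).indicator (fun h => f (x + h)) h) =
      ∫ y, (Metric.ball x η).indicator f y := by
    rw [show (fun h => (Metric.ball (0 : Eu d) η).indicator (fun h => f (x + h)) h) =
      fun h => (fun y => (Metric.ball x η).indicator f y) (x + h) from e1]
    exact integral_add_left_eq_self (fun y => (Metric.ball x η).indicator f y) x
  rw [e2]
  have hsub : Metric.ball x η ⊆ Metric.ball (0 : Eu d) 2 := by
    intro y hy
    rw [Metric.mem_ball, dist_zero_right] at hx
    rw [Metric.mem_ball] at hy ⊢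
    rw [dist_zero_right]
    have : ‖y‖ ≤ ‖y - x‖ + ‖x‖ := by
      have := norm_add_le (y - x) x
      rwa [sub_add_cancel] at this
    rw [dist_eq_norm] at hy
    linarith
  rw [← integral_indicator measurableSet_ball]
  congr 1
  ext y
  by_cases hy : y ∈ Metric.ball x η
  · rw [indicator_of_mem hy, indicator_of_mem (hsub hy), indicator_of_mem hy, mul_one]
  · rw [indicator_of_notMem hy]
    by_cases hy2 : y ∈ Metric.ball (0 : Eu d) 2
    · rw [indicator_of_mem hy2, indicator_of_notMem hy, mul_zero]
    · rw [indicator_of_notMem hy2]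

private theorem strongB_meas {f : Eu d → ℝ} (hf : Measurable f) (η : ℝ) :
    StronglyMeasurable (avg η f) := by
  unfold avg
  refine StronglyMeasurable.const_mul ?_ _
  have h : StronglyMeasurable (Function.uncurry fun (x h : Eu d) => f (x + h)) := by
    apply Measurable.stronglyMeasurable
    exact hf.comp (measurable_fst.add measurable_snd)
  exact h.integral_prod_right

private theorem strongB_ind (x : Eu d) (η : ℝ) :
    MemLp (fun y => (Metric.ball x η).indicator (fun _ => (1 : ℝ)) y) 2
      (volume.restrict (Metric.ball (0 : Eu d) 2)) := by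
  have : IsFiniteMeasure (volume.restrict (Metric.ball (0 : Eu d) 2)) :=
    ⟨by rw [Measure.restrict_apply_univ]; exact measure_ball_lt_top⟩
  exact MemLp.indicator measurableSet_ball (memLp_const _)

private theorem strongB_abs_int (f : Eu d → ℝ) (hf : Integrable f
      (volume.restrict (Metric.ball (0 : Eu d) 2))) (x : Eu d) (η : ℝ) :
    |∫ y in Metric.ball (0 : Eu d) 2, f y * (Metric.ball x η).indicator (fun _ => (1 : ℝ)) y| ≤
      ∫ y in Metric.ball (0 : Eu d) 2, |f y| := by
  refine (abs_integral_le_integral_abs).trans ?_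
  refine integral_mono_of_nonneg (Eventually.of_forall fun y => abs_nonneg _) hf.abs
    (Eventually.of_forall fun y => ?_)
  simp only [abs_mul]
  refine mul_le_of_le_one_right (abs_nonneg _) ?_
  by_cases hy : y ∈ Metric.ball x η
  · rw [indicator_of_mem hy]; simp
  · rw [indicator_of_notMem hy]; simp

theorem avg_tendsto_of_weak (U : ℕ → Eu d → Eu d) (hmeas : ∀ k, Measurable (U k))
    (hb : ∀ k x, ‖U k x‖ ≤ ‖x‖) (W : Fin d → Eu d → ℝ)
    (hW : ∀ i, Measurable (W i) ∧
      Integrable (fun x => W i x ^ 2) (volume.restrict (Metric.ball (0 : Eu d) 2)))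
    (hweak : ∀ i, ∀ h : Eu d → ℝ, MemLp h 2 (volume.restrict (Metric.ball (0 : Eu d) 2)) →
      Tendsto (fun k => ∫ x in Metric.ball (0 : Eu d) 2, U k x i * h x) atTop
        (𝓝 (∫ x in Metric.ball (0 : Eu d) 2, W i x * h x)))
    {η : ℝ} (h0 : 0 < η) (h1 : η ≤ 1) (i : Fin d) :
    Tendsto (fun k => ∫ x, |avg η (fun y => U k y i) x - avg η (W i) x| ∂(mB d)) atTop (𝓝 0) := by
  set c : ℝ := ((volume (Metric.ball (0 : Eu d) η)).toReal)⁻¹ with hc
  have hc0 : 0 ≤ c := inv_nonneg.2 ENNReal.toReal_nonneg
  haveI hfin : IsFiniteMeasure (volume.restrict (Metric.ball (0 : Eu d) 2)) :=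
    ⟨by rw [Measure.restrict_apply_univ]; exact measure_ball_lt_top⟩
  haveI hfinB : IsFiniteMeasure (mB d) :=
    ⟨by rw [mB, Measure.restrict_apply_univ]; exact measure_ball_lt_top⟩
  -- integrability on the ball of radius 2
  have hWint : Integrable (W i) (volume.restrict (Metric.ball (0 : Eu d) 2)) := by
    have h2 : MemLp (W i) 2 (volume.restrict (Metric.ball (0 : Eu d) 2)) :=
      (memLp_two_iff_integrable_sq (hW i).1.aestronglyMeasurable).2 (hW i).2
    exact h2.integrable (by norm_num)
  have hUm : ∀ k, Measurable (fun y => U k y i) := fun k => by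
    have := hmeas k
    fun_prop
  have hUb : ∀ k y, y ∈ Metric.ball (0 : Eu d) 2 → |U k y i| ≤ 2 := by
    intro k y hy
    rw [Metric.mem_ball, dist_zero_right] at hy
    have h3 : ‖U k y i‖ ≤ ‖U k y‖ := PiLp.norm_apply_le (U k y) i
    rw [Real.norm_eq_abs] at h3
    linarith [hb k y]
  have hUint : ∀ k, Integrable (fun y => U k y i)
      (volume.restrict (Metric.ball (0 : Eu d) 2)) := by
    intro k
    refine Integrable.of_bound (hUm k).aestronglyMeasurable 2 ?_
    rw [ae_restrict_iff' measurableSet_ball]
    exact Eventually.of_forall fun y hy => by rw [Real.norm_eq_abs]; exact hUb k y hy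
  set M : ℝ := c * (∫ y in Metric.ball (0 : Eu d) 2, (2 : ℝ)) +
    c * (∫ y in Metric.ball (0 : Eu d) 2, |W i y|) with hM
  have hzero : (0 : ℝ) = ∫ x, (0 : ℝ) ∂(mB d) := by simp
  rw [hzero]
  have hmem : ∀ᵐ x ∂(mB d), x ∈ Metric.ball (0 : Eu d) 1 := by
    unfold mB Bd
    exact ae_restrict_mem measurableSet_ball
  refine tendsto_integral_of_dominated_convergence (fun _ => M) ?_ (integrable_const M) ?_ ?_
  · intro k
    have := ((strongB_meas (hUm k) η).sub (strongB_meas (hW i).1 η)).aestronglyMeasurable
      (μ := mB d)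
    exact this.norm
  · intro k
    filter_upwards [hmem] with x hx
    rw [Real.norm_eq_abs, abs_abs]
    refine (abs_sub _ _).trans ?_
    rw [strongB_avg_eq _ h1 hx, strongB_avg_eq _ h1 hx, abs_mul, abs_mul, abs_of_nonneg hc0, hM]
    refine add_le_add (mul_le_mul_of_nonneg_left ?_ hc0) (mul_le_mul_of_nonneg_left ?_ hc0)
    · refine (strongB_abs_int _ (hUint k) x η).trans ?_
      refine integral_mono_of_nonneg (Eventually.of_forall fun y => abs_nonneg _)
        (integrable_const _) ?_
      filter_upwards [ae_restrict_mem (μ := volume) (measurableSet_ball (x := (0 : Eu d))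
        (ε := 2))] with y hy
      exact hUb k y hy
    · exact strongB_abs_int _ hWint x η
  · filter_upwards [hmem] with x hx
    have h3 := hweak i _ (strongB_ind x η)
    have h4 : Tendsto (fun k => avg η (fun y => U k y i) x) atTop (𝓝 (avg η (W i) x)) := by
      rw [strongB_avg_eq _ h1 hx]
      have h5 := h3.const_mul c
      refine h5.congr fun k => ?_
      rw [strongB_avg_eq _ h1 hx]
    have h6 := (h4.sub_const (avg η (W i) x)).abs
    rwa [sub_self, abs_zero] at h6

end Pool.UVF
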