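import Pool.Agent.Lib.MP_28fba0_gt.UV.StrongA

/-!
# UV-StrongC: the averages of an integrable function converge in `L¹(B)`

`G = W 1_{ball 0 2} ∈ L¹(ℝ^d)`.  For `x ∈ B`, `η ≤ 1`: `avg η W x = avg η G x`.  For `g` continuous with
compact support `avg η g → g` uniformly; `∫_B |avg η G - avg η g| ≤ ∫ |G - g|` (Tonelli,
translation invariance); density `Integrable.exists_hasCompactSupport_integral_sub_le`.
-/

open Real Set MeasureTheory Filter Topology

namespace Pool.UVF

variable {d : ℕ}

theorem ind_mem {W : Eu d → ℝ} {x : Eu d} (hx : x ∈ Bd d) :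
    (Metric.ball (0 : Eu d) 2).indicator W x = W x := by
  apply indicator_of_mem
  simp only [Bd, Metric.mem_ball, dist_zero_right] at hx ⊢
  linarith

theorem avg_tendsto_self {W : Eu d → ℝ} (hm : Measurable W)
    (hW : IntegrableOn W (Metric.ball (0 : Eu d) 2) volume) {ε : ℝ} (hε : 0 < ε) :
    ∃ η₀ : ℝ, 0 < η₀ ∧ η₀ ≤ 1 ∧ ∀ η : ℝ, 0 < η → η ≤ η₀ →
      ∫ x, |avg η W x - W x| ∂(mB d) ≤ ε := by
  have hfin := mB_finite (d := d)
  set G := (Metric.ball (0 : Eu d) 2).indicator W with hGdef
  have hG : Integrable G := hW.integrable_indicator measurableSet_ball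
  obtain ⟨g, hgs, hgint, hgc, hgi⟩ :=
    hG.exists_hasCompactSupport_integral_sub_le (ε := ε / 4) (by positivity)
  have huc : UniformContinuous g := hgs.uniformContinuous_of_continuous hgc
  have hb0 : 0 < bv d := by
    unfold bv Bd
    exact vol_ball_pos one_pos
  obtain ⟨δ, hδ, hδ2⟩ := Metric.uniformContinuous_iff.1 huc (ε / (4 * bv d)) (by positivity)
  refine ⟨min δ 1, lt_min hδ one_pos, min_le_right _ _, fun η h0 hη => ?_⟩
  have h1 : η ≤ 1 := hη.trans (min_le_right _ _)
  have e1 : ∫ x, |avg η W x - W x| ∂(mB d) = ∫ x, |W x - avg η W x| ∂(mB d) := by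
    simp only [abs_sub_comm]
  rw [e1]
  refine avg_L1_le hm hW h0 h1 fun h hh => ?_
  have hhδ : ‖h‖ < δ := hh.trans_le (hη.trans (min_le_left _ _))
  have hh1 : ‖h‖ < 1 := hh.trans_le h1
  have i1 : Integrable (fun x => |G (x + h) - g (x + h)|) (mB d) :=
    (((hG.sub hgi).abs).comp_add_right h).restrict
  have i2 : Integrable (fun x => |G x - g x|) (mB d) := ((hG.sub hgi).abs).restrict
  have i3 : Integrable (fun _x : Eu d => ε / (4 * bv d)) (mB d) := integrable_const _
  have hmu : (mB d).real univ = bv d := by
    unfold mB bv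
    rw [Measure.real, Measure.restrict_apply_univ]
  calc ∫ x, |W (x + h) - W x| ∂(mB d)
      ≤ ∫ x, (|G (x + h) - g (x + h)| + |G x - g x| + ε / (4 * bv d)) ∂(mB d) := by
        refine integral_mono_of_nonneg (Eventually.of_forall fun x => abs_nonneg _)
          ((i1.add i2).add i3) ?_
        filter_upwards [ae_restrict_mem (μ := volume) (Metric.isOpen_ball.measurableSet :
          MeasurableSet (Bd d))] with x hx
        have hx1 : W (x + h) = G (x + h) := by
          rw [hGdef, ind_eq hx le_rfl (by simpa using hh1)]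
        have hx2 : W x = G x := by rw [hGdef, ind_mem hx]
        have hx3 : |g (x + h) - g x| < ε / (4 * bv d) := by
          have := hδ2 (a := x + h) (b := x) (by simpa [dist_eq_norm] using hhδ)
          simpa [Real.dist_eq] using this
        rw [hx1, hx2]
        have t1 := abs_sub_abs_le_abs_sub (G (x + h) - G x) (g (x + h) - g x)
        have t2 : |(G (x + h) - G x) - (g (x + h) - g x)|
            ≤ |G (x + h) - g (x + h)| + |G x - g x| := by
          have e2 : (G (x + h) - G x) - (g (x + h) - g x)
            = (G (x + h) - g (x + h)) - (G x - g x) := by ring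
          rw [e2]
          exact abs_sub _ _
        linarith
    _ = ∫ x, |G (x + h) - g (x + h)| ∂(mB d) + ∫ x, |G x - g x| ∂(mB d)
          + ε / 4 := by
        have e2 : ∫ x, (|G (x + h) - g (x + h)| + |G x - g x| + ε / (4 * bv d)) ∂(mB d)
            = ∫ x, (|G (x + h) - g (x + h)| + |G x - g x|) ∂(mB d)
              + ∫ _x, ε / (4 * bv d) ∂(mB d) := integral_add (i1.add i2) i3
        rw [e2, integral_add i1 i2, integral_const, hmu, smul_eq_mul]
        field_simp
    _ ≤ ε / 4 + ε / 4 + ε / 4 := by
        have j1 : ∫ x, |G (x + h) - g (x + h)| ∂(mB d) ≤ ε / 4 := by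
          refine le_trans (setIntegral_le_integral ((((hG.sub hgi).abs).comp_add_right h))
            (Eventually.of_forall fun x => abs_nonneg _)) ?_
          refine le_trans (le_of_eq ?_) hgint
          exact integral_add_right_eq_self (μ := (volume : Measure (Eu d)))
            (fun x => |G x - g x|) h
        have j2 : ∫ x, |G x - g x| ∂(mB d) ≤ ε / 4 := by
          refine le_trans (setIntegral_le_integral ((hG.sub hgi).abs)
            (Eventually.of_forall fun x => abs_nonneg _)) ?_
          exact hgint
        linarith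
    _ ≤ ε := by linarith

/-- measurability and integrability of the averages on the unit ball -/
theorem integrable_avg {W : Eu d → ℝ} (hm : Measurable W)
    (hW : IntegrableOn W (Metric.ball (0 : Eu d) 2) volume) {η : ℝ} (h0 : 0 < η) (h1 : η ≤ 1) :
    Integrable (avg η W) (mB d) := by
  have := mB_finite (d := d)
  have := nu_finite (d := d) η
  have hGm : Measurable ((Metric.ball (0 : Eu d) 2).indicator W) := hm.indicator measurableSet_ball
  have hG : Integrable ((Metric.ball (0 : Eu d) 2).indicator W) :=
    hW.integrable_indicator measurableSet_ball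
  have h2 := ((integrable_shift hGm hG η).integral_prod_left).const_mul
    ((volume (Metric.ball (0 : Eu d) η)).toReal)⁻¹
  refine h2.congr ?_
  filter_upwards [ae_restrict_mem (μ := volume) (Metric.isOpen_ball.measurableSet :
    MeasurableSet (Bd d))] with x hx
  exact (avg_eq hx h1).symm

end Pool.UVF
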