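import Pool.Agent.Lib.MP_28fba0_gt.UV.StrongA
import Pool.Agent.Lib.MP_28fba0_gt.UV.StrongB
import Pool.Agent.Lib.MP_28fba0_gt.UV.StrongC

/-!
# UV-Strong: weak convergence + equicontinuity of translations ⇒ strong `L¹` convergence

Given `ε`, choose `η` with `C η ≤ ε` (`integral_sub_avg_le`; one may replace `C` by `max C 0`) and
`∫ |avg η (W i) - W i| ≤ ε` (`avg_tendsto_self`; `W i` is integrable on `ball 0 2` since its square is);
then for large `k`, `∫ |avg η (U_k i) - avg η (W i)| ≤ ε` (`avg_tendsto_of_weak`); triangle inequality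
(integrability: `integrable_avg`; `|U k x i| ≤ ‖x‖ ≤ 1` on `B`).
-/

open Real Set MeasureTheory Filter Topology

namespace Pool.UVF

theorem strong_of_weak {d : ℕ} (U : ℕ → Eu d → Eu d) (hmeas : ∀ k, Measurable (U k))
    (hb : ∀ k x, ‖U k x‖ ≤ ‖x‖) (C : ℝ)
    (htr : ∀ k (h : Eu d), ‖h‖ ≤ 1 → ∫ x, ‖U k (x + h) - U k x‖ ∂(mB d) ≤ C * ‖h‖)
    (W : Fin d → Eu d → ℝ)
    (hW : ∀ i, Measurable (W i) ∧
      Integrable (fun x => W i x ^ 2) (volume.restrict (Metric.ball (0 : Eu d) 2)))
    (hweak : ∀ i, ∀ h : Eu d → ℝ, MemLp h 2 (volume.restrict (Metric.ball (0 : Eu d) 2)) →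
      Tendsto (fun k => ∫ x in Metric.ball (0 : Eu d) 2, U k x i * h x) atTop
        (𝓝 (∫ x in Metric.ball (0 : Eu d) 2, W i x * h x))) :
    ∀ i, Tendsto (fun k => ∫ x, |U k x i - W i x| ∂(mB d)) atTop (𝓝 0) := by
  intro i
  have hfin := mB_finite (d := d)
  have hfin2 := nu_finite (d := d) 2
  -- integrability of the limit and of the fields
  have hWi : IntegrableOn (W i) (Metric.ball (0 : Eu d) 2) volume := by
    have h2 : MemLp (W i) 2 (volume.restrict (Metric.ball (0 : Eu d) 2)) :=
      (memLp_two_iff_integrable_sq (hW i).1.aestronglyMeasurable).2 (hW i).2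
    exact h2.integrable one_le_two
  have hUm : ∀ k, Measurable (fun y => U k y i) := fun k => by
    have : Measurable (fun y : Eu d => y i) := by fun_prop
    exact this.comp (hmeas k)
  have hUi : ∀ k, IntegrableOn (fun y => U k y i) (Metric.ball (0 : Eu d) 2) volume := fun k => by
    refine Integrable.of_bound (C := 2) (hUm k).aestronglyMeasurable ?_
    filter_upwards [ae_restrict_mem (μ := volume) (Metric.isOpen_ball.measurableSet :
      MeasurableSet (Metric.ball (0 : Eu d) 2))] with x hx
    have h2 : ‖x‖ < 2 := by simpa using hx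
    rw [Real.norm_eq_abs]
    exact (abs_coord_le _ _).trans ((hb k x).trans h2.le)
  have hsub : Bd d ⊆ Metric.ball (0 : Eu d) 2 := Metric.ball_subset_ball (by norm_num)
  have hWB : Integrable (W i) (mB d) := IntegrableOn.mono_set hWi hsub
  have hUB : ∀ k, Integrable (fun y => U k y i) (mB d) := fun k =>
    IntegrableOn.mono_set (hUi k) hsub
  set C' := max C 0 with hC'
  have hC0 : 0 ≤ C' := le_max_right _ _
  have htr' : ∀ k (h : Eu d), ‖h‖ ≤ 1 → ∫ x, ‖U k (x + h) - U k x‖ ∂(mB d) ≤ C' * ‖h‖ :=
    fun k h hh => (htr k h hh).trans (mul_le_mul_of_nonneg_right (le_max_left _ _) (norm_nonneg _))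
  rw [Metric.tendsto_atTop]
  intro ε hε
  obtain ⟨η₀, h0, h1, hη⟩ := avg_tendsto_self (hW i).1 hWi (ε := ε / 4) (by positivity)
  set η := min η₀ (ε / (4 * (C' + 1))) with hηdef
  have hη0 : 0 < η := lt_min h0 (by positivity)
  have hη1 : η ≤ 1 := (min_le_left _ _).trans h1
  have hηC : C' * η ≤ ε / 4 := by
    have h2 : η ≤ ε / (4 * (C' + 1)) := min_le_right _ _
    calc C' * η ≤ C' * (ε / (4 * (C' + 1))) := mul_le_mul_of_nonneg_left h2 hC0
      _ = ε / 4 * (C' / (C' + 1)) := by field_simp
      _ ≤ ε / 4 * 1 := by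
        refine mul_le_mul_of_nonneg_left ?_ (by positivity)
        rw [div_le_one (by positivity)]
        linarith
      _ = ε / 4 := mul_one _
  have hT := avg_tendsto_of_weak U hmeas hb W hW hweak hη0 hη1 i
  obtain ⟨N, hN⟩ := (Metric.tendsto_atTop.1 hT) (ε / 4) (by positivity)
  refine ⟨N, fun k hk => ?_⟩
  have a1 := integral_sub_avg_le (hmeas k) (hb k) hC0 (htr' k) i hη0 hη1
  have a2 := hη η hη0 (min_le_left _ _)
  have a3 := hN k hk
  have iA : Integrable (avg η (fun y => U k y i)) (mB d) :=
    integrable_avg (hUm k) (hUi k) hη0 hη1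
  have iW : Integrable (avg η (W i)) (mB d) := integrable_avg (hW i).1 hWi hη0 hη1
  rw [Real.dist_eq, sub_zero, abs_of_nonneg (integral_nonneg fun x => abs_nonneg _)] at a3 ⊢
  have j1 : Integrable (fun x => |U k x i - avg η (fun y => U k y i) x|) (mB d) :=
    ((hUB k).sub iA).abs
  have j2 : Integrable (fun x => |avg η (fun y => U k y i) x - avg η (W i) x|) (mB d) :=
    (iA.sub iW).abs
  have j3 : Integrable (fun x => |avg η (W i) x - W i x|) (mB d) := (iW.sub hWB).abs
  calc ∫ x, |U k x i - W i x| ∂(mB d)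
      ≤ ∫ x, (|U k x i - avg η (fun y => U k y i) x|
          + |avg η (fun y => U k y i) x - avg η (W i) x| + |avg η (W i) x - W i x|) ∂(mB d) := by
        refine integral_mono_of_nonneg (Eventually.of_forall fun x => abs_nonneg _)
          ((j1.add j2).add j3) (Eventually.of_forall fun x => ?_)
        have t1 := abs_add_three (U k x i - avg η (fun y => U k y i) x)
          (avg η (fun y => U k y i) x - avg η (W i) x) (avg η (W i) x - W i x)
        have e1 : (U k x i - avg η (fun y => U k y i) x)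
          + (avg η (fun y => U k y i) x - avg η (W i) x) + (avg η (W i) x - W i x)
          = U k x i - W i x := by ring
        rw [e1] at t1
        exact t1
    _ = ∫ x, |U k x i - avg η (fun y => U k y i) x| ∂(mB d)
          + ∫ x, |avg η (fun y => U k y i) x - avg η (W i) x| ∂(mB d)
          + ∫ x, |avg η (W i) x - W i x| ∂(mB d) := by
        have e2 : ∫ x, (|U k x i - avg η (fun y => U k y i) x|
            + |avg η (fun y => U k y i) x - avg η (W i) x| + |avg η (W i) x - W i x|) ∂(mB d)
            = ∫ x, (|U k x i - avg η (fun y => U k y i) x|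
            + |avg η (fun y => U k y i) x - avg η (W i) x|) ∂(mB d)
              + ∫ x, |avg η (W i) x - W i x| ∂(mB d) := integral_add (j1.add j2) j3
        rw [e2, integral_add j1 j2]
    _ < ε := by linarith

end Pool.UVF
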