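import Pool.Agent.Lib.MP_28fba0_gt.UV.Hom

/-!
# UV-TransA: the segment inequality

`x`, `h` with `x + s h ≠ 0` for all `s ∈ [0,1]`: `s ↦ U (x + s h)` is `C¹` on `[0,1]` with derivative
`DU(x + s h) h`, so `U(x+h) - U(x) = ∫_0^1 DU(x+sh) h ds` (`intervalIntegral.integral_eq_sub_of_hasDerivAt`),
take norms.
-/

open Real Set MeasureTheory Filter Topology

namespace Pool.UVF

theorem HomField.norm_sub_le_integral {d : ℕ} {U : Eu d → Eu d} (hU : HomField U) (x h : Eu d)
    (hx : ∀ s : ℝ, s ∈ Icc (0 : ℝ) 1 → x + s • h ≠ 0) :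
    ‖U (x + h) - U x‖ ≤ ‖h‖ * ∫ s in (0 : ℝ)..1, ‖fderiv ℝ U (x + s • h)‖ := by
  have hI : uIcc (0 : ℝ) 1 = Icc 0 1 := uIcc_of_le zero_le_one
  have hlin : Continuous fun s : ℝ => x + s • h := by fun_prop
  have hc : ContinuousOn (fun s : ℝ => fderiv ℝ U (x + s • h)) (uIcc (0 : ℝ) 1) := by
    refine hU.fderiv_continuousOn.comp hlin.continuousOn fun s hs => ?_
    rw [hI] at hs
    exact hx s hs
  have hd : ∀ s ∈ uIcc (0 : ℝ) 1,
      HasDerivAt (fun s : ℝ => U (x + s • h)) (fderiv ℝ U (x + s • h) h) s := by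
    intro s hs
    rw [hI] at hs
    have h1 : DifferentiableAt ℝ U (x + s • h) :=
      ((hU.smooth.differentiableOn one_ne_zero) _ (hx s hs)).differentiableAt
        (isOpen_compl_singleton.mem_nhds (hx s hs))
    have h2 : HasDerivAt (fun s : ℝ => x + s • h) h s := by
      simpa using ((hasDerivAt_id s).smul_const h).const_add x
    exact h1.hasFDerivAt.comp_hasDerivAt s h2
  have hint : IntervalIntegrable (fun s : ℝ => fderiv ℝ U (x + s • h) h) volume 0 1 :=
    (hc.clm_apply continuousOn_const).intervalIntegrable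
  have h3 := intervalIntegral.integral_eq_sub_of_hasDerivAt hd hint
  simp only [one_smul, zero_smul, add_zero] at h3
  rw [← h3, ← intervalIntegral.integral_const_mul]
  refine (intervalIntegral.norm_integral_le_integral_norm zero_le_one).trans ?_
  refine intervalIntegral.integral_mono_on zero_le_one hint.norm
    ((hc.norm.intervalIntegrable).const_mul _) fun s _ => ?_
  rw [mul_comm]
  exact (fderiv ℝ U (x + s • h)).le_opNorm h

end Pool.UVF
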