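import Pool.Agent.Lib.MP_28fba0_gt.UV.Hom
import Pool.Agent.Lib.MP_28fba0_gt.UV.TransA

/-!
# UV-Translate: `∫_B ‖U(x+h) - U(x)‖ ≤ 2^d ‖h‖ ∫_B ‖DU‖`

For `x ∉ ℝ h` (complement of a null set, `d ≥ 2`: the line is a proper subspace,
`Measure.addHaar_submodule`; `h ≠ 0`) `norm_sub_le_integral` applies.  Tonelli (Fubini:
`‖fderiv ℝ U‖` is bounded off `0` and measurable) and translation: for every `s ∈ [0,1]`
`∫_B ‖DU(x+sh)‖ dx ≤ ∫_{ball 0 2} ‖DU‖ = 2^d ∫_B ‖DU‖` (`‖h‖ ≤ 1`; scaling by `2`, `DU` is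
`0`-homogeneous by `fderiv_smul`, `Measure.setIntegral_comp_smul`).
-/

open Real Set MeasureTheory Filter Topology
open scoped Pointwise

namespace Pool.UVF

section translate_aux

variable {d : ℕ} {U : Eu d → Eu d}

theorem translate_finite_mB (d : ℕ) : IsFiniteMeasure (mB d) := by
  refine ⟨?_⟩
  rw [mB, Measure.restrict_apply_univ]
  exact measure_ball_lt_top

theorem HomField.translate_norm_fderiv_le (hU : HomField U) :
    ∃ C : ℝ, 0 ≤ C ∧ ∀ x, ‖fderiv ℝ U x‖ ≤ C := by
  obtain ⟨C, hC, hb⟩ := hU.fderiv_bounded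
  refine ⟨max C ‖fderiv ℝ U 0‖, le_max_of_le_left hC.le, fun x => ?_⟩
  by_cases hx : x = 0
  · rw [hx]; exact le_max_right _ _
  · exact (hb x hx).trans (le_max_left _ _)

theorem translate_meas_norm_fderiv (U : Eu d → Eu d) : Measurable fun x => ‖fderiv ℝ U x‖ :=
  (measurable_fderiv ℝ U).norm

theorem HomField.translate_integrableOn (hU : HomField U) (c : Eu d) (r : ℝ) :
    IntegrableOn (fun x => ‖fderiv ℝ U x‖) (Metric.ball c r) := by
  obtain ⟨C, hC, hb⟩ := hU.translate_norm_fderiv_le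
  have : IsFiniteMeasure (volume.restrict (Metric.ball c r)) := by
    refine ⟨?_⟩
    rw [Measure.restrict_apply_univ]
    exact measure_ball_lt_top
  refine Integrable.of_bound (translate_meas_norm_fderiv U).aestronglyMeasurable C
    (Eventually.of_forall fun x => ?_)
  rw [norm_norm]
  exact hb x

theorem HomField.translate_ball_two (hU : HomField U) :
    ∫ x in Metric.ball (0 : Eu d) 2, ‖fderiv ℝ U x‖ = 2 ^ d * ∫ x, ‖fderiv ℝ U x‖ ∂(mB d) := by
  have h1 := Measure.setIntegral_comp_smul_of_pos (volume : Measure (Eu d))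
    (fun x => ‖fderiv ℝ U x‖) (Metric.ball (0 : Eu d) 1) (R := 2) two_pos
  have h2 : (2 : ℝ) • Metric.ball (0 : Eu d) 1 = Metric.ball 0 2 := by
    rw [smul_ball two_ne_zero, smul_zero]
    norm_num
  rw [h2, finrank_euclideanSpace_fin, smul_eq_mul] at h1
  have h3 : ∀ x : Eu d, ‖fderiv ℝ U ((2 : ℝ) • x)‖ = ‖fderiv ℝ U x‖ := by
    intro x
    by_cases hx : x = 0
    · rw [hx, smul_zero]
    · rw [hU.fderiv_smul two_pos hx]
  simp only [h3] at h1
  rw [mB, Bd, h1, ← mul_assoc, mul_inv_cancel₀ (by positivity), one_mul]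

theorem HomField.translate_shift_le (hU : HomField U) {v : Eu d} (hv : ‖v‖ ≤ 1) :
    ∫ x, ‖fderiv ℝ U (x + v)‖ ∂(mB d) ≤ 2 ^ d * ∫ x, ‖fderiv ℝ U x‖ ∂(mB d) := by
  rw [← hU.translate_ball_two]
  have h1 := (measurePreserving_add_right (volume : Measure (Eu d)) v).setIntegral_image_emb
    (measurableEmbedding_addRight v) (fun x => ‖fderiv ℝ U x‖) (Bd d)
  rw [mB, ← h1]
  refine setIntegral_mono_set (hU.translate_integrableOn 0 2)
    (Eventually.of_forall fun x => norm_nonneg _) (Eventually.of_forall ?_)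
  rintro _ ⟨x, hx, rfl⟩
  have hx' : ‖x‖ < 1 := by simpa [Bd] using hx
  show x + v ∈ Metric.ball (0 : Eu d) 2
  rw [mem_ball_zero_iff]
  calc ‖x + v‖ ≤ ‖x‖ + ‖v‖ := norm_add_le _ _
    _ < 2 := by linarith

/-- almost every point is off a line -/
theorem translate_ae_notMem_line (hd : 2 ≤ d) (h : Eu d) :
    ∀ᵐ x ∂(volume : Measure (Eu d)), x ∉ Submodule.span ℝ {h} := by
  have h1 : Submodule.span ℝ {h} ≠ (⊤ : Submodule ℝ (Eu d)) := by
    intro htop
    have h2 := finrank_span_le_card (R := ℝ) ({h} : Set (Eu d))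
    rw [htop, finrank_top, finrank_euclideanSpace_fin] at h2
    simp at h2
    omega
  have h2 := Measure.addHaar_submodule (volume : Measure (Eu d)) _ h1
  exact measure_eq_zero_iff_ae_notMem.1 h2

end translate_aux

theorem HomField.translate {d : ℕ} (hd : 2 ≤ d) {U : Eu d → Eu d} (hU : HomField U) (h : Eu d)
    (hh : ‖h‖ ≤ 1) :
    ∫ x, ‖U (x + h) - U x‖ ∂(mB d) ≤ ‖h‖ * (2 ^ d * ∫ x, ‖fderiv ℝ U x‖ ∂(mB d)) := by
  have := translate_finite_mB d
  obtain ⟨C, hC, hb⟩ := hU.translate_norm_fderiv_le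
  set g : Eu d → ℝ := fun x => ‖fderiv ℝ U x‖ with hg
  have hgm : Measurable g := translate_meas_norm_fderiv U
  -- the double integral
  have hint2 : Integrable (Function.uncurry fun (x : Eu d) (s : ℝ) => g (x + s • h))
      ((mB d).prod (volume.restrict (Ioc (0 : ℝ) 1))) := by
    have hm : Measurable (Function.uncurry fun (x : Eu d) (s : ℝ) => g (x + s • h)) := by
      refine hgm.comp ?_
      fun_prop
    refine Integrable.of_bound hm.aestronglyMeasurable C (Eventually.of_forall fun p => ?_)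
    show ‖(‖fderiv ℝ U (p.1 + p.2 • h)‖ : ℝ)‖ ≤ C
    rw [norm_norm]
    exact hb _
  have hint1 : Integrable (fun x : Eu d => ∫ s in Ioc (0 : ℝ) 1, g (x + s • h)) (mB d) :=
    hint2.integral_prod_left
  have hpt : ∀ᵐ x ∂(mB d), ‖U (x + h) - U x‖ ≤ ‖h‖ * ∫ s in Ioc (0 : ℝ) 1, g (x + s • h) := by
    by_cases h0 : h = 0
    · refine Eventually.of_forall fun x => ?_
      rw [h0]; simp
    have h1 := ae_restrict_of_ae (s := Bd d) (translate_ae_notMem_line hd h)
    filter_upwards [h1] with x hx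
    have h2 := hU.norm_sub_le_integral x h fun s hs h3 => hx (by
      have h4 : x = (-s) • h := by
        rw [neg_smul]
        exact eq_neg_of_add_eq_zero_left h3
      rw [h4]
      exact Submodule.smul_mem _ _ (Submodule.mem_span_singleton_self h))
    rwa [intervalIntegral.integral_of_le zero_le_one] at h2
  calc ∫ x, ‖U (x + h) - U x‖ ∂(mB d)
      ≤ ∫ x, (‖h‖ * ∫ s in Ioc (0 : ℝ) 1, g (x + s • h)) ∂(mB d) := by
        refine integral_mono_of_nonneg (Eventually.of_forall fun x => norm_nonneg _)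
          (hint1.const_mul _) hpt
    _ = ‖h‖ * ∫ x, (∫ s in Ioc (0 : ℝ) 1, g (x + s • h)) ∂(mB d) := integral_const_mul _ _
    _ = ‖h‖ * ∫ s in Ioc (0 : ℝ) 1, (∫ x, g (x + s • h) ∂(mB d)) := by
        rw [integral_integral_swap hint2]
    _ ≤ ‖h‖ * ∫ s in Ioc (0 : ℝ) 1, (2 ^ d * ∫ x, g x ∂(mB d)) := by
        refine mul_le_mul_of_nonneg_left ?_ (norm_nonneg _)
        refine setIntegral_mono_on hint2.integral_prod_right ?_ measurableSet_Ioc fun s hs => ?_
        · exact integrableOn_const (by simp)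
        · refine hU.translate_shift_le ?_
          rw [norm_smul, Real.norm_of_nonneg hs.1.le]
          calc s * ‖h‖ ≤ 1 * 1 := mul_le_mul hs.2 hh (norm_nonneg _) zero_le_one
            _ = 1 := one_mul 1
    _ = ‖h‖ * (2 ^ d * ∫ x, g x ∂(mB d)) := by
        rw [setIntegral_const]
        simp

end Pool.UVF
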