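import Pool.Agent.Lib.MP_28fba0_gt.UV.Deficit2
import Pool.Agent.Lib.MP_28fba0_gt.UV.WeakL2
import Pool.Agent.Lib.MP_28fba0_gt.UV.Translate
import Pool.Agent.Lib.MP_28fba0_gt.UV.Strong

/-!
# UV-ExtractA: subsequence of the fields

`∫_B ‖DU_k‖ ≤ C` (`jac_l1_le`), so translations are controlled (`HomField.translate`).
`weak_compact` on `volume.restrict (ball 0 2)` for the components of `U_k` (bounded by `2`):
subsequence, weak limit `W`; `strong_of_weak`: `U_k i → W i` in `L¹(B)` for every `i`; further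
subsequence: a.e. on `B` (`tendstoInMeasure_of_tendsto_eLpNorm` and
`TendstoInMeasure.exists_seq_tendsto_ae`, applied to `∑_i |U_k i - W i|`, whose integral tends to `0`).
`V x = ‖x‖⁻¹ • (W i x)_i` (measurable), `vh (U k) x → V x` a.e.
-/

open Real Set MeasureTheory Filter Topology

namespace Pool.UVF

theorem exists_sub_fields (m : ℕ) (hm : 2 ≤ m) (U : ℕ → Eu (2 * m + 2) → Eu (2 * m + 2))
    (hU : ∀ k, HomField (U k))
    (hD : ∀ k : ℕ, ∫ x, DD (U k) x ∂(mB (2 * m + 2))
      ≤ (bGZ m + 1 / ((k : ℝ) + 1)) * bv (2 * m + 2)) :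
    ∃ φ : ℕ → ℕ, StrictMono φ ∧ ∃ V : Eu (2 * m + 2) → Eu (2 * m + 2), Measurable V ∧
      ∀ᵐ x ∂(mB (2 * m + 2)), Tendsto (fun k => vh (U (φ k)) x) atTop (𝓝 (V x)) := by
  classical
  obtain ⟨C, hC0, hC⟩ := jac_l1_le m hm
  have hbv : 0 ≤ bv (2 * m + 2) := ENNReal.toReal_nonneg
  have hCk : ∀ k, ∫ x, ‖fderiv ℝ (U k) x‖ ∂(mB (2 * m + 2)) ≤ C := by
    intro k
    refine hC (U k) (hU k) ((hD k).trans ?_)
    refine mul_le_mul_of_nonneg_right ?_ hbv
    have : 1 / ((k : ℝ) + 1) ≤ 1 := by
      rw [div_le_one (by positivity)]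
      have : (0 : ℝ) ≤ k := Nat.cast_nonneg k
      linarith
    linarith
  have htr : ∀ k (h : Eu (2 * m + 2)), ‖h‖ ≤ 1 →
      ∫ x, ‖U k (x + h) - U k x‖ ∂(mB (2 * m + 2)) ≤ (2 ^ (2 * m + 2) * C) * ‖h‖ := by
    intro k h hh
    refine ((hU k).translate (by omega) h hh).trans ?_
    rw [mul_comm]
    refine mul_le_mul_of_nonneg_right ?_ (norm_nonneg _)
    exact mul_le_mul_of_nonneg_left (hCk k) (by positivity)
  set μ : Measure (Eu (2 * m + 2)) := volume.restrict (Metric.ball (0 : Eu (2 * m + 2)) 2) with hμ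
  have hfin : IsFiniteMeasure μ := by
    rw [hμ]
    refine ⟨?_⟩
    rw [Measure.restrict_apply_univ]
    exact measure_ball_lt_top
  have hcont : ∀ k i, Continuous (fun x => U k x i) := fun k i =>
    (EuclideanSpace.proj i : Eu (2 * m + 2) →L[ℝ] ℝ).continuous.comp (hU k).continuous
  have hcomp : ∀ k i (x : Eu (2 * m + 2)), |U k x i| ≤ ‖x‖ := by
    intro k i x
    have h := PiLp.norm_apply_le (U k x) i
    rw [Real.norm_eq_abs, (hU k).norm] at h
    exact h
  have hsq : ∀ k i (x : Eu (2 * m + 2)), x ∈ Metric.ball (0 : Eu (2 * m + 2)) 2 →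
      U k x i ^ 2 ≤ 4 := by
    intro k i x hx
    have h1 := hcomp k i x
    have h2 : ‖x‖ < 2 := by simpa using hx
    have h3 := abs_nonneg (U k x i)
    rw [← sq_abs]
    nlinarith
  have hint : ∀ k i, Integrable (fun x => U k x i ^ 2) μ := by
    intro k i
    refine Integrable.of_bound (C := 4) ((hcont k i).pow 2).aestronglyMeasurable ?_
    rw [hμ]
    filter_upwards [ae_restrict_mem measurableSet_ball] with x hx
    rw [Real.norm_eq_abs, abs_of_nonneg (sq_nonneg _)]
    exact hsq k i x hx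
  obtain ⟨φ, hφ, W, hW, hweak⟩ := weak_compact μ (fun k i x => U k x i)
    (fun k i => (hcont k i).aestronglyMeasurable) hint (∫ _x, (4 : ℝ) ∂μ) (by
      intro k i
      refine integral_mono_ae (hint k i) (integrable_const _) ?_
      rw [hμ]
      filter_upwards [ae_restrict_mem measurableSet_ball] with x hx
      exact hsq k i x hx)
  have hstrong := strong_of_weak (fun k => U (φ k)) (fun k => (hU (φ k)).continuous.measurable)
    (fun k x => ((hU (φ k)).norm x).le) (2 ^ (2 * m + 2) * C) (fun k h hh => htr (φ k) h hh) W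
    hW (fun i h hh => hweak i h hh)
  -- integrability on the unit ball
  have hle : mB (2 * m + 2) ≤ μ := by
    rw [hμ]; unfold mB Bd
    exact Measure.restrict_mono (Metric.ball_subset_ball (by norm_num)) le_rfl
  have hfinB : IsFiniteMeasure (mB (2 * m + 2)) := by
    unfold mB Bd
    refine ⟨?_⟩
    rw [Measure.restrict_apply_univ]
    exact measure_ball_lt_top
  have hWint : ∀ i, Integrable (W i) (mB (2 * m + 2)) := by
    intro i
    have h1 : Integrable (fun x => 1 + W i x ^ 2) (mB (2 * m + 2)) :=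
      (integrable_const _).add ((hW i).2.mono_measure hle)
    refine h1.mono' (hW i).1.aestronglyMeasurable (Eventually.of_forall fun x => ?_)
    rw [Real.norm_eq_abs]
    nlinarith [sq_abs (W i x), sq_nonneg (|W i x| - 1), abs_nonneg (W i x)]
  have hUint : ∀ k i, Integrable (fun x => U k x i) (mB (2 * m + 2)) := by
    intro k i
    refine Integrable.of_bound (C := 1) (hcont k i).aestronglyMeasurable ?_
    unfold mB Bd
    filter_upwards [ae_restrict_mem measurableSet_ball] with x hx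
    have h2 : ‖x‖ < 1 := by simpa using hx
    rw [Real.norm_eq_abs]
    exact (hcomp k i x).trans h2.le
  let F : ℕ → Eu (2 * m + 2) → ℝ := fun k x => ∑ i, |U (φ k) x i - W i x|
  have hFint : ∀ k, Integrable (F k) (mB (2 * m + 2)) := fun k =>
    integrable_finsetSum _ fun i _ => ((hUint (φ k) i).sub (hWint i)).abs
  have hF0 : ∀ k x, 0 ≤ F k x := fun k x => Finset.sum_nonneg fun i _ => abs_nonneg _
  have hFlim : Tendsto (fun k => ∫ x, F k x ∂(mB (2 * m + 2))) atTop (𝓝 0) := by
    have h1 : ∀ k, ∫ x, F k x ∂(mB (2 * m + 2))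
        = ∑ i, ∫ x, |U (φ k) x i - W i x| ∂(mB (2 * m + 2)) := fun k =>
      integral_finsetSum _ fun i _ => ((hUint (φ k) i).sub (hWint i)).abs
    simp only [h1]
    have h2 : (0 : ℝ) = ∑ _i : Fin (2 * m + 2), (0 : ℝ) := by simp
    rw [h2]
    exact tendsto_finsetSum _ fun i _ => hstrong i
  have hFL : Tendsto (fun k => eLpNorm (F k - (fun _ => (0 : ℝ))) 1 (mB (2 * m + 2))) atTop
      (𝓝 0) := by
    have h1 : ∀ k, eLpNorm (F k - (fun _ => (0 : ℝ))) 1 (mB (2 * m + 2))
        = ENNReal.ofReal (∫ x, F k x ∂(mB (2 * m + 2))) := by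
      intro k
      have h2 : F k - (fun _ => (0 : ℝ)) = F k := by funext x; simp
      rw [h2, eLpNorm_one_eq_lintegral_enorm, ← ofReal_integral_norm_eq_lintegral_enorm (hFint k)]
      congr 1
      refine integral_congr_ae (Eventually.of_forall fun x => ?_)
      simp only [Real.norm_eq_abs, abs_of_nonneg (hF0 k x)]
    simp only [h1]
    rw [← ENNReal.ofReal_zero]
    exact ENNReal.tendsto_ofReal hFlim
  have hmeasure : TendstoInMeasure (mB (2 * m + 2)) F atTop (fun _ => (0 : ℝ)) :=
    tendstoInMeasure_of_tendsto_eLpNorm one_ne_zero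
      (fun k => (hFint k).aestronglyMeasurable) aestronglyMeasurable_const hFL
  obtain ⟨ψ, hψ, hψlim⟩ := hmeasure.exists_seq_tendsto_ae
  refine ⟨fun k => φ (ψ k), hφ.comp hψ,
    fun x => ‖x‖⁻¹ • (WithLp.toLp 2 (fun i => W i x) : Eu (2 * m + 2)), ?_, ?_⟩
  · refine Measurable.smul measurable_norm.inv ?_
    have h1 : Measurable (fun x : Eu (2 * m + 2) => fun i => W i x) :=
      measurable_pi_lambda _ fun i => (hW i).1
    exact (WithLp.measurable_toLp 2 _).comp h1
  · filter_upwards [hψlim] with x hx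
    unfold vh
    refine Tendsto.const_smul ?_ _
    have h2 : ∀ i, Tendsto (fun k => U (φ (ψ k)) x i) atTop (𝓝 (W i x)) := by
      intro i
      rw [tendsto_iff_norm_sub_tendsto_zero]
      refine squeeze_zero (fun k => norm_nonneg _) (fun k => ?_) hx
      rw [Real.norm_eq_abs]
      exact Finset.single_le_sum (f := fun i => |U (φ (ψ k)) x i - W i x|)
        (fun i _ => abs_nonneg _) (Finset.mem_univ i)
    have h3 : Tendsto (fun k => (fun i => U (φ (ψ k)) x i)) atTop (𝓝 (fun i => W i x)) :=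
      tendsto_pi_nhds.2 h2
    have h4 := ((PiLp.continuous_toLp 2 (fun _ : Fin (2 * m + 2) => ℝ)).tendsto _).comp h3
    exact h4

end Pool.UVF
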