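import Pool.Agent.Lib.MP_28fba0_gt.UV.LimEq

open Matrix Real Set MeasureTheory Filter Topology
open scoped RealInnerProductSpace

namespace Pool.UVF

variable {m : ℕ} {U : ℕ → Eu (2 * m + 2) → Eu (2 * m + 2)} {V : Eu (2 * m + 2) → Eu (2 * m + 2)}
  {lam : Eu (2 * m + 2) → ℝ}

theorem limData_ne (m : ℕ) : ∀ᵐ x ∂(mB (2 * m + 2)), x ≠ (0 : Eu (2 * m + 2)) := by
  have h1 : ∀ᵐ x ∂(volume : Measure (Eu (2 * m + 2))), x ≠ (0 : Eu (2 * m + 2)) := by
    rw [ae_iff]
    simp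
  exact ae_restrict_of_ae h1

theorem limData_memLp {f : Eu (2 * m + 2) → ℝ} (hf : Continuous f) {C : ℝ} (hC : ∀ x, |f x| ≤ C) :
    MemLp f 2 (mB (2 * m + 2)) := by
  have : IsFiniteMeasure (mB (2 * m + 2)) := by
    refine ⟨?_⟩
    rw [mB, Measure.restrict_apply_univ]
    exact measure_ball_lt_top
  exact MemLp.of_bound hf.aestronglyMeasurable C (Eventually.of_forall hC)

theorem ConvData.rad' (hm : 2 ≤ m) (h : ConvData m U V lam) {φ : Eu (2 * m + 2) → ℝ}
    (hφ : IsTest φ) :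
    ∫ x, lam x * fderiv ℝ φ x x ∂(mB (2 * m + 2))
      = - ((2 * m + 2 : ℕ) : ℝ) * ∫ x, lam x * φ x ∂(mB (2 * m + 2)) := by
  obtain ⟨C, hC, h1, h2, h3⟩ := hφ.bdd
  have hc1 : Continuous φ := hφ.smooth.continuous
  have hc2 : Continuous (fun x => fderiv ℝ φ x x) := by
    have h4 : Continuous (fderiv ℝ φ) := hφ.smooth.continuous_fderiv (by simp)
    exact h4.clm_apply continuous_id
  have hk : ∀ k, ∫ x, lamOf m (Tm (U k) x) * fderiv ℝ φ x x ∂(mB (2 * m + 2))
      = - ((2 * m + 2 : ℕ) : ℝ) * ∫ x, lamOf m (Tm (U k) x) * φ x ∂(mB (2 * m + 2)) := by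
    intro k
    have hcon := (h.hU k).lam_continuousOn hm
    have hh : ∀ s : ℝ, 0 < s → ∀ x, x ≠ 0 →
        lamOf m (Tm (U k) (s • x)) = lamOf m (Tm (U k) x) := by
      intro s hs x hx
      rw [(h.hU k).Tm_smul hs hx]
    obtain ⟨C', hC', hb⟩ := bounded_of_hom0 (by omega) hcon hh
    have hmeas : AEStronglyMeasurable (fun x => lamOf m (Tm (U k) x))
        (volume : Measure (Eu (2 * m + 2))) := by
      have h5 := hcon.aestronglyMeasurable (μ := (volume : Measure (Eu (2 * m + 2))))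
        (measurableSet_singleton (0 : Eu (2 * m + 2))).compl
      rwa [Measure.restrict_eq_self_of_ae_mem] at h5
      rw [ae_iff]
      simp
    exact radial_ibp hmeas hb (by omega) hh hφ
  have t1 := h.weak _ (limData_memLp hc2 h3)
  have t2 := (h.weak _ (limData_memLp hc1 h1)).const_mul (- ((2 * m + 2 : ℕ) : ℝ))
  simp_rw [← hk] at t2
  exact tendsto_nhds_unique t1 t2

theorem ConvData.limitData (hm : 2 ≤ m) (h : ConvData m U V lam) : LimitData V lam := by
  refine ⟨h.mV, h.mlam, ?_, h.l2, h.grad hm, fun φ hφ => h.rad' hm hφ⟩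
  filter_upwards [h.aeV, limData_ne m] with x hx hx0
  have h1 : ∀ k, ‖vh (U k) x‖ = 1 := by
    intro k
    rw [vh, norm_smul, norm_inv, norm_norm, (h.hU k).norm]
    exact inv_mul_cancel₀ (norm_ne_zero_iff.mpr hx0)
  have h2 : ∀ k, ⟪x, vh (U k) x⟫ = 0 := by
    intro k
    rw [vh, inner_smul_right, (h.hU k).orth, mul_zero]
  constructor
  · have h3 := hx.norm
    simp_rw [h1] at h3
    exact tendsto_nhds_unique h3 tendsto_const_nhds
  · have h3 : Tendsto (fun k => ⟪x, vh (U k) x⟫) atTop (𝓝 ⟪x, V x⟫) :=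
      tendsto_const_nhds.inner hx
    simp_rw [h2] at h3
    exact tendsto_nhds_unique h3 tendsto_const_nhds

end Pool.UVF
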