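import Pool.Agent.Lib.MP_28fba0_gt.UV.Ext
import Pool.Agent.Lib.MP_28fba0_gt.UV.Extract
import Pool.Agent.Lib.MP_28fba0_gt.UV.LimData
import Pool.Agent.Lib.MP_28fba0_gt.UV.ClassD
import Pool.Agent.Lib.MP_28fba0_gt.UV.Explicit
import Pool.Agent.Lib.MP_28fba0_gt.UV.DetLimit

/-!
# UV-Final: assembly
-/

open Matrix Real Set MeasureTheory Filter Topology
open scoped RealInnerProductSpace

namespace Pool.UVF

theorem one_lt_bGZ (m : ℕ) (hm : 2 ≤ m) : 1 < bGZ m := by
  unfold bGZ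
  have hc : (0 : ℝ) < (Nat.choose (2 * m) m : ℝ) := by
    exact_mod_cast Nat.choose_pos (by omega)
  rw [lt_div_iff₀ hc, one_mul]
  have h1 : Nat.choose (2 * m) m < 2 ^ (2 * m) := by
    have h2 := Nat.sum_range_choose (2 * m)
    have h3 : Nat.choose (2 * m) m + Nat.choose (2 * m) 0 ≤
        ∑ i ∈ Finset.range (2 * m + 1), Nat.choose (2 * m) i := by
      have h4 : ({m, 0} : Finset ℕ) ⊆ Finset.range (2 * m + 1) := by
        intro i hi
        simp only [Finset.mem_insert, Finset.mem_singleton] at hi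
        rw [Finset.mem_range]
        omega
      calc Nat.choose (2 * m) m + Nat.choose (2 * m) 0
          = ∑ i ∈ ({m, 0} : Finset ℕ), Nat.choose (2 * m) i := by
            rw [Finset.sum_pair (by omega)]
        _ ≤ _ := Finset.sum_le_sum_of_subset h4
    rw [h2] at h3
    simp only [Nat.choose_zero_right] at h3
    omega
  have h5 : (2 : ℕ) ^ (2 * m) = 4 ^ m := by rw [pow_mul]; norm_num
  rw [h5] at h1
  exact_mod_cast h1

theorem no_seq (m : ℕ) (hm : 2 ≤ m) (U : ℕ → Eu (2 * m + 2) → Eu (2 * m + 2))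
    (hU : ∀ k, HomField (U k))
    (hD : ∀ k : ℕ, ∫ x, DD (U k) x ∂(mB (2 * m + 2))
      ≤ (bGZ m + 1 / ((k : ℝ) + 1)) * bv (2 * m + 2)) : False := by
  obtain ⟨U', V, lam, h⟩ := exists_convData m hm U hU hD
  have hL := h.limitData hm
  obtain ⟨p, hp, hpx⟩ := hL.classify (by omega)
  have hc := hL.classify' (by omega) hp hpx
  obtain ⟨hJ, hJE⟩ := explicit_integral m p hp
  have hae : (fun x => ((1 - ⟪p, hat x⟫ ^ 2)⁻¹) ^ m) =ᵐ[mB (2 * m + 2)]
      fun x => (1 + lam x ^ 2) ^ m := by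
    filter_upwards [hc] with x hx
    have h1 : (1 - ⟪p, hat x⟫ ^ 2)⁻¹ = 1 + lam x ^ 2 := by
      have h2 := hx.1
      have h3 : (1 - ⟪p, hat x⟫ ^ 2) ≠ 0 := by
        intro h0
        rw [h0, mul_zero] at h2
        exact zero_ne_one h2
      field_simp
      linarith
    rw [h1]
  have hI : Integrable (fun x => (1 + lam x ^ 2) ^ m) (mB (2 * m + 2)) := hJ.congr hae
  have hE : ∫ x, (1 + lam x ^ 2) ^ m ∂(mB (2 * m + 2)) = bGZ m * bv (2 * m + 2) := by
    rw [← hJE]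
    exact (integral_congr_ae hae).symm
  obtain ⟨hdi, hd0⟩ := h.limit_det hm hI hE
  -- scalar product with `p`
  have h5 : ∫ x, ⟪p, (lam x ^ (2 * m)) • (‖x‖ • V x)⟫ ∂(mB (2 * m + 2)) = 0 := by
    rw [integral_inner hdi, hd0, inner_zero_right]
  have hi5 : Integrable (fun x => - ⟪p, (lam x ^ (2 * m)) • (‖x‖ • V x)⟫) (mB (2 * m + 2)) :=
    (hdi.const_inner p).neg
  have hnn : 0 ≤ᵐ[mB (2 * m + 2)] fun x => - ⟪p, (lam x ^ (2 * m)) • (‖x‖ • V x)⟫ := by
    filter_upwards [hc] with x hx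
    have h6 : ⟪V x, p⟫ ≤ 0 := by
      have h7 : (0 : ℝ) < √ (1 + lam x ^ 2) := Real.sqrt_pos.mpr (by positivity)
      by_contra h8
      push Not at h8
      have := mul_pos h7 h8
      linarith [hx.2.2]
    have h9 : ⟪p, (lam x ^ (2 * m)) • (‖x‖ • V x)⟫ = lam x ^ (2 * m) * (‖x‖ * ⟪V x, p⟫) := by
      rw [inner_smul_right, inner_smul_right, real_inner_comm]
    show 0 ≤ - ⟪p, (lam x ^ (2 * m)) • (‖x‖ • V x)⟫
    rw [h9]
    have h10 : 0 ≤ lam x ^ (2 * m) := by rw [pow_mul]; positivity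
    have h11 : ‖x‖ * ⟪V x, p⟫ ≤ 0 := mul_nonpos_of_nonneg_of_nonpos (norm_nonneg _) h6
    have := mul_nonpos_of_nonneg_of_nonpos h10 h11
    linarith
  have h12 : ∫ x, - ⟪p, (lam x ^ (2 * m)) • (‖x‖ • V x)⟫ ∂(mB (2 * m + 2)) = 0 := by
    rw [integral_neg, h5, neg_zero]
  have h13 := (integral_eq_zero_iff_of_nonneg_ae hnn hi5).mp h12
  have hne : ∀ᵐ x ∂(mB (2 * m + 2)), x ≠ (0 : Eu (2 * m + 2)) :=
    (hL.ae_all (by omega)).mono fun x hx => hx.1
  have h14 : (fun x => (1 + lam x ^ 2) ^ m) =ᵐ[mB (2 * m + 2)] fun _ => (1 : ℝ) := by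
    filter_upwards [h13, hc, hne] with x hx hx2 hx0
    have h15 : ⟪V x, p⟫ ≠ 0 := by
      intro h16
      have := hx2.2.2
      rw [h16, mul_zero] at this
      norm_num at this
    have h9 : ⟪p, (lam x ^ (2 * m)) • (‖x‖ • V x)⟫ = lam x ^ (2 * m) * (‖x‖ * ⟪V x, p⟫) := by
      rw [inner_smul_right, inner_smul_right, real_inner_comm]
    have h17 : lam x ^ (2 * m) * (‖x‖ * ⟪V x, p⟫) = 0 := by
      have := hx
      simp only [Pi.zero_apply] at this
      rw [← h9]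
      linarith
    have h18 : lam x = 0 := by
      rcases mul_eq_zero.mp h17 with h19 | h19
      · exact pow_eq_zero_iff (by omega) |>.mp h19
      · rcases mul_eq_zero.mp h19 with h20 | h20
        · exact absurd (norm_eq_zero.mp h20) hx0
        · exact absurd h20 h15
    show (1 + lam x ^ 2) ^ m = 1
    rw [h18]
    norm_num
  have h21 : bGZ m * bv (2 * m + 2) = bv (2 * m + 2) := by
    rw [← hE, integral_congr_ae h14]
    simp [mB, bv, Measure.real]
  have h22 := one_lt_bGZ m hm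
  have h23 := bv_pos (2 * m + 2)
  nlinarith

theorem strict_bound (m : ℕ) (hm : 2 ≤ m) : ∃ δ : ℝ, 0 < δ ∧
    ∀ V : Eu (2 * m + 2) → Eu (2 * m + 2), IsField V →
      (4 ^ m / (Nat.choose (2 * m) m : ℝ) + δ) * area (2 * m + 2) ≤ vol V := by
  by_contra hcon
  push Not at hcon
  have hk : ∀ k : ℕ, ∃ V : Eu (2 * m + 2) → Eu (2 * m + 2), IsField V ∧
      vol V < (4 ^ m / (Nat.choose (2 * m) m : ℝ) + 1 / ((k : ℝ) + 1)) * area (2 * m + 2) :=
    fun k => hcon _ (by positivity)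
  choose V hV hVv using hk
  have hd : (0 : ℝ) < ((2 * m + 2 : ℕ) : ℝ) := by positivity
  refine no_seq m hm (fun k => Uext (V k)) (fun k => homField_Uext (hV k)) fun k => ?_
  have hH := homField_Uext (hV k)
  have h1 := integral_ball_eq_sphere (d := 2 * m + 2) (by omega) hH.DD_continuousOn
    (fun s hs x hx => hH.DD_smul hs hx)
  have h2 : ∫ x : Metric.sphere (0 : Eu (2 * m + 2)) 1, DD (Uext (V k)) (x : Eu (2 * m + 2))
      ∂((volume : Measure (Eu (2 * m + 2))).toSphere) = vol (V k) := by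
    unfold vol
    refine integral_congr_ae (Eventually.of_forall fun x => ?_)
    have hx : ‖(x : Eu (2 * m + 2))‖ = 1 := by
      have := x.2
      simpa using this
    exact dens_eq (hV k) hx
  rw [h2] at h1
  have h3 := hVv k
  rw [area_eq _ (by omega), h1] at h3
  have h4 : ((2 * m + 2 : ℕ) : ℝ) * ∫ x, DD (Uext (V k)) x ∂(mB (2 * m + 2)) <
      ((2 * m + 2 : ℕ) : ℝ) * ((bGZ m + 1 / ((k : ℝ) + 1)) * bv (2 * m + 2)) := by
    have h5 : (4 ^ m / (Nat.choose (2 * m) m : ℝ) + 1 / ((k : ℝ) + 1))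
        * (((2 * m + 2 : ℕ) : ℝ) * bv (2 * m + 2)) =
        ((2 * m + 2 : ℕ) : ℝ) * ((bGZ m + 1 / ((k : ℝ) + 1)) * bv (2 * m + 2)) := by
      unfold bGZ
      ring
    rw [← h5]
    exact h3
  exact (lt_of_mul_lt_mul_left h4 hd.le).le

end Pool.UVF
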