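import Pool.Agent.Lib.MP_28fba0_gt.UV.Blocks
import Pool.Agent.Lib.MP_28fba0_gt.UV.Conj

/-!
# UV-PtRed: reduction of the pointwise situation to the block form

`x, v` orthonormal in `ℝ^{2m+2}`, `A` a matrix with `A x = 0`, `xᵀ A = 0`, `vᵀ A = 0`;
`a = A + v xᵀ - x vᵀ`, `T = A (1 - v vᵀ)`.

Proof.  `Q` from `exists_adapted`.  `Qᵀ x = e_{inl 0}`, `Qᵀ v = e_{inl 1}` (the columns of `Q` are
orthonormal, `Qᵀ Q = 1`; `x`, `v` are the first two columns).  `Qᵀ A Q` has zero rows `inl 0`, `inl 1`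
(`xᵀ A = 0`, `vᵀ A = 0`) and zero column `inl 0` (`A x = 0`), i.e. it is `fromBlocks 0 0 (Cm α) B` with
`B = (Qᵀ A Q)` restricted, `α i = (Qᵀ A Q) (inr i) (inl 1)`;
`Qᵀ (v xᵀ - x vᵀ) Q = fromBlocks Rm 0 0 0` (entries `(Qᵀ v)_p (Qᵀ x)_q - (Qᵀ x)_p (Qᵀ v)_q`), so
`Qᵀ a Q = fromBlocks Rm 0 (Cm α) B`; `Qᵀ T Q = (Qᵀ A Q) (Qᵀ (1 - v vᵀ) Q) = fromBlocks 0 0 0 B`
(`Q Qᵀ = 1` in the middle; `Qᵀ (1 - v vᵀ) Q` = diagonal with a zero at `inl 1`); and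
`Qᵀ (a0 l x v) Q = fromBlocks Rm 0 0 (l • 1)`, because
`a0 l x v = l • (1 - x xᵀ - v vᵀ) + v xᵀ - x vᵀ`.
-/

open Matrix Real
open scoped RealInnerProductSpace

namespace Pool.UVF

variable {m : ℕ}

/-- the hypotheses on `x, v, A` -/
structure Adapted (x v : Eu (2 * m + 2)) (A : Matrix (Fin (2 * m + 2)) (Fin (2 * m + 2)) ℝ) :
    Prop where
  nx : ‖x‖ = 1
  nv : ‖v‖ = 1
  orth : ⟪x, v⟫ = 0
  Ax : A *ᵥ x.ofLp = 0
  xA : x.ofLp ᵥ* A = 0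
  vA : v.ofLp ᵥ* A = 0

private theorem ptred_conj_vec {Q : Matrix (Fin (2 * m + 2)) (Fin 2 ⊕ Fin (2 * m)) ℝ}
    (y z : Fin (2 * m + 2) → ℝ) :
    Qᵀ * vecMulVec y z * Q = vecMulVec (Qᵀ *ᵥ y) (Qᵀ *ᵥ z) := by
  ext p q
  simp only [Matrix.mul_apply, vecMulVec_apply, mulVec, dotProduct, transpose_apply]
  simp_rw [Finset.sum_mul]
  rw [Finset.sum_comm]
  refine Finset.sum_congr rfl fun i _ => ?_
  rw [Finset.mul_sum]
  refine Finset.sum_congr rfl fun j _ => ?_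
  ring

private theorem ptred_col {Q : Matrix (Fin (2 * m + 2)) (Fin 2 ⊕ Fin (2 * m)) ℝ}
    (hQ : Qᵀ * Q = 1) (k : Fin 2 ⊕ Fin (2 * m)) (y : Fin (2 * m + 2) → ℝ)
    (hy : ∀ i, Q i k = y i) : Qᵀ *ᵥ y = Pi.single k 1 := by
  ext p
  have h := congrFun (congrFun hQ p) k
  rw [Matrix.mul_apply] at h
  simp only [mulVec, dotProduct]
  simp_rw [← hy]
  rw [h, Matrix.one_apply, Pi.single_apply]

private theorem ptred_zero_col {Q : Matrix (Fin (2 * m + 2)) (Fin 2 ⊕ Fin (2 * m)) ℝ}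
    {A : Matrix (Fin (2 * m + 2)) (Fin (2 * m + 2)) ℝ}
    (k : Fin 2 ⊕ Fin (2 * m)) (y : Fin (2 * m + 2) → ℝ)
    (hy : ∀ i, Q i k = y i) (hA : A *ᵥ y = 0) (p : Fin 2 ⊕ Fin (2 * m)) :
    (Qᵀ * A * Q) p k = 0 := by
  have h1 : (Qᵀ * A * Q) p k = ∑ i, Qᵀ p i * (A *ᵥ y) i := by
    rw [Matrix.mul_assoc, Matrix.mul_apply]
    refine Finset.sum_congr rfl fun i _ => ?_
    rw [Matrix.mul_apply]
    simp only [mulVec, dotProduct]
    simp_rw [hy]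
  rw [h1, hA]
  simp

private theorem ptred_zero_row {Q : Matrix (Fin (2 * m + 2)) (Fin 2 ⊕ Fin (2 * m)) ℝ}
    {A : Matrix (Fin (2 * m + 2)) (Fin (2 * m + 2)) ℝ}
    (k : Fin 2 ⊕ Fin (2 * m)) (y : Fin (2 * m + 2) → ℝ)
    (hy : ∀ i, Q i k = y i) (hA : y ᵥ* A = 0) (q : Fin 2 ⊕ Fin (2 * m)) :
    (Qᵀ * A * Q) k q = 0 := by
  have h1 : (Qᵀ * A * Q) k q = ∑ i, (y ᵥ* A) i * Q i q := by
    rw [Matrix.mul_apply]
    refine Finset.sum_congr rfl fun i _ => ?_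
    rw [Matrix.mul_apply]
    simp only [vecMul, dotProduct, transpose_apply]
    simp_rw [hy]
  rw [h1, hA]
  simp

theorem Adapted.exists_block {x v : Eu (2 * m + 2)}
    {A : Matrix (Fin (2 * m + 2)) (Fin (2 * m + 2)) ℝ} (h : Adapted x v A) :
    ∃ (Q : Matrix (Fin (2 * m + 2)) (Fin 2 ⊕ Fin (2 * m)) ℝ)
      (B : Matrix (Fin (2 * m)) (Fin (2 * m)) ℝ) (α : Fin (2 * m) → ℝ),
      Qᵀ * Q = 1 ∧ Q * Qᵀ = 1 ∧
      Qᵀ * A * Q = fromBlocks (0 : Matrix (Fin 2) (Fin 2) ℝ) 0 (Cm α) B ∧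
      Qᵀ * (A + vecMulVec v.ofLp x.ofLp - vecMulVec x.ofLp v.ofLp) * Q
        = fromBlocks Rm 0 (Cm α) B ∧
      Qᵀ * (A * (1 - vecMulVec v.ofLp v.ofLp)) * Q
        = fromBlocks (0 : Matrix (Fin 2) (Fin 2) ℝ) 0 0 B ∧
      ∀ l : ℝ, Qᵀ * (a0 l x v) * Q
        = fromBlocks Rm 0 0 (l • (1 : Matrix (Fin (2 * m)) (Fin (2 * m)) ℝ)) := by
  obtain ⟨Q, hQ1, hQ2, hQx, hQv⟩ := exists_adapted x v h.nx h.nv h.orth
  have hx : Qᵀ *ᵥ x.ofLp = Pi.single (Sum.inl 0) 1 := ptred_col hQ1 _ _ hQx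
  have hv : Qᵀ *ᵥ v.ofLp = Pi.single (Sum.inl 1) 1 := ptred_col hQ1 _ _ hQv
  have hc0 : ∀ p, (Qᵀ * A * Q) p (Sum.inl 0) = 0 := ptred_zero_col _ _ hQx h.Ax
  have hr0 : ∀ q, (Qᵀ * A * Q) (Sum.inl 0) q = 0 := ptred_zero_row _ _ hQx h.xA
  have hr1 : ∀ q, (Qᵀ * A * Q) (Sum.inl 1) q = 0 := ptred_zero_row _ _ hQv h.vA
  have hA : Qᵀ * A * Q = fromBlocks (0 : Matrix (Fin 2) (Fin 2) ℝ) 0
      (Cm fun i => (Qᵀ * A * Q) (Sum.inr i) (Sum.inl 1))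
      (Matrix.of fun i j => (Qᵀ * A * Q) (Sum.inr i) (Sum.inr j)) := by
    ext p q
    rcases p with p | p <;> rcases q with q | q
    · fin_cases p
      · exact hr0 _
      · exact hr1 _
    · fin_cases p
      · exact hr0 _
      · exact hr1 _
    · fin_cases q
      · simpa [Cm] using hc0 (Sum.inr p)
      · simp [Cm]
    · rfl
  refine ⟨Q, Matrix.of fun i j => (Qᵀ * A * Q) (Sum.inr i) (Sum.inr j),
    fun i => (Qᵀ * A * Q) (Sum.inr i) (Sum.inl 1), hQ1, hQ2, hA, ?_, ?_, fun l => ?_⟩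
  · rw [Matrix.mul_sub, Matrix.sub_mul, Matrix.mul_add, Matrix.add_mul, ptred_conj_vec,
      ptred_conj_vec, hx, hv]
    rw [hA]
    ext p q
    rcases p with p | p <;> rcases q with q | q
    · fin_cases p <;> fin_cases q <;> simp [Rm, vecMulVec_apply]
    · fin_cases p <;> simp [vecMulVec_apply]
    · fin_cases q <;> simp [Cm, vecMulVec_apply]
    · simp [vecMulVec_apply]
  · have h1 : Qᵀ * (A * (1 - vecMulVec v.ofLp v.ofLp)) * Q =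
        (Qᵀ * A * Q) * (1 - vecMulVec (Pi.single (Sum.inl 1) 1) (Pi.single (Sum.inl 1) 1)) := by
      have h2 : Qᵀ * (1 - vecMulVec v.ofLp v.ofLp) * Q =
          1 - vecMulVec (Pi.single (Sum.inl 1) 1) (Pi.single (Sum.inl 1) 1) := by
        rw [Matrix.mul_sub, Matrix.sub_mul, ptred_conj_vec, hv, Matrix.mul_one, hQ1]
      rw [← h2]
      calc Qᵀ * (A * (1 - vecMulVec v.ofLp v.ofLp)) * Q
          = Qᵀ * A * (1 : Matrix (Fin (2 * m + 2)) (Fin (2 * m + 2)) ℝ) *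
            (1 - vecMulVec v.ofLp v.ofLp) * Q := by
            rw [Matrix.mul_one, Matrix.mul_assoc Qᵀ A]
        _ = Qᵀ * A * (Q * Qᵀ) * (1 - vecMulVec v.ofLp v.ofLp) * Q := by rw [hQ2]
        _ = _ := by simp only [Matrix.mul_assoc]
    rw [h1, Matrix.mul_sub, Matrix.mul_one]
    have h3 : ∀ p q, ((Qᵀ * A * Q) * (vecMulVec (Pi.single (Sum.inl 1) 1)
        (Pi.single (Sum.inl 1) 1) : Matrix (Fin 2 ⊕ Fin (2 * m)) (Fin 2 ⊕ Fin (2 * m)) ℝ)) p q =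
        (Qᵀ * A * Q) p (Sum.inl 1) * (if q = Sum.inl 1 then 1 else 0) := by
      intro p q
      rw [Matrix.mul_apply]
      simp only [vecMulVec_apply, Pi.single_apply]
      simp
    ext p q
    rw [Matrix.sub_apply, h3]
    rcases p with p | p <;> rcases q with q | q
    · fin_cases p <;> fin_cases q <;> simp [hr0, hr1]
    · fin_cases p <;> simp [hr0, hr1]
    · fin_cases q
      · simp [hc0]
      · simp
    · simp
  · have h1 : a0 l x v = l • (1 - vecMulVec x.ofLp x.ofLp - vecMulVec v.ofLp v.ofLp) +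
        vecMulVec v.ofLp x.ofLp - vecMulVec x.ofLp v.ofLp := by
      ext p q
      simp [a0, vecMulVec_apply, Matrix.one_apply]
    rw [h1, Matrix.mul_sub, Matrix.sub_mul, Matrix.mul_add, Matrix.add_mul, Matrix.mul_smul,
      Matrix.smul_mul, Matrix.mul_sub, Matrix.mul_sub, Matrix.sub_mul, Matrix.sub_mul,
      ptred_conj_vec, ptred_conj_vec, ptred_conj_vec, ptred_conj_vec, hx, hv, Matrix.mul_one, hQ1]
    ext p q
    rcases p with p | p <;> rcases q with q | q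
    · fin_cases p <;> fin_cases q <;> simp [Rm, vecMulVec_apply]
    · fin_cases p <;> simp [vecMulVec_apply]
    · fin_cases q <;> simp [vecMulVec_apply]
    · simp [vecMulVec_apply, Matrix.one_apply]

end Pool.UVF
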