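import Pool.Agent.Lib.MP_28fba0_gt.UV.HomA
import Pool.Agent.Lib.MP_28fba0_gt.UV.PtRed

/-!
# UV-HomAd: `Am U x` is adapted to `hat x`, `vh U x`

For `x ≠ 0`, `x̂ = hat x`, `v = vh U x = U x/‖x‖`, `a = jac U x`: `‖x̂‖ = ‖v‖ = 1`, `⟪x̂, v⟫ = 0`;
`a x̂ = v` (`euler`), `x̂ᵀ a = - vᵀ` (differentiate `⟪y, U y⟫ = 0` at `x` in the direction `w`:
`⟪w, U x⟫ + ⟪x, DU(x) w⟫ = 0`), `vᵀ a = x̂ᵀ` (differentiate `‖U y‖² = ‖y‖²`:
`⟪U x, DU(x) w⟫ = ⟪x, w⟫`); so `A = a - v x̂ᵀ + x̂ vᵀ` satisfies `A x̂ = 0`, `x̂ᵀ A = 0`, `vᵀ A = 0`.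
-/

open Matrix Real Set
open scoped RealInnerProductSpace

namespace Pool.UVF

private theorem inner_sum {d : ℕ} (a b : Eu d) : ⟪a, b⟫ = ∑ i, a i * b i := by
  rw [PiLp.inner_apply]
  refine Finset.sum_congr rfl fun i _ => ?_
  simp [mul_comm]

private theorem jac_mulVec {d : ℕ} (U : Eu d → Eu d) (x w : Eu d) :
    jac U x *ᵥ w.ofLp = (fderiv ℝ U x w).ofLp := by
  have hw : w = ∑ i, w i • EuclideanSpace.single i (1 : ℝ) := by
    ext j
    simp [Finset.sum_apply, Pi.single_apply]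
  ext j
  conv_rhs => rw [hw, map_sum]
  simp only [map_smul]
  rw [Matrix.mulVec, dotProduct]
  simp [jac, Matrix.of_apply, mul_comm]

private theorem vecMul_jac {d : ℕ} (U : Eu d → Eu d) (x w : Eu d) (i : Fin d) :
    (w.ofLp ᵥ* jac U x) i = ⟪w, fderiv ℝ U x (EuclideanSpace.single i (1 : ℝ))⟫ := by
  rw [inner_sum, Matrix.vecMul, dotProduct]
  rfl

private theorem inner_single {d : ℕ} (a : Eu d) (i : Fin d) :
    ⟪a, EuclideanSpace.single i (1 : ℝ)⟫ = a i := by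
  rw [inner_sum]
  simp [PiLp.single_apply]

private theorem diff1 {d : ℕ} {U : Eu d → Eu d} (hU : HomField U) {x : Eu d} (hx : x ≠ 0) (w : Eu d) :
    ⟪x, fderiv ℝ U x w⟫ = - ⟪U x, w⟫ := by
  have hd : DifferentiableAt ℝ U x :=
    (hU.smooth.differentiableOn one_ne_zero).differentiableAt (isOpen_compl_singleton.mem_nhds hx)
  have h1 := (hasFDerivAt_id x).inner ℝ hd.hasFDerivAt
  have h2 : (fun y : Eu d => ⟪(id y : Eu d), U y⟫) = fun _ => (0 : ℝ) := by
    ext1 y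
    exact hU.orth y
  rw [h2] at h1
  have h3 := congrArg (fun L : Eu d →L[ℝ] ℝ => L w) (h1.unique (hasFDerivAt_const (0 : ℝ) x))
  simp [fderivInnerCLM_apply] at h3
  rw [real_inner_comm (U x) w] at h3
  linarith

private theorem diff2 {d : ℕ} {U : Eu d → Eu d} (hU : HomField U) {x : Eu d} (hx : x ≠ 0) (w : Eu d) :
    ⟪U x, fderiv ℝ U x w⟫ = ⟪x, w⟫ := by
  have hd : DifferentiableAt ℝ U x :=
    (hU.smooth.differentiableOn one_ne_zero).differentiableAt (isOpen_compl_singleton.mem_nhds hx)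
  have h1 := hd.hasFDerivAt.inner ℝ hd.hasFDerivAt
  have h1' := (hasFDerivAt_id x).inner ℝ (hasFDerivAt_id x)
  have h2 : (fun y : Eu d => ⟪U y, U y⟫) = fun y : Eu d => ⟪(id y : Eu d), id y⟫ := by
    ext1 y
    rw [real_inner_self_eq_norm_sq, hU.norm, id, real_inner_self_eq_norm_sq]
  rw [h2] at h1
  have h3 := congrArg (fun L : Eu d →L[ℝ] ℝ => L w) (h1.unique h1')
  simp [fderivInnerCLM_apply] at h3
  rw [real_inner_comm (U x) (fderiv ℝ U x w), real_inner_comm x w] at h3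
  linarith

theorem HomField.adapted {m : ℕ} {U : Eu (2 * m + 2) → Eu (2 * m + 2)} (hU : HomField U)
    {x : Eu (2 * m + 2)} (hx : x ≠ 0) : Adapted (hat x) (vh U x) (Am U x) := by
  have hn : ‖x‖ ≠ 0 := norm_ne_zero_iff.2 hx
  have nx : ‖hat x‖ = 1 := by
    unfold hat
    rw [norm_smul, norm_inv, norm_norm, inv_mul_cancel₀ hn]
  have nv : ‖vh U x‖ = 1 := by
    unfold vh
    rw [norm_smul, norm_inv, norm_norm, hU.norm, inv_mul_cancel₀ hn]
  have orth : ⟪hat x, vh U x⟫ = 0 := by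
    unfold hat vh
    rw [real_inner_smul_left, real_inner_smul_right, hU.orth, mul_zero, mul_zero]
  have orth' : ⟪vh U x, hat x⟫ = 0 := by rw [real_inner_comm, orth]
  have d1 : (hat x).ofLp ⬝ᵥ (hat x).ofLp = 1 := by
    have := real_inner_self_eq_norm_sq (hat x)
    rw [nx, one_pow, inner_sum] at this
    exact this
  have d2 : (vh U x).ofLp ⬝ᵥ (vh U x).ofLp = 1 := by
    have := real_inner_self_eq_norm_sq (vh U x)
    rw [nv, one_pow, inner_sum] at this
    exact this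
  have d3 : (hat x).ofLp ⬝ᵥ (vh U x).ofLp = 0 := by
    rw [inner_sum] at orth
    exact orth
  have d4 : (vh U x).ofLp ⬝ᵥ (hat x).ofLp = 0 := by
    rw [inner_sum] at orth'
    exact orth'
  refine ⟨nx, nv, orth, ?_, ?_, ?_⟩
  · unfold Am
    rw [Matrix.add_mulVec, Matrix.sub_mulVec, jac_mulVec, Matrix.vecMulVec_mulVec,
      Matrix.vecMulVec_mulVec, d1, d4]
    have : fderiv ℝ U x (hat x) = vh U x := by
      unfold hat vh
      rw [map_smul, hU.euler hx]
    rw [this]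
    simp
  · unfold Am
    rw [Matrix.vecMul_add, Matrix.vecMul_sub, Matrix.vecMul_vecMulVec, Matrix.vecMul_vecMulVec,
      d1, d3]
    ext i
    have : ((hat x).ofLp ᵥ* jac U x) i = - (vh U x) i := by
      rw [vecMul_jac]
      unfold hat vh
      rw [real_inner_smul_left, diff1 hU hx, inner_single]
      simp
    simp [this]
  · unfold Am
    rw [Matrix.vecMul_add, Matrix.vecMul_sub, Matrix.vecMul_vecMulVec, Matrix.vecMul_vecMulVec,
      d2, d4]
    ext i
    have : ((vh U x).ofLp ᵥ* jac U x) i = (hat x) i := by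
      rw [vecMul_jac]
      unfold hat vh
      rw [real_inner_smul_left, diff2 hU hx, inner_single]
      simp
    simp [this]

end Pool.UVF
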