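import Pool.Agent.Lib.MP_28fba0_gt.UV.HomJac

/-!
# UV-HomB: `Am`, `Tm`, `DD` are `0`-homogeneous and continuous off the origin

`hat (s • x) = hat x`, `vh U (s • x) = vh U x` (`hU.hom`), `jac_smul`; continuity: `jac_continuousOn`,
`hU.smooth.continuousOn`, continuity of `det`, of matrix products and of `√`.
-/

open Matrix Real Set
open scoped RealInnerProductSpace

namespace Pool.UVF

variable {d : ℕ} {U : Eu d → Eu d}

private theorem hat_smul' {s : ℝ} (hs : 0 < s) (x : Eu d) : hat (s • x) = hat x := by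
  unfold hat
  rw [norm_smul, Real.norm_of_nonneg hs.le, smul_smul, mul_inv, mul_comm s⁻¹, mul_assoc,
    inv_mul_cancel₀ hs.ne', mul_one]

private theorem vh_smul' (hU : HomField U) {s : ℝ} (hs : 0 < s) (x : Eu d) :
    vh U (s • x) = vh U x := by
  unfold vh
  rw [hU.hom s hs.le x, norm_smul, Real.norm_of_nonneg hs.le, smul_smul, mul_inv, mul_comm s⁻¹,
    mul_assoc, inv_mul_cancel₀ hs.ne', mul_one]

private theorem hat_cont : ContinuousOn (hat : Eu d → Eu d) {0}ᶜ := by
  unfold hat
  refine ContinuousOn.smul (ContinuousOn.inv₀ continuous_norm.continuousOn ?_) continuousOn_id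
  intro x hx
  exact norm_ne_zero_iff.2 hx

private theorem vh_cont (hU : HomField U) : ContinuousOn (vh U) {0}ᶜ := by
  unfold vh
  refine ContinuousOn.smul (ContinuousOn.inv₀ continuous_norm.continuousOn ?_)
    hU.smooth.continuousOn
  intro x hx
  exact norm_ne_zero_iff.2 hx

private theorem ofLp_cont {f : Eu d → Eu d} (hf : ContinuousOn f {0}ᶜ) (i : Fin d) :
    ContinuousOn (fun x => (f x).ofLp i) {0}ᶜ := by
  have h : Continuous fun y : Eu d => y.ofLp i := by fun_prop
  exact h.comp_continuousOn hf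

private theorem vmv_cont {f g : Eu d → Eu d} (hf : ContinuousOn f {0}ᶜ)
    (hg : ContinuousOn g {0}ᶜ) :
    ContinuousOn (fun x => Matrix.vecMulVec (f x).ofLp (g x).ofLp) {0}ᶜ := by
  refine continuousOn_pi.2 fun i => continuousOn_pi.2 fun j => ?_
  simp only [Matrix.vecMulVec_apply]
  exact (ofLp_cont hf i).mul (ofLp_cont hg j)

theorem HomField.Am_smul (hU : HomField U) {s : ℝ} (hs : 0 < s) {x : Eu d} (hx : x ≠ 0) :
    Am U (s • x) = Am U x := by
  unfold Am
  rw [hU.jac_smul hs hx, hat_smul' hs, vh_smul' hU hs]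

theorem HomField.Tm_smul (hU : HomField U) {s : ℝ} (hs : 0 < s) {x : Eu d} (hx : x ≠ 0) :
    Tm U (s • x) = Tm U x := by
  unfold Tm
  rw [hU.Am_smul hs hx, vh_smul' hU hs]

theorem HomField.Am_continuousOn (hU : HomField U) : ContinuousOn (Am U) {0}ᶜ := by
  unfold Am
  exact (hU.jac_continuousOn.sub (vmv_cont (vh_cont hU) hat_cont)).add
    (vmv_cont hat_cont (vh_cont hU))

private theorem mul_cont {F G : Eu d → Matrix (Fin d) (Fin d) ℝ} (hF : ContinuousOn F {0}ᶜ)
    (hG : ContinuousOn G {0}ᶜ) : ContinuousOn (fun x => F x * G x) {0}ᶜ := by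
  have h1 : Continuous fun M : Matrix (Fin d) (Fin d) ℝ × Matrix (Fin d) (Fin d) ℝ =>
      M.1 * M.2 := continuous_fst.matrix_mul continuous_snd
  exact h1.comp_continuousOn (hF.prodMk hG)

theorem HomField.Tm_continuousOn (hU : HomField U) : ContinuousOn (Tm U) {0}ᶜ := by
  unfold Tm
  exact mul_cont hU.Am_continuousOn (continuousOn_const.sub (vmv_cont (vh_cont hU) (vh_cont hU)))

theorem HomField.DD_continuousOn (hU : HomField U) : ContinuousOn (DD U) {0}ᶜ := by
  unfold DD
  refine ContinuousOn.sqrt ?_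
  have h1 : Continuous fun M : Matrix (Fin d) (Fin d) ℝ => (1 + Mᵀ * M).det := by
    refine Continuous.matrix_det ?_
    refine continuous_const.add ?_
    exact (continuous_id.matrix_transpose).matrix_mul continuous_id
  exact h1.comp_continuousOn hU.Am_continuousOn

theorem HomField.DD_smul (hU : HomField U) {s : ℝ} (hs : 0 < s) {x : Eu d} (hx : x ≠ 0) :
    DD U (s • x) = DD U x := by
  unfold DD
  rw [hU.Am_smul hs hx]

end Pool.UVF
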