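import Pool.Agent.Lib.MP_28fba0_gt.UV.HomA

/-!
# UV-HomJac: the Jacobian matrix of a `HomField`

`jac U x j i = (fderiv ℝ U x e_i) j`: from `fderiv_smul`, `fderiv_continuousOn`, `fderiv_bounded`.
-/

open Matrix Real Set
open scoped RealInnerProductSpace

namespace Pool.UVF

variable {d : ℕ} {U : Eu d → Eu d}

theorem HomField.jac_smul (hU : HomField U) {s : ℝ} (hs : 0 < s) {x : Eu d} (hx : x ≠ 0) :
    jac U (s • x) = jac U x := by
  unfold jac
  rw [hU.fderiv_smul hs hx]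

theorem HomField.jac_continuousOn (hU : HomField U) : ContinuousOn (jac U) {0}ᶜ := by
  refine continuousOn_pi.mpr fun j => continuousOn_pi.mpr fun i => ?_
  have h1 : ContinuousOn (fun x => fderiv ℝ U x (EuclideanSpace.single i (1 : ℝ))) {0}ᶜ :=
    hU.fderiv_continuousOn.clm_apply continuousOn_const
  exact (EuclideanSpace.proj (𝕜 := ℝ) j).continuous.comp_continuousOn h1

theorem HomField.jac_bounded (hU : HomField U) :
    ∃ C : ℝ, 0 < C ∧ ∀ x, x ≠ 0 → ∀ j i, |jac U x j i| ≤ C := by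
  obtain ⟨C, hC, h⟩ := hU.fderiv_bounded
  refine ⟨C, hC, fun x hx j i => ?_⟩
  have h1 : ‖fderiv ℝ U x (EuclideanSpace.single i (1 : ℝ))‖ ≤ C := by
    refine ((fderiv ℝ U x).le_opNorm _).trans ?_
    rw [EuclideanSpace.norm_single, norm_one, mul_one]
    exact h x hx
  have h2 : ‖(fderiv ℝ U x (EuclideanSpace.single i (1 : ℝ))) j‖ ≤
      ‖fderiv ℝ U x (EuclideanSpace.single i (1 : ℝ))‖ := PiLp.norm_apply_le _ j
  exact h2.trans h1

end Pool.UVF
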