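import Pool.Agent.Lib.MP_28fba0_gt.UV.HomA

/-!
# UV-HomLip: a `HomField` is Lipschitz on `ℝ^d`

If `0 ∉ [x,y]`: mean value inequality on the segment (path `t ↦ U (x + t (y-x))`,
`norm_image_sub_le_of_norm_deriv_le_segment_01'` or `Convex.norm_image_sub_le_of_norm_hasFDerivWithin_le`
applied on the segment), with `fderiv_bounded`.  If `0 ∈ [x,y]`:
`‖U x - U y‖ ≤ ‖U x‖ + ‖U y‖ = ‖x‖ + ‖y‖ = ‖x - y‖`.
-/

open Matrix Real Set
open scoped RealInnerProductSpace

namespace Pool.UVF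

variable {d : ℕ} {U : Eu d → Eu d}

theorem HomField.lipschitz (hU : HomField U) : ∃ L : NNReal, 0 < L ∧ LipschitzWith L U := by
  obtain ⟨C, hC, hbd⟩ := hU.fderiv_bounded
  have hpos : 0 < max C 1 := lt_of_lt_of_le one_pos (le_max_right _ _)
  refine ⟨Real.toNNReal (max C 1), Real.toNNReal_pos.2 hpos, ?_⟩
  apply LipschitzWith.of_dist_le_mul
  intro x y
  rw [dist_eq_norm, dist_eq_norm, Real.coe_toNNReal _ hpos.le]
  by_cases h0 : (0 : Eu d) ∈ segment ℝ x y
  · have h1 : dist x 0 + dist 0 y = dist x y := dist_add_dist_of_mem_segment h0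
    rw [dist_zero_right, dist_zero_left, dist_eq_norm] at h1
    calc ‖U x - U y‖ ≤ ‖U x‖ + ‖U y‖ := norm_sub_le _ _
      _ = ‖x - y‖ := by rw [hU.norm, hU.norm, h1]
      _ = 1 * ‖x - y‖ := (one_mul _).symm
      _ ≤ max C 1 * ‖x - y‖ := mul_le_mul_of_nonneg_right (le_max_right _ _) (norm_nonneg _)
  · have hne : ∀ z ∈ segment ℝ x y, z ≠ 0 := by
      intro z hz h
      exact h0 (h ▸ hz)
    have hd : ∀ z ∈ segment ℝ x y, HasFDerivWithinAt U (fderiv ℝ U z) (segment ℝ x y) z := by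
      intro z hz
      have hz0 := hne z hz
      have hcd : ContDiffAt ℝ 1 U z :=
        hU.smooth.contDiffAt (isOpen_compl_singleton.mem_nhds (by simpa using hz0))
      exact (hcd.differentiableAt (by norm_num)).hasFDerivAt.hasFDerivWithinAt
    have hb : ∀ z ∈ segment ℝ x y, ‖fderiv ℝ U z‖ ≤ max C 1 := fun z hz =>
      (hbd z (hne z hz)).trans (le_max_left _ _)
    have h := (convex_segment x y).norm_image_sub_le_of_norm_hasFDerivWithin_le hd hb
      (right_mem_segment ℝ x y) (left_mem_segment ℝ x y)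
    exact h

end Pool.UVF
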