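import Pool.Agent.Lib.MP_28fba0_gt.UV.Defs

/-!
# UV-HomA: first properties of a `HomField`, derivative

* `continuous`: at `0` from `‖U x‖ = ‖x‖`, elsewhere from `smooth`.
* `fderiv_smul`: differentiate `U (s • y) = s • U y` at `y = x` (`s > 0`, `x ≠ 0`).
* `fderiv_continuousOn`: `ContDiffOn ℝ 1` on the open set `{0}ᶜ`.
* `fderiv_bounded`: `fderiv U` is continuous on the unit sphere (compact), and `0`-homogeneous.
* `euler`: differentiate `s ↦ U (s • x) = s • U x` at `s = 1`.
-/

open Matrix Real Set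
open scoped RealInnerProductSpace

namespace Pool.UVF

variable {d : ℕ} {U : Eu d → Eu d}

theorem HomField.continuous (hU : HomField U) : Continuous U := by
  rw [continuous_iff_continuousAt]
  intro x
  by_cases hx : x = 0
  · subst hx
    have h0 : U 0 = 0 := by
      rw [← norm_eq_zero, hU.norm, norm_zero]
    unfold ContinuousAt
    rw [h0, tendsto_zero_iff_norm_tendsto_zero]
    simp only [hU.norm]
    have := (continuous_norm (E := Eu d)).tendsto 0
    rwa [norm_zero] at this
  · exact hU.smooth.continuousOn.continuousAt (isOpen_compl_singleton.mem_nhds hx)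

theorem HomField.fderiv_smul (hU : HomField U) {s : ℝ} (hs : 0 < s) {x : Eu d} (hx : x ≠ 0) :
    fderiv ℝ U (s • x) = fderiv ℝ U x := by
  have h1 : (fun y => U (s • y)) = fun y => s • U y := by
    ext1 y
    exact hU.hom s hs.le y
  have h2 : fderiv ℝ (fun y => U (s • y)) x = s • fderiv ℝ U (s • x) := fderiv_comp_smul s
  have hd : DifferentiableAt ℝ U x :=
    (hU.smooth.differentiableOn one_ne_zero).differentiableAt (isOpen_compl_singleton.mem_nhds hx)
  have h3 : fderiv ℝ (fun y => s • U y) x = s • fderiv ℝ U x := fderiv_fun_const_smul hd s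
  rw [h1, h3] at h2
  exact (smul_right_injective _ hs.ne' h2).symm

theorem HomField.fderiv_continuousOn (hU : HomField U) :
    ContinuousOn (fderiv ℝ U) {0}ᶜ := by
  exact hU.smooth.continuousOn_fderiv_of_isOpen isOpen_compl_singleton le_rfl

theorem HomField.fderiv_bounded (hU : HomField U) :
    ∃ C : ℝ, 0 < C ∧ ∀ x, x ≠ 0 → ‖fderiv ℝ U x‖ ≤ C := by
  have hsub : Metric.sphere (0 : Eu d) 1 ⊆ {0}ᶜ := by
    intro x hx
    rw [mem_sphere_zero_iff_norm] at hx
    rw [mem_compl_singleton_iff]
    intro h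
    rw [h, norm_zero] at hx
    exact zero_ne_one hx
  obtain ⟨C, hC⟩ := (isCompact_sphere (0 : Eu d) 1).exists_bound_of_continuousOn
    (hU.fderiv_continuousOn.mono hsub)
  refine ⟨|C| + 1, by positivity, fun x hx => ?_⟩
  have hn : 0 < ‖x‖ := norm_pos_iff.2 hx
  have h1 := hU.fderiv_smul (inv_pos.2 hn) hx
  rw [← h1]
  refine (hC _ ?_).trans ((le_abs_self C).trans (by linarith))
  rw [mem_sphere_zero_iff_norm, norm_smul, norm_inv, norm_norm, inv_mul_cancel₀ hn.ne']

theorem HomField.euler (hU : HomField U) {x : Eu d} (hx : x ≠ 0) : fderiv ℝ U x x = U x := by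
  have hd : DifferentiableAt ℝ U x :=
    (hU.smooth.differentiableOn one_ne_zero).differentiableAt (isOpen_compl_singleton.mem_nhds hx)
  have h1 : HasDerivAt (fun t : ℝ => t • x) x 1 := by
    simpa using (hasDerivAt_id (1 : ℝ)).smul_const x
  have h2 : HasFDerivAt U (fderiv ℝ U x) ((1 : ℝ) • x) := by
    rw [one_smul]
    exact hd.hasFDerivAt
  have h3 : HasDerivAt (fun t : ℝ => U (t • x)) (fderiv ℝ U x x) 1 := h2.comp_hasDerivAt 1 h1
  have h4 : HasDerivAt (fun t : ℝ => t • U x) (U x) 1 := by
    simpa using (hasDerivAt_id (1 : ℝ)).smul_const (U x)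
  have h5 : (fun t : ℝ => U (t • x)) =ᶠ[nhds 1] fun t => t • U x := by
    filter_upwards [lt_mem_nhds (zero_lt_one (α := ℝ))] with t ht
    exact hU.hom t (le_of_lt ht) x
  exact (h3.congr_of_eventuallyEq h5.symm).unique h4

end Pool.UVF
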