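import Pool.Agent.Lib.MP_28fba0_gt.UV.Defs

/-!
# UV-HomIntA: bounded, integrable `0`-homogeneous functions
-/

open Matrix Real Set MeasureTheory
open scoped RealInnerProductSpace

namespace Pool.UVF

theorem bounded_of_hom0 {d : ℕ} (hd : 1 ≤ d) {f : Eu d → ℝ} (hc : ContinuousOn f {0}ᶜ)
    (hh : ∀ s : ℝ, 0 < s → ∀ x, x ≠ 0 → f (s • x) = f x) :
    ∃ C : ℝ, 0 < C ∧ ∀ x, x ≠ 0 → |f x| ≤ C := by
  have hcomp : IsCompact (Metric.sphere (0 : Eu d) 1) := isCompact_sphere 0 1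
  have hsub : Metric.sphere (0 : Eu d) 1 ⊆ ({0}ᶜ : Set (Eu d)) := by
    intro x hx h0
    rw [Set.mem_singleton_iff] at h0
    subst h0
    simp at hx
  obtain ⟨C, hC⟩ := hcomp.exists_bound_of_continuousOn (hc.mono hsub)
  refine ⟨|C| + 1, by positivity, fun x hx => ?_⟩
  have hn : 0 < ‖x‖ := norm_pos_iff.mpr hx
  have h1 : f (‖x‖⁻¹ • x) = f x := hh _ (inv_pos.mpr hn) x hx
  have h2 := hC (‖x‖⁻¹ • x) (by
    rw [mem_sphere_zero_iff_norm, norm_smul, norm_inv, norm_norm, inv_mul_cancel₀ hn.ne'])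
  rw [h1, Real.norm_eq_abs] at h2
  linarith [le_abs_self C]

theorem integrable_of_hom0 {d : ℕ} (hd : 1 ≤ d) {f : Eu d → ℝ} (hc : ContinuousOn f {0}ᶜ)
    (hh : ∀ s : ℝ, 0 < s → ∀ x, x ≠ 0 → f (s • x) = f x) : Integrable f (mB d) := by
  obtain ⟨C, hC0, hC⟩ := bounded_of_hom0 hd hc hh
  haveI : Nonempty (Fin d) := ⟨⟨0, by omega⟩⟩
  have hfin : IsFiniteMeasure (mB d) := by
    constructor
    rw [mB, Measure.restrict_apply_univ]
    exact measure_ball_lt_top
  have h0 : (mB d) {(0 : Eu d)} = 0 := by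
    have hle : (mB d) {(0 : Eu d)} ≤ volume {(0 : Eu d)} := Measure.restrict_apply_le _ _
    have : (volume : Measure (Eu d)) {(0 : Eu d)} = 0 := measure_singleton _
    exact le_antisymm (this ▸ hle) bot_le
  have hae : ∀ᵐ x ∂(mB d), x ∈ ({0}ᶜ : Set (Eu d)) := by
    rw [ae_iff]
    simpa using h0
  have hm : AEStronglyMeasurable f (mB d) := by
    have h1 : AEStronglyMeasurable f ((mB d).restrict ({0}ᶜ : Set (Eu d))) :=
      hc.aestronglyMeasurable (measurableSet_singleton 0).compl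
    rwa [Measure.restrict_eq_self_of_ae_mem hae] at h1
  refine Integrable.of_bound hm C ?_
  filter_upwards [hae] with x hx
  rw [Real.norm_eq_abs]
  exact hC x hx

end Pool.UVF
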