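import Pool.Agent.Lib.MP_28fba0_gt.UV.PtRed
import Pool.Agent.Lib.MP_28fba0_gt.UV.DetBound
import Pool.Agent.Lib.MP_28fba0_gt.UV.BlockEst

/-!
# UV-PtA: pointwise estimates, first part

Use `Adapted.exists_block` (module PtRed) and the invariance lemmas of `Conj`
(`d0 T = d0 (Qᵀ T Q) = d0 (fromBlocks 0 0 0 B) = d0 B` by `d0_conj`, `d0_block`; in the same way
`tG T = 2 + tG B`, `tB T = tB B`, so that `gam m T = tG B / (2m)`, `kap m T = tB B / (2m)`,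
`lamOf m T = tB B / tG B`; `det a = det B`).
`del_nonneg_of`: `tB_sq_le` divided by `(2m)²`; `gam_pos_of`: `tG_pos`, `tG_le`;
`one_add_lam_pow_le`: `one_add_lam_sq_pow_le`; `abs_det_a_le`: `det_conj`, `det_block`,
`abs_det_le_d0`; `d0_sq_le`: `det (1 + Aᵀ A) = det (Qᵀ (1 + Aᵀ A) Q) = det (1 + (QᵀAQ)ᵀ (QᵀAQ))`,
`det_gram_block`, `det_add_ge`.
-/

open Matrix Real
open scoped RealInnerProductSpace

namespace Pool.UVF

variable {m : ℕ} {x v : Eu (2 * m + 2)}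
  {A : Matrix (Fin (2 * m + 2)) (Fin (2 * m + 2)) ℝ}

/-- auxiliary: the invariants of `T = A (1 - v vᵀ)` and those of the block `B` -/
private theorem ptA_red (h : Adapted x v A) :
    ∃ (B : Matrix (Fin (2 * m)) (Fin (2 * m)) ℝ) (α : Fin (2 * m) → ℝ),
      d0 (A * (1 - vecMulVec v.ofLp v.ofLp)) = d0 B ∧
      tG (A * (1 - vecMulVec v.ofLp v.ofLp)) = 2 + tG B ∧
      tB (A * (1 - vecMulVec v.ofLp v.ofLp)) = tB B ∧
      (A + vecMulVec v.ofLp x.ofLp - vecMulVec x.ofLp v.ofLp).det = B.det ∧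
      (1 + Aᵀ * A).det = (1 + B * Bᵀ + vecMulVec α α).det := by
  obtain ⟨Q, B, α, h1, h2, hA, ha, hT, -⟩ := h.exists_block
  refine ⟨B, α, ?_, ?_, ?_, ?_, ?_⟩
  · rw [← d0_conj h1 h2, hT, d0_block]
  · rw [← tG_conj h1 h2, hT, tG_block]
  · rw [← tB_conj h1 h2, hT, tB_block]
  · rw [← det_conj h1 h2, ha, det_block]
  · rw [← det_conj h1 h2, ← det_gram_block B α, ← hA]
    congr 1
    have e1 : (Qᵀ * A * Q)ᵀ * (Qᵀ * A * Q) = Qᵀ * (Aᵀ * A) * Q := by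
      calc (Qᵀ * A * Q)ᵀ * (Qᵀ * A * Q)
          = Qᵀ * Aᵀ * (Q * Qᵀ) * A * Q := by
            simp only [Matrix.transpose_mul, Matrix.transpose_transpose, Matrix.mul_assoc]
        _ = Qᵀ * (Aᵀ * A) * Q := by
            rw [h2]
            simp only [Matrix.mul_one, Matrix.mul_assoc]
    rw [e1, Matrix.mul_add, Matrix.add_mul, Matrix.mul_one, h1]

private theorem gam_eq {T : Matrix (Fin (2 * m + 2)) (Fin (2 * m + 2)) ℝ}
    {B : Matrix (Fin (2 * m)) (Fin (2 * m)) ℝ} (h : tG T = 2 + tG B) :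
    gam m T = tG B / (2 * m) := by
  unfold gam
  rw [h]
  congr 1
  ring

theorem del_nonneg_of (hm : 2 ≤ m) (h : Adapted x v A) :
    0 ≤ del m (A * (1 - vecMulVec v.ofLp v.ofLp)) := by
  obtain ⟨B, α, -, hG, hB, -, -⟩ := ptA_red h
  unfold del kap
  rw [gam_eq hG, hB]
  have hm0 : (0 : ℝ) < 2 * m := by
    have : (2 : ℝ) ≤ m := by exact_mod_cast hm
    linarith
  have h1 := tB_sq_le B
  rw [Fintype.card_fin] at h1
  push_cast at h1
  have h2 : tG B / (2 * m) * (1 - tG B / (2 * m)) - (tB B / (2 * m)) ^ 2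
      = (tG B * (2 * m - tG B) - tB B ^ 2) / (2 * m) ^ 2 := by
    field_simp
  rw [h2]
  apply div_nonneg _ (by positivity)
  linarith

/-- `0 < γ ≤ 1` -/
theorem gam_pos_of (hm : 2 ≤ m) (h : Adapted x v A) :
    0 < gam m (A * (1 - vecMulVec v.ofLp v.ofLp)) ∧
      gam m (A * (1 - vecMulVec v.ofLp v.ofLp)) ≤ 1 := by
  obtain ⟨B, α, -, hG, -, -, -⟩ := ptA_red h
  rw [gam_eq hG]
  have hm0 : (0 : ℝ) < 2 * m := by
    have : (2 : ℝ) ≤ m := by exact_mod_cast hm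
    linarith
  have : Nonempty (Fin (2 * m)) := ⟨⟨0, by omega⟩⟩
  refine ⟨div_pos (tG_pos B) hm0, ?_⟩
  rw [div_le_one hm0]
  have h1 := tG_le B
  rw [Fintype.card_fin] at h1
  push_cast at h1
  exact h1

private theorem lamOf_eq (hm : 2 ≤ m) {T : Matrix (Fin (2 * m + 2)) (Fin (2 * m + 2)) ℝ}
    {B : Matrix (Fin (2 * m)) (Fin (2 * m)) ℝ} (h : tG T = 2 + tG B) (h' : tB T = tB B) :
    lamOf m T = tB B / tG B := by
  unfold lamOf kap
  rw [gam_eq h, h']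
  have hm0 : (0 : ℝ) < 2 * m := by
    have : (2 : ℝ) ≤ m := by exact_mod_cast hm
    linarith
  rw [div_div_div_cancel_right₀ hm0.ne']

theorem one_add_lam_pow_le (hm : 2 ≤ m) (h : Adapted x v A) :
    (1 + (lamOf m (A * (1 - vecMulVec v.ofLp v.ofLp))) ^ 2) ^ m
      ≤ d0 (A * (1 - vecMulVec v.ofLp v.ofLp)) := by
  obtain ⟨B, α, hd, hG, hB, -, -⟩ := ptA_red h
  rw [lamOf_eq hm hG hB, hd]
  exact one_add_lam_sq_pow_le m (by omega) (Fintype.card_fin _) B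

theorem abs_det_a_le (hm : 2 ≤ m) (h : Adapted x v A) :
    |(A + vecMulVec v.ofLp x.ofLp - vecMulVec x.ofLp v.ofLp).det|
      ≤ d0 (A * (1 - vecMulVec v.ofLp v.ofLp)) := by
  obtain ⟨B, α, hd, -, -, hdet, -⟩ := ptA_red h
  rw [hdet, hd]
  exact abs_det_le_d0 m (by omega) (Fintype.card_fin _) B

theorem d0_sq_le (hm : 2 ≤ m) (h : Adapted x v A) :
    (d0 (A * (1 - vecMulVec v.ofLp v.ofLp))) ^ 2 ≤ (1 + Aᵀ * A).det := by
  obtain ⟨B, α, hd, -, -, -, hg⟩ := ptA_red h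
  rw [hd, hg]
  have h1 := det_add_ge B α
  have h2 : 0 ≤ ∑ i, (α i) ^ 2 := Finset.sum_nonneg fun i _ => sq_nonneg _
  linarith

end Pool.UVF
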