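import Pool.Agent.Lib.MP_28fba0_gt.UV.HomIntA
import Pool.Agent.Lib.MP_28fba0_gt.UV.HomB
import Pool.Agent.Lib.MP_28fba0_gt.UV.HomAd
import Pool.Agent.Lib.MP_28fba0_gt.UV.PtA
import Pool.Agent.Lib.MP_28fba0_gt.UV.GCont

/-!
# UV-HomIntB: continuity and integrability of `λ`, `δ`, `D₀`, `D`

Continuity on `{0}ᶜ` from `continuous_d0`, `continuous_tG`, `continuous_tB`, `Tm_continuousOn`; for
`lamOf` the denominator `gam m (Tm U x)` is `> 0` by `gam_pos_of` and `HomField.adapted` (note
`Tm U x = Am U x * (1 - vecMulVec v v)` with `v = (vh U x).ofLp`).  Integrability: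
`integrable_of_hom0`, `Tm_smul`, `DD_smul`, `DD_continuousOn`.
-/

open Matrix Real Set MeasureTheory
open scoped RealInnerProductSpace

namespace Pool.UVF

variable {m : ℕ} {U : Eu (2 * m + 2) → Eu (2 * m + 2)}

private theorem gam_continuousOn (hU : HomField U) :
    ContinuousOn (fun x => gam m (Tm U x)) {0}ᶜ := by
  unfold gam
  exact ((continuous_tG.comp_continuousOn hU.Tm_continuousOn).sub continuousOn_const).div_const _

private theorem kap_continuousOn (hU : HomField U) :
    ContinuousOn (fun x => kap m (Tm U x)) {0}ᶜ := by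
  unfold kap
  exact (continuous_tB.comp_continuousOn hU.Tm_continuousOn).div_const _

theorem HomField.lam_continuousOn (hm : 2 ≤ m) (hU : HomField U) :
    ContinuousOn (fun x => lamOf m (Tm U x)) {0}ᶜ := by
  unfold lamOf
  refine (kap_continuousOn hU).div (gam_continuousOn hU) ?_
  intro x hx
  have h := hU.adapted hx
  exact (gam_pos_of hm h).1.ne'

theorem HomField.d0_continuousOn (hm : 2 ≤ m) (hU : HomField U) :
    ContinuousOn (fun x => d0 (Tm U x)) {0}ᶜ :=
  continuous_d0.comp_continuousOn hU.Tm_continuousOn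

theorem HomField.del_continuousOn (hm : 2 ≤ m) (hU : HomField U) :
    ContinuousOn (fun x => del m (Tm U x)) {0}ᶜ := by
  unfold del
  exact ((gam_continuousOn hU).mul (continuousOn_const.sub (gam_continuousOn hU))).sub
    ((kap_continuousOn hU).pow 2)

theorem HomField.integrable_DD (hU : HomField U) : Integrable (DD U) (mB (2 * m + 2)) :=
  integrable_of_hom0 (by omega) hU.DD_continuousOn fun _ hs _ hx => hU.DD_smul hs hx

theorem HomField.integrable_d0 (hm : 2 ≤ m) (hU : HomField U) :
    Integrable (fun x => d0 (Tm U x)) (mB (2 * m + 2)) :=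
  integrable_of_hom0 (by omega) (hU.d0_continuousOn hm) fun _ hs _ hx => by
    rw [hU.Tm_smul hs hx]

theorem HomField.integrable_del_d0 (hm : 2 ≤ m) (hU : HomField U) :
    Integrable (fun x => del m (Tm U x) * d0 (Tm U x)) (mB (2 * m + 2)) :=
  integrable_of_hom0 (by omega) ((hU.del_continuousOn hm).mul (hU.d0_continuousOn hm))
    fun _ hs _ hx => by
    rw [hU.Tm_smul hs hx]

end Pool.UVF
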