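import Pool.Agent.Lib.MP_28fba0_gt.UV.Defs

/-!
# UV-TrigA (part of Trig): the trigonometric integral with its deficit

For `m ≥ 2` and `0 ≤ g (1 - g) - k²`:
`∫_0^π (g cos² + 2 k sin cos + (1-g) sin²)^m dt ≤ Icos m - 4 cdef m (g (1-g) - k²)`.

Proof.  `g cos² + 2 k sin cos + (1-g) sin² = (1 + u cos 2t + v sin 2t)/2`, `u = 2g - 1`, `v = 2k`,
`ρ² := u² + v² = 1 - 4 (g(1-g) - k²) ∈ [0, 1]` (so `ρ ∈ [0,1]`).  Write `u = ρ cos φ`,
`v = ρ sin φ` (polar coordinates, e.g. `Complex.arg`), so the integrand is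
`((1 + ρ cos (2t - φ))/2)^m`, `π`-periodic in `t`; translating by `φ/2` the integral is
`J(ρ) = ∫_0^π ((1 + ρ cos 2t)/2)^m dt`
(`Function.Periodic.intervalIntegral_add_eq` and `intervalIntegral.integral_comp_sub_right`).
Binomial theorem: `J(ρ) = 2^{-m} ∑_j C(m,j) ρ^j c_j`, `c_j = ∫_0^π cos^j(2t) dt`;
`c_j = 0` for `j` odd (substitute `t ↦ π/2 + t`, periodicity: `cos (2t + π) = - cos 2t`), `c_j ≥ 0`
for `j` even, `c_2 = π/2`.  `J(1) = Icos m` as `(1 + cos 2t)/2 = cos² t`.  Hence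
`J(1) - J(ρ) = 2^{-m} ∑_j C(m,j) (1 - ρ^j) c_j ≥ 2^{-m} C(m,2) (1 - ρ²) π/2 = cdef m (1 - ρ²)`
(all terms are `≥ 0`), and `1 - ρ² = 4 (g(1-g) - k²)`.

`Icos m = π / bGZ m = π C(2m,m)/4^m`: from `integral_sin_pow_even` / `integral_cos_pow` in Mathlib
(`∫_0^π sin^{2m} = π ∏_{i<m} (2i+1)/(2i+2)`) and `cos t = sin (t + π/2)` + periodicity, or by a
recursion.
-/

open Real

namespace Pool.UVF

theorem trigA_prod (m : ℕ) :
    (∏ i ∈ Finset.range m, (2 * (i : ℝ) + 1) / (2 * i + 2)) * 4 ^ m = (Nat.choose (2 * m) m : ℝ) := by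
  rw [← Nat.centralBinom_eq_two_mul_choose]
  induction m with
  | zero => simp
  | succ n ih =>
    rw [Finset.prod_range_succ, pow_succ]
    have h := Nat.succ_mul_centralBinom_succ n
    have h' : ((n : ℝ) + 1) * (Nat.centralBinom (n + 1) : ℝ) =
        2 * (2 * (n : ℝ) + 1) * (Nat.centralBinom n : ℝ) := by
      exact_mod_cast h
    have hn : (2 * (n : ℝ) + 2) ≠ 0 := by positivity
    have hn1 : ((n : ℝ) + 1) ≠ 0 := by positivity
    have e : (∏ i ∈ Finset.range n, (2 * (i : ℝ) + 1) / (2 * i + 2)) *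
        ((2 * (n : ℝ) + 1) / (2 * n + 2)) * (4 ^ n * 4) =
        ((∏ i ∈ Finset.range n, (2 * (i : ℝ) + 1) / (2 * i + 2)) * 4 ^ n) *
          (4 * ((2 * (n : ℝ) + 1) / (2 * n + 2))) := by ring
    rw [e, ih]
    apply mul_left_cancel₀ hn1
    rw [h']
    field_simp
    ring

theorem trigA_cos_eq_sin (m : ℕ) :
    ∫ t in (0 : ℝ)..π, (cos t) ^ (2 * m) = ∫ t in (0 : ℝ)..π, (sin t) ^ (2 * m) := by
  have hper : Function.Periodic (fun t : ℝ => (sin t) ^ (2 * m)) π := by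
    intro t
    simp only [sin_add_pi]
    rw [(even_two_mul m).neg_pow]
  have h1 : ∫ t in (0 : ℝ)..π, (cos t) ^ (2 * m) =
      ∫ t in (0 : ℝ)..π, (fun t : ℝ => (sin t) ^ (2 * m)) (t + π / 2) := by
    refine intervalIntegral.integral_congr fun t _ => ?_
    simp only [sin_add_pi_div_two]
  rw [h1, intervalIntegral.integral_comp_add_right (fun t : ℝ => (sin t) ^ (2 * m)) (π / 2)]
  have h2 := hper.intervalIntegral_add_eq (0 + π / 2) 0
  rw [show (0 : ℝ) + π / 2 + π = π + π / 2 by ring, zero_add π] at h2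
  exact h2

theorem bGZ_pos (m : ℕ) : 0 < bGZ m := by
  unfold bGZ
  have : 0 < Nat.choose (2 * m) m := Nat.choose_pos (by omega)
  positivity

theorem Icos_eq (m : ℕ) : Icos m * bGZ m = π := by
  unfold Icos bGZ
  rw [trigA_cos_eq_sin, integral_sin_pow_even, ← trigA_prod]
  have hp : 0 < ∏ i ∈ Finset.range m, (2 * (i : ℝ) + 1) / (2 * i + 2) :=
    Finset.prod_pos fun i _ => by positivity
  field_simp

theorem Icos_pos (m : ℕ) : 0 < Icos m := by
  have h := Icos_eq m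
  have hb := bGZ_pos m
  by_contra hc
  push Not at hc
  have : Icos m * bGZ m ≤ 0 := mul_nonpos_of_nonpos_of_nonneg hc hb.le
  rw [h] at this
  linarith [pi_pos]

theorem cdef_pos (m : ℕ) (hm : 2 ≤ m) : 0 < cdef m := by
  unfold cdef
  have : 0 < Nat.choose m 2 := Nat.choose_pos hm
  have hp := pi_pos
  positivity

end Pool.UVF
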