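import Pool.Agent.Lib.MP_28fba0_gt.UV.Defs
import Pool.Agent.Lib.MP_28fba0_gt.UV.TrigA

/-!
# UV-TrigB (part of Trig): the trigonometric integral with its deficit

For `m ≥ 2` and `0 ≤ g (1 - g) - k²`:
`∫_0^π (g cos² + 2 k sin cos + (1-g) sin²)^m dt ≤ Icos m - 4 cdef m (g (1-g) - k²)`.

Proof.  `g cos² + 2 k sin cos + (1-g) sin² = (1 + u cos 2t + v sin 2t)/2`, `u = 2g - 1`, `v = 2k`,
`ρ² := u² + v² = 1 - 4 (g(1-g) - k²) ∈ [0, 1]` (so `ρ ∈ [0,1]`).  Write `u = ρ cos φ`,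
`v = ρ sin φ` (polar coordinates, e.g. `Complex.arg`), so the integrand is
`((1 + ρ cos (2t - φ))/2)^m`, `π`-periodic in `t`; translating by `φ/2` the integral is
`J(ρ) = ∫_0^π ((1 + ρ cos 2t)/2)^m dt`
(`Function.Periodic.intervalIntegral_add_eq` and `intervalIntegral.integral_comp_sub_right`).
Binomial theorem: `J(ρ) = 2^{-m} ∑_j C(m,j) ρ^j c_j`, `c_j = ∫_0^π cos^j(2t) dt`;
`c_j = 0` for `j` odd (substitute `t ↦ π/2 + t`, periodicity: `cos (2t + π) = - cos 2t`), `c_j ≥ 0`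
for `j` even, `c_2 = π/2`.  `J(1) = Icos m` as `(1 + cos 2t)/2 = cos² t`.  Hence
`J(1) - J(ρ) = 2^{-m} ∑_j C(m,j) (1 - ρ^j) c_j ≥ 2^{-m} C(m,2) (1 - ρ²) π/2 = cdef m (1 - ρ²)`
(all terms are `≥ 0`), and `1 - ρ² = 4 (g(1-g) - k²)`.

`Icos m = π / bGZ m = π C(2m,m)/4^m`: from `integral_sin_pow_even` / `integral_cos_pow` in Mathlib
(`∫_0^π sin^{2m} = π ∏_{i<m} (2i+1)/(2i+2)`) and `cos t = sin (t + π/2)` + periodicity, or by a
recursion.
-/

open Real

namespace Pool.UVF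

theorem trigB_pow_add (m : ℕ) (x : ℝ) :
    (1 + x) ^ m = ∑ j ∈ Finset.range (m + 1), x ^ j * (m.choose j : ℝ) := by
  rw [add_comm, add_pow]
  refine Finset.sum_congr rfl fun j _ => ?_
  simp

theorem trigB_pointwise (m : ℕ) (hm : 2 ≤ m) (c r : ℝ) (h0 : 0 ≤ r) (h1 : r ≤ 1) :
    2 * (m.choose 2 : ℝ) * c ^ 2 * (1 - r ^ 2) ≤
      ((1 + c) ^ m + (1 + -c) ^ m) - ((1 + r * c) ^ m + (1 + -(r * c)) ^ m) := by
  have key : ((1 + c) ^ m + (1 + -c) ^ m) - ((1 + r * c) ^ m + (1 + -(r * c)) ^ m) =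
      ∑ j ∈ Finset.range (m + 1), (m.choose j : ℝ) * (c ^ j + (-c) ^ j) * (1 - r ^ j) := by
    rw [trigB_pow_add, trigB_pow_add, trigB_pow_add, trigB_pow_add, ← Finset.sum_add_distrib,
      ← Finset.sum_add_distrib, ← Finset.sum_sub_distrib]
    refine Finset.sum_congr rfl fun j _ => ?_
    rw [← mul_neg, mul_pow, mul_pow]
    ring
  rw [key]
  have hmem : 2 ∈ Finset.range (m + 1) := Finset.mem_range.2 (by omega)
  have hnn : ∀ j ∈ Finset.range (m + 1),
      0 ≤ (m.choose j : ℝ) * (c ^ j + (-c) ^ j) * (1 - r ^ j) := by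
    intro j _
    have hr : 0 ≤ 1 - r ^ j := sub_nonneg.2 (pow_le_one₀ h0 h1)
    have hc : 0 ≤ c ^ j + (-c) ^ j := by
      rcases Nat.even_or_odd j with he | ho
      · rw [he.neg_pow]
        have := he.pow_nonneg c
        linarith
      · rw [ho.neg_pow]
        simp
    positivity
  calc 2 * (m.choose 2 : ℝ) * c ^ 2 * (1 - r ^ 2)
      = (m.choose 2 : ℝ) * (c ^ 2 + (-c) ^ 2) * (1 - r ^ 2) := by ring
    _ ≤ _ := Finset.single_le_sum hnn hmem

theorem trigB_periodic (m : ℕ) (r : ℝ) :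
    Function.Periodic (fun t : ℝ => ((1 + r * cos (2 * t)) / 2) ^ m) π := by
  intro t
  have : cos (2 * (t + π)) = cos (2 * t) := by
    rw [show 2 * (t + π) = 2 * t + 2 * π by ring, cos_add_two_pi]
  simp only [this]

theorem trigB_shift (m : ℕ) (r s : ℝ) :
    ∫ t in (0 : ℝ)..π, ((1 + r * cos (2 * (t - s))) / 2) ^ m =
      ∫ t in (0 : ℝ)..π, ((1 + r * cos (2 * t)) / 2) ^ m := by
  have h1 := intervalIntegral.integral_comp_sub_right
    (a := (0 : ℝ)) (b := π) (fun t : ℝ => ((1 + r * cos (2 * t)) / 2) ^ m) s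
  rw [h1]
  have h2 := (trigB_periodic m r).intervalIntegral_add_eq (0 - s) 0
  rw [show (0 : ℝ) - s + π = π - s by ring, zero_add] at h2
  exact h2

theorem trigB_neg (m : ℕ) (r : ℝ) :
    ∫ t in (0 : ℝ)..π, ((1 + -(r * cos (2 * t))) / 2) ^ m =
      ∫ t in (0 : ℝ)..π, ((1 + r * cos (2 * t)) / 2) ^ m := by
  rw [← trigB_shift m r (π / 2)]
  refine intervalIntegral.integral_congr fun t _ => ?_
  have : cos (2 * (t - π / 2)) = - cos (2 * t) := by
    rw [show 2 * (t - π / 2) = 2 * t - π by ring, cos_sub_pi]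
  simp only [this]
  ring

theorem trigB_cos_sq : ∫ t in (0 : ℝ)..π, (cos (2 * t)) ^ 2 = π / 2 := by
  have h : ∀ t : ℝ, (cos (2 * t)) ^ 2 = 1 / 2 + cos (4 * t) / 2 := by
    intro t
    rw [show 4 * t = 2 * (2 * t) by ring, cos_sq]
  simp_rw [h]
  rw [intervalIntegral.integral_add (by
    apply Continuous.intervalIntegrable; fun_prop) (by
    apply Continuous.intervalIntegrable; fun_prop)]
  have h4 : ∫ t in (0 : ℝ)..π, cos (4 * t) = 0 := by
    rw [intervalIntegral.integral_comp_mul_left (fun t => cos t) (by norm_num : (4 : ℝ) ≠ 0)]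
    rw [integral_cos]
    have : sin (4 * π) = 0 := by
      have := sin_nat_mul_pi 4
      simpa using this
    simp [this]
  have h5 : ∫ t in (0 : ℝ)..π, cos (4 * t) / 2 = 0 := by
    rw [intervalIntegral.integral_div, h4, zero_div]
  rw [h5, intervalIntegral.integral_const]
  simp
  ring

theorem trigB_J (m : ℕ) (hm : 2 ≤ m) (r : ℝ) (h0 : 0 ≤ r) (h1 : r ≤ 1) :
    ∫ t in (0 : ℝ)..π, ((1 + r * cos (2 * t)) / 2) ^ m ≤ Icos m - cdef m * (1 - r ^ 2) := by
  have hI : Icos m = ∫ t in (0 : ℝ)..π, ((1 + 1 * cos (2 * t)) / 2) ^ m := by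
    unfold Icos
    refine intervalIntegral.integral_congr fun t _ => ?_
    show cos t ^ (2 * m) = ((1 + 1 * cos (2 * t)) / 2) ^ m
    rw [pow_mul, cos_sq]
    congr 1
    ring
  have hint : ∀ s : ℝ, IntervalIntegrable (fun t : ℝ => ((1 + s * cos (2 * t)) / 2) ^ m)
      MeasureTheory.volume 0 π := fun s => by
    apply Continuous.intervalIntegrable; fun_prop
  have hint' : ∀ s : ℝ, IntervalIntegrable (fun t : ℝ => ((1 + -(s * cos (2 * t))) / 2) ^ m)
      MeasureTheory.volume 0 π := fun s => by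
    apply Continuous.intervalIntegrable; fun_prop
  have hJ : ∀ s : ℝ, ∫ t in (0 : ℝ)..π, ((1 + s * cos (2 * t)) / 2) ^ m =
      ∫ t in (0 : ℝ)..π, (((1 + s * cos (2 * t)) / 2) ^ m +
        ((1 + -(s * cos (2 * t))) / 2) ^ m) / 2 := by
    intro s
    rw [intervalIntegral.integral_div, intervalIntegral.integral_add (hint s) (hint' s),
      trigB_neg]
    ring
  have hle : ∫ t in (0 : ℝ)..π, (((1 + r * cos (2 * t)) / 2) ^ m +
        ((1 + -(r * cos (2 * t))) / 2) ^ m) / 2 ≤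
      ∫ t in (0 : ℝ)..π, ((((1 + 1 * cos (2 * t)) / 2) ^ m +
        ((1 + -(1 * cos (2 * t))) / 2) ^ m) / 2 -
          (m.choose 2 : ℝ) / 2 ^ m * (1 - r ^ 2) * (cos (2 * t)) ^ 2) := by
    refine intervalIntegral.integral_mono_on pi_pos.le ?_ ?_ ?_
    · apply Continuous.intervalIntegrable; fun_prop
    · apply Continuous.intervalIntegrable; fun_prop
    · intro t _
      have hp := trigB_pointwise m hm (cos (2 * t)) r h0 h1
      have h2 : (0 : ℝ) < 2 ^ m := by positivity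
      rw [one_mul, div_pow, div_pow, div_pow, div_pow, ← add_div, ← add_div]
      have hd := div_le_div_of_nonneg_right hp h2.le
      have e1 : 2 * (m.choose 2 : ℝ) * cos (2 * t) ^ 2 * (1 - r ^ 2) / 2 ^ m =
        2 * ((m.choose 2 : ℝ) / 2 ^ m * (1 - r ^ 2) * (cos (2 * t)) ^ 2) := by ring
      rw [e1, sub_div] at hd
      linarith
  rw [hI, hJ r, hJ 1]
  refine hle.trans (le_of_eq ?_)
  rw [intervalIntegral.integral_sub]
  · congr 1
    rw [intervalIntegral.integral_const_mul, trigB_cos_sq]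
    unfold cdef
    ring
  · apply Continuous.intervalIntegrable; fun_prop
  · apply Continuous.intervalIntegrable; fun_prop

theorem trig_integral (m : ℕ) (hm : 2 ≤ m) (g k : ℝ) (h : 0 ≤ g * (1 - g) - k ^ 2) :
    ∫ t in (0 : ℝ)..π, (g * (cos t) ^ 2 + 2 * k * sin t * cos t + (1 - g) * (sin t) ^ 2) ^ m
      ≤ Icos m - 4 * cdef m * (g * (1 - g) - k ^ 2) := by
  obtain ⟨r, p, hr0, hu, hv⟩ : ∃ r p : ℝ, 0 ≤ r ∧ 2 * g - 1 = r * cos p ∧ 2 * k = r * sin p := by
    refine ⟨‖(⟨2 * g - 1, 2 * k⟩ : ℂ)‖, (⟨2 * g - 1, 2 * k⟩ : ℂ).arg, norm_nonneg _, ?_, ?_⟩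
    · rw [Complex.norm_mul_cos_arg]
    · rw [Complex.norm_mul_sin_arg]
  have hr2 : r ^ 2 = 1 - 4 * (g * (1 - g) - k ^ 2) := by
    have hs := sin_sq_add_cos_sq p
    have : r ^ 2 = (r * cos p) ^ 2 + (r * sin p) ^ 2 := by
      calc r ^ 2 = r ^ 2 * (sin p ^ 2 + cos p ^ 2) := by rw [hs, mul_one]
        _ = _ := by ring
    rw [this, ← hu, ← hv]
    ring
  have hr1 : r ≤ 1 := by
    by_contra hc
    push Not at hc
    nlinarith
  have hfun : ∀ t : ℝ, g * (cos t) ^ 2 + 2 * k * sin t * cos t + (1 - g) * (sin t) ^ 2 =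
      (1 + r * cos (2 * (t - p / 2))) / 2 := by
    intro t
    rw [show 2 * (t - p / 2) = 2 * t - p by ring, cos_sub, cos_two_mul, sin_two_mul]
    have hs := sin_sq_add_cos_sq t
    have e : r * ((2 * cos t ^ 2 - 1) * cos p + 2 * sin t * cos t * sin p) =
        (2 * cos t ^ 2 - 1) * (2 * g - 1) + 2 * sin t * cos t * (2 * k) := by
      rw [hu, hv]; ring
    rw [e]
    have hsin : sin t ^ 2 = 1 - cos t ^ 2 := by linarith
    rw [hsin]
    ring
  simp_rw [hfun]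
  rw [trigB_shift]
  have := trigB_J m hm r hr0 hr1
  rw [hr2] at this
  linarith

end Pool.UVF
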