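import Pool.Agent.Lib.MP_28fba0_gt.UV.TrigA
import Pool.Agent.Lib.MP_28fba0_gt.UV.TrigB

/-! UV-Trig: aggregator, see the parts. -/
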