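import Pool.Agent.Lib.MP_28fba0_gt.UV.PtRed
import Pool.Agent.Lib.MP_28fba0_gt.UV.DetBound
import Pool.Agent.Lib.MP_28fba0_gt.UV.Trig

/-!
# UV-PtB: the integral of `|det (cos t + sin t a)|`

Use `Adapted.exists_block` (module PtRed) and the invariance lemmas of `Conj`
(`d0 T = d0 (Qᵀ T Q) = d0 (fromBlocks 0 0 0 B) = d0 B` by `d0_conj`, `d0_block`; in the same way
`tG T = 2 + tG B`, `tB T = tB B`, so that `gam m T = tG B / (2m)`, `kap m T = tB B / (2m)`,
`lamOf m T = tB B / tG B`; `det a = det B`).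
`det (cos t + sin t a) = det (Qᵀ (cos t + sin t a) Q) = det (cos t + sin t (Qᵀ a Q))
= (cos² + sin²) det (cos t + sin t B)` (`det_smul_block`), `abs_det_le`, then integrate
(`intervalIntegral.integral_mono_on`, everything is continuous in `t`) and `trig_integral` with
`g = gam m T`, `k = kap m T` (`0 ≤ g(1-g) - k²` is `tB_sq_le` divided by `(2m)²`).
-/

open Matrix Real
open scoped RealInnerProductSpace

namespace Pool.UVF

variable {m : ℕ} {x v : Eu (2 * m + 2)}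
  {A : Matrix (Fin (2 * m + 2)) (Fin (2 * m + 2)) ℝ}

theorem PtB_det_eq {Q : Matrix (Fin (2 * m + 2)) (Fin 2 ⊕ Fin (2 * m)) ℝ}
    {B : Matrix (Fin (2 * m)) (Fin (2 * m)) ℝ} {α : Fin (2 * m) → ℝ}
    (h1 : Qᵀ * Q = 1) (h2 : Q * Qᵀ = 1) {a : Matrix (Fin (2 * m + 2)) (Fin (2 * m + 2)) ℝ}
    (h3 : Qᵀ * a * Q = fromBlocks Rm 0 (Cm α) B) (t : ℝ) :
    (cos t • (1 : Matrix (Fin (2 * m + 2)) (Fin (2 * m + 2)) ℝ) + sin t • a).det
      = (cos t • (1 : Matrix (Fin (2 * m)) (Fin (2 * m)) ℝ) + sin t • B).det := by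
  have h4 : Qᵀ * (cos t • (1 : Matrix (Fin (2 * m + 2)) (Fin (2 * m + 2)) ℝ) + sin t • a) * Q
      = cos t • (1 : Matrix (Fin 2 ⊕ Fin (2 * m)) (Fin 2 ⊕ Fin (2 * m)) ℝ)
        + sin t • fromBlocks Rm 0 (Cm α) B := by
    rw [Matrix.mul_add, Matrix.add_mul, Matrix.mul_smul, Matrix.mul_one, Matrix.smul_mul, h1,
      Matrix.mul_smul, Matrix.smul_mul, h3]
  rw [← det_conj h1 h2, h4, det_smul_block, cos_sq_add_sin_sq, one_mul]

theorem PtB_sub_nonneg (hm : 2 ≤ m) (B : Matrix (Fin (2 * m)) (Fin (2 * m)) ℝ) :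
    0 ≤ (tG B / (2 * m)) * (1 - tG B / (2 * m)) - (tB B / (2 * m)) ^ 2 := by
  have h := tB_sq_le B
  rw [Fintype.card_fin] at h
  push_cast at h
  have hm0 : (0 : ℝ) < 2 * m := by
    have : (0 : ℝ) < m := by exact_mod_cast (by omega : 0 < m)
    linarith
  have e : (tG B / (2 * m)) * (1 - tG B / (2 * m)) - (tB B / (2 * m)) ^ 2
      = (tG B * (2 * m - tG B) - (tB B) ^ 2) / (2 * m) ^ 2 := by
    field_simp
  rw [e]
  exact div_nonneg (by linarith) (by positivity)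

theorem integral_abs_det_le (hm : 2 ≤ m) (h : Adapted x v A) :
    ∫ t in (0 : ℝ)..π, |(cos t • (1 : Matrix (Fin (2 * m + 2)) (Fin (2 * m + 2)) ℝ)
        + sin t • (A + vecMulVec v.ofLp x.ofLp - vecMulVec x.ofLp v.ofLp)).det|
      ≤ d0 (A * (1 - vecMulVec v.ofLp v.ofLp)) *
        (Icos m - 4 * cdef m * del m (A * (1 - vecMulVec v.ofLp v.ofLp))) := by
  obtain ⟨Q, B, α, h1, h2, -, ha, hT, -⟩ := h.exists_block
  set a := A + vecMulVec v.ofLp x.ofLp - vecMulVec x.ofLp v.ofLp with hadef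
  set T := A * (1 - vecMulVec v.ofLp v.ofLp) with hTdef
  have hd0 : d0 T = d0 B := by rw [← d0_conj h1 h2, hT, d0_block]
  have hg : gam m T = tG B / (2 * m) := by
    rw [gam, ← tG_conj h1 h2, hT, tG_block, add_sub_cancel_left]
  have hk : kap m T = tB B / (2 * m) := by
    rw [kap, ← tB_conj h1 h2, hT, tB_block]
  have hdel : del m T = (tG B / (2 * m)) * (1 - tG B / (2 * m)) - (tB B / (2 * m)) ^ 2 := by
    rw [del, hg, hk]
  have hpt : ∀ t : ℝ, |(cos t • (1 : Matrix (Fin (2 * m + 2)) (Fin (2 * m + 2)) ℝ)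
      + sin t • a).det| ≤ d0 B * ((tG B / (2 * m)) * (cos t) ^ 2
        + 2 * (tB B / (2 * m)) * sin t * cos t + (1 - tG B / (2 * m)) * (sin t) ^ 2) ^ m := by
    intro t
    rw [PtB_det_eq h1 h2 ha t]
    exact abs_det_le m (by omega) (by simp) B t
  have hcont : Continuous fun t : ℝ =>
      |(cos t • (1 : Matrix (Fin (2 * m + 2)) (Fin (2 * m + 2)) ℝ) + sin t • a).det| := by
    refine Continuous.abs (Continuous.matrix_det ?_)
    exact (Real.continuous_cos.smul continuous_const).add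
      (Real.continuous_sin.smul continuous_const)
  calc ∫ t in (0 : ℝ)..π, |(cos t • (1 : Matrix (Fin (2 * m + 2)) (Fin (2 * m + 2)) ℝ)
          + sin t • a).det|
      ≤ ∫ t in (0 : ℝ)..π, d0 B * ((tG B / (2 * m)) * (cos t) ^ 2
        + 2 * (tB B / (2 * m)) * sin t * cos t + (1 - tG B / (2 * m)) * (sin t) ^ 2) ^ m := by
        refine intervalIntegral.integral_mono_on pi_pos.le (hcont.intervalIntegrable _ _)
          (Continuous.intervalIntegrable (by fun_prop) _ _) fun t _ => hpt t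
    _ = d0 B * ∫ t in (0 : ℝ)..π, ((tG B / (2 * m)) * (cos t) ^ 2
        + 2 * (tB B / (2 * m)) * sin t * cos t + (1 - tG B / (2 * m)) * (sin t) ^ 2) ^ m :=
        intervalIntegral.integral_const_mul _ _
    _ ≤ d0 B * (Icos m - 4 * cdef m *
        ((tG B / (2 * m)) * (1 - tG B / (2 * m)) - (tB B / (2 * m)) ^ 2)) :=
        mul_le_mul_of_nonneg_left (trig_integral m hm _ _ (PtB_sub_nonneg hm B))
          (zero_le_one.trans (one_le_d0 B))
    _ = d0 T * (Icos m - 4 * cdef m * del m T) := by rw [hd0, hdel]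

end Pool.UVF
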