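import Pool.Agent.Lib.MP_28fba0_gt.UV.PtRed
import Pool.Agent.Lib.MP_28fba0_gt.UV.BlockEst

/-!
# UV-PtC: the Frobenius estimate of `a - a₀`

Use `Adapted.exists_block` (module PtRed) and the invariance lemmas of `Conj`
(`d0 T = d0 (Qᵀ T Q) = d0 (fromBlocks 0 0 0 B) = d0 B` by `d0_conj`, `d0_block`; in the same way
`tG T = 2 + tG B`, `tB T = tB B`, so that `gam m T = tG B / (2m)`, `kap m T = tB B / (2m)`,
`lamOf m T = tB B / tG B`; `det a = det B`).
`∑ (a - a0)_{ji}² = ∑ (Qᵀ (a - a0) Q)_{pq}²` (`frob_conj`) `= |α|² + ∑ (B - λ)²` (`frob_block`),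
`frob_sub_le`, `det_gram_block`, `det_add_ge`.
-/

open Matrix Real
open scoped RealInnerProductSpace

namespace Pool.UVF

variable {m : ℕ} {x v : Eu (2 * m + 2)}
  {A : Matrix (Fin (2 * m + 2)) (Fin (2 * m + 2)) ℝ}

/-- the Frobenius estimate of `a - a₀` -/
theorem frob_le (hm : 2 ≤ m) (h : Adapted x v A) :
    ∑ j, ∑ i, ((A + vecMulVec v.ofLp x.ofLp - vecMulVec x.ofLp v.ofLp
        - a0 (lamOf m (A * (1 - vecMulVec v.ofLp v.ofLp))) x v) j i) ^ 2
      ≤ (2 * m : ℝ) ^ 2 * del m (A * (1 - vecMulVec v.ofLp v.ofLp))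
          * (d0 (A * (1 - vecMulVec v.ofLp v.ofLp))) ^ 2
        + ((1 + Aᵀ * A).det - (d0 (A * (1 - vecMulVec v.ofLp v.ofLp))) ^ 2) := by
  obtain ⟨Q, B, α, h1, h2, hA, ha, hT, h0⟩ := h.exists_block
  set T := A * (1 - vecMulVec v.ofLp v.ofLp) with hTdef
  have hm0 : (2 * m : ℝ) ≠ 0 := by positivity
  have hd0 : d0 T = d0 B := by rw [← d0_conj h1 h2 T, hT, d0_block]
  have htG : tG T = 2 + tG B := by rw [← tG_conj h1 h2 T, hT, tG_block]
  have htB : tB T = tB B := by rw [← tB_conj h1 h2 T, hT, tB_block]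
  have hgam : gam m T = tG B / (2 * m) := by rw [gam, htG]; ring
  have hkap : kap m T = tB B / (2 * m) := by rw [kap, htB]
  have hlam : lamOf m T = tB B / tG B := by
    rw [lamOf, hgam, hkap, div_div_div_cancel_right₀ hm0]
  have hdel : del m T = (tG B / (2 * m)) * (1 - tG B / (2 * m)) - (tB B / (2 * m)) ^ 2 := by
    rw [del, hgam, hkap]
  have hdet : (1 + Aᵀ * A).det = (1 + B * Bᵀ + vecMulVec α α).det := by
    rw [← det_gram_block B α, ← hA, ← det_conj h1 h2 (1 + Aᵀ * A)]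
    congr 1
    rw [Matrix.mul_add, Matrix.add_mul, Matrix.mul_one, h1, Matrix.transpose_mul,
      Matrix.transpose_mul, Matrix.transpose_transpose]
    congr 1
    calc Qᵀ * (Aᵀ * A) * Q
        = Qᵀ * Aᵀ * ((1 : Matrix (Fin (2 * m + 2)) (Fin (2 * m + 2)) ℝ) * (A * Q)) := by
          rw [Matrix.one_mul]; simp only [Matrix.mul_assoc]
      _ = Qᵀ * (Aᵀ * Q) * (Qᵀ * A * Q) := by
          rw [← h2]; simp only [Matrix.mul_assoc]
  have hfrob : ∑ j, ∑ i, ((A + vecMulVec v.ofLp x.ofLp - vecMulVec x.ofLp v.ofLp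
        - a0 (lamOf m T) x v) j i) ^ 2
      = ∑ i, (α i) ^ 2 + ∑ i, ∑ j, ((B - (tB B / tG B) • (1 : Matrix (Fin (2 * m)) (Fin (2 * m)) ℝ)) i j) ^ 2 := by
    rw [← frob_conj h1 h2, Matrix.mul_sub, Matrix.sub_mul, ha, h0, frob_block, hlam]
  have hc : Fintype.card (Fin (2 * m)) = 2 * m := Fintype.card_fin _
  have e1 := frob_sub_le m (by omega) hc B
  have e2 := det_add_ge B α
  rw [hfrob, hdet, hdel, hd0]
  linarith

end Pool.UVF
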