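import Pool.Agent.Lib.MP_28fba0_gt.UV.Deficit2

/-!
# UV-LimEqA: uniform `L²` bound of `λ_k`

`λ_k² ≤ (1+λ_k²)^m ≤ D_k` off `0` (`lam_pow_le`), `integrable_DD`, `lam_continuousOn` (measurability),
`1/(k+1) ≤ 1`.
-/

open Matrix Real Set MeasureTheory Filter Topology

namespace Pool.UVF

variable {m : ℕ} {U : ℕ → Eu (2 * m + 2) → Eu (2 * m + 2)} {V : Eu (2 * m + 2) → Eu (2 * m + 2)}
  {lam : Eu (2 * m + 2) → ℝ}

theorem ConvData.lam_sq_le (hm : 2 ≤ m) (h : ConvData m U V lam) (k : ℕ) :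
    Integrable (fun x => (lamOf m (Tm (U k) x)) ^ 2) (mB (2 * m + 2)) ∧
    ∫ x, (lamOf m (Tm (U k) x)) ^ 2 ∂(mB (2 * m + 2)) ≤ (bGZ m + 1) * bv (2 * m + 2) := by
  have hU := h.hU k
  have hID : Integrable (DD (U k)) (mB (2 * m + 2)) := hU.integrable_DD
  -- almost every point is nonzero
  have hne : ∀ᵐ x ∂(mB (2 * m + 2)), x ≠ 0 := by
    unfold mB
    refine ae_restrict_of_ae ?_
    rw [ae_iff]
    simp
  have hle : ∀ᵐ x ∂(mB (2 * m + 2)), (lamOf m (Tm (U k) x)) ^ 2 ≤ DD (U k) x := by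
    filter_upwards [hne] with x hx
    have h1 := hU.lam_pow_le hm hx
    have h2 : (1 + (lamOf m (Tm (U k) x)) ^ 2) ≤ (1 + (lamOf m (Tm (U k) x)) ^ 2) ^ m :=
      le_self_pow₀ (by nlinarith [sq_nonneg (lamOf m (Tm (U k) x))]) (by omega)
    linarith
  have hmeas : AEStronglyMeasurable (fun x => (lamOf m (Tm (U k) x)) ^ 2) (mB (2 * m + 2)) := by
    have hc : ContinuousOn (fun x => (lamOf m (Tm (U k) x)) ^ 2) ({0}ᶜ : Set (Eu (2 * m + 2))) :=
      (hU.lam_continuousOn hm).pow 2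
    have hm1 : AEStronglyMeasurable (fun x => (lamOf m (Tm (U k) x)) ^ 2)
        ((mB (2 * m + 2)).restrict ({0}ᶜ : Set (Eu (2 * m + 2)))) :=
      hc.aestronglyMeasurable (measurableSet_singleton 0).compl
    have he : (mB (2 * m + 2)).restrict ({0}ᶜ : Set (Eu (2 * m + 2))) = mB (2 * m + 2) := by
      refine Measure.restrict_eq_self_of_ae_mem ?_
      filter_upwards [hne] with x hx
      simpa using hx
    rwa [he] at hm1
  have hint : Integrable (fun x => (lamOf m (Tm (U k) x)) ^ 2) (mB (2 * m + 2)) := by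
    refine hID.mono' hmeas ?_
    filter_upwards [hle] with x hx
    rwa [Real.norm_of_nonneg (sq_nonneg _)]
  refine ⟨hint, ?_⟩
  have h3 : ∫ x, (lamOf m (Tm (U k) x)) ^ 2 ∂(mB (2 * m + 2)) ≤
      ∫ x, DD (U k) x ∂(mB (2 * m + 2)) := integral_mono_ae hint hID hle
  refine h3.trans ((h.hD k).trans ?_)
  have hb : 0 ≤ bv (2 * m + 2) := ENNReal.toReal_nonneg
  have hk : 1 / ((k : ℝ) + 1) ≤ 1 := by
    rw [div_le_one (by positivity)]
    have : (0 : ℝ) ≤ k := Nat.cast_nonneg k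
    linarith
  exact mul_le_mul_of_nonneg_right (by linarith) hb

end Pool.UVF
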