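import Pool.Agent.Lib.MP_28fba0_gt.UV.LimEqA

/-!
# UV-LimEqB: product of a weakly and a strongly convergent sequence

`∫ λ_k Θ_k = ∫ λ_k Θ + ∫ λ_k (Θ_k - Θ)`; the first converges by `h.weak` (`Θ` is bounded and
measurable, hence in `L²(mB)`), the second is `≤ √(∫ λ_k²) √(∫ (Θ_k-Θ)²) → 0` by `lam_sq_le` and
dominated convergence (finite measure, bounded by `2C`).
-/

open Matrix Real Set MeasureTheory Filter Topology

namespace Pool.UVF

variable {m : ℕ} {U : ℕ → Eu (2 * m + 2) → Eu (2 * m + 2)} {V : Eu (2 * m + 2) → Eu (2 * m + 2)}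
  {lam : Eu (2 * m + 2) → ℝ}

private theorem limEqB_cs {α : Type*} [MeasurableSpace α] {μ : Measure α} {a b : α → ℝ}
    (ha : MemLp a 2 μ) (hb : MemLp b 2 μ) :
    |∫ x, a x * b x ∂μ| ≤ √(∫ x, a x ^ 2 ∂μ) * √(∫ x, b x ^ 2 ∂μ) := by
  have hinner : ∀ (a b : α → ℝ) (ha : MemLp a 2 μ) (hb : MemLp b 2 μ),
      inner ℝ (ha.toLp a) (hb.toLp b) = ∫ x, a x * b x ∂μ := by
    intro a b ha hb
    rw [MeasureTheory.L2.inner_def]
    apply integral_congr_ae
    filter_upwards [ha.coeFn_toLp, hb.coeFn_toLp] with x h1 h2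
    rw [h1, h2]
    simp [mul_comm]
  have hn : ∀ (a : α → ℝ) (ha : MemLp a 2 μ), ‖ha.toLp a‖ = √(∫ x, a x ^ 2 ∂μ) := by
    intro a ha
    rw [← Real.sqrt_sq (norm_nonneg (ha.toLp a)), ← real_inner_self_eq_norm_sq, hinner]
    congr 2
    ext x
    ring
  rw [← hinner a b ha hb, ← hn a ha, ← hn b hb]
  exact abs_real_inner_le_norm _ _

theorem ConvData.tendsto_mul (hm : 2 ≤ m) (h : ConvData m U V lam)
    {Θk : ℕ → Eu (2 * m + 2) → ℝ} {Θ : Eu (2 * m + 2) → ℝ} {C : ℝ}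
    (hmk : ∀ k, AEStronglyMeasurable (Θk k) (mB (2 * m + 2)))
    (hm0 : AEStronglyMeasurable Θ (mB (2 * m + 2)))
    (hbk : ∀ k, ∀ᵐ x ∂(mB (2 * m + 2)), |Θk k x| ≤ C)
    (hlim : ∀ᵐ x ∂(mB (2 * m + 2)), Tendsto (fun k => Θk k x) atTop (𝓝 (Θ x))) :
    Tendsto (fun k => ∫ x, lamOf m (Tm (U k) x) * Θk k x ∂(mB (2 * m + 2))) atTop
      (𝓝 (∫ x, lam x * Θ x ∂(mB (2 * m + 2)))) := by
  set μ : Measure (Eu (2 * m + 2)) := mB (2 * m + 2) with hμ
  have hfinB : IsFiniteMeasure μ :=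
    ⟨by rw [hμ, mB, Measure.restrict_apply_univ]; exact measure_ball_lt_top⟩
  -- the limit is bounded
  have hb0 : ∀ᵐ x ∂μ, |Θ x| ≤ C := by
    filter_upwards [ae_all_iff.2 hbk, hlim] with x h1 h2
    exact le_of_tendsto h2.abs (Eventually.of_forall h1)
  have hC0 : ∀ᵐ x ∂μ, 0 ≤ C := by
    filter_upwards [hb0] with x hx
    exact (abs_nonneg _).trans hx
  have hΘ : MemLp Θ 2 μ := MemLp.of_bound hm0 C (by simpa only [Real.norm_eq_abs] using hb0)
  have hΘk : ∀ k, MemLp (Θk k) 2 μ := fun k =>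
    MemLp.of_bound (hmk k) C (by simpa only [Real.norm_eq_abs] using hbk k)
  have hlm : ∀ k, AEStronglyMeasurable (fun x => lamOf m (Tm (U k) x)) μ := by
    intro k
    have h1 := ((h.hU k).lam_continuousOn hm).aestronglyMeasurable (μ := volume)
      (measurableSet_singleton (0 : Eu (2 * m + 2))).compl
    rw [restrict_compl_singleton] at h1
    exact h1.mono_measure Measure.restrict_le_self
  have hl2 : ∀ k, MemLp (fun x => lamOf m (Tm (U k) x)) 2 μ := fun k =>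
    (memLp_two_iff_integrable_sq (hlm k)).2 (h.lam_sq_le hm k).1
  have hsplit : ∀ k, ∫ x, lamOf m (Tm (U k) x) * Θk k x ∂μ =
      ∫ x, lamOf m (Tm (U k) x) * Θ x ∂μ + ∫ x, lamOf m (Tm (U k) x) * (Θk k x - Θ x) ∂μ := by
    intro k
    rw [← integral_add]
    · congr 1
      ext x
      ring
    · exact (hl2 k).integrable_mul hΘ
    · exact (hl2 k).integrable_mul ((hΘk k).sub hΘ)
  have h1 : Tendsto (fun k => ∫ x, lamOf m (Tm (U k) x) * Θ x ∂μ) atTop
      (𝓝 (∫ x, lam x * Θ x ∂μ)) := h.weak Θ hΘ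
  have h2 : Tendsto (fun k => ∫ x, (Θk k x - Θ x) ^ 2 ∂μ) atTop (𝓝 0) := by
    have hz : (0 : ℝ) = ∫ x, (0 : ℝ) ∂μ := by simp
    rw [hz]
    refine tendsto_integral_of_dominated_convergence (fun _ => (2 * C) ^ 2) ?_
      (integrable_const _) ?_ ?_
    · intro k
      exact ((hmk k).sub hm0).pow 2
    · intro k
      filter_upwards [hbk k, hb0, hC0] with x h3 h4 h5
      rw [Real.norm_eq_abs, abs_pow]
      refine pow_le_pow_left₀ (abs_nonneg _) ?_ 2
      refine (abs_sub _ _).trans ?_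
      linarith
    · filter_upwards [hlim] with x hx
      have := (hx.sub_const (Θ x)).pow 2
      simpa using this
  have h3 : Tendsto (fun k => ∫ x, lamOf m (Tm (U k) x) * (Θk k x - Θ x) ∂μ) atTop (𝓝 0) := by
    have h4 : Tendsto (fun k => √((bGZ m + 1) * bv (2 * m + 2)) *
        √(∫ x, (Θk k x - Θ x) ^ 2 ∂μ)) atTop (𝓝 0) := by
      have h5 := (Real.continuous_sqrt.tendsto 0).comp h2
      rw [Real.sqrt_zero] at h5
      have h6 := h5.const_mul (√((bGZ m + 1) * bv (2 * m + 2)))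
      rw [mul_zero] at h6
      exact h6
    refine squeeze_zero_norm (fun k => ?_) h4
    rw [Real.norm_eq_abs]
    refine (limEqB_cs (hl2 k) ((hΘk k).sub hΘ)).trans ?_
    refine mul_le_mul_of_nonneg_right ?_ (Real.sqrt_nonneg _)
    exact Real.sqrt_le_sqrt (h.lam_sq_le hm k).2
  have h4 := h1.add h3
  rw [add_zero] at h4
  exact h4.congr fun k => (hsplit k).symm

end Pool.UVF
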