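import Pool.Agent.Lib.MP_28fba0_gt.UV.IBP
import Pool.Agent.Lib.MP_28fba0_gt.UV.Deficit2
import Pool.Agent.Lib.MP_28fba0_gt.UV.LimEqA
import Pool.Agent.Lib.MP_28fba0_gt.UV.LimEqB

/-!
# UV-LimEq: the limit equation `∂_i (r V_j) = a₀(λ, x̂, V)_{ji}` (weakly)

For each `k`: `∫ U_k j ∂_i φ = - ∫ jac U_k j i φ` (`HomField.ibp`).  Left side: `U_k x = ‖x‖ vh U_k x`
(a.e. convergent, bounded by `1` on the ball): dominated convergence.  Right side:
`jac U_k j i = a0 (λ_k) x̂ v_k j i + e_k`, `|e_k| ≤ errU` (one term of the sum), `∫ |e_k φ| → 0`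
(`ConvData.err`, `φ` bounded); `a0 λ_k x̂ v_k j i = λ_k Θ_k + Ξ_k`, `Θ_k = δ_{ji} - x̂_j x̂_i - v_j v_i`,
`Ξ_k = v_j x̂_i - x̂_j v_i` converge a.e. and are bounded (by `3`, `2`): `ConvData.tendsto_mul` for
`Θ_k φ`, dominated convergence for `Ξ_k φ`.
-/

open Matrix Real Set MeasureTheory Filter Topology

namespace Pool.UVF

variable {m : ℕ} {U : ℕ → Eu (2 * m + 2) → Eu (2 * m + 2)} {V : Eu (2 * m + 2) → Eu (2 * m + 2)}
  {lam : Eu (2 * m + 2) → ℝ}

private theorem LimEq_fin (d : ℕ) : IsFiniteMeasure (mB d) := by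
  unfold mB Bd
  exact ⟨by rw [Measure.restrict_apply_univ]; exact measure_ball_lt_top⟩

private theorem LimEq_ae {d : ℕ} (hd : 1 ≤ d) : ∀ᵐ x ∂(mB d), x ≠ 0 ∧ ‖x‖ < 1 := by
  have hnonempty : Nonempty (Fin d) := ⟨⟨0, hd⟩⟩
  have hnt : Nontrivial (Eu d) := inferInstance
  have h0 : (volume : Measure (Eu d)) {0} = 0 := measure_singleton 0
  have hne : ∀ᵐ x : Eu d ∂volume, x ≠ 0 := compl_mem_ae_iff.mpr h0
  unfold mB Bd
  filter_upwards [ae_restrict_of_ae hne, ae_restrict_mem measurableSet_ball] with x hx hb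
  rw [Metric.mem_ball, dist_zero_right] at hb
  exact ⟨hx, hb⟩

private theorem LimEq_hat_norm {d : ℕ} {x : Eu d} (hx : x ≠ 0) : ‖hat x‖ = 1 := by
  unfold hat
  rw [norm_smul, norm_inv, norm_norm, inv_mul_cancel₀ (norm_ne_zero_iff.mpr hx)]

private theorem LimEq_vh_norm {d : ℕ} {U : Eu d → Eu d} (hU : HomField U) {x : Eu d}
    (hx : x ≠ 0) : ‖vh U x‖ = 1 := by
  unfold vh
  rw [norm_smul, norm_inv, norm_norm, hU.norm, inv_mul_cancel₀ (norm_ne_zero_iff.mpr hx)]

private theorem LimEq_coord {d : ℕ} {v : Eu d} (hv : ‖v‖ ≤ 1) (j : Fin d) : |v j| ≤ 1 := by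
  have := PiLp.norm_apply_le v j
  rw [Real.norm_eq_abs] at this
  exact this.trans hv

private noncomputable def LimEqTh {d : ℕ} (j i : Fin d) (y v : Eu d) : ℝ :=
  (if j = i then 1 else 0) - y j * y i - v j * v i

private noncomputable def LimEqXi {d : ℕ} (j i : Fin d) (y v : Eu d) : ℝ :=
  v j * y i - y j * v i

private theorem LimEq_a0 {d : ℕ} (l : ℝ) (y v : Eu d) (j i : Fin d) :
    a0 l y v j i = l * LimEqTh j i y v + LimEqXi j i y v := by
  unfold a0 LimEqTh LimEqXi
  rw [Matrix.of_apply]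
  ring

private theorem LimEq_mul_le {a b : ℝ} (ha : |a| ≤ 1) (hb : |b| ≤ 1) : |a * b| ≤ 1 := by
  rw [abs_mul]
  exact mul_le_one₀ ha (abs_nonneg _) hb

private theorem LimEq_Th_le {d : ℕ} {y v : Eu d} (hy : ‖y‖ ≤ 1) (hv : ‖v‖ ≤ 1) (j i : Fin d) :
    |LimEqTh j i y v| ≤ 3 := by
  have h1 := abs_le.mp (LimEq_mul_le (LimEq_coord hy j) (LimEq_coord hy i))
  have h2 := abs_le.mp (LimEq_mul_le (LimEq_coord hv j) (LimEq_coord hv i))
  unfold LimEqTh
  rw [abs_le]
  split_ifs <;> constructor <;> linarith [h1.1, h1.2, h2.1, h2.2]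

private theorem LimEq_Xi_le {d : ℕ} {y v : Eu d} (hy : ‖y‖ ≤ 1) (hv : ‖v‖ ≤ 1) (j i : Fin d) :
    |LimEqXi j i y v| ≤ 2 := by
  have h1 := abs_le.mp (LimEq_mul_le (LimEq_coord hv j) (LimEq_coord hy i))
  have h2 := abs_le.mp (LimEq_mul_le (LimEq_coord hy j) (LimEq_coord hv i))
  unfold LimEqXi
  rw [abs_le]
  constructor <;> linarith [h1.1, h1.2, h2.1, h2.2]

private theorem LimEq_Th_cont {d : ℕ} (j i : Fin d) :
    Continuous fun p : Eu d × Eu d => LimEqTh j i p.1 p.2 := by
  unfold LimEqTh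
  fun_prop

private theorem LimEq_Xi_cont {d : ℕ} (j i : Fin d) :
    Continuous fun p : Eu d × Eu d => LimEqXi j i p.1 p.2 := by
  unfold LimEqXi
  fun_prop

private theorem LimEq_hat_meas (d : ℕ) : Measurable (hat : Eu d → Eu d) := by
  unfold hat
  exact (measurable_norm.inv).smul measurable_id

private theorem LimEq_vh_meas {d : ℕ} {U : Eu d → Eu d} (hU : HomField U) :
    Measurable (vh U) := by
  unfold vh
  exact (measurable_norm.inv).smul hU.continuous.measurable

private theorem LimEq_integrable_mul {d : ℕ} {f g : Eu d → ℝ} (hf : Integrable f (mB d))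
    (hg : AEStronglyMeasurable g (mB d)) {C : ℝ} (hC : ∀ᵐ x ∂(mB d), |g x| ≤ C) :
    Integrable (fun x => f x * g x) (mB d) := by
  refine (hf.norm.mul_const C).mono' (hf.aestronglyMeasurable.mul hg) ?_
  filter_upwards [hC] with x hx
  rw [Real.norm_eq_abs, abs_mul, Real.norm_eq_abs]
  exact mul_le_mul_of_nonneg_left hx (abs_nonneg _)

theorem ConvData.grad (hm : 2 ≤ m) (h : ConvData m U V lam) (j : Fin (2 * m + 2)) :
    HasWGrad (fun x => ‖x‖ * V x j) (fun i x => a0 (lam x) (hat x) (V x) j i) := by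
  intro φ hφ i
  have hfin : IsFiniteMeasure (mB (2 * m + 2)) := LimEq_fin _
  have hd : 1 ≤ 2 * m + 2 := by omega
  obtain ⟨K, hK, hb1, hb2, -⟩ := hφ.bdd
  have hφc : Continuous φ := hφ.smooth.continuous
  have hpd : Continuous (pd i φ) := hφ.continuous_pd i
  have hae := LimEq_ae hd
  -- the limit field has norm at most one
  have hVn : ∀ᵐ x ∂(mB (2 * m + 2)), ‖V x‖ ≤ 1 := by
    filter_upwards [hae, h.aeV] with x hx hv
    refine le_of_tendsto ((continuous_norm.tendsto _).comp hv) ?_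
    exact Eventually.of_forall fun k => (LimEq_vh_norm (h.hU k) hx.1).le
  have hVm : AEStronglyMeasurable (fun x => LimEqTh j i (hat x) (V x) * φ x)
      (mB (2 * m + 2)) := by
    refine (((LimEq_Th_cont j i).measurable.comp
      ((LimEq_hat_meas _).prodMk h.mV)).mul hφc.measurable).aestronglyMeasurable
  have hVm' : AEStronglyMeasurable (fun x => LimEqXi j i (hat x) (V x) * φ x)
      (mB (2 * m + 2)) := by
    refine (((LimEq_Xi_cont j i).measurable.comp
      ((LimEq_hat_meas _).prodMk h.mV)).mul hφc.measurable).aestronglyMeasurable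
  have hkm : ∀ k, AEStronglyMeasurable (fun x => LimEqTh j i (hat x) (vh (U k) x) * φ x)
      (mB (2 * m + 2)) := by
    intro k
    refine (((LimEq_Th_cont j i).measurable.comp
      ((LimEq_hat_meas _).prodMk (LimEq_vh_meas (h.hU k)))).mul
        hφc.measurable).aestronglyMeasurable
  have hkm' : ∀ k, AEStronglyMeasurable (fun x => LimEqXi j i (hat x) (vh (U k) x) * φ x)
      (mB (2 * m + 2)) := by
    intro k
    refine (((LimEq_Xi_cont j i).measurable.comp
      ((LimEq_hat_meas _).prodMk (LimEq_vh_meas (h.hU k)))).mul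
        hφc.measurable).aestronglyMeasurable
  have hkb : ∀ k, ∀ᵐ x ∂(mB (2 * m + 2)),
      |LimEqTh j i (hat x) (vh (U k) x) * φ x| ≤ 3 * K := by
    intro k
    filter_upwards [hae] with x hx
    rw [abs_mul]
    exact mul_le_mul (LimEq_Th_le (LimEq_hat_norm hx.1).le (LimEq_vh_norm (h.hU k) hx.1).le j i)
      (hb1 x) (abs_nonneg _) (by norm_num)
  have hkb' : ∀ k, ∀ᵐ x ∂(mB (2 * m + 2)),
      |LimEqXi j i (hat x) (vh (U k) x) * φ x| ≤ 2 * K := by
    intro k
    filter_upwards [hae] with x hx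
    rw [abs_mul]
    exact mul_le_mul (LimEq_Xi_le (LimEq_hat_norm hx.1).le (LimEq_vh_norm (h.hU k) hx.1).le j i)
      (hb1 x) (abs_nonneg _) (by norm_num)
  have hVb : ∀ᵐ x ∂(mB (2 * m + 2)), |LimEqTh j i (hat x) (V x) * φ x| ≤ 3 * K := by
    filter_upwards [hae, hVn] with x hx hv
    rw [abs_mul]
    exact mul_le_mul (LimEq_Th_le (LimEq_hat_norm hx.1).le hv j i)
      (hb1 x) (abs_nonneg _) (by norm_num)
  have hVb' : ∀ᵐ x ∂(mB (2 * m + 2)), |LimEqXi j i (hat x) (V x) * φ x| ≤ 2 * K := by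
    filter_upwards [hae, hVn] with x hx hv
    rw [abs_mul]
    exact mul_le_mul (LimEq_Xi_le (LimEq_hat_norm hx.1).le hv j i)
      (hb1 x) (abs_nonneg _) (by norm_num)
  have hlim : ∀ᵐ x ∂(mB (2 * m + 2)), Tendsto (fun k => LimEqTh j i (hat x) (vh (U k) x) * φ x)
      atTop (𝓝 (LimEqTh j i (hat x) (V x) * φ x)) := by
    filter_upwards [h.aeV] with x hv
    have h1 := ((LimEq_Th_cont j i).tendsto (hat x, V x)).comp
      ((tendsto_const_nhds (x := hat x) (f := atTop (α := ℕ))).prodMk_nhds hv)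
    exact h1.mul_const (φ x)
  have hlim' : ∀ᵐ x ∂(mB (2 * m + 2)), Tendsto (fun k => LimEqXi j i (hat x) (vh (U k) x) * φ x)
      atTop (𝓝 (LimEqXi j i (hat x) (V x) * φ x)) := by
    filter_upwards [h.aeV] with x hv
    have h1 := ((LimEq_Xi_cont j i).tendsto (hat x, V x)).comp
      ((tendsto_const_nhds (x := hat x) (f := atTop (α := ℕ))).prodMk_nhds hv)
    exact h1.mul_const (φ x)
  -- the left side
  have hL : Tendsto (fun k => ∫ x, U k x j * pd i φ x ∂(mB (2 * m + 2))) atTop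
      (𝓝 (∫ x, (‖x‖ * V x j) * pd i φ x ∂(mB (2 * m + 2)))) := by
    refine tendsto_integral_of_dominated_convergence (fun _ => K) ?_ (integrable_const K) ?_ ?_
    · intro k
      have h1 : Continuous fun x => U k x j := by
        have := (h.hU k).continuous
        fun_prop
      exact (h1.mul hpd).aestronglyMeasurable
    · intro k
      filter_upwards [hae] with x hx
      rw [Real.norm_eq_abs, abs_mul]
      have h1 : |U k x j| ≤ 1 := LimEq_coord (by rw [(h.hU k).norm]; exact hx.2.le) j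
      calc |U k x j| * |pd i φ x| ≤ 1 * K :=
            mul_le_mul h1 (hb2 i x) (abs_nonneg _) zero_le_one
        _ = K := one_mul K
    · filter_upwards [hae, h.aeV] with x hx hv
      have h1 : ∀ k, U k x j = ‖x‖ * (vh (U k) x) j := by
        intro k
        unfold vh
        rw [PiLp.smul_apply, smul_eq_mul, ← mul_assoc,
          mul_inv_cancel₀ (norm_ne_zero_iff.mpr hx.1), one_mul]
      have h2 : Tendsto (fun k => (vh (U k) x) j) atTop (𝓝 (V x j)) := by
        have hc : Continuous fun v : Eu (2 * m + 2) => v j := by fun_prop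
        exact (hc.tendsto (V x)).comp hv
      have h3 := (h2.const_mul ‖x‖).mul_const (pd i φ x)
      refine h3.congr fun k => ?_
      rw [h1]
  -- the products
  have hT := ConvData.tendsto_mul hm h hkm hVm hkb hlim
  have hX : Tendsto (fun k => ∫ x, LimEqXi j i (hat x) (vh (U k) x) * φ x ∂(mB (2 * m + 2)))
      atTop (𝓝 (∫ x, LimEqXi j i (hat x) (V x) * φ x ∂(mB (2 * m + 2)))) := by
    refine tendsto_integral_of_dominated_convergence (fun _ => 2 * K) hkm'
      (integrable_const _) ?_ hlim'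
    intro k
    filter_upwards [hkb' k] with x hx
    rw [Real.norm_eq_abs]
    exact hx
  -- the error
  have hjac : ∀ k, Integrable (fun x => jac (U k) x j i) (mB (2 * m + 2)) := by
    intro k
    refine integrable_of_hom0 hd ?_ ?_
    · exact (continuous_id.matrix_elem j i).comp_continuousOn (h.hU k).jac_continuousOn
    · intro s hs x hx
      rw [(h.hU k).jac_smul hs hx]
  have hlamI : ∀ k, Integrable (fun x => lamOf m (Tm (U k) x)) (mB (2 * m + 2)) := by
    intro k
    refine integrable_of_hom0 hd ((h.hU k).lam_continuousOn hm) ?_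
    intro s hs x hx
    rw [(h.hU k).Tm_smul hs hx]
  have hI1 : ∀ k, Integrable (fun x => jac (U k) x j i * φ x) (mB (2 * m + 2)) := fun k =>
    LimEq_integrable_mul (hjac k) hφc.aestronglyMeasurable (Eventually.of_forall hb1)
  have hI2 : ∀ k, Integrable (fun x => lamOf m (Tm (U k) x) *
      (LimEqTh j i (hat x) (vh (U k) x) * φ x)) (mB (2 * m + 2)) := fun k =>
    LimEq_integrable_mul (hlamI k) (hkm k) (hkb k)
  have hI3 : ∀ k, Integrable (fun x => LimEqXi j i (hat x) (vh (U k) x) * φ x)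
      (mB (2 * m + 2)) := by
    intro k
    refine (integrable_const (2 * K)).mono' (hkm' k) ?_
    filter_upwards [hkb' k] with x hx
    rw [Real.norm_eq_abs]
    exact hx
  have hE : Tendsto (fun k => ∫ x, (jac (U k) x j i * φ x - (lamOf m (Tm (U k) x) *
      (LimEqTh j i (hat x) (vh (U k) x) * φ x) + LimEqXi j i (hat x) (vh (U k) x) * φ x))
      ∂(mB (2 * m + 2))) atTop (𝓝 0) := by
    have h1 : Tendsto (fun k => K * ∫ x, errU m (U k) x ∂(mB (2 * m + 2))) atTop (𝓝 0) := by
      simpa using h.err.const_mul K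
    refine squeeze_zero_norm (fun k => ?_) h1
    refine (norm_integral_le_integral_norm _).trans ?_
    rw [← integral_const_mul]
    refine integral_mono_of_nonneg (Eventually.of_forall fun x => norm_nonneg _)
      (((h.hU k).integrable_err hm).const_mul K) (Eventually.of_forall fun x => ?_)
    have h2 : jac (U k) x j i * φ x - (lamOf m (Tm (U k) x) *
        (LimEqTh j i (hat x) (vh (U k) x) * φ x) + LimEqXi j i (hat x) (vh (U k) x) * φ x) =
        (jac (U k) x j i - a0 (lamOf m (Tm (U k) x)) (hat x) (vh (U k) x) j i) * φ x := by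
      rw [LimEq_a0]
      ring
    have h3 : |jac (U k) x j i - a0 (lamOf m (Tm (U k) x)) (hat x) (vh (U k) x) j i| ≤
        errU m (U k) x := by
      unfold errU
      have h4 := Finset.single_le_sum (s := Finset.univ) (f := fun i' => |jac (U k) x j i' -
        a0 (lamOf m (Tm (U k) x)) (hat x) (vh (U k) x) j i'|) (fun i' _ => abs_nonneg _)
        (Finset.mem_univ i)
      have h5 := Finset.single_le_sum (s := Finset.univ) (f := fun j' => ∑ i',
        |jac (U k) x j' i' - a0 (lamOf m (Tm (U k) x)) (hat x) (vh (U k) x) j' i'|)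
        (fun j' _ => Finset.sum_nonneg fun i' _ => abs_nonneg _) (Finset.mem_univ j)
      exact h4.trans h5
    simp only
    rw [h2, Real.norm_eq_abs, abs_mul, mul_comm]
    exact mul_le_mul (hb1 x) h3 (abs_nonneg _) hK.le
  -- the right side
  have hR : Tendsto (fun k => - ∫ x, jac (U k) x j i * φ x ∂(mB (2 * m + 2))) atTop
      (𝓝 (-(∫ x, lam x * (LimEqTh j i (hat x) (V x) * φ x) ∂(mB (2 * m + 2)) +
        ∫ x, LimEqXi j i (hat x) (V x) * φ x ∂(mB (2 * m + 2)) + 0))) := by
    refine (((hT.add hX).add hE).neg).congr fun k => ?_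
    have e1 : ∫ x, (jac (U k) x j i * φ x - (lamOf m (Tm (U k) x) *
        (LimEqTh j i (hat x) (vh (U k) x) * φ x) + LimEqXi j i (hat x) (vh (U k) x) * φ x))
        ∂(mB (2 * m + 2)) = ∫ x, jac (U k) x j i * φ x ∂(mB (2 * m + 2)) -
        ∫ x, (lamOf m (Tm (U k) x) * (LimEqTh j i (hat x) (vh (U k) x) * φ x) +
        LimEqXi j i (hat x) (vh (U k) x) * φ x) ∂(mB (2 * m + 2)) :=
      integral_sub (hI1 k) ((hI2 k).add (hI3 k))
    have e2 := integral_add (hI2 k) (hI3 k)
    linarith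
  have hlamL1 : Integrable lam (mB (2 * m + 2)) := by
    have h1 : Integrable (fun x => 1 + lam x ^ 2) (mB (2 * m + 2)) :=
      (integrable_const 1).add h.l2
    refine h1.mono' h.mlam.aestronglyMeasurable (Eventually.of_forall fun x => ?_)
    rw [Real.norm_eq_abs, abs_le]
    constructor <;> nlinarith [sq_nonneg (lam x - 1), sq_nonneg (lam x + 1), sq_nonneg (lam x)]
  have hJ1 : Integrable (fun x => lam x * (LimEqTh j i (hat x) (V x) * φ x))
      (mB (2 * m + 2)) := LimEq_integrable_mul hlamL1 hVm hVb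
  have hJ2 : Integrable (fun x => LimEqXi j i (hat x) (V x) * φ x) (mB (2 * m + 2)) := by
    refine (integrable_const (2 * K)).mono' hVm' ?_
    filter_upwards [hVb'] with x hx
    rw [Real.norm_eq_abs]
    exact hx
  have hfinal : ∫ x, a0 (lam x) (hat x) (V x) j i * φ x ∂(mB (2 * m + 2)) =
      ∫ x, lam x * (LimEqTh j i (hat x) (V x) * φ x) ∂(mB (2 * m + 2)) +
        ∫ x, LimEqXi j i (hat x) (V x) * φ x ∂(mB (2 * m + 2)) + 0 := by
    rw [add_zero, ← integral_add hJ1 hJ2]
    refine integral_congr_ae (Eventually.of_forall fun x => ?_)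
    simp only
    rw [LimEq_a0]
    ring
  have hLR : Tendsto (fun k => ∫ x, U k x j * pd i φ x ∂(mB (2 * m + 2))) atTop
      (𝓝 (-(∫ x, lam x * (LimEqTh j i (hat x) (V x) * φ x) ∂(mB (2 * m + 2)) +
        ∫ x, LimEqXi j i (hat x) (V x) * φ x ∂(mB (2 * m + 2)) + 0))) :=
    hR.congr fun k => ((h.hU k).ibp hφ j i).symm
  simp only
  rw [hfinal]
  exact tendsto_nhds_unique hL hLR

end Pool.UVF
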