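import Pool.Agent.Lib.MP_28fba0_gt.UV.MollDef

/-!
# UV-MollA: elementary properties of mollifications

`moll n f x = ∫ ρ_n(t) f(x - t) dt`, `ρ_n = (bump d n).normed volume` (smooth, `≥ 0`, `∫ ρ_n = 1`,
support in the closed ball of radius `1/(n+1)`).
* `moll_eq`: substitution `t = x - y` (`integral_sub_left_eq_self`).
* `contDiff_moll`, `pd_moll`: `moll n f = ρ_n ⋆[lsmul] f` (convolution);
  `HasCompactSupport.contDiff_convolution_left`, `HasCompactSupport.hasFDerivAt_convolution_left`
  (or differentiate under the integral sign in `moll_eq`).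
* `abs_moll_le`: `|∫ ρ f| ≤ ∫ ρ C = C` (if the integrand is not integrable the integral is `0`).
-/

open Real Set MeasureTheory Filter Topology
open scoped ContDiff

namespace Pool.UVF

variable {d : ℕ}

/-- `moll n f x = ∫ ρ_n(x - y) f(y) dy` -/
theorem moll_eq (f : Eu d → ℝ) (n : ℕ) (x : Eu d) :
    moll n f x = ∫ y, (bump d n).normed volume (x - y) * f y := by
  have h := integral_sub_left_eq_self (fun y => (bump d n).normed volume y * f (x - y))
    (volume : Measure (Eu d)) x
  simp only [sub_sub_cancel] at h
  exact h.symm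

theorem moll_conv (f : Eu d → ℝ) (n : ℕ) :
    moll n f = convolution ((bump d n).normed volume) f (ContinuousLinearMap.mul ℝ ℝ) volume := by
  funext x
  rfl

theorem contDiff_moll {f : Eu d → ℝ} (hf : LocallyIntegrable f volume) (n : ℕ) :
    ContDiff ℝ ∞ (moll n f) := by
  rw [moll_conv]
  exact (bump d n).hasCompactSupport_normed.contDiff_convolution_left _
    (bump d n).contDiff_normed hf

/-- the derivative falls on the bump function -/
theorem pd_moll {f : Eu d → ℝ} (hf : LocallyIntegrable f volume) (n : ℕ) (i : Fin d) (x : Eu d) :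
    pd i (moll n f) x = ∫ y, pd i ((bump d n).normed volume) (x - y) * f y := by
  have hcs : HasCompactSupport ((bump d n).normed volume) := (bump d n).hasCompactSupport_normed
  have hcd : ContDiff ℝ 1 ((bump d n).normed volume) := (bump d n).contDiff_normed
  have h := hcs.hasFDerivAt_convolution_left (ContinuousLinearMap.mul ℝ ℝ) hcd hf x
  unfold pd
  rw [moll_conv, h.fderiv]
  have hex : ConvolutionExistsAt (fderiv ℝ ((bump d n).normed volume)) f x
      ((ContinuousLinearMap.mul ℝ ℝ).precompL (Eu d)) volume :=
    (hcs.fderiv ℝ).convolutionExists_left _ (hcd.continuous_fderiv one_ne_zero) hf x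
  unfold convolution
  rw [ContinuousLinearMap.integral_apply hex]
  simp only [ContinuousLinearMap.precompL_apply, ContinuousLinearMap.mul_apply']
  have h2 := integral_sub_left_eq_self
    (fun y => fderiv ℝ ((bump d n).normed volume) y (EuclideanSpace.single i 1) * f (x - y))
    (volume : Measure (Eu d)) x
  simp only [sub_sub_cancel] at h2
  exact h2.symm

theorem abs_moll_le {f : Eu d → ℝ} {C : ℝ} (hC : 0 ≤ C) (hf : ∀ᵐ x, |f x| ≤ C) (n : ℕ) (x : Eu d) :
    |moll n f x| ≤ C := by
  have hqmp : Measure.QuasiMeasurePreserving (fun t : Eu d => x - t) volume volume :=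
    quasiMeasurePreserving_sub_left volume x
  have hf' : ∀ᵐ t : Eu d, |f (x - t)| ≤ C := hqmp.ae hf
  have h1 : ‖moll n f x‖ ≤ ∫ t, (bump d n).normed volume t * C := by
    refine norm_integral_le_of_norm_le ((bump d n).integrable_normed.mul_const C) ?_
    filter_upwards [hf'] with t ht
    rw [norm_mul, Real.norm_of_nonneg ((bump d n).nonneg_normed t), Real.norm_eq_abs]
    exact mul_le_mul_of_nonneg_left ht ((bump d n).nonneg_normed t)
  rw [integral_mul_const, (bump d n).integral_normed, one_mul, Real.norm_eq_abs] at h1
  exact h1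

end Pool.UVF
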