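import Pool.Agent.Lib.MP_28fba0_gt.UV.MollDef

open Real Set MeasureTheory Filter Topology
open scoped ContDiff

namespace Pool.UVF

variable {d : ℕ}

theorem mollB_cont {p : ENNReal} [Fact (1 ≤ p)] [Fact (p ≠ ⊤)] (F : Lp ℝ p (volume : Measure (Eu d))) :
    Tendsto (fun t : Eu d => ‖(DomAddAct.mk (-t) +ᵥ F) - F‖) (𝓝 0) (𝓝 0) := by
  have h2 : Continuous (fun t : Eu d => ‖(DomAddAct.mk (-t) +ᵥ F) - F‖) := by
    have h5 : Continuous (fun t : Eu d => (DomAddAct.mk (-t) : (Eu d)ᵈᵃᵃ)) := by fun_prop
    have h6 : Continuous (fun t : Eu d => (DomAddAct.mk (-t) : (Eu d)ᵈᵃᵃ) +ᵥ F) :=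
      h5.vadd continuous_const
    exact (h6.sub continuous_const).norm
  have h3 := h2.tendsto 0
  have h4 : ‖(DomAddAct.mk (-(0 : Eu d)) +ᵥ F) - F‖ = 0 := by
    rw [neg_zero]
    have : (DomAddAct.mk (0 : Eu d) +ᵥ F) = F := zero_vadd _ F
    rw [this, sub_self, norm_zero]
  rwa [h4] at h3

theorem mollB_n1 {f : Eu d → ℝ} (hf : Integrable f volume) :
    Tendsto (fun t : Eu d => ∫ x, |f (x - t) - f x|) (𝓝 0) (𝓝 0) := by
  have hf1 : MemLp f 1 volume := memLp_one_iff_integrable.mpr hf
  set F := hf1.toLp f
  have : Fact ((1 : ENNReal) ≠ ⊤) := ⟨by simp⟩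
  refine (mollB_cont F).congr fun t => ?_
  rw [DomAddAct.mk_vadd_toLp, ← MemLp.toLp_sub, Lp.norm_toLp, eLpNorm_one_eq_lintegral_enorm]
  rw [← integral_norm_eq_lintegral_enorm]
  · refine integral_congr_ae (Eventually.of_forall fun x => ?_)
    simp only [Pi.sub_apply, vadd_eq_add, Real.norm_eq_abs]
    rw [neg_add_eq_sub]
  · exact ((hf1.comp_measurePreserving (measurePreserving_vadd (-t) volume)).sub hf1).1

theorem mollB_n2 {f : Eu d → ℝ} (hf : MemLp f 2 (volume : Measure (Eu d))) :
    Tendsto (fun t : Eu d => ∫ x, (f (x - t) - f x) ^ 2) (𝓝 0) (𝓝 0) := by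
  set F := hf.toLp f
  have : Fact ((2 : ENNReal) ≠ ⊤) := ⟨by simp⟩
  have h0 := (mollB_cont F).pow 2
  rw [zero_pow two_ne_zero] at h0
  refine h0.congr fun t => ?_
  rw [DomAddAct.mk_vadd_toLp, ← MemLp.toLp_sub]
  have h1 := ((hf.comp_measurePreserving (measurePreserving_vadd (-t) volume)).sub hf)
  rw [← real_inner_self_eq_norm_sq, MeasureTheory.L2.inner_def]
  refine integral_congr_ae ?_
  have h2 : MemLp ((fun x => f (-t +ᵥ x)) - f) 2 (volume : Measure (Eu d)) := h1
  filter_upwards [h2.coeFn_toLp] with x hx
  rw [hx]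
  simp only [Pi.sub_apply, vadd_eq_add]
  rw [neg_add_eq_sub]
  simp [sq]

/-- the kernel -/
theorem mollB_rho (n : ℕ) : Integrable ((bump d n).normed (volume : Measure (Eu d))) volume :=
  (bump d n).integrable_normed

theorem mollB_conv {f : Eu d → ℝ} (hf : Integrable f volume) (n : ℕ) :
    Integrable (fun p : Eu d × Eu d => (bump d n).normed volume p.2 * f (p.1 - p.2))
      ((volume : Measure (Eu d)).prod volume) := by
  have h := Integrable.convolution_integrand (ContinuousLinearMap.mul ℝ ℝ) (mollB_rho (d := d) n) hf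
  simpa using h

theorem integrable_moll {f : Eu d → ℝ} (hf : Integrable f volume) (n : ℕ) :
    Integrable (moll n f) volume := by
  have h := (mollB_conv hf n).integral_prod_left
  exact h

theorem mollB_int1 {f : Eu d → ℝ} (hf : Integrable f volume) (n : ℕ) :
    Integrable (fun p : Eu d × Eu d => (bump d n).normed volume p.2 * (f (p.1 - p.2) - f p.1))
      ((volume : Measure (Eu d)).prod volume) := by
  have h := mollB_conv hf n
  have h2 : Integrable (fun p : Eu d × Eu d => f p.1 * (bump d n).normed volume p.2)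
      ((volume : Measure (Eu d)).prod volume) := hf.mul_prod (mollB_rho n)
  refine (h.sub h2).congr (Eventually.of_forall fun p => ?_)
  simp only [Pi.sub_apply]
  ring

theorem mollB_intx {f : Eu d → ℝ} (hf : Integrable f volume) (n : ℕ) (x : Eu d) :
    Integrable (fun t => (bump d n).normed volume t * f (x - t)) volume := by
  obtain ⟨C, hC⟩ := ((bump d n).hasCompactSupport_normed (μ := volume)).exists_bound_of_continuous
    (bump d n).continuous_normed
  exact (hf.comp_sub_left x).bdd_mul ((bump d n).continuous_normed.aestronglyMeasurable)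
    (c := C) (Eventually.of_forall hC)

theorem mollB_eq {f : Eu d → ℝ} (hf : Integrable f volume) (n : ℕ) (x : Eu d) :
    moll n f x - f x = ∫ t, (bump d n).normed volume t * (f (x - t) - f x) := by
  have h1 := mollB_intx hf n x
  have h2 : Integrable (fun t => (bump d n).normed volume t * f x) volume :=
    (mollB_rho n).mul_const _
  have h3 : ∫ t, (bump d n).normed volume t * f x = f x := by
    rw [integral_mul_const, (bump d n).integral_normed, one_mul]
  rw [moll]
  conv_lhs => rw [← h3]
  rw [← integral_sub h1 h2]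
  congr 1
  funext t
  ring

theorem mollB_sup {N : Eu d → ℝ} (hN0 : ∀ t, 0 ≤ N t) (hN : Tendsto N (𝓝 0) (𝓝 0))
    (hNi : ∀ n, Integrable (fun t => (bump d n).normed volume t * N t) volume) :
    Tendsto (fun n : ℕ => ∫ t, (bump d n).normed volume t * N t) atTop (𝓝 0) := by
  rw [Metric.tendsto_atTop]
  intro ε hε
  rw [Metric.tendsto_nhds_nhds] at hN
  obtain ⟨η, hη, h1⟩ := hN (ε / 2) (by positivity)
  obtain ⟨n0, hn0⟩ := exists_nat_one_div_lt hη
  refine ⟨n0, fun n hn => ?_⟩
  have h2 : ∫ t, (bump d n).normed volume t * N t ≤ ∫ t, (bump d n).normed volume t * (ε / 2) := by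
    refine integral_mono (hNi n) ((mollB_rho n).mul_const _) fun t => ?_
    by_cases ht : t ∈ Metric.ball (0 : Eu d) (1 / ((n : ℝ) + 1))
    · have h3 : dist t 0 < η := by
        rw [Metric.mem_ball] at ht
        refine ht.trans_le (le_trans ?_ hn0.le)
        apply one_div_le_one_div_of_le (by positivity)
        have : (n0 : ℝ) ≤ n := by exact_mod_cast hn
        linarith
      have h4 := h1 h3
      rw [Real.dist_eq, sub_zero, abs_of_nonneg (hN0 t)] at h4
      exact mul_le_mul_of_nonneg_left h4.le ((bump d n).nonneg_normed t)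
    · have h5 : (bump d n).normed volume t = 0 := by
        by_contra h6
        have h7 : t ∈ Function.support ((bump d n).normed volume) := h6
        rw [ContDiffBump.support_normed_eq] at h7
        exact ht h7
      simp only [h5, zero_mul]
      exact le_rfl
  rw [integral_mul_const, (bump d n).integral_normed, one_mul] at h2
  have h8 : 0 ≤ ∫ t, (bump d n).normed volume t * N t :=
    integral_nonneg fun t => mul_nonneg ((bump d n).nonneg_normed t) (hN0 t)
  rw [Real.dist_eq, sub_zero, abs_of_nonneg h8]
  linarith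

theorem moll_tendsto_L1 {f : Eu d → ℝ} (hf : Integrable f volume) :
    Tendsto (fun n => ∫ x, |moll n f x - f x|) atTop (𝓝 0) := by
  set N : Eu d → ℝ := fun t => ∫ x, |f (x - t) - f x| with hNdef
  have hi : ∀ n, Integrable (fun p : Eu d × Eu d =>
      (bump d n).normed volume p.2 * |f (p.1 - p.2) - f p.1|)
      ((volume : Measure (Eu d)).prod volume) := by
    intro n
    refine (mollB_int1 hf n).abs.congr (Eventually.of_forall fun p => ?_)
    simp only [abs_mul, abs_of_nonneg ((bump d n).nonneg_normed p.2)]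
  have hsw : ∀ n, ∫ x, ∫ t, (bump d n).normed volume t * |f (x - t) - f x|
      = ∫ t, (bump d n).normed volume t * N t := by
    intro n
    rw [integral_integral_swap (hi n)]
    congr 1
    funext t
    rw [integral_const_mul]
  have h1 : Tendsto (fun n : ℕ => ∫ t, (bump d n).normed volume t * N t) atTop (𝓝 0) := by
    refine mollB_sup (fun t => integral_nonneg fun x => abs_nonneg _) (mollB_n1 hf) fun n => ?_
    refine (hi n).integral_prod_right.congr (Eventually.of_forall fun t => ?_)
    simp only [hNdef]
    rw [integral_const_mul]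
  refine squeeze_zero (fun n => integral_nonneg fun x => abs_nonneg _) (fun n => ?_) h1
  rw [← hsw n]
  refine integral_mono ((integrable_moll hf n).sub hf).abs (hi n).integral_prod_left fun x => ?_
  show |moll n f x - f x| ≤ ∫ t, (bump d n).normed volume t * |f (x - t) - f x|
  rw [mollB_eq hf]
  refine (abs_integral_le_integral_abs).trans (le_of_eq ?_)
  congr 1
  funext t
  rw [abs_mul, abs_of_nonneg ((bump d n).nonneg_normed t)]

theorem mollB_int2 {f : Eu d → ℝ} (hf : Integrable f volume)
    (hf2 : Integrable (fun x => f x ^ 2) volume) (n : ℕ) :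
    Integrable (fun p : Eu d × Eu d => (bump d n).normed volume p.2 * (f (p.1 - p.2) - f p.1) ^ 2)
      ((volume : Measure (Eu d)).prod volume) := by
  have h := mollB_conv hf2 n
  have h2 : Integrable (fun p : Eu d × Eu d => f p.1 ^ 2 * (bump d n).normed volume p.2)
      ((volume : Measure (Eu d)).prod volume) := hf2.mul_prod (mollB_rho n)
  have hm := (mollB_int1 hf n).aestronglyMeasurable
  have hm1 : AEStronglyMeasurable (fun p : Eu d × Eu d => f p.1)
      ((volume : Measure (Eu d)).prod volume) := hf.1.comp_fst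
  have hm2 : AEStronglyMeasurable (fun p : Eu d × Eu d => f (p.1 - p.2))
      ((volume : Measure (Eu d)).prod volume) :=
    hf.1.comp_quasiMeasurePreserving (quasiMeasurePreserving_sub_of_right_invariant _ _)
  have hm3 : AEStronglyMeasurable (fun p : Eu d × Eu d => (bump d n).normed volume p.2)
      ((volume : Measure (Eu d)).prod volume) :=
    ((bump d n).continuous_normed.comp continuous_snd).aestronglyMeasurable
  refine Integrable.mono' ((h.add h2).const_mul 2) (hm3.mul ((hm2.sub hm1).pow 2))
    (Eventually.of_forall fun p => ?_)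
  rw [Real.norm_eq_abs, abs_of_nonneg (mul_nonneg ((bump d n).nonneg_normed p.2) (sq_nonneg _))]
  simp only [Pi.add_apply]
  have h3 : (f (p.1 - p.2) - f p.1) ^ 2 ≤ 2 * (f (p.1 - p.2) ^ 2 + f p.1 ^ 2) := by
    nlinarith [sq_nonneg (f (p.1 - p.2) + f p.1)]
  have h4 := mul_le_mul_of_nonneg_left h3 ((bump d n).nonneg_normed (μ := volume) p.2)
  linarith

theorem mollB_jensen {f : Eu d → ℝ} (hf : Integrable f volume)
    (n : ℕ) (x : Eu d)
    (hx : Integrable (fun t => (bump d n).normed volume t * (f (x - t) - f x) ^ 2) volume) :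
    (moll n f x - f x) ^ 2 ≤ ∫ t, (bump d n).normed volume t * (f (x - t) - f x) ^ 2 := by
  set c := moll n f x - f x with hc
  have h1 : Integrable (fun t => (bump d n).normed volume t * (f (x - t) - f x)) volume := by
    refine ((mollB_intx hf n x).sub ((mollB_rho n).mul_const (f x))).congr
      (Eventually.of_forall fun t => ?_)
    simp only [Pi.sub_apply]
    ring
  have h2 : 0 ≤ ∫ t, (bump d n).normed volume t * ((f (x - t) - f x) - c) ^ 2 :=
    integral_nonneg fun t => mul_nonneg ((bump d n).nonneg_normed t) (sq_nonneg _)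
  have h3 : ∫ t, (bump d n).normed volume t * ((f (x - t) - f x) - c) ^ 2
      = (∫ t, (bump d n).normed volume t * (f (x - t) - f x) ^ 2)
        - 2 * c * (∫ t, (bump d n).normed volume t * (f (x - t) - f x))
        + c ^ 2 * ∫ t, (bump d n).normed volume t := by
    have e1 := integral_sub hx (h1.const_mul (2 * c))
    have e2 := integral_add (hx.sub (h1.const_mul (2 * c))) ((mollB_rho (d := d) n).const_mul (c ^ 2))
    simp only [Pi.sub_apply] at e2
    rw [← integral_const_mul, ← integral_const_mul, ← e1, ← e2]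
    congr 1
    funext t
    ring
  rw [h3, ← mollB_eq hf, ← hc, (bump d n).integral_normed] at h2
  nlinarith

theorem integrable_moll_sub_sq {f : Eu d → ℝ} (hf : Integrable f volume)
    (hf2 : Integrable (fun x => f x ^ 2) volume) (n : ℕ) :
    Integrable (fun x => (moll n f x - f x) ^ 2) volume := by
  refine Integrable.mono' (mollB_int2 hf hf2 n).integral_prod_left
    (((integrable_moll hf n).1.sub hf.1).pow 2) ?_
  filter_upwards [(mollB_int2 hf hf2 n).prod_right_ae] with x hx
  rw [Real.norm_eq_abs, abs_of_nonneg (sq_nonneg _)]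
  exact mollB_jensen hf n x hx

theorem moll_tendsto_L2 {f : Eu d → ℝ} (hf : Integrable f volume)
    (hf2 : Integrable (fun x => f x ^ 2) volume) :
    Tendsto (fun n => ∫ x, (moll n f x - f x) ^ 2) atTop (𝓝 0) := by
  set N : Eu d → ℝ := fun t => ∫ x, (f (x - t) - f x) ^ 2 with hNdef
  have hi := mollB_int2 hf hf2
  have hsw : ∀ n, ∫ x, ∫ t, (bump d n).normed volume t * (f (x - t) - f x) ^ 2
      = ∫ t, (bump d n).normed volume t * N t := by
    intro n
    rw [integral_integral_swap (hi n)]
    congr 1
    funext t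
    rw [integral_const_mul]
  have h1 : Tendsto (fun n : ℕ => ∫ t, (bump d n).normed volume t * N t) atTop (𝓝 0) := by
    refine mollB_sup (fun t => integral_nonneg fun x => sq_nonneg _)
      (mollB_n2 ((memLp_two_iff_integrable_sq hf.1).mpr hf2)) fun n => ?_
    refine (hi n).integral_prod_right.congr (Eventually.of_forall fun t => ?_)
    simp only [hNdef]
    rw [integral_const_mul]
  refine squeeze_zero (fun n => integral_nonneg fun x => sq_nonneg _) (fun n => ?_) h1
  rw [← hsw n]
  refine integral_mono_ae (integrable_moll_sub_sq hf hf2 n) (hi n).integral_prod_left ?_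
  filter_upwards [(mollB_int2 hf hf2 n).prod_right_ae] with x hx
  exact mollB_jensen hf n x hx

end Pool.UVF
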