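import Pool.Agent.Lib.MP_28fba0_gt.UV.Defs

/-!
# UV-MollDef: mollifiers (no sorry here)
-/

open Real Set MeasureTheory Filter Topology
open scoped ContDiff

namespace Pool.UVF

variable {d : ℕ}

/-- the bump functions -/
noncomputable def bump (d : ℕ) (n : ℕ) : ContDiffBump (0 : Eu d) where
  rIn := 1 / (2 * ((n : ℝ) + 1))
  rOut := 1 / ((n : ℝ) + 1)
  rIn_pos := by positivity
  rIn_lt_rOut := by
    have : (0 : ℝ) < (n : ℝ) + 1 := by positivity
    rw [div_lt_div_iff₀ (by positivity) (by positivity)]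
    linarith

/-- mollification -/
noncomputable def moll (n : ℕ) (f : Eu d → ℝ) (x : Eu d) : ℝ :=
  ∫ t, (bump d n).normed volume t * f (x - t)

end Pool.UVF
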