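import Pool.Agent.Lib.MP_28fba0_gt.UV.StrongDef

/-!
# UV-StrongA: `∫_B |f - avg η f| ≤ C η` from a bound of the translations

`f = U · i`, bounded by `‖x‖`.  `f x - avg η f x = (1/|B_η|) ∫_{ball 0 η} (f x - f (x+h)) dh`, absolute
values, Fubini/Tonelli: `∫_B |f - avg η f| ≤ (1/|B_η|) ∫_{ball 0 η} ∫_B |f(x+h) - f x| dx dh
≤ sup_{‖h‖<η} C ‖h‖ ≤ C η`.
-/

open Real Set MeasureTheory Filter Topology

namespace Pool.UVF

variable {d : ℕ}

theorem mB_finite : IsFiniteMeasure (mB d) := by
  unfold mB Bd
  exact ⟨by simpa using measure_ball_lt_top⟩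

theorem nu_finite (η : ℝ) :
    IsFiniteMeasure (volume.restrict (Metric.ball (0 : Eu d) η)) :=
  ⟨by simpa using measure_ball_lt_top⟩

/-- joint integrability of `(x, h) ↦ G (x + h)` -/
theorem integrable_shift {G : Eu d → ℝ} (hm : Measurable G) (hG : Integrable G) (η : ℝ) :
    Integrable (fun p : Eu d × Eu d => G (p.1 + p.2))
      ((mB d).prod (volume.restrict (Metric.ball (0 : Eu d) η))) := by
  have := nu_finite (d := d) η
  have h1 : Integrable (fun p : Eu d × Eu d => G (p.1 + p.2))
      ((volume : Measure (Eu d)).prod (volume.restrict (Metric.ball (0 : Eu d) η))) := by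
    have hm2 : AEStronglyMeasurable (fun p : Eu d × Eu d => G (p.1 + p.2))
        ((volume : Measure (Eu d)).prod (volume.restrict (Metric.ball (0 : Eu d) η))) :=
      (hm.comp (measurable_fst.add measurable_snd)).aestronglyMeasurable
    rw [integrable_prod_iff' hm2]
    refine ⟨Eventually.of_forall fun y => hG.comp_add_right y, ?_⟩
    have h2 : ∀ y : Eu d, ∫ x, ‖G (x + y)‖ = ∫ x, ‖G x‖ := fun y =>
      integral_add_right_eq_self (μ := (volume : Measure (Eu d))) (fun x => ‖G x‖) y
    simp only [h2]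
    exact integrable_const _
  have e1 : (mB d).prod (volume.restrict (Metric.ball (0 : Eu d) η))
      = ((volume : Measure (Eu d)).prod volume).restrict (Bd d ×ˢ Metric.ball (0 : Eu d) η) := by
    unfold mB
    rw [Measure.prod_restrict]
  have e2 : (volume : Measure (Eu d)).prod (volume.restrict (Metric.ball (0 : Eu d) η))
      = ((volume : Measure (Eu d)).prod volume).restrict (univ ×ˢ Metric.ball (0 : Eu d) η) := by
    rw [← Measure.prod_restrict, Measure.restrict_univ]
  rw [e2] at h1
  rw [e1]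
  exact IntegrableOn.mono_set h1 (prod_mono (subset_univ _) le_rfl)

theorem ind_eq {W : Eu d → ℝ} {x h : Eu d} (hx : x ∈ Bd d) {η : ℝ} (h1 : η ≤ 1)
    (hh : h ∈ Metric.ball (0 : Eu d) η) :
    (Metric.ball (0 : Eu d) 2).indicator W (x + h) = W (x + h) := by
  apply indicator_of_mem
  simp only [Bd, Metric.mem_ball, dist_zero_right] at hx hh ⊢
  linarith [norm_add_le x h]

theorem avg_eq {W : Eu d → ℝ} {x : Eu d} (hx : x ∈ Bd d) {η : ℝ} (h1 : η ≤ 1) :
    avg η W x = ((volume (Metric.ball (0 : Eu d) η)).toReal)⁻¹ *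
      ∫ h in Metric.ball (0 : Eu d) η, (Metric.ball (0 : Eu d) 2).indicator W (x + h) := by
  unfold avg
  congr 1
  exact setIntegral_congr_fun measurableSet_ball fun h hh => (ind_eq hx h1 hh).symm

theorem vol_ball_pos {η : ℝ} (h0 : 0 < η) : 0 < (volume (Metric.ball (0 : Eu d) η)).toReal :=
  ENNReal.toReal_pos (Metric.measure_ball_pos volume _ h0).ne' measure_ball_lt_top.ne

/-- the averages: `L¹(B)` distance at most a bound of the translations -/
theorem avg_L1_le {f : Eu d → ℝ} (hm : Measurable f)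
    (hf : IntegrableOn f (Metric.ball (0 : Eu d) 2) volume) {η : ℝ} (h0 : 0 < η) (h1 : η ≤ 1)
    {c : ℝ} (hc : ∀ h : Eu d, ‖h‖ < η → ∫ x, |f (x + h) - f x| ∂(mB d) ≤ c) :
    ∫ x, |f x - avg η f x| ∂(mB d) ≤ c := by
  have := mB_finite (d := d)
  have := nu_finite (d := d) η
  set G := (Metric.ball (0 : Eu d) 2).indicator f with hGdef
  set ν := (volume : Measure (Eu d)).restrict (Metric.ball (0 : Eu d) η) with hν
  set v := (volume (Metric.ball (0 : Eu d) η)).toReal with hv
  have hv0 : 0 < v := vol_ball_pos h0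
  have hGm : Measurable G := hm.indicator measurableSet_ball
  have hG : Integrable G := hf.integrable_indicator measurableSet_ball
  have hF : Integrable (fun p : Eu d × Eu d => |G (p.1 + p.2) - G p.1|) ((mB d).prod ν) :=
    ((integrable_shift hGm hG η).sub ((hG.restrict (s := Bd d)).comp_fst ν)).abs
  have hνu : ν.real univ = v := by
    rw [hν, Measure.real, Measure.restrict_apply_univ]
  have hGx : ∀ x ∈ Bd d, G x = f x := by
    intro x hx
    apply indicator_of_mem
    simp only [Bd, Metric.mem_ball, dist_zero_right] at hx ⊢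
    linarith
  have hle : ∀ x ∈ Bd d, |f x - avg η f x| ≤ v⁻¹ * ∫ h, |G (x + h) - G x| ∂ν := by
    intro x hx
    rw [avg_eq hx h1, ← hGdef, ← hv, ← hν, ← hGx x hx]
    have i1 : Integrable (fun h => G (x + h)) ν := (hG.comp_add_left x).restrict
    have i2 : Integrable (fun _h : Eu d => G x) ν := integrable_const _
    have e1 : G x - v⁻¹ * ∫ h, G (x + h) ∂ν = - (v⁻¹ * ∫ h, (G (x + h) - G x) ∂ν) := by
      have e2 : ∫ h, (G (x + h) - G x) ∂ν = ∫ h, G (x + h) ∂ν - ∫ _h, G x ∂ν :=
        integral_sub i1 i2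
      rw [e2, integral_const, hνu, smul_eq_mul]
      field_simp
      ring
    rw [e1, abs_neg, abs_mul, abs_of_pos (inv_pos.2 hv0)]
    exact mul_le_mul_of_nonneg_left (abs_integral_le_integral_abs) (inv_pos.2 hv0).le
  calc ∫ x, |f x - avg η f x| ∂(mB d)
      ≤ ∫ x, v⁻¹ * ∫ h, |G (x + h) - G x| ∂ν ∂(mB d) := by
        refine integral_mono_of_nonneg (Eventually.of_forall fun x => abs_nonneg _)
          (hF.integral_prod_left.const_mul _) ?_
        filter_upwards [ae_restrict_mem (μ := volume) (Metric.isOpen_ball.measurableSet :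
          MeasurableSet (Bd d))] with x hx using hle x hx
    _ = v⁻¹ * ∫ h, ∫ x, |G (x + h) - G x| ∂(mB d) ∂ν := by
        rw [integral_const_mul, integral_integral_swap (f := fun x h => |G (x + h) - G x|) hF]
    _ ≤ v⁻¹ * ∫ _h, c ∂ν := by
        refine mul_le_mul_of_nonneg_left ?_ (inv_pos.2 hv0).le
        refine integral_mono_of_nonneg (Eventually.of_forall fun h =>
          integral_nonneg fun x => abs_nonneg _) (integrable_const _) ?_
        filter_upwards [ae_restrict_mem (μ := volume) (Metric.isOpen_ball.measurableSet :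
          MeasurableSet (Metric.ball (0 : Eu d) η))] with h hh
        refine le_trans (le_of_eq ?_) (hc h (by simpa using hh))
        refine setIntegral_congr_fun (Metric.isOpen_ball.measurableSet :
          MeasurableSet (Bd d)) fun x hx => ?_
        rw [hGx x hx, hGdef, ind_eq hx h1 hh]
    _ = c := by
        rw [integral_const, hνu, smul_eq_mul]
        field_simp

theorem abs_coord_le (x : Eu d) (i : Fin d) : |x i| ≤ ‖x‖ := by
  have := PiLp.norm_apply_le (p := 2) x i
  simpa [Real.norm_eq_abs] using this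

theorem integral_sub_avg_le {U : Eu d → Eu d} (hmeas : Measurable U) (hb : ∀ x, ‖U x‖ ≤ ‖x‖)
    {C : ℝ} (hC : 0 ≤ C)
    (htr : ∀ h : Eu d, ‖h‖ ≤ 1 → ∫ x, ‖U (x + h) - U x‖ ∂(mB d) ≤ C * ‖h‖) (i : Fin d)
    {η : ℝ} (h0 : 0 < η) (h1 : η ≤ 1) :
    ∫ x, |U x i - avg η (fun y => U y i) x| ∂(mB d) ≤ C * η := by
  have hfin := mB_finite (d := d)
  have hfin2 := nu_finite (d := d) 2
  have hmi : Measurable (fun y => U y i) := by
    have : Measurable (fun y : Eu d => y i) := by fun_prop
    exact this.comp hmeas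
  refine avg_L1_le hmi ?_ h0 h1 ?_
  · refine Integrable.of_bound (C := 2) hmi.aestronglyMeasurable ?_
    filter_upwards [ae_restrict_mem (μ := volume) (Metric.isOpen_ball.measurableSet :
      MeasurableSet (Metric.ball (0 : Eu d) 2))] with x hx
    have h2 : ‖x‖ < 2 := by simpa using hx
    rw [Real.norm_eq_abs]
    exact (abs_coord_le _ _).trans ((hb x).trans h2.le)
  · intro h hh
    refine le_trans ?_ ((htr h (hh.le.trans h1)).trans
      (mul_le_mul_of_nonneg_left hh.le hC))
    refine integral_mono_of_nonneg (Eventually.of_forall fun x => abs_nonneg _) ?_ ?_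
    · have hm2 : Measurable (fun x => ‖U (x + h) - U x‖) := by
        have h3 : Measurable (fun x => U (x + h)) := hmeas.comp (measurable_id.add_const h)
        exact (h3.sub hmeas).norm
      refine Integrable.of_bound (C := 3) hm2.aestronglyMeasurable ?_
      filter_upwards [ae_restrict_mem (μ := volume) (Metric.isOpen_ball.measurableSet :
        MeasurableSet (Bd d))] with x hx
      have h2 : ‖x‖ < 1 := by simpa [Bd] using hx
      rw [norm_norm]
      calc ‖U (x + h) - U x‖ ≤ ‖U (x + h)‖ + ‖U x‖ := norm_sub_le _ _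
        _ ≤ ‖x + h‖ + ‖x‖ := add_le_add (hb _) (hb _)
        _ ≤ (‖x‖ + ‖h‖) + ‖x‖ := by linarith [norm_add_le x h]
        _ ≤ 3 := by linarith
    · refine Eventually.of_forall fun x => ?_
      have := abs_coord_le (U (x + h) - U x) i
      simpa using this

end Pool.UVF
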