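import Pool.Agent.Lib.MP_28fba0_gt.UV.Defs

/-!
# UV-StrongDef: local averages (no sorry here)
-/

open Real Set MeasureTheory Filter Topology

namespace Pool.UVF

variable {d : ℕ}

/-- the average of `f` over the ball of radius `η` around `x` -/
noncomputable def avg (η : ℝ) (f : Eu d → ℝ) (x : Eu d) : ℝ :=
  ((volume (Metric.ball (0 : Eu d) η)).toReal)⁻¹ * ∫ h in Metric.ball (0 : Eu d) η, f (x + h)

end Pool.UVF
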