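import Pool.Agent.Lib.MP_28fba0_gt.UV.LimEq

/-!
# UV-StrongLamA (part of StrongLam): strong convergence of `λ_k` and of the densities

`Ψ(s) = (1+s²)^m`, `Ψ'' ≥ 2m`: `Ψ(s) ≥ Ψ(t) + Ψ'(t)(s-t) + m (s-t)²` for all real `s, t`
(`m ≥ 1`; e.g. `Ψ(s) - m s²` is convex: its second derivative is `≥ 0`; or Taylor/Bernoulli).
Write `λ_k = lamOf m (Tm (U k) ·)`, `D_k = DD (U k)`; `Ψ(λ_k) ≤ D_k` off `0`,
`∫ D_k ≤ (b + 1/(k+1))|B| → b|B| = ∫ Ψ(lam)`.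
1. On `S_M = {|lam| ≤ M}`: `m ∫_{S_M} (λ_k - lam)² ≤ ∫_{S_M} Ψ(λ_k) - ∫_{S_M} Ψ(lam) - ∫_{S_M} Ψ'(lam)(λ_k - lam)`
   `≤ ∫ D_k - ∫_{S_M} Ψ(lam) - o(1)` (weak convergence, test function `Ψ'(lam) 1_{S_M}` bounded), so
   `limsup ≤ ∫_{|lam| > M} Ψ(lam) → 0` as `M → ∞`.  For fixed `M' ≤ M`:
   `∫_{S_{M'}} (λ_k - lam)² ≤ ∫_{S_M} (…)²`, hence `→ 0` for every `M'`; so `λ_k → lam` in measure.
2. subsequence `ψ` with `λ_{ψ k} → lam` a.e. (`TendstoInMeasure.exists_seq_tendsto_ae`).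
3. Scheffé: `(Ψ(lam) - D_k)⁺ ≤ Ψ(lam)`, `(Ψ(lam) - D_k)⁺ ≤ (Ψ(lam) - Ψ(λ_k))⁺ → 0` a.e., so
   `∫ (Ψ(lam) - D_k)⁺ → 0` (dominated), and
   `∫ |D_k - Ψ(lam)| = 2 ∫ (Ψ(lam) - D_k)⁺ + ∫ D_k - ∫ Ψ(lam) ≤ 2 ∫ (…)⁺ + |B|/(k+1) → 0`.
-/

open Matrix Real Set MeasureTheory Filter Topology

namespace Pool.UVF

variable {m : ℕ} {U : ℕ → Eu (2 * m + 2) → Eu (2 * m + 2)} {V : Eu (2 * m + 2) → Eu (2 * m + 2)}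
  {lam : Eu (2 * m + 2) → ℝ}

theorem psi_ge (m : ℕ) (hm : 1 ≤ m) (s t : ℝ) :
    (1 + t ^ 2) ^ m + 2 * m * t * (1 + t ^ 2) ^ (m - 1) * (s - t) + m * (s - t) ^ 2
      ≤ (1 + s ^ 2) ^ m := by
  have ha : (0 : ℝ) < 1 + t ^ 2 := by positivity
  have hb : (0 : ℝ) < 1 + s ^ 2 := by positivity
  have ha1 : (1 : ℝ) ≤ (1 + t ^ 2) ^ (m - 1) := one_le_pow₀ (by nlinarith [sq_nonneg t])
  have hm' : (1 + t ^ 2) ^ m = (1 + t ^ 2) ^ (m - 1) * (1 + t ^ 2) := by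
    rw [← pow_succ]; congr 1; omega
  have hB : 1 + (m : ℝ) * ((s ^ 2 - t ^ 2) / (1 + t ^ 2)) ≤
      (1 + (s ^ 2 - t ^ 2) / (1 + t ^ 2)) ^ m := by
    apply one_add_mul_le_pow
    rw [le_div_iff₀ ha]
    nlinarith [sq_nonneg t, sq_nonneg s]
  have hq : 1 + (s ^ 2 - t ^ 2) / (1 + t ^ 2) = (1 + s ^ 2) / (1 + t ^ 2) := by
    field_simp
    ring
  rw [hq, div_pow, le_div_iff₀ (by positivity)] at hB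
  have hB' : (1 + t ^ 2) ^ m + m * (1 + t ^ 2) ^ (m - 1) * (s ^ 2 - t ^ 2) ≤ (1 + s ^ 2) ^ m := by
    refine le_trans (le_of_eq ?_) hB
    rw [hm']
    field_simp
  have hmm : (0 : ℝ) ≤ (m : ℝ) * (s - t) ^ 2 := by positivity
  have h3 : (m : ℝ) * (s - t) ^ 2 ≤ m * (s - t) ^ 2 * (1 + t ^ 2) ^ (m - 1) :=
    le_mul_of_one_le_right hmm ha1
  have h4 : s ^ 2 - t ^ 2 = 2 * t * (s - t) + (s - t) ^ 2 := by ring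
  rw [h4] at hB'
  linarith [hB', h3, show (m : ℝ) * (1 + t ^ 2) ^ (m - 1) * (2 * t * (s - t) + (s - t) ^ 2)
    = 2 * m * t * (1 + t ^ 2) ^ (m - 1) * (s - t) + m * (s - t) ^ 2 * (1 + t ^ 2) ^ (m - 1) by ring]

end Pool.UVF
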