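import Pool.Agent.Lib.MP_28fba0_gt.UV.LimEq
import Pool.Agent.Lib.MP_28fba0_gt.UV.StrongLamA

/-!
# UV-StrongLamB (part of StrongLam): strong convergence of `λ_k` and of the densities

`Ψ(s) = (1+s²)^m`, `Ψ'' ≥ 2m`: `Ψ(s) ≥ Ψ(t) + Ψ'(t)(s-t) + m (s-t)²` for all real `s, t`
(`m ≥ 1`; e.g. `Ψ(s) - m s²` is convex: its second derivative is `≥ 0`; or Taylor/Bernoulli).
Write `λ_k = lamOf m (Tm (U k) ·)`, `D_k = DD (U k)`; `Ψ(λ_k) ≤ D_k` off `0`,
`∫ D_k ≤ (b + 1/(k+1))|B| → b|B| = ∫ Ψ(lam)`.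
1. On `S_M = {|lam| ≤ M}`: `m ∫_{S_M} (λ_k - lam)² ≤ ∫_{S_M} Ψ(λ_k) - ∫_{S_M} Ψ(lam) - ∫_{S_M} Ψ'(lam)(λ_k - lam)`
   `≤ ∫ D_k - ∫_{S_M} Ψ(lam) - o(1)` (weak convergence, test function `Ψ'(lam) 1_{S_M}` bounded), so
   `limsup ≤ ∫_{|lam| > M} Ψ(lam) → 0` as `M → ∞`.  For fixed `M' ≤ M`:
   `∫_{S_{M'}} (λ_k - lam)² ≤ ∫_{S_M} (…)²`, hence `→ 0` for every `M'`; so `λ_k → lam` in measure.
2. subsequence `ψ` with `λ_{ψ k} → lam` a.e. (`TendstoInMeasure.exists_seq_tendsto_ae`).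
3. Scheffé: `(Ψ(lam) - D_k)⁺ ≤ Ψ(lam)`, `(Ψ(lam) - D_k)⁺ ≤ (Ψ(lam) - Ψ(λ_k))⁺ → 0` a.e., so
   `∫ (Ψ(lam) - D_k)⁺ → 0` (dominated), and
   `∫ |D_k - Ψ(lam)| = 2 ∫ (Ψ(lam) - D_k)⁺ + ∫ D_k - ∫ Ψ(lam) ≤ 2 ∫ (…)⁺ + |B|/(k+1) → 0`.
-/

open Matrix Real Set MeasureTheory Filter Topology

namespace Pool.UVF

variable {m : ℕ} {U : ℕ → Eu (2 * m + 2) → Eu (2 * m + 2)} {V : Eu (2 * m + 2) → Eu (2 * m + 2)}
  {lam : Eu (2 * m + 2) → ℝ}

private theorem slb_core {α : Type*} [MeasurableSpace α] {μ : Measure α} [IsFiniteMeasure μ]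
    (m : ℕ) (hm : 1 ≤ m) {Λ D : ℕ → α → ℝ} {lam : α → ℝ} (mlam : Measurable lam)
    (hΛm : ∀ k, AEStronglyMeasurable (Λ k) μ) (hΛ2 : ∀ k, Integrable (fun x => Λ k x ^ 2) μ)
    (hD : ∀ k, Integrable (D k) μ) (hle : ∀ k, ∀ᵐ x ∂μ, (1 + Λ k x ^ 2) ^ m ≤ D k x)
    (l2 : Integrable (fun x => lam x ^ 2) μ)
    (hI : Integrable (fun x => (1 + lam x ^ 2) ^ m) μ) (E : ℝ) (e : ℕ → ℝ)
    (he : Tendsto e atTop (𝓝 0)) (hDE : ∀ k, ∫ x, D k x ∂μ ≤ E + e k)
    (hE : ∫ x, (1 + lam x ^ 2) ^ m ∂μ = E)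
    (weak : ∀ h : α → ℝ, MemLp h 2 μ →
      Tendsto (fun k => ∫ x, Λ k x * h x ∂μ) atTop (𝓝 (∫ x, lam x * h x ∂μ))) :
    TendstoInMeasure μ Λ atTop lam := by
  classical
  have hm0 : (0 : ℝ) < m := by exact_mod_cast hm
  have hΛi : ∀ k, Integrable (Λ k) μ := fun k =>
    ((memLp_two_iff_integrable_sq (hΛm k)).2 (hΛ2 k)).integrable (by norm_num)
  have hlami : Integrable lam μ :=
    ((memLp_two_iff_integrable_sq mlam.aestronglyMeasurable).2 l2).integrable (by norm_num)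
  have hS : ∀ M : ℝ, MeasurableSet {x | M < |lam x|} := fun M =>
    measurableSet_lt measurable_const mlam.abs
  -- the tail
  set τ : ℕ → ℝ := fun M => ∫ x, {x | (M : ℝ) < |lam x|}.indicator
    (fun x => (1 + lam x ^ 2) ^ m) x ∂μ with hτ
  have hτi : ∀ M : ℝ, Integrable ({x | M < |lam x|}.indicator
    (fun x => (1 + lam x ^ 2) ^ m)) μ := fun M => hI.indicator (hS M)
  have hτ0 : Tendsto τ atTop (𝓝 0) := by
    have h1 : Tendsto τ atTop (𝓝 (∫ x, (fun _ => (0 : ℝ)) x ∂μ)) := by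
      refine tendsto_integral_of_dominated_convergence (fun x => (1 + lam x ^ 2) ^ m)
        (fun M => (hτi M).aestronglyMeasurable) hI (fun M => ae_of_all _ fun x => ?_)
        (ae_of_all _ fun x => ?_)
      · rw [Real.norm_eq_abs]
        by_cases hx : x ∈ {x | (M : ℝ) < |lam x|}
        · rw [Set.indicator_of_mem hx, abs_of_nonneg (by positivity)]
        · rw [Set.indicator_of_notMem hx, abs_zero]; positivity
      · obtain ⟨N, hN⟩ := exists_nat_ge |lam x|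
        refine tendsto_const_nhds.congr' ?_
        filter_upwards [eventually_ge_atTop N] with M hM
        rw [Set.indicator_of_notMem]
        show ¬ ((M : ℝ) < |lam x|)
        rw [not_lt]
        exact hN.trans (by exact_mod_cast hM)
    simpa using h1
  -- the test function
  set h : ℝ → α → ℝ := fun M => {x | |lam x| ≤ M}.indicator
    (fun x => 2 * m * lam x * (1 + lam x ^ 2) ^ (m - 1)) with hh
  have hhb : ∀ M : ℝ, 0 ≤ M → ∀ x, ‖h M x‖ ≤ 2 * m * M * (1 + M ^ 2) ^ (m - 1) := by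
    intro M hM x
    rw [Real.norm_eq_abs, hh]
    simp only
    by_cases hx : x ∈ {x | |lam x| ≤ M}
    · rw [Set.indicator_of_mem hx]
      have hx' : |lam x| ≤ M := hx
      have h2 : lam x ^ 2 ≤ M ^ 2 := by rw [← sq_abs]; exact pow_le_pow_left₀ (abs_nonneg _) hx' 2
      rw [abs_mul, abs_mul, abs_of_nonneg (by positivity : (0 : ℝ) ≤ 2 * m),
        abs_of_nonneg (by positivity : 0 ≤ (1 + lam x ^ 2) ^ (m - 1))]
      refine mul_le_mul (mul_le_mul_of_nonneg_left hx' (by positivity))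
        (pow_le_pow_left₀ (by positivity) (by linarith) _) (by positivity) (by positivity)
    · rw [Set.indicator_of_notMem hx, abs_zero]; positivity
  have hhm : ∀ M : ℝ, Measurable (h M) := fun M =>
    ((measurable_const.mul mlam).mul ((measurable_const.add (mlam.pow_const 2)).pow_const _)).indicator
      (measurableSet_le mlam.abs measurable_const)
  have hhL : ∀ M : ℝ, 0 ≤ M → MemLp (h M) 2 μ := fun M hM =>
    MemLp.of_bound (hhm M).aestronglyMeasurable _ (ae_of_all _ (hhb M hM))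
  rw [tendstoInMeasure_iff_measureReal_norm]
  intro ε hε
  have key : ∀ (M : ℕ) (k : ℕ), m * ε ^ 2 * μ.real {x | ε ≤ ‖Λ k x - lam x‖} ≤
      e k + τ M - (∫ x, Λ k x * h M x ∂μ - ∫ x, lam x * h M x ∂μ) + m * ε ^ 2 * τ M := by
    intro M k
    set T : α → ℝ := {x | (M : ℝ) < |lam x|}.indicator (fun x => (1 + lam x ^ 2) ^ m) with hT
    set F : α → ℝ := fun x => D k x - (1 + lam x ^ 2) ^ m + T x -
      (Λ k x * h M x - lam x * h M x) + m * ε ^ 2 * T x with hF
    have hi1 : Integrable (fun x => Λ k x * h M x) μ := by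
      refine (hΛi k).mul_bdd (c := 2 * m * (M : ℝ) * (1 + (M : ℝ) ^ 2) ^ (m - 1))
        (hhm M).aestronglyMeasurable (ae_of_all _ (hhb M (Nat.cast_nonneg _)))
    have hi2 : Integrable (fun x => lam x * h M x) μ := by
      refine hlami.mul_bdd (c := 2 * m * (M : ℝ) * (1 + (M : ℝ) ^ 2) ^ (m - 1))
        (hhm M).aestronglyMeasurable (ae_of_all _ (hhb M (Nat.cast_nonneg _)))
    have hFi : Integrable F μ :=
      ((((hD k).sub hI).add (hτi M)).sub (hi1.sub hi2)).add ((hτi M).const_mul _)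
    have hFint : ∫ x, F x ∂μ = ∫ x, D k x ∂μ - E + τ M -
        (∫ x, Λ k x * h M x ∂μ - ∫ x, lam x * h M x ∂μ) + m * ε ^ 2 * τ M := by
      have a1 : Integrable (fun x => D k x - (1 + lam x ^ 2) ^ m) μ := (hD k).sub hI
      have a2 : Integrable (fun x => D k x - (1 + lam x ^ 2) ^ m + T x) μ := a1.add (hτi M)
      have a3 : Integrable (fun x => Λ k x * h M x - lam x * h M x) μ := hi1.sub hi2
      have a4 : Integrable (fun x => D k x - (1 + lam x ^ 2) ^ m + T x -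
        (Λ k x * h M x - lam x * h M x)) μ := a2.sub a3
      have a5 : Integrable (fun x => m * ε ^ 2 * T x) μ := (hτi M).const_mul _
      have j1 : ∫ x, F x ∂μ = ∫ x, (D k x - (1 + lam x ^ 2) ^ m + T x -
        (Λ k x * h M x - lam x * h M x)) ∂μ + ∫ x, m * ε ^ 2 * T x ∂μ := integral_add a4 a5
      have j2 : ∫ x, (D k x - (1 + lam x ^ 2) ^ m + T x -
        (Λ k x * h M x - lam x * h M x)) ∂μ = ∫ x, (D k x - (1 + lam x ^ 2) ^ m + T x) ∂μ -
        ∫ x, (Λ k x * h M x - lam x * h M x) ∂μ := integral_sub a2 a3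
      have j3 : ∫ x, (D k x - (1 + lam x ^ 2) ^ m + T x) ∂μ =
        ∫ x, (D k x - (1 + lam x ^ 2) ^ m) ∂μ + ∫ x, T x ∂μ := integral_add a1 (hτi M)
      have j4 : ∫ x, (D k x - (1 + lam x ^ 2) ^ m) ∂μ = ∫ x, D k x ∂μ -
        ∫ x, (1 + lam x ^ 2) ^ m ∂μ := integral_sub (hD k) hI
      have j5 : ∫ x, (Λ k x * h M x - lam x * h M x) ∂μ = ∫ x, Λ k x * h M x ∂μ -
        ∫ x, lam x * h M x ∂μ := integral_sub hi1 hi2
      have j6 : ∫ x, m * ε ^ 2 * T x ∂μ = m * ε ^ 2 * ∫ x, T x ∂μ := integral_const_mul _ _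
      rw [j1, j2, j3, j4, j5, j6, hE]
    have hFx : ∀ᵐ x ∂μ, m * (if |lam x| ≤ M then (Λ k x - lam x) ^ 2 else 0) +
        m * ε ^ 2 * T x ≤ F x := by
      filter_upwards [hle k] with x hx
      by_cases hxM : |lam x| ≤ M
      · have h1 : T x = 0 := by
          rw [hT, Set.indicator_of_notMem]
          show ¬ ((M : ℝ) < |lam x|)
          exact not_lt.2 hxM
        have h2 : h M x = 2 * m * lam x * (1 + lam x ^ 2) ^ (m - 1) := by
          rw [hh]
          exact Set.indicator_of_mem (show x ∈ {x | |lam x| ≤ M} from hxM) _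
        have h3 := psi_ge m hm (Λ k x) (lam x)
        rw [if_pos hxM, hF]
        simp only
        rw [h1, h2]
        nlinarith
      · have h1 : T x = (1 + lam x ^ 2) ^ m := by
          rw [hT]
          exact Set.indicator_of_mem (show x ∈ {x | (M : ℝ) < |lam x|} from not_le.1 hxM) _
        have h2 : h M x = 0 := by
          rw [hh]
          exact Set.indicator_of_notMem (show x ∉ {x | |lam x| ≤ M} from hxM) _
        rw [if_neg hxM, hF]
        simp only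
        rw [h2]
        have h4 : (0 : ℝ) ≤ (1 + Λ k x ^ 2) ^ m := by positivity
        linarith
    have hT0 : ∀ x, 0 ≤ T x := fun x => Set.indicator_nonneg (fun x _ => by positivity) x
    have hF0 : 0 ≤ᵐ[μ] F := by
      filter_upwards [hFx] with x hx
      refine le_trans ?_ hx
      have h1 : (0 : ℝ) ≤ (if |lam x| ≤ M then (Λ k x - lam x) ^ 2 else 0) := by
        split_ifs <;> positivity
      have h2 := hT0 x
      show (0 : ℝ) ≤ _
      positivity
    have hmarkov := mul_meas_ge_le_integral_of_nonneg hF0 hFi (m * ε ^ 2)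
    have hsub : μ.real {x | ε ≤ ‖Λ k x - lam x‖} ≤ μ.real {x | m * ε ^ 2 ≤ F x} := by
      refine ENNReal.toReal_mono (measure_ne_top _ _) (measure_mono_ae ?_)
      filter_upwards [hFx] with x hx hxε
      have hxε' : ε ≤ ‖Λ k x - lam x‖ := hxε
      show m * ε ^ 2 ≤ F x
      refine le_trans ?_ hx
      have h2 := hT0 x
      by_cases hxM : |lam x| ≤ M
      · rw [if_pos hxM]
        have h3 : ε ^ 2 ≤ (Λ k x - lam x) ^ 2 := by
          rw [← sq_abs (Λ k x - lam x)]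
          exact pow_le_pow_left₀ hε.le hxε' 2
        have h4 : (0 : ℝ) ≤ m * ε ^ 2 * T x := by positivity
        nlinarith
      · rw [if_neg hxM]
        have h3 : (1 : ℝ) ≤ T x := by
          rw [hT, Set.indicator_of_mem (show x ∈ {x | (M : ℝ) < |lam x|} from not_le.1 hxM)]
          exact one_le_pow₀ (by nlinarith [sq_nonneg (lam x)])
        have h4 : (0 : ℝ) ≤ m * ε ^ 2 := by positivity
        nlinarith
    calc m * ε ^ 2 * μ.real {x | ε ≤ ‖Λ k x - lam x‖}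
        ≤ m * ε ^ 2 * μ.real {x | m * ε ^ 2 ≤ F x} :=
          mul_le_mul_of_nonneg_left hsub (by positivity)
      _ ≤ ∫ x, F x ∂μ := hmarkov
      _ ≤ _ := by
          rw [hFint]
          have := hDE k
          linarith
  have hmε : 0 < m * ε ^ 2 := by positivity
  rw [Metric.tendsto_atTop]
  intro δ hδ
  -- choose M
  have hc0 : 0 < m * ε ^ 2 * δ / 4 / (1 + m * ε ^ 2) := by positivity
  obtain ⟨M, hM⟩ := ((Metric.tendsto_atTop.1 hτ0) _ hc0)
  have hM1 := hM M le_rfl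
  rw [Real.dist_eq, sub_zero] at hM1
  have hw := (weak (h M) (hhL M (Nat.cast_nonneg _)))
  have hc1 : 0 < m * ε ^ 2 * δ / 4 := by positivity
  obtain ⟨K1, hK1⟩ := (Metric.tendsto_atTop.1 hw) _ hc1
  obtain ⟨K2, hK2⟩ := (Metric.tendsto_atTop.1 he) _ hc1
  refine ⟨max K1 K2, fun k hk => ?_⟩
  have h1 := hK1 k (le_of_max_le_left hk)
  have h2 := hK2 k (le_of_max_le_right hk)
  rw [Real.dist_eq] at h1 h2
  rw [sub_zero] at h2
  rw [Real.dist_eq, sub_zero, abs_of_nonneg measureReal_nonneg]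
  have h3 := key M k
  have h4 : τ M * (1 + m * ε ^ 2) < m * ε ^ 2 * δ / 4 := by
    have := (abs_lt.1 hM1).2
    rwa [lt_div_iff₀ (by positivity)] at this
  have h5 : m * ε ^ 2 * μ.real {x | ε ≤ ‖Λ k x - lam x‖} < m * ε ^ 2 * δ := by
    have h6 := (abs_lt.1 h1).1
    have h7 := (abs_lt.1 h2).2
    nlinarith
  exact lt_of_mul_lt_mul_left h5 hmε.le

theorem ConvData.tendstoInMeasure (hm : 2 ≤ m) (h : ConvData m U V lam)
    (hI : Integrable (fun x => (1 + lam x ^ 2) ^ m) (mB (2 * m + 2)))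
    (hE : ∫ x, (1 + lam x ^ 2) ^ m ∂(mB (2 * m + 2)) = bGZ m * bv (2 * m + 2)) :
    TendstoInMeasure (mB (2 * m + 2)) (fun k x => lamOf m (Tm (U k) x)) atTop lam := by
  have hfin : IsFiniteMeasure (mB (2 * m + 2)) := by
    unfold mB
    refine ⟨?_⟩
    rw [Measure.restrict_apply_univ]
    exact measure_ball_lt_top
  have hne : ∀ᵐ x ∂(mB (2 * m + 2)), x ≠ (0 : Eu (2 * m + 2)) := by
    unfold mB
    refine ae_restrict_of_ae ?_
    rw [ae_iff]
    simp only [ne_eq, not_not]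
    exact measure_singleton _
  refine slb_core m (by omega) (D := fun k => DD (U k)) h.mlam (fun k => ?_)
    (fun k => (h.lam_sq_le hm k).1) (fun k => (h.hU k).integrable_DD) (fun k => ?_) h.l2 hI
    (bGZ m * bv (2 * m + 2)) (fun k => 1 / ((k : ℝ) + 1) * bv (2 * m + 2)) ?_ (fun k => ?_) hE
    h.weak
  · have h1 := ((h.hU k).lam_continuousOn hm).aestronglyMeasurable (μ := mB (2 * m + 2))
      (measurableSet_singleton (0 : Eu (2 * m + 2))).compl
    rwa [Measure.restrict_eq_self_of_ae_mem] at h1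
    filter_upwards [hne] with x hx
    exact hx
  · filter_upwards [hne] with x hx
    exact (h.hU k).lam_pow_le hm hx
  · have := (tendsto_one_div_add_atTop_nhds_zero_nat (𝕜 := ℝ)).mul_const (bv (2 * m + 2))
    simpa using this
  · have := h.hD k
    rw [add_mul] at this
    exact this

end Pool.UVF
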