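import Pool.Agent.Lib.MP_28fba0_gt.UV.LimEq
import Pool.Agent.Lib.MP_28fba0_gt.UV.StrongLamB

/-!
# UV-StrongLamC (part of StrongLam): strong convergence of `λ_k` and of the densities

`Ψ(s) = (1+s²)^m`, `Ψ'' ≥ 2m`: `Ψ(s) ≥ Ψ(t) + Ψ'(t)(s-t) + m (s-t)²` for all real `s, t`
(`m ≥ 1`; e.g. `Ψ(s) - m s²` is convex: its second derivative is `≥ 0`; or Taylor/Bernoulli).
Write `λ_k = lamOf m (Tm (U k) ·)`, `D_k = DD (U k)`; `Ψ(λ_k) ≤ D_k` off `0`,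
`∫ D_k ≤ (b + 1/(k+1))|B| → b|B| = ∫ Ψ(lam)`.
1. On `S_M = {|lam| ≤ M}`: `m ∫_{S_M} (λ_k - lam)² ≤ ∫_{S_M} Ψ(λ_k) - ∫_{S_M} Ψ(lam) - ∫_{S_M} Ψ'(lam)(λ_k - lam)`
   `≤ ∫ D_k - ∫_{S_M} Ψ(lam) - o(1)` (weak convergence, test function `Ψ'(lam) 1_{S_M}` bounded), so
   `limsup ≤ ∫_{|lam| > M} Ψ(lam) → 0` as `M → ∞`.  For fixed `M' ≤ M`:
   `∫_{S_{M'}} (λ_k - lam)² ≤ ∫_{S_M} (…)²`, hence `→ 0` for every `M'`; so `λ_k → lam` in measure.
2. subsequence `ψ` with `λ_{ψ k} → lam` a.e. (`TendstoInMeasure.exists_seq_tendsto_ae`).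
3. Scheffé: `(Ψ(lam) - D_k)⁺ ≤ Ψ(lam)`, `(Ψ(lam) - D_k)⁺ ≤ (Ψ(lam) - Ψ(λ_k))⁺ → 0` a.e., so
   `∫ (Ψ(lam) - D_k)⁺ → 0` (dominated), and
   `∫ |D_k - Ψ(lam)| = 2 ∫ (Ψ(lam) - D_k)⁺ + ∫ D_k - ∫ Ψ(lam) ≤ 2 ∫ (…)⁺ + |B|/(k+1) → 0`.
-/

open Matrix Real Set MeasureTheory Filter Topology

namespace Pool.UVF

variable {m : ℕ} {U : ℕ → Eu (2 * m + 2) → Eu (2 * m + 2)} {V : Eu (2 * m + 2) → Eu (2 * m + 2)}
  {lam : Eu (2 * m + 2) → ℝ}

theorem strongLamC_scheffe {α : Type*} [MeasurableSpace α] {μ : Measure α}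
    {D P : ℕ → α → ℝ} {Q : α → ℝ} {e : ℕ → ℝ} (hD : ∀ k, Integrable (D k) μ)
    (hD0 : ∀ k x, 0 ≤ D k x) (hQ : Integrable Q μ) (hQ0 : ∀ x, 0 ≤ Q x)
    (hPD : ∀ k, ∀ᵐ x ∂μ, P k x ≤ D k x)
    (hP : ∀ᵐ x ∂μ, Tendsto (fun k => P k x) atTop (𝓝 (Q x)))
    (he : Tendsto e atTop (𝓝 0)) (hint : ∀ k, ∫ x, D k x ∂μ ≤ ∫ x, Q x ∂μ + e k) :
    Tendsto (fun k => ∫ x, |D k x - Q x| ∂μ) atTop (𝓝 0) := by
  have h1 : Tendsto (fun k => ∫ x, max (Q x - D k x) 0 ∂μ) atTop (𝓝 (∫ _x, (0 : ℝ) ∂μ)) := by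
    apply tendsto_integral_of_dominated_convergence Q
    · intro k
      exact ((hQ.sub (hD k)).pos_part).aestronglyMeasurable
    · exact hQ
    · intro k
      refine Eventually.of_forall fun x => ?_
      rw [Real.norm_eq_abs, abs_of_nonneg (le_max_right _ _)]
      exact max_le (by linarith [hD0 k x]) (hQ0 x)
    · filter_upwards [hP, ae_all_iff.2 hPD] with x hx hx2
      have h2 : Tendsto (fun k => max (Q x - P k x) 0) atTop (𝓝 0) := by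
        have : Tendsto (fun k => max (Q x - P k x) 0) atTop (𝓝 (max (Q x - Q x) 0)) :=
          (tendsto_const_nhds.sub hx).max tendsto_const_nhds
        simpa using this
      refine squeeze_zero (fun k => le_max_right _ _) (fun k => ?_) h2
      exact max_le_max (by linarith [hx2 k]) le_rfl
  simp only [integral_zero] at h1
  have h3 : ∀ k, ∫ x, |D k x - Q x| ∂μ ≤ e k + 2 * ∫ x, max (Q x - D k x) 0 ∂μ := by
    intro k
    have e1 : ∀ x, |D k x - Q x| = (D k x - Q x) + 2 * max (Q x - D k x) 0 := by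
      intro x
      rcases le_total (D k x) (Q x) with h | h
      · rw [abs_of_nonpos (by linarith), max_eq_left (by linarith)]; ring
      · rw [abs_of_nonneg (by linarith), max_eq_right (by linarith)]; ring
    have e2 : ∫ x, |D k x - Q x| ∂μ = (∫ x, D k x ∂μ - ∫ x, Q x ∂μ)
        + 2 * ∫ x, max (Q x - D k x) 0 ∂μ := by
      have e3 : ∫ x, ((D k x - Q x) + 2 * max (Q x - D k x) 0) ∂μ
          = ∫ x, (D k x - Q x) ∂μ + ∫ x, 2 * max (Q x - D k x) 0 ∂μ :=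
        integral_add ((hD k).sub hQ) (((hQ.sub (hD k)).pos_part).const_mul 2)
      rw [← integral_sub (hD k) hQ, ← integral_const_mul, ← e3]
      exact integral_congr_ae (Eventually.of_forall e1)
    rw [e2]
    linarith [hint k]
  have h4 : Tendsto (fun k => e k + 2 * ∫ x, max (Q x - D k x) 0 ∂μ) atTop (𝓝 0) := by
    simpa using he.add (h1.const_mul 2)
  exact squeeze_zero (fun k => integral_nonneg fun x => abs_nonneg _) h3 h4

theorem ConvData.strong (hm : 2 ≤ m) (h : ConvData m U V lam)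
    (hI : Integrable (fun x => (1 + lam x ^ 2) ^ m) (mB (2 * m + 2)))
    (hE : ∫ x, (1 + lam x ^ 2) ^ m ∂(mB (2 * m + 2)) = bGZ m * bv (2 * m + 2)) :
    ∃ ψ : ℕ → ℕ, StrictMono ψ ∧
      (∀ᵐ x ∂(mB (2 * m + 2)),
        Tendsto (fun k => lamOf m (Tm (U (ψ k)) x)) atTop (𝓝 (lam x))) ∧
      Tendsto (fun k => ∫ x, |DD (U (ψ k)) x - (1 + lam x ^ 2) ^ m| ∂(mB (2 * m + 2))) atTop
        (𝓝 0) := by
  obtain ⟨ψ, hψ, hae⟩ := (h.tendstoInMeasure hm hI hE).exists_seq_tendsto_ae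
  refine ⟨ψ, hψ, hae, ?_⟩
  have hne : ∀ᵐ x ∂(mB (2 * m + 2)), x ≠ 0 := by
    refine ae_restrict_of_ae ?_
    have h0 : Nonempty (Fin (2 * m + 2)) := ⟨0⟩
    have h1 : Nontrivial (Eu (2 * m + 2)) := by infer_instance
    have h2 : volume ({0} : Set (Eu (2 * m + 2))) = 0 := measure_singleton _
    exact (measure_eq_zero_iff_ae_notMem.1 h2).mono fun x hx h3 => hx (by simpa using h3)
  refine strongLamC_scheffe (P := fun k x => (1 + lamOf m (Tm (U (ψ k)) x) ^ 2) ^ m)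
    (e := fun k => 1 / ((ψ k : ℝ) + 1) * bv (2 * m + 2))
    (fun k => (h.hU (ψ k)).integrable_DD) (fun k x => Real.sqrt_nonneg _) hI
    (fun x => by positivity) (fun k => ?_) ?_ ?_ (fun k => ?_)
  · filter_upwards [hne] with x hx
    exact (h.hU (ψ k)).lam_pow_le hm hx
  · filter_upwards [hae] with x hx
    exact (tendsto_const_nhds.add (hx.pow 2)).pow m
  · have h1 : Tendsto (fun n : ℕ => 1 / ((n : ℝ) + 1)) atTop (𝓝 0) :=
      tendsto_one_div_add_atTop_nhds_zero_nat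
    have h2 := (h1.comp hψ.tendsto_atTop).mul_const (bv (2 * m + 2))
    simpa using h2
  · rw [hE]
    have := h.hD (ψ k)
    linarith [this, show (bGZ m + 1 / ((ψ k : ℝ) + 1)) * bv (2 * m + 2) =
      bGZ m * bv (2 * m + 2) + 1 / ((ψ k : ℝ) + 1) * bv (2 * m + 2) by ring]

end Pool.UVF
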