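import Pool.Agent.Lib.MP_28fba0_gt.UV.Defs

/-!
# UV-TestFnA (part of TestFn): test functions times functions smooth off the origin

* `ψ` smooth on `{0}ᶜ`, `φ` a test function in the punctured ball: `ψ φ` is a test function (it
  vanishes near `0`, where `ψ` may be singular), and
  `pd i (ψ φ) = ψ pd i φ + pd i ψ φ` everywhere off `0`.
* derivatives of `‖x‖⁻¹`, `x_j ‖x‖⁻¹` and `x_j (‖x‖²)⁻¹` off `0`:
  `∂_i ‖x‖⁻¹ = - x_i/‖x‖³`, `∂_i (x_j/‖x‖) = (δ_{ij} - x̂_i x̂_j)/‖x‖`,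
  `D(x_j/‖x‖²)(x) x = - x_j/‖x‖²`.
-/

open Real Set
open scoped ContDiff

namespace Pool.UVF

variable {d : ℕ}

theorem IsTest.smooth_mul {φ ψ : Eu d → ℝ} (hφ : IsTest φ) (hψ : ContDiffOn ℝ ∞ ψ {0}ᶜ) :
    IsTest (fun x => ψ x * φ x) := by
  have hsub : tsupport (fun x => ψ x * φ x) ⊆ tsupport φ :=
    closure_mono (fun x hx => by
      simp only [Function.mem_support, ne_eq] at hx ⊢
      intro h
      exact hx (by rw [h, mul_zero]))
  refine ⟨?_, ?_, hsub.trans hφ.supp⟩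
  · rw [contDiff_iff_contDiffAt]
    intro x
    by_cases hx : x = 0
    · have h0 : (0 : Eu d) ∉ tsupport φ := fun h => (hφ.supp h).2 rfl
      have hnhds : (tsupport φ)ᶜ ∈ nhds x := by
        rw [hx]
        exact (isClosed_tsupport φ).isOpen_compl.mem_nhds h0
      have hev : (fun x => ψ x * φ x) =ᶠ[nhds x] fun _ => (0 : ℝ) := by
        filter_upwards [hnhds] with y hy
        rw [image_eq_zero_of_notMem_tsupport hy, mul_zero]
      exact contDiffAt_const.congr_of_eventuallyEq hev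
    · have h1 : ContDiffAt ℝ ∞ ψ x := hψ.contDiffAt (isOpen_compl_singleton.mem_nhds hx)
      exact h1.mul hφ.smooth.contDiffAt
  · exact hφ.cpt.of_isClosed_subset (isClosed_tsupport _) hsub

theorem IsTest.fderiv_smooth_mul {φ ψ : Eu d → ℝ} (hφ : IsTest φ) (hψ : ContDiffOn ℝ ∞ ψ {0}ᶜ)
    {x : Eu d} (hx : x ≠ 0) (w : Eu d) :
    fderiv ℝ (fun x => ψ x * φ x) x w = ψ x * fderiv ℝ φ x w + fderiv ℝ ψ x w * φ x := by
  have h1 : DifferentiableAt ℝ ψ x :=
    (hψ.contDiffAt (isOpen_compl_singleton.mem_nhds hx)).differentiableAt (by simp)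
  have h2 : DifferentiableAt ℝ φ x := hφ.smooth.contDiffAt.differentiableAt (by simp)
  have h3 := (h1.hasFDerivAt.mul h2.hasFDerivAt).fderiv
  have h4 : (fun x => ψ x * φ x) = ψ * φ := rfl
  rw [h4, h3]
  simp only [add_apply, smul_apply, smul_eq_mul]
  ring

theorem IsTest.pd_smooth_mul {φ ψ : Eu d → ℝ} (hφ : IsTest φ) (hψ : ContDiffOn ℝ ∞ ψ {0}ᶜ)
    (i : Fin d) {x : Eu d} (hx : x ≠ 0) :
    pd i (fun x => ψ x * φ x) x = ψ x * pd i φ x + pd i ψ x * φ x :=
  IsTest.fderiv_smooth_mul hφ hψ hx _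

theorem IsTest.pd_test {φ : Eu d → ℝ} (hφ : IsTest φ) (i : Fin d) : IsTest (pd i φ) := by
  have hsub : tsupport (pd i φ) ⊆ tsupport φ := by
    refine closure_minimal ?_ (isClosed_tsupport φ)
    intro x hx
    by_contra h
    apply hx
    have : fderiv ℝ φ x = 0 := by
      have hev : φ =ᶠ[nhds x] fun _ => (0 : ℝ) := by
        filter_upwards [(isClosed_tsupport φ).isOpen_compl.mem_nhds h] with y hy
        exact image_eq_zero_of_notMem_tsupport hy
      rw [hev.fderiv_eq]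
      simp
    simp [pd, this]
  refine ⟨?_, ?_, hsub.trans hφ.supp⟩
  · have h1 : ContDiff ℝ ∞ (fderiv ℝ φ) := hφ.smooth.fderiv_right (by simp)
    exact h1.clm_apply contDiff_const
  · exact hφ.cpt.of_isClosed_subset (isClosed_tsupport _) hsub

theorem pd_comm {φ : Eu d → ℝ} (hφ : IsTest φ) (i j : Fin d) (x : Eu d) :
    pd i (pd j φ) x = pd j (pd i φ) x := by
  have h1 : ContDiff ℝ ∞ (fderiv ℝ φ) := hφ.smooth.fderiv_right (by simp)
  have hd : DifferentiableAt ℝ (fderiv ℝ φ) x := h1.contDiffAt.differentiableAt (by simp)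
  have key : ∀ (a b : Fin d), pd a (pd b φ) x =
      (fderiv ℝ (fderiv ℝ φ) x (EuclideanSpace.single a (1 : ℝ)))
        (EuclideanSpace.single b (1 : ℝ)) := by
    intro a b
    have h2 : HasFDerivAt (pd b φ)
        ((fderiv ℝ (fderiv ℝ φ) x).flip (EuclideanSpace.single b (1 : ℝ))) x := by
      have := hd.hasFDerivAt.clm_apply (hasFDerivAt_const (EuclideanSpace.single b (1 : ℝ)) x)
      simp only [ContinuousLinearMap.comp_zero, zero_add] at this
      exact this
    show fderiv ℝ (pd b φ) x (EuclideanSpace.single a (1 : ℝ)) = _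
    rw [h2.fderiv]
    rfl
  rw [key, key]
  have hsymm : IsSymmSndFDerivAt ℝ φ x := by
    refine hφ.smooth.contDiffAt.isSymmSndFDerivAt ?_
    rw [minSmoothness_of_isRCLikeNormedField]
    exact WithTop.coe_le_coe.2 (le_top : (2 : ℕ∞) ≤ ⊤)
  exact hsymm _ _

theorem fderiv_eq_sum_pd {φ : Eu d → ℝ} (x w : Eu d) :
    fderiv ℝ φ x w = ∑ i, w i * pd i φ x := by
  have hw : w = ∑ i, w i • EuclideanSpace.single i (1 : ℝ) := by
    ext j
    simp [Pi.single_apply]
  conv_lhs => rw [hw]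
  rw [map_sum]
  simp [pd]

end Pool.UVF
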