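import Pool.Agent.Lib.MP_28fba0_gt.UV.Approx

/-!
# UV-WChainA (part of WChain): the chain rule and constancy

* `HasWGrad.comp`: `Φ : ℝ → ℝ` of class `C¹` with `|Φ'| ≤ C`, `f ∈ L¹(B)` with weak gradient
  `g ∈ L¹_loc`: `∫ Φ(F n) ∂_iφ = - ∫ Φ'(F n) ∂_iF n φ` (smooth functions; integration by parts for
  `Φ ∘ F n` of class `C¹` and the test function `φ`).  `|Φ(F n) - Φ(f)| ≤ C |F n - f|`;
  `∫ Φ'(F n) (∂_iF n - g_i) φ → 0`, `∫ (Φ'(F n) - Φ'(f)) g_i φ → 0` along a subsequence with
  `F n → f` a.e. (dominated by `2C |g_i φ|`).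
* `const_of_wgrad_zero`: `P` bounded, measurable, weak gradient `0` in the punctured ball, `d ≥ 2`.
  First: `∫ P ∂_iφ = 0` for every smooth `φ` with compact support in the unit ball (not vanishing near
  `0`): with a cut-off `χ_ε(x) = χ(x/ε)`, `χ` a bump function equal to `1` near `0`,
  `φ (1 - χ_ε)` is a test function in the punctured ball and
  `|∫ P ∂_i(φ χ_ε)| ≤ C ‖P‖_∞ (ε^d + ε^{d-1}) → 0`.  Then `moll n (P 1_B)` has derivative `0` on
  `ball 0 (1 - 1/(n+1))` (convex), so it is constant there; let `n → ∞`: `P` is a.e. constant on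
  `ball 0 r` for all `r < 1`.
-/

open Real Set MeasureTheory Filter Topology
open scoped ContDiff

namespace Pool.UVF

variable {d : ℕ}

private theorem subseq_ae' {α : Type*} [MeasurableSpace α] {μ : Measure α} {F : ℕ → α → ℝ}
    {f : α → ℝ} (hF : ∀ n, Integrable (F n) μ) (hf : Integrable f μ)
    (h : Tendsto (fun n => ∫ x, |F n x - f x| ∂μ) atTop (𝓝 0)) :
    ∃ ns : ℕ → ℕ, StrictMono ns ∧ ∀ᵐ x ∂μ, Tendsto (fun k => F (ns k) x) atTop (𝓝 (f x)) := by
  refine TendstoInMeasure.exists_seq_tendsto_ae ?_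
  refine tendstoInMeasure_of_tendsto_eLpNorm (p := 1) one_ne_zero
    (fun n => (hF n).aestronglyMeasurable) hf.aestronglyMeasurable ?_
  have h1 : ∀ n, eLpNorm (F n - f) 1 μ = ENNReal.ofReal (∫ x, |F n x - f x| ∂μ) := by
    intro n
    rw [eLpNorm_one_eq_lintegral_enorm, ← ofReal_integral_norm_eq_lintegral_enorm ((hF n).sub hf)]
    rfl
  simp_rw [h1]
  have := ENNReal.tendsto_ofReal h
  rwa [ENNReal.ofReal_zero] at this

/-- integration by parts for a `C¹` function and a test function -/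
private theorem ibp_C1 {u φ : Eu d → ℝ} (hu : ContDiff ℝ 1 u) (hφ : IsTest φ) (i : Fin d) :
    Integrable (fun x => u x * pd i φ x) (mB d) ∧ Integrable (fun x => pd i u x * φ x) (mB d) ∧
      ∫ x, u x * pd i φ x ∂(mB d) = - ∫ x, pd i u x * φ x ∂(mB d) := by
  obtain ⟨r₀, hr0, hr1, hz⟩ := hφ.zero_near
  have hpdc := hφ.continuous_pd i
  have hφc : Continuous φ := hφ.smooth.continuous
  have hudc : Continuous (pd i u) := (hu.continuous_fderiv (by simp)).clm_apply continuous_const
  have hout : ∀ x, x ∉ Bd d → φ x = 0 ∧ pd i φ x = 0 := by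
    intro x hx
    unfold Bd at hx
    rw [mem_ball_zero_iff, not_lt] at hx
    have := hz x (Or.inr (by linarith))
    exact ⟨this.1, this.2.1 i⟩
  have hpdcs : HasCompactSupport (pd i φ) := by
    have h1 : HasCompactSupport (fderiv ℝ φ) := hφ.cpt.fderiv ℝ
    refine h1.mono ?_
    intro x hx
    rw [Function.mem_support] at hx ⊢
    intro h0
    apply hx
    unfold pd
    rw [h0]; rfl
  have I1 : Integrable (fun x => u x * pd i φ x) volume :=
    (hu.continuous.mul hpdc).integrable_of_hasCompactSupport hpdcs.mul_left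
  have I2 : Integrable (fun x => pd i u x * φ x) volume :=
    (hudc.mul hφc).integrable_of_hasCompactSupport hφ.cpt.mul_left
  have I3 : Integrable (fun x => u x * φ x) volume :=
    (hu.continuous.mul hφc).integrable_of_hasCompactSupport hφ.cpt.mul_left
  refine ⟨I1.restrict, I2.restrict, ?_⟩
  have key := integral_mul_fderiv_eq_neg_fderiv_mul_of_integrable (μ := volume) (f := u) (g := φ)
    (v := EuclideanSpace.single i (1 : ℝ)) I2 I1 I3
    (fun x _ => (hu.differentiable (by simp)) x) (fun x _ => (hφ.smooth.differentiable (by simp)) x)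
  have e1 : ∫ x, u x * pd i φ x ∂(mB d) = ∫ x, u x * pd i φ x := by
    unfold mB
    apply setIntegral_eq_integral_of_forall_compl_eq_zero
    intro x hx
    rw [(hout x hx).2, mul_zero]
  have e2 : ∫ x, pd i u x * φ x ∂(mB d) = ∫ x, pd i u x * φ x := by
    unfold mB
    apply setIntegral_eq_integral_of_forall_compl_eq_zero
    intro x hx
    rw [(hout x hx).1, mul_zero]
  rw [e1, e2]
  exact key

theorem HasWGrad.comp {f : Eu d → ℝ} {g : Fin d → Eu d → ℝ} (hfm : Measurable f)
    (hf : Integrable f (mB d)) (hg : ∀ i, LocL1 (g i)) (hw : HasWGrad f g) {Φ : ℝ → ℝ}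
    (hΦ : ContDiff ℝ 1 Φ) {C : ℝ} (hC : ∀ s, |deriv Φ s| ≤ C) :
    HasWGrad (fun x => Φ (f x)) (fun i x => deriv Φ (f x) * g i x) := by
  intro φ hφ i
  obtain ⟨F, hFs, hFi, hF1, hFd, -, -, -⟩ := exists_approx hf hg hw
  obtain ⟨C₁, hC₁, hb1, hb2, -⟩ := hφ.bdd
  obtain ⟨r₀, hr0, hr1, hz⟩ := hφ.zero_near
  have hC0 : 0 ≤ C := (abs_nonneg _).trans (hC 0)
  have hΦd : Differentiable ℝ Φ := hΦ.differentiable (by simp)
  have hΦc : Continuous (deriv Φ) := hΦ.continuous_deriv (by simp)
  have hlip : ∀ a b : ℝ, |Φ a - Φ b| ≤ C * |a - b| := by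
    intro a b
    have := Convex.norm_image_sub_le_of_norm_deriv_le (𝕜 := ℝ) (f := Φ) (C := C) (s := univ)
      (x := b) (y := a)
      (fun x _ => hΦd x) (fun x _ => by rw [Real.norm_eq_abs]; exact hC x) convex_univ
      (mem_univ _) (mem_univ _)
    simpa [Real.norm_eq_abs] using this
  have hpdc := hφ.continuous_pd i
  have hφc : Continuous φ := hφ.smooth.continuous
  -- integrability
  have Igφ : Integrable (fun x => g i x * φ x) (mB d) :=
    (hg i).integrable_mul hφc.aestronglyMeasurable hb1 hr0 (fun x hx => (hz x (Or.inl hx)).1)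
  have IΦf : Integrable (fun x => Φ (f x)) (mB d) := by
    have hc : Integrable (fun _ : Eu d => |Φ 0|) (mB d) := by
      have : IsFiniteMeasure (mB d) := by
        unfold mB Bd
        exact ⟨by rw [Measure.restrict_apply_univ]; exact measure_ball_lt_top⟩
      exact integrable_const _
    refine Integrable.mono' (hc.add (hf.norm.const_mul C))
      (hΦ.continuous.measurable.comp hfm).aestronglyMeasurable (ae_of_all _ fun x => ?_)
    have h1 := hlip (f x) 0
    rw [sub_zero] at h1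
    rw [Real.norm_eq_abs]
    simp only [Pi.add_apply, Real.norm_eq_abs]
    calc |Φ (f x)| = |Φ 0 + (Φ (f x) - Φ 0)| := by congr 1; ring
      _ ≤ |Φ 0| + |Φ (f x) - Φ 0| := abs_add_le _ _
      _ ≤ _ := by linarith
  have IΦfφ : Integrable (fun x => Φ (f x) * pd i φ x) (mB d) :=
    IΦf.mul_bdd (c := C₁) hpdc.aestronglyMeasurable (ae_of_all _ fun x => by
      rw [Real.norm_eq_abs]; exact hb2 i x)
  have hdm : Measurable (fun x => deriv Φ (f x)) := hΦc.measurable.comp hfm
  have IB : Integrable (fun x => deriv Φ (f x) * (g i x * φ x)) (mB d) :=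
    Igφ.bdd_mul (c := C) hdm.aestronglyMeasurable (ae_of_all _ fun x => by
      rw [Real.norm_eq_abs]; exact hC _)
  -- smooth integration by parts
  have hcomp : ∀ n, ContDiff ℝ 1 (fun x => Φ (F n x)) := fun n =>
    hΦ.comp ((hFs n).of_le (by exact_mod_cast le_top))
  have hpdcomp : ∀ n x, pd i (fun x => Φ (F n x)) x = deriv Φ (F n x) * pd i (F n) x := by
    intro n x
    have h1 : HasDerivAt Φ (deriv Φ (F n x)) (F n x) := (hΦd _).hasDerivAt
    have h2 : HasFDerivAt (F n) (fderiv ℝ (F n) x) x :=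
      ((hFs n).differentiable (by simp) x).hasFDerivAt
    have h3 := h1.comp_hasFDerivAt x h2
    have h4 : fderiv ℝ (fun x => Φ (F n x)) x = deriv Φ (F n x) • fderiv ℝ (F n) x := h3.fderiv
    unfold pd
    rw [h4]
    simp
  have hA : Tendsto (fun n => ∫ x, Φ (F n x) * pd i φ x ∂(mB d)) atTop
      (𝓝 (∫ x, Φ (f x) * pd i φ x ∂(mB d))) := by
    rw [tendsto_iff_norm_sub_tendsto_zero]
    refine squeeze_zero (fun n => norm_nonneg _) (fun n => ?_)
      (by simpa using hF1.const_mul (C * C₁))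
    rw [← integral_sub (ibp_C1 (hcomp n) hφ i).1 IΦfφ, ← integral_const_mul]
    refine norm_integral_le_of_norm_le (((hFi n).sub hf).norm.const_mul (C * C₁))
      (ae_of_all _ fun x => ?_)
    rw [Real.norm_eq_abs, ← sub_mul, abs_mul]
    have h1 := hlip (F n x) (f x)
    have h2 := hb2 i x
    calc |Φ (F n x) - Φ (f x)| * |pd i φ x| ≤ (C * |F n x - f x|) * C₁ :=
          mul_le_mul h1 h2 (abs_nonneg _) (by positivity)
      _ = C * C₁ * |F n x - f x| := by ring
  obtain ⟨ns, hns, hae⟩ := subseq_ae' hFi hf hF1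
  -- the second limit
  have IFφ : ∀ n, Integrable (fun x => pd i (F n) x * φ x) (mB d) := fun n =>
    (ibp_C1 ((hFs n).of_le (by exact_mod_cast le_top)) hφ i).2.1
  have Idiff : ∀ n, Integrable (fun x => |pd i (F n) x - g i x| * |φ x|) (mB d) := by
    intro n
    have := ((IFφ n).sub Igφ).norm
    refine this.congr (ae_of_all _ fun x => ?_)
    simp only [Pi.sub_apply, Real.norm_eq_abs]
    rw [← sub_mul, abs_mul]
  have hcont : ∀ n, AEStronglyMeasurable (fun x => deriv Φ (F n x)) (mB d) := fun n =>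
    (hΦc.comp (hFs n).continuous).aestronglyMeasurable
  have I4 : ∀ n, Integrable (fun x => deriv Φ (F n x) * (g i x * φ x)) (mB d) := fun n =>
    Igφ.bdd_mul (c := C) (hcont n) (ae_of_all _ fun x => by
      rw [Real.norm_eq_abs]; exact hC _)
  have I5 : ∀ n, Integrable (fun x => deriv Φ (F n x) * (pd i (F n) x * φ x)) (mB d) := fun n =>
    (IFφ n).bdd_mul (c := C) (hcont n) (ae_of_all _ fun x => by
      rw [Real.norm_eq_abs]; exact hC _)
  have hB1 : Tendsto (fun n => (∫ x, deriv Φ (F n x) * (pd i (F n) x * φ x) ∂(mB d)) -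
      ∫ x, deriv Φ (F n x) * (g i x * φ x) ∂(mB d)) atTop (𝓝 0) := by
    rw [tendsto_zero_iff_norm_tendsto_zero]
    refine squeeze_zero (fun n => norm_nonneg _) (fun n => ?_)
      (by simpa using (hFd φ hφ i).const_mul C)
    rw [← integral_sub (I5 n) (I4 n), ← integral_const_mul]
    refine norm_integral_le_of_norm_le ((Idiff n).const_mul C) (ae_of_all _ fun x => ?_)
    rw [Real.norm_eq_abs, ← mul_sub, abs_mul, ← sub_mul, abs_mul]
    exact mul_le_mul_of_nonneg_right (hC _) (by positivity)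
  have hB2 : Tendsto (fun k => ∫ x, deriv Φ (F (ns k) x) * (g i x * φ x) ∂(mB d)) atTop
      (𝓝 (∫ x, deriv Φ (f x) * (g i x * φ x) ∂(mB d))) := by
    refine tendsto_integral_of_dominated_convergence (fun x => C * |g i x * φ x|)
      (fun k => (I4 (ns k)).aestronglyMeasurable) (Igφ.norm.const_mul C)
      (fun k => ae_of_all _ fun x => ?_) ?_
    · rw [Real.norm_eq_abs, abs_mul]
      exact mul_le_mul_of_nonneg_right (hC _) (abs_nonneg _)
    · filter_upwards [hae] with x hx
      exact ((hΦc.tendsto (f x)).comp hx).mul_const _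
  have hB : Tendsto (fun k => ∫ x, deriv Φ (F (ns k) x) * (pd i (F (ns k)) x * φ x) ∂(mB d)) atTop
      (𝓝 (∫ x, deriv Φ (f x) * (g i x * φ x) ∂(mB d))) := by
    have := (hB1.comp hns.tendsto_atTop).add hB2
    rw [zero_add] at this
    refine this.congr fun k => ?_
    simp
  have hA' := hA.comp hns.tendsto_atTop
  have heq : ∀ k, ∫ x, Φ (F (ns k) x) * pd i φ x ∂(mB d) =
      - ∫ x, deriv Φ (F (ns k) x) * (pd i (F (ns k)) x * φ x) ∂(mB d) := by
    intro k
    rw [(ibp_C1 (hcomp (ns k)) hφ i).2.2]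
    congr 2
    ext x
    rw [hpdcomp]
    ring
  have hA'' : Tendsto (fun k => - ∫ x, deriv Φ (F (ns k) x) * (pd i (F (ns k)) x * φ x) ∂(mB d))
      atTop (𝓝 (∫ x, Φ (f x) * pd i φ x ∂(mB d))) := hA'.congr heq
  have huniq := tendsto_nhds_unique hA'' hB.neg
  rw [huniq]
  congr 2
  ext x
  ring

end Pool.UVF
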