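import Pool.Agent.Lib.MP_28fba0_gt.UV.Approx
import Pool.Agent.Lib.MP_28fba0_gt.UV.TestFn

/-!
# UV-WProdB (part of WProd): product rules

* `HasWGrad.smooth_mul`: `ψ` smooth off `0`.  `∫ ψ f ∂_i φ = ∫ f ∂_i(ψ φ) - ∫ f ∂_iψ φ
  = - ∫ g_i ψ φ - ∫ f ∂_iψ φ` (`IsTest.smooth_mul`, `IsTest.pd_smooth_mul`; integrability from
  `LocL1.integrable_mul` and `IsTest.zero_near`, `IsTest.bdd`; `ψ` and its derivatives are bounded on
  the compact support of `φ`).
* `HasWDiv.mul`: `X ∈ L²_loc` with weak divergence `ρ ∈ L¹_loc`, `u` bounded with weak gradient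
  `g ∈ L²_loc`.  `u ≈ F n` (`exists_approx`, bounded by `C`); `F n φ` is a test function:
  `∫ ∑ X_j (F n ∂_jφ + ∂_jF n φ) = - ∫ ρ F n φ`.  Limits: `∫ X_j F n ∂_jφ → ∫ X_j u ∂_jφ` and
  `∫ X_j ∂_jF n φ → ∫ X_j g_j φ` by Cauchy–Schwarz (`X_j` is square integrable on the support of `φ`,
  `∫ (F n - u)² → 0`, `∫ (∂_jF n - g_j)² φ² → 0`; for the second write `φ = φ · χ`, or bound
  `|∫ X_j (∂_jF n - g_j) φ| ≤ √(∫_{supp φ} X_j²) √(∫ (…)² φ²)`), `∫ ρ F n φ → ∫ ρ u φ` along a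
  subsequence with `F n → u` a.e. (dominated convergence); all limits along this subsequence.
-/

open Real Set MeasureTheory Filter Topology
open scoped ContDiff

namespace Pool.UVF

variable {d : ℕ}

private theorem wpb_fin : IsFiniteMeasure (mB d) := by
  refine ⟨?_⟩
  unfold mB Bd
  rw [Measure.restrict_apply_univ]
  exact measure_ball_lt_top

private theorem wpb_cs {α : Type*} [MeasurableSpace α] {μ : Measure α} {a b : α → ℝ}
    (hma : AEStronglyMeasurable a μ) (hmb : AEStronglyMeasurable b μ)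
    (ha : Integrable (fun x => a x ^ 2) μ) (hb : Integrable (fun x => b x ^ 2) μ) :
    Integrable (fun x => a x * b x) μ ∧
      |∫ x, a x * b x ∂μ| ≤ √ (∫ x, a x ^ 2 ∂μ) * √ (∫ x, b x ^ 2 ∂μ) := by
  have h1 : Integrable (fun x => a x * b x) μ := by
    refine (ha.add hb).mono' (hma.mul hmb) (ae_of_all _ fun x => ?_)
    rw [Real.norm_eq_abs, abs_mul]
    simp only [Pi.add_apply]
    have h2 : 0 ≤ (|a x| - |b x|) ^ 2 := sq_nonneg _
    have h3 : |a x| ^ 2 = a x ^ 2 := sq_abs _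
    have h4 : |b x| ^ 2 = b x ^ 2 := sq_abs _
    nlinarith [mul_nonneg (abs_nonneg (a x)) (abs_nonneg (b x))]
  refine ⟨h1, ?_⟩
  have hA : 0 ≤ ∫ x, a x ^ 2 ∂μ := integral_nonneg fun x => sq_nonneg _
  have hquad : ∀ t : ℝ, 0 ≤ (∫ x, a x ^ 2 ∂μ) * (t * t) + (2 * ∫ x, a x * b x ∂μ) * t
      + ∫ x, b x ^ 2 ∂μ := by
    intro t
    have h2 : 0 ≤ ∫ x, (t * a x + b x) ^ 2 ∂μ := integral_nonneg fun x => sq_nonneg _
    have h3 : ∫ x, (t * a x + b x) ^ 2 ∂μ
        = ∫ x, ((t * t) * a x ^ 2 + (2 * t) * (a x * b x) + b x ^ 2) ∂μ := by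
      refine integral_congr_ae (ae_of_all _ fun x => ?_)
      ring
    have i1 : Integrable (fun x => (t * t) * a x ^ 2) μ := ha.const_mul _
    have i2 : Integrable (fun x => (2 * t) * (a x * b x)) μ := h1.const_mul _
    have i3 : Integrable (fun x => (t * t) * a x ^ 2 + (2 * t) * (a x * b x)) μ := i1.add i2
    rw [h3, integral_add i3 hb, integral_add i1 i2, integral_const_mul, integral_const_mul] at h2
    linarith
  have hd := discrim_le_zero hquad
  unfold discrim at hd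
  have h5 : (∫ x, a x * b x ∂μ) ^ 2 ≤ (∫ x, a x ^ 2 ∂μ) * ∫ x, b x ^ 2 ∂μ := by nlinarith
  rw [← Real.sqrt_mul hA]
  exact Real.abs_le_sqrt h5

private theorem wpb_locL1 {g : Eu d → ℝ} (hg : LocL2 g) : LocL1 g := by
  intro r₀ hr
  have : IsFiniteMeasure (mB d) := wpb_fin
  have h1 : Integrable (fun x => g x ^ 2 + 1) ((mB d).restrict {x | r₀ ≤ ‖x‖}) :=
    Integrable.add (hg.2 r₀ hr) (integrable_const 1)
  refine h1.mono' hg.1.restrict (ae_of_all _ fun x => ?_)
  rw [Real.norm_eq_abs]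
  rcases abs_cases (g x) with ⟨h, _⟩ | ⟨h, _⟩ <;> rw [h] <;> nlinarith [sq_nonneg (g x - 1), sq_nonneg (g x + 1)]

private theorem wpb_meas (r₀ : ℝ) : MeasurableSet {x : Eu d | r₀ ≤ ‖x‖} :=
  (isClosed_le continuous_const continuous_norm).measurableSet

private theorem wpb_ind_sq {X : Eu d → ℝ} (hX : LocL2 X) {r₀ : ℝ} (hr : 0 < r₀) :
    Integrable (fun x => ({x : Eu d | r₀ ≤ ‖x‖}.indicator X x) ^ 2) (mB d) := by
  have h1 : (fun x => ({x : Eu d | r₀ ≤ ‖x‖}.indicator X x) ^ 2)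
      = {x : Eu d | r₀ ≤ ‖x‖}.indicator (fun x => X x ^ 2) := by
    funext x
    by_cases hx : x ∈ {x : Eu d | r₀ ≤ ‖x‖}
    · rw [indicator_of_mem hx, indicator_of_mem hx]
    · rw [indicator_of_notMem hx, indicator_of_notMem hx]
      ring
  rw [h1, integrable_indicator_iff (wpb_meas r₀)]
  exact hX.2 r₀ hr

/-- `(v φ)² ∈ L¹` for `v` continuous or `v ∈ L²_loc` -/
private theorem wpb_sq {v : Eu d → ℝ} (hv : LocL2 v) {φ : Eu d → ℝ} (hφ : IsTest φ) :
    Integrable (fun x => (v x * φ x) ^ 2) (mB d) := by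
  obtain ⟨C, hC, hφC, -, -⟩ := hφ.bdd
  obtain ⟨r₀, hr, -, hz⟩ := hφ.zero_near
  have h1 := (wpb_ind_sq hv hr).const_mul (C ^ 2)
  refine h1.mono' ((hv.1.mul hφ.smooth.continuous.aestronglyMeasurable).pow 2)
    (ae_of_all _ fun x => ?_)
  rw [Real.norm_eq_abs, abs_of_nonneg (sq_nonneg _)]
  by_cases hx : r₀ ≤ ‖x‖
  · rw [indicator_of_mem (show x ∈ {x : Eu d | r₀ ≤ ‖x‖} from hx), mul_pow]
    have h2 : φ x ^ 2 ≤ C ^ 2 := by
      rw [← sq_abs (φ x)]
      exact pow_le_pow_left₀ (abs_nonneg _) (hφC x) 2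
    nlinarith [sq_nonneg (v x)]
  · have h0 : φ x = 0 := (hz x (Or.inl (not_le.1 hx))).1
    rw [h0, mul_zero]
    have h3 : (0 : ℝ) ≤ C ^ 2 * ({x : Eu d | r₀ ≤ ‖x‖}.indicator v x) ^ 2 := by positivity
    linarith

private theorem wpb_cont_pd {F : Eu d → ℝ} (hF : ContDiff ℝ ∞ F) (i : Fin d) :
    Continuous (pd i F) := by
  unfold pd
  exact (hF.continuous_fderiv (by simp)).clm_apply continuous_const

private theorem wpb_locL2_cont {v : Eu d → ℝ} (hv : Continuous v) {M : ℝ}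
    (hM : ∀ x ∈ Bd d, |v x| ≤ M) : LocL2 v := by
  have : IsFiniteMeasure (mB d) := wpb_fin
  refine ⟨hv.aestronglyMeasurable, fun r₀ _ => ?_⟩
  have h1 : Integrable (fun x => v x ^ 2) (mB d) := by
    refine (integrable_const (M ^ 2)).mono' (hv.pow 2).aestronglyMeasurable ?_
    unfold mB
    refine (ae_restrict_iff' (show MeasurableSet (Bd d) from measurableSet_ball)).2
      (ae_of_all _ fun x hx => ?_)
    rw [Real.norm_eq_abs, abs_of_nonneg (sq_nonneg _), ← sq_abs (v x)]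
    exact pow_le_pow_left₀ (abs_nonneg _) (hM x hx) 2
  exact h1.integrableOn

private theorem wpb_pd_mul {F φ : Eu d → ℝ} (hF : ContDiff ℝ ∞ F) (hφ : ContDiff ℝ ∞ φ)
    (j : Fin d) (x : Eu d) :
    pd j (fun x => F x * φ x) x = F x * pd j φ x + pd j F x * φ x := by
  unfold pd
  have h1 : DifferentiableAt ℝ F x := (hF.differentiable (by simp)) x
  have h2 : DifferentiableAt ℝ φ x := (hφ.differentiable (by simp)) x
  rw [fderiv_fun_mul h1 h2]
  simp only [add_apply, smul_apply, smul_eq_mul]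
  ring

theorem HasWDiv.mul {X : Fin d → Eu d → ℝ} {ρ u : Eu d → ℝ} {g : Fin d → Eu d → ℝ}
    (hX : ∀ j, LocL2 (X j)) (hρ : LocL1 ρ) (hdiv : HasWDiv X ρ) (hu : Measurable u) {C : ℝ}
    (hC : ∀ᵐ x ∂(mB d), |u x| ≤ C) (hg : ∀ j, LocL2 (g j)) (hw : HasWGrad u g)
    {φ : Eu d → ℝ} (hφ : IsTest φ) :
    ∫ x, (∑ j, X j x * (u x * pd j φ x + g j x * φ x)) ∂(mB d)
      = - ∫ x, ρ x * (u x * φ x) ∂(mB d) := by
  have : IsFiniteMeasure (mB d) := wpb_fin
  obtain ⟨D, hDdef⟩ : ∃ D : ℝ, D = max C 0 := ⟨_, rfl⟩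
  have hD0 : 0 ≤ D := by rw [hDdef]; exact le_max_right _ _
  have hD : ∀ᵐ x ∂(mB d), |u x| ≤ D := by
    filter_upwards [hC] with x hx
    rw [hDdef]
    exact hx.trans (le_max_left _ _)
  have hui : Integrable u (mB d) := by
    refine (integrable_const D).mono' hu.aestronglyMeasurable ?_
    filter_upwards [hD] with x hx
    rwa [Real.norm_eq_abs]
  obtain ⟨F, hF, hFi, hF1, -, hFb, -, hF2⟩ := exists_approx hui (fun i => wpb_locL1 (hg i)) hw
  have hFD : ∀ n x, |F n x| ≤ D := hFb D hD0 hD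
  obtain ⟨Cφ, hCφ, hφC, hpφ, -⟩ := hφ.bdd
  obtain ⟨r₀, hr, -, hz⟩ := hφ.zero_near
  -- a subsequence converging a.e.
  obtain ⟨ms, hms, hae⟩ : ∃ ms : ℕ → ℕ, StrictMono ms ∧
      ∀ᵐ x ∂(mB d), Tendsto (fun k => F (ms k) x) atTop (𝓝 (u x)) := by
    have h1 : Tendsto (fun n => eLpNorm (F n - u) 1 (mB d)) atTop (𝓝 0) := by
      have h2 : ∀ n, eLpNorm (F n - u) 1 (mB d) = ENNReal.ofReal (∫ x, |F n x - u x| ∂(mB d)) := by
        intro n
        rw [eLpNorm_one_eq_lintegral_enorm]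
        have h3 : Integrable (fun x => F n x - u x) (mB d) := (hFi n).sub hui
        have h4 := ofReal_integral_norm_eq_lintegral_enorm h3
        simp only [Real.norm_eq_abs] at h4
        rw [h4]
        rfl
      simp only [h2]
      have h5 := (ENNReal.continuous_ofReal.tendsto 0).comp hF1
      rw [ENNReal.ofReal_zero] at h5
      exact h5
    have h6 := tendstoInMeasure_of_tendsto_eLpNorm (one_ne_zero)
      (fun n => (hF n).continuous.aestronglyMeasurable) hu.aestronglyMeasurable h1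
    exact h6.exists_seq_tendsto_ae
  have hms' : Tendsto ms atTop atTop := hms.tendsto_atTop
  -- integrability
  have hXφ : ∀ j, Integrable (fun x => X j x * pd j φ x) (mB d) := fun j =>
    (wpb_locL1 (hX j)).integrable_mul (hφ.continuous_pd j).aestronglyMeasurable (hpφ j) hr
      (fun x hx => (hz x (Or.inl hx)).2.1 j)
  have hρφ : Integrable (fun x => ρ x * φ x) (mB d) :=
    hρ.integrable_mul hφ.smooth.continuous.aestronglyMeasurable hφC hr
      (fun x hx => (hz x (Or.inl hx)).1)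
  have hdom : ∀ G : Eu d → ℝ, Integrable G (mB d) →
      (∀ k, Integrable (fun x => G x * F (ms k) x) (mB d)) ∧
      Integrable (fun x => G x * u x) (mB d) ∧
      Tendsto (fun k => ∫ x, G x * F (ms k) x ∂(mB d)) atTop (𝓝 (∫ x, G x * u x ∂(mB d))) := by
    intro G hG
    have hbd : Integrable (fun x => D * |G x|) (mB d) := hG.abs.const_mul D
    have hm : ∀ k, AEStronglyMeasurable (fun x => G x * F (ms k) x) (mB d) := fun k =>
      hG.aestronglyMeasurable.mul (hF (ms k)).continuous.aestronglyMeasurable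
    have hb : ∀ k, ∀ᵐ x ∂(mB d), ‖G x * F (ms k) x‖ ≤ D * |G x| := fun k =>
      ae_of_all _ fun x => by
        rw [Real.norm_eq_abs, abs_mul, mul_comm]
        exact mul_le_mul_of_nonneg_right (hFD _ _) (abs_nonneg _)
    refine ⟨fun k => hbd.mono' (hm k) (hb k), ?_, ?_⟩
    · refine hbd.mono' (hG.aestronglyMeasurable.mul hu.aestronglyMeasurable) ?_
      filter_upwards [hD] with x hx
      rw [Real.norm_eq_abs, abs_mul, mul_comm]
      exact mul_le_mul_of_nonneg_right hx (abs_nonneg _)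
    · refine tendsto_integral_of_dominated_convergence (fun x => D * |G x|) hm hbd hb ?_
      filter_upwards [hae] with x hx
      exact hx.const_mul (G x)
  -- the term with the derivatives
  have hind : ∀ (j : Fin d) (v : Eu d → ℝ), (fun x => X j x * (v x * φ x))
      = fun x => ({x : Eu d | r₀ ≤ ‖x‖}.indicator (X j) x) * (v x * φ x) := by
    intro j v
    funext x
    by_cases hx : r₀ ≤ ‖x‖
    · rw [indicator_of_mem (show x ∈ {x : Eu d | r₀ ≤ ‖x‖} from hx)]
    · have h0 : φ x = 0 := (hz x (Or.inl (not_le.1 hx))).1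
      rw [h0, mul_zero, mul_zero, mul_zero]
  have hmind : ∀ j : Fin d, AEStronglyMeasurable ({x : Eu d | r₀ ≤ ‖x‖}.indicator (X j)) (mB d) :=
    fun j => (hX j).1.indicator (wpb_meas r₀)
  have hcs : ∀ (j : Fin d) (v : Eu d → ℝ), AEStronglyMeasurable v (mB d) →
      Integrable (fun x => (v x * φ x) ^ 2) (mB d) →
      Integrable (fun x => X j x * (v x * φ x)) (mB d) ∧
      |∫ x, X j x * (v x * φ x) ∂(mB d)| ≤
        √ (∫ x, ({x : Eu d | r₀ ≤ ‖x‖}.indicator (X j) x) ^ 2 ∂(mB d)) *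
        √ (∫ x, (v x * φ x) ^ 2 ∂(mB d)) := by
    intro j v hv hv2
    rw [hind j v]
    exact wpb_cs (hmind j) (hv.mul hφ.smooth.continuous.aestronglyMeasurable)
      (wpb_ind_sq (hX j) hr) hv2
  have hgφ : ∀ j, Integrable (fun x => (g j x * φ x) ^ 2) (mB d) := fun j => wpb_sq (hg j) hφ
  have hFφ : ∀ n j, Integrable (fun x => (pd j (F n) x * φ x) ^ 2) (mB d) := by
    intro n j
    have hcont : Continuous (fun x => pd j (F n) x * φ x) :=
      (wpb_cont_pd (hF n) j).mul hφ.smooth.continuous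
    have hcs' : HasCompactSupport (fun x => pd j (F n) x * φ x) := hφ.cpt.mul_left
    obtain ⟨M, hM⟩ := hcs'.exists_bound_of_continuous hcont
    refine (integrable_const (M ^ 2)).mono' (hcont.pow 2).aestronglyMeasurable
      (ae_of_all _ fun x => ?_)
    rw [Real.norm_eq_abs, abs_of_nonneg (sq_nonneg _), ← sq_abs]
    exact pow_le_pow_left₀ (abs_nonneg _) (by simpa using hM x) 2
  have hFm : ∀ n j, AEStronglyMeasurable (pd j (F n)) (mB d) := fun n j =>
    (wpb_cont_pd (hF n) j).aestronglyMeasurable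
  have hdφ : ∀ n j, Integrable (fun x => ((pd j (F n) x - g j x) * φ x) ^ 2) (mB d) := by
    intro n j
    have h1 : Integrable (fun x => 2 * (pd j (F n) x * φ x) ^ 2 + 2 * (g j x * φ x) ^ 2) (mB d) :=
      ((hFφ n j).const_mul 2).add ((hgφ j).const_mul 2)
    refine h1.mono' ((((hFm n j).sub (hg j).1).mul
      hφ.smooth.continuous.aestronglyMeasurable).pow 2) (ae_of_all _ fun x => ?_)
    rw [Real.norm_eq_abs, abs_of_nonneg (sq_nonneg _)]
    nlinarith [sq_nonneg (pd j (F n) x * φ x + g j x * φ x)]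
  have hlimD : ∀ j, Tendsto (fun k => ∫ x, X j x * (pd j (F (ms k)) x * φ x) ∂(mB d)) atTop
      (𝓝 (∫ x, X j x * (g j x * φ x) ∂(mB d))) := by
    intro j
    have h1 : ∀ n, ∫ x, X j x * (pd j (F n) x * φ x) ∂(mB d)
        = ∫ x, X j x * ((pd j (F n) x - g j x) * φ x) ∂(mB d)
          + ∫ x, X j x * (g j x * φ x) ∂(mB d) := by
      intro n
      rw [← integral_add
        (hcs j (fun x => pd j (F n) x - g j x) ((hFm n j).sub (hg j).1) (hdφ n j)).1
        (hcs j (g j) (hg j).1 (hgφ j)).1]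
      refine integral_congr_ae (ae_of_all _ fun x => ?_)
      simp only
      ring
    have h2 : Tendsto (fun n => ∫ x, X j x * ((pd j (F n) x - g j x) * φ x) ∂(mB d)) atTop (𝓝 0) := by
      have h3 := hF2 j (hg j) φ hφ
      have h4 : Tendsto (fun n => √ (∫ x, ({x : Eu d | r₀ ≤ ‖x‖}.indicator (X j) x) ^ 2 ∂(mB d)) *
          √ (∫ x, ((pd j (F n) x - g j x) * φ x) ^ 2 ∂(mB d))) atTop (𝓝 0) := by
        have h5 : (fun n => ∫ x, (pd j (F n) x - g j x) ^ 2 * (φ x) ^ 2 ∂(mB d))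
            = fun n => ∫ x, ((pd j (F n) x - g j x) * φ x) ^ 2 ∂(mB d) := by
          funext n
          refine integral_congr_ae (ae_of_all _ fun x => ?_)
          simp only
          ring
        rw [h5] at h3
        have h6 := (Real.continuous_sqrt.tendsto 0).comp h3
        rw [Real.sqrt_zero] at h6
        have h7 := h6.const_mul (√ (∫ x, ({x : Eu d | r₀ ≤ ‖x‖}.indicator (X j) x) ^ 2 ∂(mB d)))
        rw [mul_zero] at h7
        exact h7
      rw [tendsto_zero_iff_abs_tendsto_zero]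
      refine squeeze_zero (fun n => abs_nonneg _) (fun n => ?_) h4
      exact (hcs j (fun x => pd j (F n) x - g j x) ((hFm n j).sub (hg j).1) (hdφ n j)).2
    have h8 := (h2.add_const (∫ x, X j x * (g j x * φ x) ∂(mB d))).comp hms'
    rw [zero_add] at h8
    refine h8.congr fun k => ?_
    simp only [Function.comp_apply]
    exact (h1 (ms k)).symm
  -- the identity for `F n`
  have hid : ∀ k, ∑ j, ((∫ x, (X j x * pd j φ x) * F (ms k) x ∂(mB d))
      + ∫ x, X j x * (pd j (F (ms k)) x * φ x) ∂(mB d))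
      = - ∫ x, (ρ x * φ x) * F (ms k) x ∂(mB d) := by
    intro k
    have ht : IsTest (fun x => F (ms k) x * φ x) := hφ.smooth_mul (hF (ms k)).contDiffOn
    have h1 := hdiv _ ht
    have h2 : ∫ x, ρ x * (F (ms k) x * φ x) ∂(mB d) = ∫ x, (ρ x * φ x) * F (ms k) x ∂(mB d) := by
      refine integral_congr_ae (ae_of_all _ fun x => ?_)
      simp only
      ring
    rw [← h2, ← h1]
    have h3 : ∀ x, ∑ j, X j x * pd j (fun x => F (ms k) x * φ x) x
        = ∑ j, ((X j x * pd j φ x) * F (ms k) x + X j x * (pd j (F (ms k)) x * φ x)) := by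
      intro x
      refine Finset.sum_congr rfl fun j _ => ?_
      rw [wpb_pd_mul (hF (ms k)) hφ.smooth]
      ring
    simp only [h3]
    rw [integral_finsetSum]
    · refine Finset.sum_congr rfl fun j _ => ?_
      rw [integral_add ((hdom _ (hXφ j)).1 k) (hcs j _ (hFm (ms k) j) (hFφ (ms k) j)).1]
    · intro j _
      exact ((hdom _ (hXφ j)).1 k).add (hcs j _ (hFm (ms k) j) (hFφ (ms k) j)).1
  have hL : Tendsto (fun k => ∑ j, ((∫ x, (X j x * pd j φ x) * F (ms k) x ∂(mB d))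
      + ∫ x, X j x * (pd j (F (ms k)) x * φ x) ∂(mB d))) atTop
      (𝓝 (∑ j, ((∫ x, (X j x * pd j φ x) * u x ∂(mB d)) + ∫ x, X j x * (g j x * φ x) ∂(mB d)))) :=
    tendsto_finsetSum _ fun j _ => (hdom _ (hXφ j)).2.2.add (hlimD j)
  have hR : Tendsto (fun k => - ∫ x, (ρ x * φ x) * F (ms k) x ∂(mB d)) atTop
      (𝓝 (- ∫ x, (ρ x * φ x) * u x ∂(mB d))) := (hdom _ hρφ).2.2.neg
  have hEq : ∑ j, ((∫ x, (X j x * pd j φ x) * u x ∂(mB d)) + ∫ x, X j x * (g j x * φ x) ∂(mB d))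
      = - ∫ x, (ρ x * φ x) * u x ∂(mB d) :=
    tendsto_nhds_unique hL (hR.congr fun k => (hid k).symm)
  have e1 : ∫ x, ρ x * (u x * φ x) ∂(mB d) = ∫ x, (ρ x * φ x) * u x ∂(mB d) := by
    refine integral_congr_ae (ae_of_all _ fun x => ?_)
    simp only
    ring
  rw [e1, ← hEq]
  have e2 : ∀ x, ∑ j, X j x * (u x * pd j φ x + g j x * φ x)
      = ∑ j, ((X j x * pd j φ x) * u x + X j x * (g j x * φ x)) := by
    intro x
    refine Finset.sum_congr rfl fun j _ => ?_
    ring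
  simp only [e2]
  rw [integral_finsetSum]
  · refine Finset.sum_congr rfl fun j _ => ?_
    rw [integral_add (hdom _ (hXφ j)).2.1 (hcs j _ (hg j).1 (hgφ j)).1]
  · intro j _
    exact (hdom _ (hXφ j)).2.1.add (hcs j _ (hg j).1 (hgφ j)).1

end Pool.UVF
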