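import Pool.Agent.Lib.MP_28fba0_gt.UV.Approx
import Pool.Agent.Lib.MP_28fba0_gt.UV.TestFn

/-!
# UV-WProdA (part of WProd): product rules

* `HasWGrad.smooth_mul`: `ψ` smooth off `0`.  `∫ ψ f ∂_i φ = ∫ f ∂_i(ψ φ) - ∫ f ∂_iψ φ
  = - ∫ g_i ψ φ - ∫ f ∂_iψ φ` (`IsTest.smooth_mul`, `IsTest.pd_smooth_mul`; integrability from
  `LocL1.integrable_mul` and `IsTest.zero_near`, `IsTest.bdd`; `ψ` and its derivatives are bounded on
  the compact support of `φ`).
* `HasWDiv.mul`: `X ∈ L²_loc` with weak divergence `ρ ∈ L¹_loc`, `u` bounded with weak gradient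
  `g ∈ L²_loc`.  `u ≈ F n` (`exists_approx`, bounded by `C`); `F n φ` is a test function:
  `∫ ∑ X_j (F n ∂_jφ + ∂_jF n φ) = - ∫ ρ F n φ`.  Limits: `∫ X_j F n ∂_jφ → ∫ X_j u ∂_jφ` and
  `∫ X_j ∂_jF n φ → ∫ X_j g_j φ` by Cauchy–Schwarz (`X_j` is square integrable on the support of `φ`,
  `∫ (F n - u)² → 0`, `∫ (∂_jF n - g_j)² φ² → 0`; for the second write `φ = φ · χ`, or bound
  `|∫ X_j (∂_jF n - g_j) φ| ≤ √(∫_{supp φ} X_j²) √(∫ (…)² φ²)`), `∫ ρ F n φ → ∫ ρ u φ` along a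
  subsequence with `F n → u` a.e. (dominated convergence); all limits along this subsequence.
-/

open Real Set MeasureTheory Filter Topology
open scoped ContDiff

namespace Pool.UVF

variable {d : ℕ}

theorem LocL1.integrable_test {g χ : Eu d → ℝ} (hg : LocL1 g) (hχ : IsTest χ) :
    Integrable (fun x => g x * χ x) (mB d) := by
  obtain ⟨C, _, hC, _, _⟩ := hχ.bdd
  obtain ⟨r₀, hr, _, h0⟩ := hχ.zero_near
  exact hg.integrable_mul hχ.smooth.continuous.aestronglyMeasurable hC hr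
    (fun x hx => (h0 x (Or.inl hx)).1)

theorem contDiffOn_pd {ψ : Eu d → ℝ} (hψ : ContDiffOn ℝ ∞ ψ {0}ᶜ) (i : Fin d) :
    ContDiffOn ℝ ∞ (pd i ψ) {0}ᶜ := by
  have h1 : ContDiffOn ℝ ∞ (fderiv ℝ ψ) {0}ᶜ :=
    hψ.fderiv_of_isOpen isOpen_compl_singleton (by simp)
  exact h1.clm_apply contDiffOn_const

theorem HasWGrad.smooth_mul {f ψ : Eu d → ℝ} {g : Fin d → Eu d → ℝ} (hf : LocL1 f)
    (hg : ∀ i, LocL1 (g i)) (hw : HasWGrad f g) (hψ : ContDiffOn ℝ ∞ ψ {0}ᶜ) :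
    HasWGrad (fun x => ψ x * f x) (fun i x => ψ x * g i x + pd i ψ x * f x) := by
  intro φ hφ i
  have h1 := hw _ (hφ.smooth_mul hψ) i
  have hpt : ∀ x, pd i (fun x => ψ x * φ x) x = ψ x * pd i φ x + pd i ψ x * φ x := by
    intro x
    by_cases hx : x = 0
    · obtain ⟨r₀, hr, _, h0⟩ := hφ.zero_near
      obtain ⟨r₁, hr', _, h0'⟩ := (hφ.smooth_mul hψ).zero_near
      have h2 := h0 x (Or.inl (by rw [hx, norm_zero]; exact hr))
      have h3 := h0' x (Or.inl (by rw [hx, norm_zero]; exact hr'))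
      rw [h3.2.1 i, h2.1, h2.2.1 i]
      ring
    · exact hφ.pd_smooth_mul hψ i hx
  have hi1 : Integrable (fun x => f x * (ψ x * pd i φ x)) (mB d) :=
    hf.integrable_test ((hφ.pd_test i).smooth_mul hψ)
  have hi2 : Integrable (fun x => f x * (pd i ψ x * φ x)) (mB d) :=
    hf.integrable_test (hφ.smooth_mul (contDiffOn_pd hψ i))
  have hi3 : Integrable (fun x => g i x * (ψ x * φ x)) (mB d) :=
    (hg i).integrable_test (hφ.smooth_mul hψ)
  have e1 : ∫ x, f x * pd i (fun x => ψ x * φ x) x ∂(mB d) =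
      ∫ x, f x * (ψ x * pd i φ x) ∂(mB d) + ∫ x, f x * (pd i ψ x * φ x) ∂(mB d) := by
    rw [← integral_add hi1 hi2]
    refine integral_congr_ae (Eventually.of_forall fun x => ?_)
    show f x * pd i (fun x => ψ x * φ x) x = f x * (ψ x * pd i φ x) + f x * (pd i ψ x * φ x)
    rw [hpt x]
    ring
  have e2 : ∫ x, (ψ x * f x) * pd i φ x ∂(mB d) = ∫ x, f x * (ψ x * pd i φ x) ∂(mB d) := by
    refine integral_congr_ae (Eventually.of_forall fun x => ?_)
    show (ψ x * f x) * pd i φ x = f x * (ψ x * pd i φ x)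
    ring
  have e3 : ∫ x, (ψ x * g i x + pd i ψ x * f x) * φ x ∂(mB d) =
      ∫ x, g i x * (ψ x * φ x) ∂(mB d) + ∫ x, f x * (pd i ψ x * φ x) ∂(mB d) := by
    rw [← integral_add hi3 hi2]
    refine integral_congr_ae (Eventually.of_forall fun x => ?_)
    show (ψ x * g i x + pd i ψ x * f x) * φ x = g i x * (ψ x * φ x) + f x * (pd i ψ x * φ x)
    ring
  show ∫ x, (ψ x * f x) * pd i φ x ∂(mB d) =
    - ∫ x, (ψ x * g i x + pd i ψ x * f x) * φ x ∂(mB d)
  rw [e2, e3]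
  linarith [h1, e1]

end Pool.UVF
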